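import Pool.Agent.Lib_helper15.UP.Facts

set_option autoImplicit false

namespace Pool.Agent.UPA

open Finset Pool.Agent.PENT Pool.Agent.PATH.NC Pool.Agent.PFM
open Pool.Agent.PENK (PolyK Wts dn dl mL ich EquiF PerP prs lw L1 Rf)

theorem ub1_alE (i : ℕ) : 0 < alE 10 i ∧ alE 10 i ≤ 3 / 8 := by
  unfold alE; split_ifs <;> norm_num

theorem ub1_beV (i : ℕ) : 0 < beV 10 i ∧ beV 10 i ≤ 5 / 8 := by
  unfold beV; split_ifs <;> norm_num

theorem ub1_boV (i : ℕ) : 0 ≤ boV i ∧ boV i ≤ 1 := by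
  unfold boV; split_ifs <;> norm_num

theorem ub1_pow {a η : ℝ} (ha : 0 < a) (ha1 : a ≤ 1) (hη : 0 ≤ η) : a ^ (1 + η) ≤ a := by
  have := Real.rpow_le_rpow_of_exponent_ge ha ha1 (by linarith : (1 : ℝ) ≤ 1 + η)
  rwa [Real.rpow_one] at this

theorem ub1_pow2 {a s η : ℝ} (ha : 0 < a) (has : a ≤ s) (hη : 0 ≤ η) :
    a ^ (1 + η) * s ^ (-η) ≤ a := by
  have hs : 0 < s := lt_of_lt_of_le ha has
  have h1 : a ^ η ≤ s ^ η := Real.rpow_le_rpow ha.le has hη
  have h2 : 0 < s ^ η := Real.rpow_pos_of_pos hs η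
  rw [Real.rpow_add ha, Real.rpow_one, Real.rpow_neg hs.le, ← div_eq_mul_inv, div_le_iff₀ h2]
  exact mul_le_mul_of_nonneg_left h1 ha.le

theorem ub1_s0 (j : ℕ) : beV 10 j ≤ PENM.wS0 j ∧ (j ≠ 0 → alE 10 (j - 1) ≤ PENM.wS0 j) := by
  have h1 := ub1_beV j
  have h2 := ub1_alE (j - 1)
  unfold PENM.wS0
  constructor
  · split_ifs <;> linarith
  · intro hj
    rw [if_neg hj]; linarith

theorem ub1_s1 (j : ℕ) : beV 10 (j + 1) ≤ PENM.wS1 j ∧ (j ≠ 9 → alE 10 (j + 1) ≤ PENM.wS1 j) := by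
  have h1 := ub1_beV (j + 1)
  have h2 := ub1_alE (j + 1)
  unfold PENM.wS1
  constructor
  · split_ifs <;> linarith
  · intro hj
    rw [if_neg hj]; linarith

/-- block UB1: the weights are admissible (`s0 ≥ be_j, al_(j-1)`, `s1 ≥ be_(j+1), al_(j+1)`) -/
theorem WD_ok_pr {η : ℝ} (hη : 0 ≤ η) : (WD η).Ok := by
  constructor
  · intro j
    show 0 ≤ if j = 10 then 0 else alE 10 j.val ^ (1 + η)
    split_ifs
    · exact le_rfl
    · exact (Real.rpow_pos_of_pos (ub1_alE _).1 _).le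
  · intro j
    show (if j = 10 then 0 else alE 10 j.val ^ (1 + η)) ≤ 1 / 2
    have h := ub1_alE j.val
    have h2 := ub1_pow h.1 (by linarith [h.2]) hη
    split_ifs
    · norm_num
    · linarith [h.2]
  · intro j
    exact Real.rpow_pos_of_pos (ub1_beV _).1 _
  · intro j
    have h := ub1_beV j.val
    have h2 := ub1_pow h.1 (by linarith [h.2]) hη
    show beV 10 j.val ^ (1 + η) ≤ 1
    linarith [h.2]
  · exact fun j => (ub1_boV _).1
  · exact fun j => (ub1_boV _).2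

theorem ub1_al (j : ℕ) (i : ℕ) (hj : j < 10) (hi : i ≠ 10) {η : ℝ} (hη : 0 ≤ η) :
    0 ≤ alE 10 i ^ (1 + η) * (if i + 1 = j then PENM.wS0 j ^ (-η)
      else if i = j + 1 then PENM.wS1 j ^ (-η) else 1) ∧
    alE 10 i ^ (1 + η) * (if i + 1 = j then PENM.wS0 j ^ (-η)
      else if i = j + 1 then PENM.wS1 j ^ (-η) else 1) ≤ 3 / 8 := by
  have ha := ub1_alE i
  have hp : 0 < alE 10 i ^ (1 + η) := Real.rpow_pos_of_pos ha.1 _
  have h0 := ub1_s0 j
  have h1 := ub1_s1 j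
  have hb0 := ub1_beV j
  have hb1 := ub1_beV (j + 1)
  have p0 : 0 < PENM.wS0 j := by linarith [h0.1]
  have p1 : 0 < PENM.wS1 j := by linarith [h1.1]
  split_ifs with c1 c2
  · have h2 := h0.2 (by omega)
    rw [show j - 1 = i by omega] at h2
    have h3 := ub1_pow2 ha.1 h2 hη
    exact ⟨(mul_pos hp (Real.rpow_pos_of_pos p0 _)).le, h3.trans ha.2⟩
  · have h2 := h1.2 (by omega)
    rw [show j + 1 = i by omega] at h2
    have h3 := ub1_pow2 ha.1 h2 hη
    exact ⟨(mul_pos hp (Real.rpow_pos_of_pos p1 _)).le, h3.trans ha.2⟩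
  · rw [mul_one]
    exact ⟨hp.le, (ub1_pow ha.1 (by linarith [ha.2]) hη).trans ha.2⟩

theorem ub1_be (j : ℕ) (i : ℕ) {η : ℝ} (hη : 0 ≤ η) :
    0 < beV 10 i ^ (1 + η) * (if i = j then PENM.wS0 j ^ (-η)
      else if i = j + 1 then PENM.wS1 j ^ (-η) else 1) ∧
    beV 10 i ^ (1 + η) * (if i = j then PENM.wS0 j ^ (-η)
      else if i = j + 1 then PENM.wS1 j ^ (-η) else 1) ≤ 5 / 8 := by
  have ha := ub1_beV i
  have hp : 0 < beV 10 i ^ (1 + η) := Real.rpow_pos_of_pos ha.1 _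
  have h0 := ub1_s0 j
  have h1 := ub1_s1 j
  have hb0 := ub1_beV j
  have hb1 := ub1_beV (j + 1)
  have p0 : 0 < PENM.wS0 j := by linarith [h0.1]
  have p1 : 0 < PENM.wS1 j := by linarith [h1.1]
  split_ifs with c1 c2
  · have h2 := h0.1
    rw [← c1] at h2 p0 ⊢
    exact ⟨mul_pos hp (Real.rpow_pos_of_pos p0 _), (ub1_pow2 ha.1 h2 hη).trans ha.2⟩
  · have h2 := h1.1
    rw [← c2] at h2
    exact ⟨mul_pos hp (Real.rpow_pos_of_pos p1 _), (ub1_pow2 ha.1 h2 hη).trans ha.2⟩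
  · rw [mul_one]
    exact ⟨hp, (ub1_pow ha.1 (by linarith [ha.2]) hη).trans ha.2⟩

theorem WN_ok_pr (j : Fin 10) {η : ℝ} (hη : 0 ≤ η) (hη1 : η ≤ 1) : (WN j η).Ok := by
  constructor
  · intro i
    show 0 ≤ if i = 10 then 0 else
      alE 10 i.val ^ (1 + η) * (if i.val + 1 = j.val then PENM.wS0 j.val ^ (-η)
      else if i.val = j.val + 1 then PENM.wS1 j.val ^ (-η) else 1)
    by_cases hi : i = 10
    · rw [if_pos hi]
    · rw [if_neg hi]
      exact (ub1_al j.val i.val j.isLt (fun h => hi (Fin.ext h)) hη).1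
  · intro i
    show (if i = 10 then 0 else
      alE 10 i.val ^ (1 + η) * (if i.val + 1 = j.val then PENM.wS0 j.val ^ (-η)
      else if i.val = j.val + 1 then PENM.wS1 j.val ^ (-η) else 1)) ≤ 1 / 2
    by_cases hi : i = 10
    · rw [if_pos hi]; norm_num
    · rw [if_neg hi]
      exact (ub1_al j.val i.val j.isLt (fun h => hi (Fin.ext h)) hη).2.trans (by norm_num)
  · intro i
    exact (ub1_be j.val i.val hη).1
  · intro i
    exact (ub1_be j.val i.val hη).2.trans (by norm_num)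
  · exact fun i => (ub1_boV _).1
  · exact fun i => (ub1_boV _).2

alias WD_ok := WD_ok_pr

alias WN_ok := WN_ok_pr

end Pool.Agent.UPA
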