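import Pool.Agent.Lib_helper15.UP.Facts

/-!
# UPA, block UB2: the weight of a path, pointwise (and the common core of UB2 and UB3)
-/

set_option autoImplicit false

namespace Pool.Agent.UPA

open Finset Pool.Agent.PENT Pool.Agent.PATH.NC Pool.Agent.PFM
open Pool.Agent.PENK (PolyK Wts dn dl mL ich EquiF prs lw L1 Rf)

/-- `x (x / s)^η` -/
noncomputable def ub2_f (η x s : ℝ) : ℝ := x * (x / s) ^ η

theorem ub2_f_mul {η x y s t : ℝ} (hx : 0 ≤ x) (hy : 0 ≤ y) (hs : 0 < s) (ht : 0 < t) :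
    ub2_f η (x * y) (s * t) = ub2_f η x s * ub2_f η y t := by
  unfold ub2_f
  rw [mul_div_mul_comm, Real.mul_rpow (div_nonneg hx hs.le) (div_nonneg hy ht.le)]
  ring

theorem ub2_f_one (η : ℝ) : ub2_f η 1 1 = 1 := by
  unfold ub2_f
  rw [div_one, Real.one_rpow, mul_one]

theorem ub2_f_prod {ι : Type} (η : ℝ) (T : Finset ι) (x s : ι → ℝ) (hx : ∀ i ∈ T, 0 ≤ x i)
    (hs : ∀ i ∈ T, 0 < s i) :
    ub2_f η (∏ i ∈ T, x i) (∏ i ∈ T, s i) = ∏ i ∈ T, ub2_f η (x i) (s i) := by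
  classical
  induction T using Finset.induction_on with
  | empty => simpa using ub2_f_one η
  | insert a T ha ih =>
    rw [Finset.prod_insert ha, Finset.prod_insert ha, Finset.prod_insert ha,
      ub2_f_mul (hx a (Finset.mem_insert_self _ _))
        (Finset.prod_nonneg fun i hi => hx i (Finset.mem_insert_of_mem hi))
        (hs a (Finset.mem_insert_self _ _))
        (Finset.prod_pos fun i hi => hs i (Finset.mem_insert_of_mem hi)),
      ih (fun i hi => hx i (Finset.mem_insert_of_mem hi))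
        (fun i hi => hs i (Finset.mem_insert_of_mem hi))]

theorem ub2_f_pow {η x s : ℝ} (hx : 0 ≤ x) (hs : 0 < s) (n : ℕ) :
    ub2_f η (x ^ n) (s ^ n) = ub2_f η x s ^ n := by
  induction n with
  | zero => simpa using ub2_f_one η
  | succ n ih =>
    rw [pow_succ, pow_succ, pow_succ, ub2_f_mul (pow_nonneg hx n) hx (pow_pos hs n) hs, ih]

theorem ub2_f_nonneg {η x s : ℝ} (hx : 0 ≤ x) (hs : 0 < s) : 0 ≤ ub2_f η x s :=
  mul_nonneg hx (Real.rpow_nonneg (div_nonneg hx hs.le) _)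

theorem ub2_f_le {η x s : ℝ} (hη : 0 ≤ η) (hx : 0 ≤ x) (hs : 0 < s) (hxs : x ≤ s) :
    ub2_f η x s ≤ x :=
  mul_le_of_le_one_right hx (Real.rpow_le_one (div_nonneg hx hs.le) ((div_le_one hs).2 hxs) hη)

theorem ub2_cm (g : ℕ → ℝ) {m N : ℕ} (hm : m ≤ N) :
    cm g m = ∏ l ∈ (range (N + 1)).filter Nat.Prime, g l ^ (m.factorization l) := by
  unfold cm
  refine Finsupp.prod_of_support_subset _ ?_ _ (fun i _ => pow_zero _)
  intro l hl
  rw [Nat.support_factorization, Nat.mem_primeFactors] at hl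
  rw [mem_filter, mem_range]
  have := Nat.le_of_dvd (Nat.pos_of_ne_zero hl.2.2) hl.2.1
  exact ⟨by omega, hl.1⟩

theorem ub2_al (j : ℕ) : 0 < alE 10 j ∧ alE 10 j ≤ 1 := by
  unfold alE
  split_ifs <;> norm_num

theorem ub2_be (j : ℕ) : 0 < beV 10 j ∧ beV 10 j ≤ 1 := by
  unfold beV
  split_ifs <;> norm_num

theorem ub2_bo (j : ℕ) : 0 ≤ boV j ∧ boV j ≤ 1 := by
  unfold boV
  split_ifs <;> norm_num

theorem ub2_bo_f (η : ℝ) (j : ℕ) : ub2_f η (boV j) 1 = boV j := by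
  unfold boV ub2_f
  split_ifs <;> simp

theorem ub2_wd (Y : ℝ) (j l : ℕ) : 0 ≤ wdE 10 Y j l ∧ wdE 10 Y j l ≤ 1 := by
  have h := ub2_al j
  unfold wdE
  split_ifs
  · exact ⟨h.1.le, h.2⟩
  · norm_num

theorem ub2_wy (P Y : ℝ) (j l : ℕ) : 0 ≤ wyV 10 P Y j l ∧ wyV 10 P Y j l ≤ 1 := by
  have h := ub2_be j
  have h' := ub2_bo j
  unfold wyV
  split_ifs
  · norm_num
  · exact h'
  · exact ⟨h.1.le, h.2⟩
  · norm_num

theorem ub2_dE_zero (u : Vec 10) : dE u 0 = 1 := by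
  unfold dE
  rw [dif_neg (by omega)]

theorem ub2_dE_top (u : Vec 10) : dE u 11 = 1 := by
  unfold dE
  rw [dif_neg (by omega)]

theorem ub2_dE_dp {p : Prm 10} {X : ℕ} {u : Vec 10} (hu : GP p X u) (i : ℕ) :
    DP (PP X) (dE u i) := by
  by_cases h : 1 ≤ i ∧ i ≤ 10
  · exact hu.dp i h.1 h.2
  · have : dE u i = 1 := by
      unfold dE
      rw [dif_neg h]
    rw [this]
    exact ⟨squarefree_one, fun q hq hd => absurd (Nat.dvd_one.1 hd) hq.one_lt.ne'⟩

theorem ub2_dE_ne {p : Prm 10} {X : ℕ} {u : Vec 10} (hu : GP p X u) (i : ℕ) : dE u i ≠ 0 :=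
  (ub2_dE_dp hu i).1.ne_zero

/-- the form is positive definite -/
theorem ub2_fv_ne {C1 : ℝ} {X : ℕ} {q : ℤ × ℤ × ℤ} (hq : q ∈ AW C1 X) {p : Prm 10} {u : Vec 10}
    (hu : GP p X u) (k : Fin 11) : fv q (u k) ≠ 0 := by
  unfold AW at hq
  rw [mem_filter, mem_product, mem_product, mem_Ioc, mem_Icc, mem_Icc] at hq
  obtain ⟨⟨⟨h1, -⟩, -, -⟩, hd, -⟩ := hq
  have ha : 0 < q.1 := lt_of_le_of_lt (Int.natCast_nonneg X) h1
  intro h0
  unfold fv qf at h0
  have e : (q.1 * (u k).1 + q.2.1 * (u k).2) ^ 2 + (u k).2 ^ 2 = 0 := by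
    have : (q.1 * (u k).1 + q.2.1 * (u k).2) ^ 2 + (u k).2 ^ 2 =
        q.1 * (q.1 * (u k).1 ^ 2 + 2 * q.2.1 * (u k).1 * (u k).2 + q.2.2 * (u k).2 ^ 2) -
          (q.1 * q.2.2 - q.2.1 ^ 2 - 1) * (u k).2 ^ 2 := by ring
    rw [this, h0, hd]
    ring
  have e2 : (u k).2 = 0 := by
    have h3 := sq_nonneg (q.1 * (u k).1 + q.2.1 * (u k).2)
    have h4 := sq_nonneg (u k).2
    have : (u k).2 ^ 2 = 0 := by linarith
    exact pow_eq_zero_iff (two_ne_zero) |>.1 this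
  have e1 : (u k).1 = 0 := by
    rw [e2] at e
    have h5 : (q.1 * (u k).1) ^ 2 = 0 := by
      have : (q.1 * (u k).1 + q.2.1 * 0) ^ 2 + 0 ^ 2 = (q.1 * (u k).1) ^ 2 := by ring
      rw [← this]
      exact e
    have h6 := pow_eq_zero_iff (two_ne_zero) |>.1 h5
    rcases mul_eq_zero.1 h6 with h | h
    · exact absurd h ha.ne'
    · exact h
  have := gp_prim hu k Nat.prime_two
  rw [e1, e2] at this
  exact this ⟨dvd_zero _, dvd_zero _⟩

/-- `|Q(u_k)| = y_k d_(k-1) d_k` -/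
theorem ub2_yv {q : ℤ × ℤ × ℤ} {p : Prm 10} {X : ℕ} {u : Vec 10} (hu : GP p X u) (hG : GD q u)
    (k : Fin 11) : (fv q (u k)).natAbs = yv q u k * (dE u k.val * dE u (k.val + 1)) := by
  have hk := k.isLt
  have h1 : dE u k.val ∣ (fv q (u k)).natAbs := by
    by_cases h0 : k.val = 0
    · rw [h0, ub2_dE_zero]
      exact one_dvd _
    · have h2 := (hG ⟨k.val - 1, by omega⟩).2
      have e1 : (⟨k.val - 1, by omega⟩ : Fin 10).succ = k := Fin.ext (by
        rw [Fin.val_succ]; show k.val - 1 + 1 = k.val; omega)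
      have e2 : (⟨k.val - 1, by omega⟩ : Fin 10).val + 1 = k.val := by
        show k.val - 1 + 1 = k.val; omega
      rw [e1, e2] at h2
      exact Int.natCast_dvd.1 h2
  have h2 : dE u (k.val + 1) ∣ (fv q (u k)).natAbs := by
    by_cases h0 : k.val = 10
    · rw [h0, ub2_dE_top]
      exact one_dvd _
    · have h2 := (hG ⟨k.val, by omega⟩).1
      have e1 : (⟨k.val, by omega⟩ : Fin 10).castSucc = k := Fin.ext rfl
      rw [e1] at h2
      exact Int.natCast_dvd.1 h2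
  have h3 : Nat.Coprime (dE u k.val) (dE u (k.val + 1)) := by
    by_cases h0 : k.val = 0
    · rw [h0, ub2_dE_zero]
      exact Nat.coprime_one_left _
    · by_cases h10 : k.val = 10
      · rw [h10, ub2_dE_top]
        exact Nat.coprime_one_right _
      · exact hu.cop _ _ (by omega) (by omega) (by omega)
  unfold yv
  exact (Nat.div_mul_cancel (h3.mul_dvd_of_dvd_of_dvd h1 h2)).symm

theorem ub2_yv_ne {C1 : ℝ} {X : ℕ} {q : ℤ × ℤ × ℤ} (hq : q ∈ AW C1 X) {p : Prm 10} {u : Vec 10}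
    (hu : GP p X u) (hG : GD q u) (k : Fin 11) : yv q u k ≠ 0 := by
  intro h0
  have h1 := ub2_yv hu hG k
  rw [h0, zero_mul] at h1
  exact ub2_fv_ne hq hu k (Int.natAbs_eq_zero.1 h1)

/-- the primes with the second weights -/
def ub2_R (P Y : ℝ) (l : ℕ) : Prop := l ≠ 2 ∧ ¬ (l : ℝ) ≤ P ∧ (l : ℝ) ≤ Y

open Classical in
/-- the local factor of the denominator -/
noncomputable def ub2_n (SE : Fin 10 → ℝ) (SV : Fin 11 → ℝ) (P Y : ℝ) (q : ℤ × ℤ × ℤ) (u : Vec 10)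
    (l : ℕ) : ℝ :=
  (∏ j : Fin 10, (if ub2_R P Y l then SE j else 1) ^ ((dE u (j.val + 1)).factorization l)) *
    ∏ k : Fin 11, (if ub2_R P Y l then SV k else 1) ^ ((yv q u k).factorization l)

/-- the local factor of `W` -/
noncomputable def ub2_t (P Y : ℝ) (q : ℤ × ℤ × ℤ) (u : Vec 10) (l : ℕ) : ℝ :=
  (∏ j : Fin 10, wdE 10 Y j.val l ^ ((dE u (j.val + 1)).factorization l)) *
    ∏ k : Fin 11, wyV 10 P Y k.val l ^ ((yv q u k).factorization l)

theorem ub2_t_nonneg (P Y : ℝ) (q : ℤ × ℤ × ℤ) (u : Vec 10) (l : ℕ) : 0 ≤ ub2_t P Y q u l := by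
  unfold ub2_t
  exact mul_nonneg (Finset.prod_nonneg fun j _ => pow_nonneg (ub2_wd _ _ _).1 _)
    (Finset.prod_nonneg fun j _ => pow_nonneg (ub2_wy _ _ _ _).1 _)

theorem ub2_n_pos {SE : Fin 10 → ℝ} {SV : Fin 11 → ℝ} (hSE : ∀ j, 0 < SE j) (hSV : ∀ k, 0 < SV k)
    (P Y : ℝ) (q : ℤ × ℤ × ℤ) (u : Vec 10) (l : ℕ) : 0 < ub2_n SE SV P Y q u l := by
  unfold ub2_n
  refine mul_pos (Finset.prod_pos fun j _ => pow_pos ?_ _) (Finset.prod_pos fun j _ => pow_pos ?_ _)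
  · split_ifs
    · exact hSE j
    · exact one_pos
  · split_ifs
    · exact hSV j
    · exact one_pos

/-- the local inequality -/
theorem ub2_loc {p : Prm 10} {X : ℕ} {C1 : ℝ} {q : ℤ × ℤ × ℤ} (hq : q ∈ AW C1 X) {u : Vec 10}
    (hu : GP p X u) {η : ℝ} (hη : 0 ≤ η) (hG : GD q u) {SE : Fin 10 → ℝ} {SV : Fin 11 → ℝ}
    (hSE : ∀ j, alE 10 j.val ≤ SE j) (hSV : ∀ k, beV 10 k.val ≤ SV k) (W' : Wts 11)
    (hal : ∀ j : Fin 10, W'.al j.castSucc = ub2_f η (alE 10 j.val) (SE j))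
    (hbe : ∀ k : Fin 11, W'.be k = ub2_f η (beV 10 k.val) (SV k))
    (hbo : ∀ k : Fin 11, W'.bo k = boV k.val) {P : ℕ} (hP : (P : ℝ) ≤ p.Y X ∨ P = 0) {l : ℕ}
    (hl : l.Prime) :
    ub2_f η (ub2_t (PP X) (p.Y X) q u l) (ub2_n SE SV (PP X) (p.Y X) q u l) ≤
      if l ∈ prs 2 P then
        (if l ∣ DE univ (tp u) then ∏ j, (if l ∣ dn (tp u) j then W'.al j else 1)
          else ph W' ⌊PP X⌋₊ univ (tp u) l q) else 1 := by
  classical
  have hSE0 : ∀ j, 0 < SE j := fun j => lt_of_lt_of_le (ub2_al _).1 (hSE j)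
  have hSV0 : ∀ k, 0 < SV k := fun k => lt_of_lt_of_le (ub2_be _).1 (hSV k)
  obtain ⟨a, ha⟩ : ∃ a : Fin 10 → ℝ, a = fun j => wdE 10 (p.Y X) j.val l := ⟨_, rfl⟩
  obtain ⟨b, hb⟩ : ∃ b : Fin 11 → ℝ, b = fun k => wyV 10 (PP X) (p.Y X) k.val l := ⟨_, rfl⟩
  obtain ⟨sE, hsE⟩ : ∃ s : Fin 10 → ℝ, s = fun j => if ub2_R (PP X) (p.Y X) l then SE j else 1 :=
    ⟨_, rfl⟩
  obtain ⟨sV, hsV⟩ : ∃ s : Fin 11 → ℝ, s = fun k => if ub2_R (PP X) (p.Y X) l then SV k else 1 :=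
    ⟨_, rfl⟩
  obtain ⟨e, he⟩ : ∃ e : Fin 10 → ℕ, e = fun j => (dE u (j.val + 1)).factorization l := ⟨_, rfl⟩
  obtain ⟨v, hv⟩ : ∃ v : Fin 11 → ℕ, v = fun k => (yv q u k).factorization l := ⟨_, rfl⟩
  have ha0 : ∀ j, 0 ≤ a j ∧ a j ≤ 1 := fun j => by rw [ha]; exact ub2_wd _ _ _
  have hb0 : ∀ k, 0 ≤ b k ∧ b k ≤ 1 := fun k => by rw [hb]; exact ub2_wy _ _ _ _
  have hsE0 : ∀ j, 0 < sE j := fun j => by
    rw [hsE]; dsimp only; split_ifs
    · exact hSE0 j
    · exact one_pos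
  have hsV0 : ∀ k, 0 < sV k := fun k => by
    rw [hsV]; dsimp only; split_ifs
    · exact hSV0 k
    · exact one_pos
  have haR : ub2_R (PP X) (p.Y X) l → ∀ j, a j = alE 10 j.val ∧ sE j = SE j := by
    intro h j
    rw [ha, hsE]
    dsimp only
    unfold wdE
    rw [if_pos h.2.2, if_pos h]
    exact ⟨rfl, rfl⟩
  have hbR : ub2_R (PP X) (p.Y X) l → ∀ k, b k = beV 10 k.val ∧ sV k = SV k := by
    intro h k
    rw [hb, hsV]
    dsimp only
    unfold wyV
    rw [if_neg h.1, if_neg h.2.1, if_pos h.2.2, if_pos h]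
    exact ⟨rfl, rfl⟩
  have haN : ¬ ub2_R (PP X) (p.Y X) l → ∀ j, sE j = 1 := by
    intro h j; rw [hsE]; dsimp only; rw [if_neg h]
  have hbN : ¬ ub2_R (PP X) (p.Y X) l → ∀ k, sV k = 1 := by
    intro h k; rw [hsV]; dsimp only; rw [if_neg h]
  have has : ∀ j, a j ≤ sE j := by
    intro j
    by_cases h : ub2_R (PP X) (p.Y X) l
    · rw [(haR h j).1, (haR h j).2]; exact hSE j
    · rw [haN h j]; exact (ha0 j).2
  have hbs : ∀ k, b k ≤ sV k := by
    intro k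
    by_cases h : ub2_R (PP X) (p.Y X) l
    · rw [(hbR h k).1, (hbR h k).2]; exact hSV k
    · rw [hbN h k]; exact (hb0 k).2
  have hfa : ∀ j, 0 ≤ ub2_f η (a j) (sE j) ∧ ub2_f η (a j) (sE j) ≤ 1 := fun j =>
    ⟨ub2_f_nonneg (ha0 j).1 (hsE0 j),
      (ub2_f_le hη (ha0 j).1 (hsE0 j) (has j)).trans (ha0 j).2⟩
  have hfb : ∀ k, 0 ≤ ub2_f η (b k) (sV k) ∧ ub2_f η (b k) (sV k) ≤ 1 := fun k =>
    ⟨ub2_f_nonneg (hb0 k).1 (hsV0 k),
      (ub2_f_le hη (hb0 k).1 (hsV0 k) (hbs k)).trans (hb0 k).2⟩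
  have hL : ub2_f η (ub2_t (PP X) (p.Y X) q u l) (ub2_n SE SV (PP X) (p.Y X) q u l) =
      (∏ j, ub2_f η (a j) (sE j) ^ (e j)) * ∏ k, ub2_f η (b k) (sV k) ^ (v k) := by
    have h1 : ub2_t (PP X) (p.Y X) q u l = (∏ j, a j ^ (e j)) * ∏ k, b k ^ (v k) := by
      rw [ha, hb, he, hv]; rfl
    have h2 : ub2_n SE SV (PP X) (p.Y X) q u l = (∏ j, sE j ^ (e j)) * ∏ k, sV k ^ (v k) := by
      rw [hsE, hsV, he, hv]; unfold ub2_n; rfl
    rw [h1, h2, ub2_f_mul (Finset.prod_nonneg fun j _ => pow_nonneg (ha0 j).1 _)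
      (Finset.prod_nonneg fun j _ => pow_nonneg (hb0 j).1 _)
      (Finset.prod_pos fun j _ => pow_pos (hsE0 j) _)
      (Finset.prod_pos fun j _ => pow_pos (hsV0 j) _),
      ub2_f_prod η univ _ _ (fun j _ => pow_nonneg (ha0 j).1 _) (fun j _ => pow_pos (hsE0 j) _),
      ub2_f_prod η univ _ _ (fun j _ => pow_nonneg (hb0 j).1 _) (fun j _ => pow_pos (hsV0 j) _)]
    congr 1
    · exact Finset.prod_congr rfl fun j _ => ub2_f_pow (ha0 j).1 (hsE0 j) _
    · exact Finset.prod_congr rfl fun j _ => ub2_f_pow (hb0 j).1 (hsV0 j) _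
  rw [hL]
  have hE0 : 0 ≤ ∏ j, ub2_f η (a j) (sE j) ^ (e j) :=
    Finset.prod_nonneg fun j _ => pow_nonneg (hfa j).1 _
  have hE1 : ∏ j, ub2_f η (a j) (sE j) ^ (e j) ≤ 1 :=
    Finset.prod_le_one (fun j _ => pow_nonneg (hfa j).1 _)
      (fun j _ => pow_le_one₀ (hfa j).1 (hfa j).2)
  have hV0 : 0 ≤ ∏ k, ub2_f η (b k) (sV k) ^ (v k) :=
    Finset.prod_nonneg fun j _ => pow_nonneg (hfb j).1 _
  have hV1 : ∏ k, ub2_f η (b k) (sV k) ^ (v k) ≤ 1 :=
    Finset.prod_le_one (fun j _ => pow_nonneg (hfb j).1 _)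
      (fun j _ => pow_le_one₀ (hfb j).1 (hfb j).2)
  by_cases hm : l ∈ prs 2 P
  swap
  · rw [if_neg hm]
    exact mul_le_one₀ hE1 hV0 hV1
  rw [if_pos hm]
  have hm' := hm
  unfold prs at hm'
  rw [mem_filter, mem_Ioc] at hm'
  have hlY : (l : ℝ) ≤ p.Y X := by
    rcases hP with hP | hP
    · exact le_trans (by exact_mod_cast hm'.1.2) hP
    · exfalso; omega
  have hl2 : l ≠ 2 := by omega
  by_cases hD : l ∣ DE univ (tp u)
  · rw [if_pos hD]
    have hsp : ∏ j, (if l ∣ dn (tp u) j then W'.al j else 1) =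
        ∏ j : Fin 10, (if l ∣ dE u (j.val + 1) then W'.al j.castSucc else 1) := by
      rw [Fin.prod_univ_castSucc (n := 10)]
      have h10 : ¬ l ∣ dn (tp u) (Fin.last 10) := by
        have : dn (tp u) (Fin.last 10) = 1 := dn_last hu
        rw [this]
        intro h
        exact hl.one_lt.ne' (Nat.dvd_one.1 h)
      rw [if_neg h10, mul_one]
      refine Finset.prod_congr rfl fun j _ => ?_
      have : dn (tp u) j.castSucc = dE u (j.val + 1) := dn_dE u j.castSucc (by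
        intro h
        have h4 : j.val = 10 := congrArg Fin.val h
        have h2 := j.isLt
        omega)
      rw [this]
    rw [hsp]
    refine (mul_le_of_le_one_right hE0 hV1).trans ?_
    refine Finset.prod_le_prod (fun j _ => pow_nonneg (hfa j).1 _) fun j _ => ?_
    by_cases hj : l ∣ dE u (j.val + 1)
    · rw [if_pos hj]
      have h1 : e j ≠ 0 := by
        rw [he]
        exact (hl.factorization_pos_of_dvd (ub2_dE_ne hu _) hj).ne'
      refine (pow_le_of_le_one (hfa j).1 (hfa j).2 h1).trans ?_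
      have h2 := ((ub2_dE_dp hu (j.val + 1)).2 l hl hj).2
      have hR : ub2_R (PP X) (p.Y X) l := ⟨hl2, not_le.2 h2, hlY⟩
      rw [(haR hR j).1, (haR hR j).2, hal]
    · rw [if_neg hj]
      exact pow_le_one₀ (hfa j).1 (hfa j).2
  · rw [if_neg hD]
    refine (mul_le_of_le_one_left hV0 hE1).trans ?_
    unfold ph
    refine Finset.prod_le_prod (fun j _ => pow_nonneg (hfb j).1 _) fun k _ => ?_
    unfold Pool.Agent.PENK.ind
    by_cases hk : (l : ℤ) ∣ Rf q (tp u k)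
    · rw [if_pos hk]
      have hnd : ∀ i, ¬ l ∣ dE u i := by
        intro i hi
        by_cases h : 1 ≤ i ∧ i ≤ 10
        · apply hD
          have h1 : dn (tp u) (⟨i - 1, by omega⟩ : Fin 11) = dE u i := by
            rw [dn_dE u _ (by
              intro h2
              have := congrArg Fin.val h2
              have h3 : ((10 : Fin 11) : ℕ) = 10 := rfl
              rw [h3] at this
              have h4 : i - 1 = 10 := this
              omega)]
            congr 1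
            show i - 1 + 1 = i
            omega
          rw [← h1] at hi
          exact hi.trans (Finset.dvd_prod_of_mem _ (mem_univ _))
        · have : dE u i = 1 := by
            unfold dE
            rw [dif_neg h]
          rw [this] at hi
          exact hl.one_lt.ne' (Nat.dvd_one.1 hi)
      have h1 : l ∣ yv q u k := by
        have h2 : l ∣ (fv q (u k)).natAbs := Int.natCast_dvd.1 hk
        rw [ub2_yv hu hG k] at h2
        rcases hl.dvd_mul.1 h2 with h | h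
        · exact h
        · rcases hl.dvd_mul.1 h with h | h
          · exact absurd h (hnd _)
          · exact absurd h (hnd _)
      have h2 : v k ≠ 0 := by
        rw [hv]
        exact (hl.factorization_pos_of_dvd (ub2_yv_ne hq hu hG k) h1).ne'
      refine (pow_le_of_le_one (hfb k).1 (hfb k).2 h2).trans ?_
      unfold Wts.gi
      have hP0 : (0 : ℝ) ≤ PP X := (Real.exp_pos _).le
      by_cases hPl : (l : ℝ) ≤ PP X
      · rw [if_pos ((Nat.le_floor_iff hP0).2 hPl), hbN (fun h => h.2.1 hPl) k, hbo]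
        have : b k = boV k.val := by
          rw [hb]
          dsimp only
          unfold wyV
          rw [if_neg hl2, if_pos hPl]
        rw [this, ub2_bo_f]
      · rw [if_neg (fun h => hPl ((Nat.le_floor_iff hP0).1 h))]
        have hR : ub2_R (PP X) (p.Y X) l := ⟨hl2, hPl, hlY⟩
        rw [(hbR hR k).1, (hbR hR k).2, hbe]
    · rw [if_neg hk]
      exact pow_le_one₀ (hfb k).1 (hfb k).2

/-- the product over the primes -/
theorem ub2_W {p : Prm 10} {X : ℕ} {q : ℤ × ℤ × ℤ} {u : Vec 10} (hG : GD q u) {N : ℕ}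
    (hN : ∀ j : Fin 10, dE u (j.val + 1) ≤ N) (hN' : ∀ k : Fin 11, yv q u k ≤ N) :
    W p X q u = ∏ l ∈ (range (N + 1)).filter Nat.Prime, ub2_t (PP X) (p.Y X) q u l := by
  unfold W ub2_t alw yw
  rw [if_pos hG, Finset.prod_mul_distrib, Finset.prod_comm (s := (range (N + 1)).filter Nat.Prime)
    (t := (univ : Finset (Fin 10))), Finset.prod_comm (s := (range (N + 1)).filter Nat.Prime)
    (t := (univ : Finset (Fin 11)))]
  congr 1
  · exact Finset.prod_congr rfl fun j _ => ub2_cm _ (hN j)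
  · exact Finset.prod_congr rfl fun k _ => ub2_cm _ (hN' k)

/-- the core of UB2 and UB3 -/
theorem ub2_core {p : Prm 10} {t : ℝ} (ht : t ≤ p.ta)
    {X : ℕ} (hX : 2 ≤ X) {C1 : ℝ} {q : ℤ × ℤ × ℤ} (hq : q ∈ AW C1 X) {u : Vec 10}
    (hu : GP p X u) {η : ℝ} (hη : 0 ≤ η) (hG : GD q u) {SE : Fin 10 → ℝ} {SV : Fin 11 → ℝ}
    (hSE : ∀ j, alE 10 j.val ≤ SE j) (hSV : ∀ k, beV 10 k.val ≤ SV k) (W' : Wts 11)
    (hal : ∀ j : Fin 10, W'.al j.castSucc = ub2_f η (alE 10 j.val) (SE j))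
    (hbe : ∀ k : Fin 11, W'.be k = ub2_f η (beV 10 k.val) (SV k))
    (hbo : ∀ k : Fin 11, W'.bo k = boV k.val) (n : ℝ) (N₀ : ℕ)
    (hn : ∀ N ≥ N₀, n = ∏ l ∈ (range (N + 1)).filter Nat.Prime,
      ub2_n SE SV (PP X) (p.Y X) q u l) :
    ub2_f η (W p X q u) n ≤ W1 W' ⌊PP X⌋₊ ⌊(X : ℝ) ^ t⌋₊ univ univ (tp u) q := by
  classical
  have hSE0 : ∀ j, 0 < SE j := fun j => lt_of_lt_of_le (ub2_al _).1 (hSE j)
  have hSV0 : ∀ k, 0 < SV k := fun k => lt_of_lt_of_le (ub2_be _).1 (hSV k)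
  obtain ⟨N, hN⟩ : ∃ N : ℕ, N = N₀ + (∑ j : Fin 10, dE u (j.val + 1)) + (∑ k : Fin 11, yv q u k) +
      ⌊(X : ℝ) ^ t⌋₊ := ⟨_, rfl⟩
  have hNd : ∀ j : Fin 10, dE u (j.val + 1) ≤ N := by
    intro j
    have := Finset.single_le_sum (f := fun j : Fin 10 => dE u (j.val + 1))
      (fun j _ => Nat.zero_le _) (mem_univ j)
    beta_reduce at this
    omega
  have hNy : ∀ k : Fin 11, yv q u k ≤ N := by
    intro k
    have := Finset.single_le_sum (f := fun k : Fin 11 => yv q u k) (fun j _ => Nat.zero_le _)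
      (mem_univ k)
    beta_reduce at this
    omega
  have hX1 : (1 : ℝ) ≤ X := by exact_mod_cast (by omega : 1 ≤ X)
  have hP : ((⌊(X : ℝ) ^ t⌋₊ : ℕ) : ℝ) ≤ p.Y X := by
    refine (Nat.floor_le (Real.rpow_nonneg (by linarith) _)).trans ?_
    unfold Prm.Y
    exact Real.rpow_le_rpow_of_exponent_le hX1 ht
  rw [ub2_W hG hNd hNy, hn N (by omega), ub2_f_prod η _ _ _ (fun l _ => ub2_t_nonneg _ _ _ _ _)
    (fun l _ => ub2_n_pos hSE0 hSV0 _ _ _ _ _)]
  have e3 : W1 W' ⌊PP X⌋₊ ⌊(X : ℝ) ^ t⌋₊ univ univ (tp u) q =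
      ∏ l ∈ (range (N + 1)).filter Nat.Prime, if l ∈ prs 2 ⌊(X : ℝ) ^ t⌋₊ then
        (if l ∣ DE univ (tp u) then ∏ j, (if l ∣ dn (tp u) j then W'.al j else 1)
          else ph W' ⌊PP X⌋₊ univ (tp u) l q) else 1 := by
    unfold W1
    rw [Finset.prod_ite_mem]
    refine Finset.prod_congr ?_ (fun _ _ => rfl)
    symm
    apply Finset.inter_eq_right.2
    intro l hl
    unfold prs at hl
    rw [mem_filter, mem_Ioc] at hl
    rw [mem_filter, mem_range]
    exact ⟨by omega, hl.2⟩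
  rw [e3]
  refine Finset.prod_le_prod (fun l _ => ub2_f_nonneg (ub2_t_nonneg _ _ _ _ _)
    (ub2_n_pos hSE0 hSV0 _ _ _ _ _)) fun l hl => ?_
  exact ub2_loc hq hu hη hG hSE hSV W' hal hbe hbo (Or.inl hP) (mem_filter.1 hl).2

theorem ub2_W1_nonneg (W' : Wts 11) (hal : ∀ j, 0 ≤ W'.al j) (hbe : ∀ k, 0 ≤ W'.be k)
    (hbo : ∀ k, 0 ≤ W'.bo k) (P0 P : ℕ) (E vq : Finset (Fin 11)) (u : PolyK 11)
    (R : ℤ × ℤ × ℤ) : 0 ≤ W1 W' P0 P E vq u R := by
  unfold W1
  refine Finset.prod_nonneg fun l _ => ?_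
  split_ifs
  · refine Finset.prod_nonneg fun j _ => ?_
    split_ifs
    · exact hal j
    · exact zero_le_one
  · unfold ph
    refine Finset.prod_nonneg fun k _ => ?_
    unfold Pool.Agent.PENK.ind Wts.gi
    split_ifs
    · exact hbo k
    · exact hbe k
    · exact zero_le_one

theorem ub2_castSucc_ne (j : Fin 10) : j.castSucc ≠ (10 : Fin 11) := by
  intro h
  have h4 : j.val = 10 := congrArg Fin.val h
  have h2 := j.isLt
  omega

/-- block UB2 (as F10, `diag_ptw`, helper41, Lib_helper15/PFMF/F10.lean): pointwise; both sides are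
products over the primes; factors `≤ 1` of the primes `> P` and of the `y_j` at the primes of `D` are
dropped -/
theorem ptw_D_pr {p : Prm 10} {τ : ℝ} (hp : p.Ok τ) (hτ : τ ≤ 1 / 200) {t : ℝ} (ht : t ≤ p.ta)
    {X : ℕ} (hX : 2 ≤ X) {C1 : ℝ} {q : ℤ × ℤ × ℤ} (hq : q ∈ AW C1 X) {u : Vec 10}
    (hu : GP p X u) {η : ℝ} (hη : 0 ≤ η) : W p X q u ^ (1 + η) ≤
      W1 (WD η) ⌊PP X⌋₊ ⌊(X : ℝ) ^ t⌋₊ univ univ (tp u) q := by
  classical
  by_cases hG : GD q u
  · have h0 : 0 ≤ W p X q u := by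
      obtain ⟨N, hN⟩ : ∃ N : ℕ, N = (∑ j : Fin 10, dE u (j.val + 1)) + ∑ k : Fin 11, yv q u k :=
        ⟨_, rfl⟩
      rw [ub2_W (p := p) (X := X) (N := N) hG]
      · exact Finset.prod_nonneg fun l _ => ub2_t_nonneg _ _ _ _ _
      · intro j
        have := Finset.single_le_sum (f := fun j : Fin 10 => dE u (j.val + 1))
          (fun j _ => Nat.zero_le _) (mem_univ j)
        beta_reduce at this
        omega
      · intro k
        have := Finset.single_le_sum (f := fun k : Fin 11 => yv q u k) (fun j _ => Nat.zero_le _)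
          (mem_univ k)
        beta_reduce at this
        omega
    have h1 : W p X q u ^ (1 + η) = ub2_f η (W p X q u) 1 := by
      unfold ub2_f
      rw [Real.rpow_one_add' h0 (by linarith), div_one]
    rw [h1]
    refine ub2_core (SE := fun _ => 1) (SV := fun _ => 1) ht hX hq hu hη hG (fun j => (ub2_al _).2)
      (fun k => (ub2_be _).2) (WD η) (fun j => ?_) (fun k => ?_) (fun k => rfl) 1 0 (fun N _ => ?_)
    · unfold WD ub2_f
      dsimp only
      rw [if_neg (ub2_castSucc_ne j), div_one, Fin.val_castSucc,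
        Real.rpow_one_add' (ub2_al _).1.le (by linarith)]
    · unfold WD ub2_f
      dsimp only
      rw [div_one, Real.rpow_one_add' (ub2_be _).1.le (by linarith)]
    · symm
      refine Finset.prod_eq_one fun l _ => ?_
      unfold ub2_n
      simp
  · have h0 : W p X q u = 0 := by
      unfold W
      rw [if_neg hG]
    rw [h0, Real.zero_rpow (by linarith)]
    refine ub2_W1_nonneg _ (fun j => ?_) (fun k => ?_) (fun k => (ub2_bo _).1) _ _ _ _ _ _
    · unfold WD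
      dsimp only
      split_ifs
      · exact le_rfl
      · exact Real.rpow_nonneg (ub2_al _).1.le _
    · unfold WD
      dsimp only
      exact Real.rpow_nonneg (ub2_be _).1.le _

alias ptw_D := ptw_D_pr

end Pool.Agent.UPA
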