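import Pool.Agent.Lib_helper15.UPAF.UB2

/-!
# UPA, block UB3: the weight of the diagonal of the marginals, pointwise
-/

set_option autoImplicit false

namespace Pool.Agent.UPA

open Finset Pool.Agent.PENT Pool.Agent.PATH.NC Pool.Agent.PFM
open Pool.Agent.PENK (PolyK Wts dn dl mL ich EquiF prs lw L1 Rf)

/-- the weights of the edges in the denominator -/
noncomputable def ub3_SE (j i : Fin 10) : ℝ :=
  if i.val + 1 = j.val then PENM.wS0 j.val else if i.val = j.val + 1 then PENM.wS1 j.val else 1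

/-- the weights of the vertices in the denominator -/
noncomputable def ub3_SV (j : Fin 10) (k : Fin 11) : ℝ :=
  if k.val = j.val then PENM.wS0 j.val else if k.val = j.val + 1 then PENM.wS1 j.val else 1

theorem ub3_SE_le (j i : Fin 10) : alE 10 i.val ≤ ub3_SE j i := by
  have hi := i.isLt
  unfold ub3_SE
  split_ifs with h1 h2
  · unfold PENM.wS0
    rw [if_neg (by omega)]
    have : j.val - 1 = i.val := by omega
    rw [this]
    linarith [(ub2_be j.val).1]
  · unfold PENM.wS1
    rw [if_neg (by omega), ← h2]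
    linarith [(ub2_be i.val).1]
  · exact (ub2_al _).2

theorem ub3_SV_le (j : Fin 10) (k : Fin 11) : beV 10 k.val ≤ ub3_SV j k := by
  unfold ub3_SV
  split_ifs with h1 h2
  · unfold PENM.wS0
    rw [h1]
    have h3 : (0 : ℝ) ≤ if j.val = 0 then 0 else alE 10 (j.val - 1) := by
      split_ifs
      · exact le_rfl
      · exact (ub2_al _).1.le
    linarith
  · unfold PENM.wS1
    rw [h2]
    have h3 : (0 : ℝ) ≤ if j.val = 9 then 0 else alE 10 (j.val + 1) := by
      split_ifs
      · exact le_rfl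
      · exact (ub2_al _).1.le
    linarith
  · exact (ub2_be _).2

theorem ub3_f {η x s : ℝ} (hη : 0 ≤ η) (hx : 0 ≤ x) (hs : 0 < s) :
    x ^ (1 + η) * s ^ (-η) = ub2_f η x s := by
  unfold ub2_f
  rw [Real.rpow_one_add' hx (by linarith), Real.div_rpow hx hs.le, Real.rpow_neg hs.le,
    div_eq_mul_inv]
  ring

/-- the product over the edges -/
theorem ub3_edges (j : Fin 10) (a b : ℝ) (E : ℕ → ℕ) (h0 : E 0 = 0) (h11 : E 11 = 0) :
    ∏ i : Fin 10, (if i.val + 1 = j.val then a else if i.val = j.val + 1 then b else 1) ^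
      (E (i.val + 1)) = a ^ (E j.val) * b ^ (E (j.val + 2)) := by
  have hj := j.isLt
  have h1 : ∀ i : Fin 10, (if i.val + 1 = j.val then a else if i.val = j.val + 1 then b else 1) ^
      (E (i.val + 1)) = (if i.val + 1 = j.val then a else 1) ^ (E (i.val + 1)) *
        (if i.val = j.val + 1 then b else 1) ^ (E (i.val + 1)) := by
    intro i
    by_cases c1 : i.val + 1 = j.val
    · rw [if_pos c1, if_pos c1, if_neg (by omega), one_pow, mul_one]
    · rw [if_neg c1, if_neg c1, one_pow, one_mul]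
  rw [Finset.prod_congr rfl fun i _ => h1 i, Finset.prod_mul_distrib]
  congr 1
  · by_cases hj0 : j.val = 0
    · rw [hj0, h0, pow_zero]
      refine Finset.prod_eq_one fun i _ => ?_
      rw [if_neg (by omega), one_pow]
    · rw [Finset.prod_eq_single (⟨j.val - 1, by omega⟩ : Fin 10)]
      · have e : j.val - 1 + 1 = j.val := by omega
        dsimp only
        rw [if_pos e, e]
      · intro i _ hi
        rw [if_neg (fun h => hi (Fin.ext (by show i.val = j.val - 1; omega))), one_pow]
      · intro h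
        exact absurd (Finset.mem_univ _) h
  · by_cases hj9 : j.val = 9
    · rw [hj9, h11, pow_zero]
      refine Finset.prod_eq_one fun i _ => ?_
      have := i.isLt
      rw [if_neg (by omega), one_pow]
    · rw [Finset.prod_eq_single (⟨j.val + 1, by omega⟩ : Fin 10)]
      · dsimp only
        rw [if_pos rfl]
      · intro i _ hi
        rw [if_neg (fun h => hi (Fin.ext h)), one_pow]
      · intro h
        exact absurd (Finset.mem_univ _) h

/-- the product over the vertices -/
theorem ub3_vertices (j : Fin 10) (a b : ℝ) (V : Fin 11 → ℕ) :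
    ∏ k : Fin 11, (if k.val = j.val then a else if k.val = j.val + 1 then b else 1) ^ (V k) =
      a ^ (V j.castSucc) * b ^ (V j.succ) := by
  have hj := j.isLt
  have h1 : ∀ k : Fin 11, (if k.val = j.val then a else if k.val = j.val + 1 then b else 1) ^
      (V k) = (if k.val = j.val then a else 1) ^ (V k) *
        (if k.val = j.val + 1 then b else 1) ^ (V k) := by
    intro k
    by_cases c1 : k.val = j.val
    · rw [if_pos c1, if_pos c1, if_neg (by omega), one_pow, mul_one]
    · rw [if_neg c1, if_neg c1, one_pow, one_mul]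
  rw [Finset.prod_congr rfl fun i _ => h1 i, Finset.prod_mul_distrib]
  congr 1
  · rw [Finset.prod_eq_single (j.castSucc : Fin 11)]
    · rw [if_pos (Fin.val_castSucc j)]
    · intro k _ hk
      rw [if_neg (fun h => hk (Fin.ext (by rw [Fin.val_castSucc]; exact h))), one_pow]
    · intro h
      exact absurd (Finset.mem_univ _) h
  · rw [Finset.prod_eq_single (j.succ : Fin 11)]
    · rw [if_pos (Fin.val_succ j)]
    · intro k _ hk
      rw [if_neg (fun h => hk (Fin.ext (by rw [Fin.val_succ]; exact h))), one_pow]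
    · intro h
      exact absurd (Finset.mem_univ _) h

open Classical in
theorem ub3_ws (P Y s : ℝ) (l : ℕ) : PENM.ws P Y s l = if ub2_R P Y l then s else 1 := by
  unfold PENM.ws ub2_R
  by_cases h1 : l = 2
  · rw [if_pos h1, if_neg (fun h => h.1 h1)]
  · rw [if_neg h1]
    by_cases h2 : (l : ℝ) ≤ P
    · rw [if_pos h2, if_neg (fun h => h.2.1 h2)]
    · rw [if_neg h2]
      by_cases h3 : (l : ℝ) ≤ Y
      · rw [if_pos h3, if_pos ⟨h1, h2, h3⟩]
      · rw [if_neg h3, if_neg (fun h => h3 h.2.2)]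

/-- the local factor of `nuN` -/
theorem ub3_loc {p : Prm 10} {X : ℕ} {q : ℤ × ℤ × ℤ} {u : Vec 10} (j : Fin 10) (l : ℕ) :
    PENM.ws (PP X) (p.Y X) (PENM.wS0 j.val) l ^ ((yv q u j.castSucc).factorization l +
        (dE u j.val).factorization l) *
      PENM.ws (PP X) (p.Y X) (PENM.wS1 j.val) l ^ ((yv q u j.succ).factorization l +
        (dE u (j.val + 2)).factorization l) =
      ub2_n (ub3_SE j) (ub3_SV j) (PP X) (p.Y X) q u l := by
  classical
  rw [ub3_ws, ub3_ws]
  unfold ub2_n
  by_cases hR : ub2_R (PP X) (p.Y X) l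
  · simp only [if_pos hR]
    have h1 := ub3_edges j (PENM.wS0 j.val) (PENM.wS1 j.val) (fun m => (dE u m).factorization l)
      (by rw [ub2_dE_zero, Nat.factorization_one]; rfl)
      (by rw [ub2_dE_top, Nat.factorization_one]; rfl)
    have h2 := ub3_vertices j (PENM.wS0 j.val) (PENM.wS1 j.val)
      (fun k => (yv q u k).factorization l)
    have e1 : ∏ i : Fin 10, ub3_SE j i ^ ((dE u (i.val + 1)).factorization l) = _ := h1
    have e2 : ∏ k : Fin 11, ub3_SV j k ^ ((yv q u k).factorization l) = _ := h2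
    rw [e1, e2, pow_add, pow_add]
    ring
  · simp only [if_neg hR, one_pow, Finset.prod_const_one, mul_one]

theorem ub3_m0 {p : Prm 10} {X : ℕ} {q : ℤ × ℤ × ℤ} {u : Vec 10} (hu : GP p X u) (hG : GD q u)
    (j : Fin 10) : (fv q (u j.castSucc)).natAbs / dE u (j.val + 1) =
      yv q u j.castSucc * dE u j.val := by
  have h1 := ub2_yv hu hG j.castSucc
  have h2 : (j.castSucc : Fin 11).val = j.val := Fin.val_castSucc j
  rw [h2] at h1
  rw [h1, ← mul_assoc]
  exact Nat.mul_div_cancel _ (Nat.pos_of_ne_zero (ub2_dE_ne hu _))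

theorem ub3_m1 {p : Prm 10} {X : ℕ} {q : ℤ × ℤ × ℤ} {u : Vec 10} (hu : GP p X u) (hG : GD q u)
    (j : Fin 10) : (fv q (u j.succ)).natAbs / dE u (j.val + 1) =
      yv q u j.succ * dE u (j.val + 2) := by
  have h1 := ub2_yv hu hG j.succ
  have h2 : (j.succ : Fin 11).val = j.val + 1 := Fin.val_succ j
  rw [h2] at h1
  rw [h1, mul_comm (dE u (j.val + 1)), ← mul_assoc]
  exact Nat.mul_div_cancel _ (Nat.pos_of_ne_zero (ub2_dE_ne hu _))

theorem ub3_nu {C1 : ℝ} {p : Prm 10} {X : ℕ} {q : ℤ × ℤ × ℤ} (hq : q ∈ AW C1 X) {u : Vec 10}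
    (hu : GP p X u) (hG : GD q u) (j : Fin 10) {N : ℕ}
    (hN : yv q u j.castSucc * dE u j.val + yv q u j.succ * dE u (j.val + 2) ≤ N) :
    PENM.nuN p X q u j = ∏ l ∈ (range (N + 1)).filter Nat.Prime,
      ub2_n (ub3_SE j) (ub3_SV j) (PP X) (p.Y X) q u l := by
  unfold PENM.nuN
  rw [ub3_m0 hu hG j, ub3_m1 hu hG j, ub2_cm _ (by omega : yv q u j.castSucc * dE u j.val ≤ N),
    ub2_cm _ (by omega : yv q u j.succ * dE u (j.val + 2) ≤ N), ← Finset.prod_mul_distrib]
  refine Finset.prod_congr rfl fun l _ => ?_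
  rw [Nat.factorization_mul (ub2_yv_ne hq hu hG _) (ub2_dE_ne hu _),
    Nat.factorization_mul (ub2_yv_ne hq hu hG _) (ub2_dE_ne hu _), Finsupp.add_apply,
    Finsupp.add_apply]
  exact ub3_loc j l

/-- block UB3 (as UB2): `nuN` = `∏ s_0 ^ v_l(y_j d_(j-1)) s_1 ^ v_l(y_(j+1) d_(j+1))` over the
primes `P < l ≤ Y`, since `Q(u_j)/d_j = y_j d_(j-1)`, `Q(u_(j+1))/d_j = y_(j+1) d_(j+1)` -/
theorem ptw_N_pr {p : Prm 10} {τ : ℝ} (hp : p.Ok τ) (hτ : τ ≤ 1 / 200) {t : ℝ} (ht : t ≤ p.ta)
    {X : ℕ} (hX : 2 ≤ X) {C1 : ℝ} {q : ℤ × ℤ × ℤ} (hq : q ∈ AW C1 X) {u : Vec 10}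
    (hu : GP p X u) (j : Fin 10) {η : ℝ} (hη : 0 ≤ η) (hη1 : η ≤ 1) :
    W p X q u * (W p X q u / PENM.nuN p X q u j) ^ η ≤
      W1 (WN j η) ⌊PP X⌋₊ ⌊(X : ℝ) ^ t⌋₊ univ univ (tp u) q := by
  classical
  have hs0 : 0 < PENM.wS0 j.val := by
    have := ub3_SV_le j j.castSucc
    unfold ub3_SV at this
    rw [if_pos (Fin.val_castSucc j)] at this
    exact lt_of_lt_of_le (ub2_be _).1 this
  have hs1 : 0 < PENM.wS1 j.val := by
    have := ub3_SV_le j j.succ
    unfold ub3_SV at this
    rw [if_neg (by rw [Fin.val_succ]; omega), if_pos (Fin.val_succ j)] at this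
    exact lt_of_lt_of_le (ub2_be _).1 this
  by_cases hG : GD q u
  · show ub2_f η (W p X q u) (PENM.nuN p X q u j) ≤ _
    refine ub2_core (SE := ub3_SE j) (SV := ub3_SV j) ht hX hq hu hη hG (ub3_SE_le j)
      (ub3_SV_le j) (WN j η) (fun i => ?_) (fun k => ?_) (fun k => rfl) _
      (yv q u j.castSucc * dE u j.val + yv q u j.succ * dE u (j.val + 2))
      (fun N hN => ub3_nu hq hu hG j hN)
    · unfold WN ub3_SE
      dsimp only
      rw [if_neg (ub2_castSucc_ne i), Fin.val_castSucc]
      split_ifs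
      · exact ub3_f hη (ub2_al _).1.le hs0
      · exact ub3_f hη (ub2_al _).1.le hs1
      · have := ub3_f (x := alE 10 i.val) hη (ub2_al _).1.le one_pos
        rw [Real.one_rpow] at this
        exact this
    · unfold WN ub3_SV
      dsimp only
      split_ifs
      · exact ub3_f hη (ub2_be _).1.le hs0
      · exact ub3_f hη (ub2_be _).1.le hs1
      · have := ub3_f (x := beV 10 k.val) hη (ub2_be _).1.le one_pos
        rw [Real.one_rpow] at this
        exact this
  · have h0 : W p X q u = 0 := by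
      unfold W
      rw [if_neg hG]
    rw [h0, zero_mul]
    refine ub2_W1_nonneg _ (fun i => ?_) (fun k => ?_) (fun k => (ub2_bo _).1) _ _ _ _ _ _
    · unfold WN
      dsimp only
      split_ifs
      · exact le_rfl
      · exact mul_nonneg (Real.rpow_nonneg (ub2_al _).1.le _) (Real.rpow_nonneg hs0.le _)
      · exact mul_nonneg (Real.rpow_nonneg (ub2_al _).1.le _) (Real.rpow_nonneg hs1.le _)
      · exact mul_nonneg (Real.rpow_nonneg (ub2_al _).1.le _) zero_le_one
    · unfold WN
      dsimp only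
      refine mul_nonneg (Real.rpow_nonneg (ub2_be _).1.le _) ?_
      split_ifs
      · exact Real.rpow_nonneg hs0.le _
      · exact Real.rpow_nonneg hs1.le _
      · exact zero_le_one

alias ptw_N := ptw_N_pr

end Pool.Agent.UPA
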