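import Pool.Agent.Lib_helper15.UP.Facts

set_option autoImplicit false

namespace Pool.Agent.UPA

open Finset Pool.Agent.PENT Pool.Agent.PATH.NC Pool.Agent.PFM
open Pool.Agent.PENK (PolyK Wts dn dl mL ich EquiF PerP prs lw L1 Rf)

theorem ub4_pow {a b : ℝ} (ha : 0 < a) (hb : 0 < b) (h : a ^ (101 : ℕ) ≤ b ^ (100 : ℕ)) :
    a ^ (1 + 1 / 100 : ℝ) ≤ b := by
  have e1 : a ^ (1 + 1 / 100 : ℝ) = (a ^ (101 : ℕ)) ^ (1 / 100 : ℝ) := by
    rw [← Real.rpow_natCast, ← Real.rpow_mul ha.le]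
    norm_num
  have e2 : (b ^ (100 : ℕ)) ^ (1 / 100 : ℝ) = b := by
    rw [← Real.rpow_natCast, ← Real.rpow_mul hb.le]
    norm_num
  calc a ^ (1 + 1 / 100 : ℝ) = (a ^ (101 : ℕ)) ^ (1 / 100 : ℝ) := e1
    _ ≤ (b ^ (100 : ℕ)) ^ (1 / 100 : ℝ) :=
        Real.rpow_le_rpow (pow_nonneg ha.le _) h (by norm_num)
    _ = b := e2

theorem ub4_neg {s b : ℝ} (hs : 0 < s) (hb : 0 < b) (h : s⁻¹ ≤ b ^ (100 : ℕ)) :
    s ^ (-(1 / 100) : ℝ) ≤ b := by
  have e2 : (b ^ (100 : ℕ)) ^ (1 / 100 : ℝ) = b := by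
    rw [← Real.rpow_natCast, ← Real.rpow_mul hb.le]
    norm_num
  calc s ^ (-(1 / 100) : ℝ) = (s⁻¹) ^ (1 / 100 : ℝ) := by
        rw [Real.rpow_neg hs.le, Real.inv_rpow hs.le]
    _ ≤ (b ^ (100 : ℕ)) ^ (1 / 100 : ℝ) :=
        Real.rpow_le_rpow (inv_nonneg.2 hs.le) h (by norm_num)
    _ = b := e2

theorem ub4_sum (f : Fin 11 → ℝ) (g : ℕ → ℝ) (h : ∀ i : Fin 11, f i = g i.val) :
    ∑ i, f i = g 0 + g 1 + g 2 + g 3 + g 4 + g 5 + g 6 + g 7 + g 8 + g 9 + g 10 := by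
  have h1 : ∑ i, f i = ∑ i : Fin 11, g i.val := Finset.sum_congr rfl (fun i _ => h i)
  rw [h1, Fin.sum_univ_eq_sum_range g 11]
  simp only [Finset.sum_range_succ, Finset.sum_range_zero, zero_add]

theorem ub4_fin (i : Fin 11) : (i = 10) ↔ (i.val = 10) := by
  rw [Fin.ext_iff]
  rfl

/-- the sums of the edge weights -/
theorem ub4_al (W : Wts 11) (h : W.al 10 = 0) : ∑ j ∈ feD, W.al j = ∑ j, W.al j := by
  unfold feD
  exact Finset.sum_erase _ h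

theorem ub4_bo : ∑ i : Fin 11, (1 - boV i.val) = 5 := by
  rw [ub4_sum _ (fun i => 1 - boV i) (fun i => rfl)]
  have e : ∀ n : ℕ, boV n = if Even n then 1 else 0 := fun n => rfl
  have h0 : boV 0 = 1 := by rw [e, if_pos (by decide)]
  have h1 : boV 1 = 0 := by rw [e, if_neg (by decide)]
  have h2 : boV 2 = 1 := by rw [e, if_pos (by decide)]
  have h3 : boV 3 = 0 := by rw [e, if_neg (by decide)]
  have h4 : boV 4 = 1 := by rw [e, if_pos (by decide)]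
  have h5 : boV 5 = 0 := by rw [e, if_neg (by decide)]
  have h6 : boV 6 = 1 := by rw [e, if_pos (by decide)]
  have h7 : boV 7 = 0 := by rw [e, if_neg (by decide)]
  have h8 : boV 8 = 1 := by rw [e, if_pos (by decide)]
  have h9 : boV 9 = 0 := by rw [e, if_neg (by decide)]
  have h10 : boV 10 = 1 := by rw [e, if_pos (by decide)]
  simp only [h0, h1, h2, h3, h4, h5, h6, h7, h8, h9, h10]
  norm_num

/-- the exponent for the paths in terms of the sum of all weights -/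
theorem ub4_exW (W : Wts 11) (h : W.al 10 = 0) (hb : ∀ i, W.bo i = boV i.val) (A B : ℝ)
    (hA : ∑ j, W.al j = A) (hB : ∑ i, W.be i = B) :
    9 + exW feD univ W = -12 + (A + B) + 1 / 100 * (6 - (A + B)) := by
  have c1 : (feD.card : ℝ) = 10 := by
    have : feD.card = 10 := by decide
    rw [this]
    norm_num
  have c2 : ∑ i : Fin 11, (1 - W.be i) = 11 - B := by
    rw [Finset.sum_sub_distrib, hB]
    simp
  have c3 : ∑ i : Fin 11, (1 - W.bo i) = 5 := by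
    rw [← ub4_bo]
    exact Finset.sum_congr rfl (fun i _ => by rw [hb i])
  unfold exW
  rw [ub4_al W h, hA, c1, c2, c3]
  ring

theorem ub4_aE (n : ℕ) : alE 10 n = if n = 0 ∨ n + 1 = 10 then 3 / 8 else 1 / 4 := rfl

theorem ub4_bE (n : ℕ) : beV 10 n =
    if n = 0 ∨ n = 10 then 5 / 8 else if n = 1 ∨ n + 1 = 10 then 1 / 8 else 1 / 4 := rfl

theorem ub4_WDal (η : ℝ) : ∑ j, (WD η).al j = 2 * (3 / 8 : ℝ) ^ (1 + η) + 8 * (1 / 4 : ℝ) ^ (1 + η) := by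
  rw [ub4_sum _ (fun i => if i = 10 then 0 else alE 10 i ^ (1 + η))]
  · simp only [ub4_aE]
    norm_num
    ring
  · intro i
    simp only [WD, ub4_fin]

theorem ub4_WDbe (η : ℝ) : ∑ j, (WD η).be j = 2 * (5 / 8 : ℝ) ^ (1 + η) + 2 * (1 / 8 : ℝ) ^ (1 + η) +
    7 * (1 / 4 : ℝ) ^ (1 + η) := by
  rw [ub4_sum _ (fun i => beV 10 i ^ (1 + η))]
  · simp only [ub4_bE]
    norm_num
    ring
  · intro i
    rfl

theorem num_D0_pr : 9 + exW feD univ (WD 0) = -6 := by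
  rw [ub4_exW (WD 0) rfl (fun i => rfl) _ _ (ub4_WDal 0) (ub4_WDbe 0)]
  norm_num

theorem num_U_pr : 7 + exW feU vqU (WD 0) = -6 := by
  have hal : ∀ j : Fin 11, j ≠ 10 → (WD 0).al j = alE 10 j.val := by
    intro j hj
    simp only [WD, if_neg hj, add_zero, Real.rpow_one]
  have hbe : ∀ j : Fin 11, (WD 0).be j = beV 10 j.val := by
    intro j
    simp only [WD, add_zero, Real.rpow_one]
  have sA : ∑ j ∈ feU, (WD 0).al j = 2 := by
    have e1 : ∑ j ∈ feU, (WD 0).al j = ∑ j : Fin 11, (WD 0).al j - (WD 0).al 10 -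
        (WD 0).al 0 - (WD 0).al 9 := by
      unfold feU
      rw [Finset.sum_erase_eq_sub (by decide), Finset.sum_erase_eq_sub (by decide),
        Finset.sum_erase_eq_sub (by decide)]
    have e2 : (WD 0).al 10 = 0 := rfl
    have e3 : (WD 0).al 0 = 3 / 8 := by
      rw [hal 0 (by decide), ub4_aE]
      norm_num
    have e4 : (WD 0).al 9 = 3 / 8 := by
      rw [hal 9 (by decide), ub4_aE]
      norm_num
    rw [e1, e2, e3, e4, ub4_WDal]
    norm_num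
  have sB : ∑ j ∈ vqU, (1 - (WD 0).be j) = 7 := by
    have e1 : ∑ j ∈ vqU, (1 - (WD 0).be j) = ∑ j : Fin 11, (1 - (WD 0).be j) -
        (1 - (WD 0).be 10) - (1 - (WD 0).be 0) := by
      unfold vqU
      rw [Finset.sum_erase_eq_sub (by decide), Finset.sum_erase_eq_sub (by decide)]
    have e3 : (WD 0).be 0 = 5 / 8 := by
      rw [hbe 0, ub4_bE]
      norm_num
    have e4 : (WD 0).be 10 = 5 / 8 := by
      rw [hbe 10, ub4_bE]
      norm_num
    rw [e1, e3, e4, Finset.sum_sub_distrib, ub4_WDbe]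
    simp
    norm_num
  have sO : ∑ j ∈ vqU, (1 - (WD 0).bo j) = 5 := by
    have e1 : ∑ j ∈ vqU, (1 - (WD 0).bo j) = ∑ j : Fin 11, (1 - (WD 0).bo j) -
        (1 - (WD 0).bo 10) - (1 - (WD 0).bo 0) := by
      unfold vqU
      rw [Finset.sum_erase_eq_sub (by decide), Finset.sum_erase_eq_sub (by decide)]
    have e3 : (WD 0).bo 0 = 1 := by
      show boV 0 = 1
      unfold boV
      rw [if_pos (by decide)]
    have e4 : (WD 0).bo 10 = 1 := by
      show boV 10 = 1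
      unfold boV
      rw [if_pos (by decide)]
    rw [e1, e3, e4]
    have e5 : ∑ j : Fin 11, (1 - (WD 0).bo j) = 5 := ub4_bo
    rw [e5]
    norm_num
  have c : (feU.card : ℝ) = 8 := by
    have : feU.card = 8 := by decide
    rw [this]
    norm_num
  unfold exW
  rw [sA, sB, sO, c]
  norm_num

theorem ub4_p1 : (3 / 8 : ℝ) ^ (1 + 1 / 100 : ℝ) ≤ 0.3714 :=
  ub4_pow (by norm_num) (by norm_num) (by norm_num)

theorem ub4_p2 : (1 / 4 : ℝ) ^ (1 + 1 / 100 : ℝ) ≤ 0.24656 :=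
  ub4_pow (by norm_num) (by norm_num) (by norm_num)

theorem ub4_p3 : (5 / 8 : ℝ) ^ (1 + 1 / 100 : ℝ) ≤ 0.6221 :=
  ub4_pow (by norm_num) (by norm_num) (by norm_num)

theorem ub4_p4 : (1 / 8 : ℝ) ^ (1 + 1 / 100 : ℝ) ≤ 0.12243 :=
  ub4_pow (by norm_num) (by norm_num) (by norm_num)

theorem ub4_n1 : (1 / 2 : ℝ) ^ (-(1 / 100) : ℝ) ≤ 1.00696 :=
  ub4_neg (by norm_num) (by norm_num) (by norm_num)

theorem ub4_n2 : (5 / 8 : ℝ) ^ (-(1 / 100) : ℝ) ≤ 1.00472 :=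
  ub4_neg (by norm_num) (by norm_num) (by norm_num)

theorem ub4_n3 : (3 / 8 : ℝ) ^ (-(1 / 100) : ℝ) ≤ 1.00986 :=
  ub4_neg (by norm_num) (by norm_num) (by norm_num)

theorem num_D_pr : 9 + exW feD univ (WD (1 / 100)) ≤ -6 * (1 + 1 / 100) - 3 / 4 * (1 / 100) := by
  rw [ub4_exW (WD (1 / 100)) rfl (fun i => rfl) _ _ (ub4_WDal _) (ub4_WDbe _)]
  have h1 := ub4_p1
  have h2 := ub4_p2
  have h3 := ub4_p3
  have h4 := ub4_p4
  norm_num at h1 h2 h3 h4 ⊢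
  linarith

theorem ub4_wS0 (n : ℕ) (hn : n < 10) : PENM.wS0 n =
    if n = 0 then 5 / 8 else if n = 9 then 3 / 8 else 1 / 2 := by
  unfold PENM.wS0
  interval_cases n <;> simp only [ub4_aE, ub4_bE] <;> norm_num

theorem ub4_wS1 (n : ℕ) (hn : n < 10) : PENM.wS1 n =
    if n = 0 then 3 / 8 else if n = 9 then 5 / 8 else 1 / 2 := by
  unfold PENM.wS1
  interval_cases n <;> simp only [ub4_aE, ub4_bE] <;> norm_num

theorem num_N_pr (j : Fin 10) : 9 + exW feD univ (WN j (1 / 100)) ≤ -6 * (1 + 1 / 100) := by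
  have hj := j.isLt
  have hA : ∑ i, (WN j (1 / 100)).al i = _ := ub4_sum _
    (fun i => if i = 10 then 0 else
    alE 10 i ^ (1 + 1 / 100 : ℝ) * (if i + 1 = j.val then PENM.wS0 j.val ^ (-(1 / 100) : ℝ)
      else if i = j.val + 1 then PENM.wS1 j.val ^ (-(1 / 100) : ℝ) else 1)) (by
      intro i
      simp only [WN, ub4_fin])
  have hB : ∑ i, (WN j (1 / 100)).be i = _ := ub4_sum _
    (fun i => beV 10 i ^ (1 + 1 / 100 : ℝ) * (if i = j.val then PENM.wS0 j.val ^ (-(1 / 100) : ℝ)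
      else if i = j.val + 1 then PENM.wS1 j.val ^ (-(1 / 100) : ℝ) else 1)) (by
      intro i
      rfl)
  rw [ub4_exW (WN j (1 / 100)) rfl (fun i => rfl) _ _ hA hB]
  rw [ub4_wS0 _ hj, ub4_wS1 _ hj]
  simp only [ub4_aE, ub4_bE]
  generalize j.val = n at hj
  have x1 := ub4_p1
  have x2 := ub4_p2
  have x3 := ub4_p3
  have x4 := ub4_p4
  have y1 := ub4_n1
  have y2 := ub4_n2
  have y3 := ub4_n3
  have z1 : (0 : ℝ) ≤ (3 / 8 : ℝ) ^ (1 + 1 / 100 : ℝ) := Real.rpow_nonneg (by norm_num) _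
  have z2 : (0 : ℝ) ≤ (1 / 4 : ℝ) ^ (1 + 1 / 100 : ℝ) := Real.rpow_nonneg (by norm_num) _
  have z3 : (0 : ℝ) ≤ (5 / 8 : ℝ) ^ (1 + 1 / 100 : ℝ) := Real.rpow_nonneg (by norm_num) _
  have z4 : (0 : ℝ) ≤ (1 / 8 : ℝ) ^ (1 + 1 / 100 : ℝ) := Real.rpow_nonneg (by norm_num) _
  have w1 : (0 : ℝ) ≤ (1 / 2 : ℝ) ^ (-(1 / 100) : ℝ) := Real.rpow_nonneg (by norm_num) _
  have w2 : (0 : ℝ) ≤ (5 / 8 : ℝ) ^ (-(1 / 100) : ℝ) := Real.rpow_nonneg (by norm_num) _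
  have w3 : (0 : ℝ) ≤ (3 / 8 : ℝ) ^ (-(1 / 100) : ℝ) := Real.rpow_nonneg (by norm_num) _
  clear hA hB
  interval_cases n <;> simp (config := {decide := true}) only [if_true, if_false] <;>
    generalize (3 / 8 : ℝ) ^ (1 + 1 / 100 : ℝ) = a1 at * <;>
    generalize (1 / 4 : ℝ) ^ (1 + 1 / 100 : ℝ) = a2 at * <;>
    generalize (5 / 8 : ℝ) ^ (1 + 1 / 100 : ℝ) = a3 at * <;>
    generalize (1 / 8 : ℝ) ^ (1 + 1 / 100 : ℝ) = a4 at * <;>
    generalize (1 / 2 : ℝ) ^ (-(1 / 100) : ℝ) = b1 at * <;>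
    generalize (5 / 8 : ℝ) ^ (-(1 / 100) : ℝ) = b2 at * <;>
    generalize (3 / 8 : ℝ) ^ (-(1 / 100) : ℝ) = b3 at * <;>
    have m11 := mul_le_mul x1 y1 w1 (by norm_num) <;>
    have m21 := mul_le_mul x2 y1 w1 (by norm_num) <;>
    have m41 := mul_le_mul x4 y1 w1 (by norm_num) <;>
    have m32 := mul_le_mul x3 y2 w2 (by norm_num) <;>
    have m43 := mul_le_mul x4 y3 w3 (by norm_num) <;>
    have m23 := mul_le_mul x2 y3 w3 (by norm_num) <;>
    linarith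

alias num_D0 := num_D0_pr

alias num_U := num_U_pr

alias num_D := num_D_pr

alias num_N := num_N_pr

end Pool.Agent.UPA
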