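import Pool.Agent.Lib_helper15.UPAF.UA6
import Pool.Agent.Lib_helper15.UPAF.UB1
import Pool.Agent.Lib_helper15.UPAF.UB2
import Pool.Agent.Lib_helper15.UPAF.UB3
import Pool.Agent.Lib_helper15.UPAF.UB4
import Pool.Agent.Lib_helper15.PFM.Poly
import Pool.Agent.Lib_helper15.PFMF.F5
import Pool.Agent.Lib_helper18.PENKF.PE1
import Pool.Agent.Lib_helper88.NCF.NA1
import Pool.Agent.Lib_helper88.NC.Ok

/-!
# MP_892e4c_nt (B*): the inputs (DG), (DGN), (UB) (helper15)
-/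

set_option autoImplicit false

namespace Pool.Agent.UPA

open Finset Filter Pool.Agent.PENT Pool.Agent.PATH.NC Pool.Agent.PFM
open Pool.Agent.PENK (PolyK Wts dn dl mL ich EquiF PerP prs lw L1 Rf Bas)

/-- products over the primes of `D(u)` of `2/(p+1)` and the edge weights -/
theorem edge_prod11 {P0 P : ℕ} {u : PolyK 11} (h : IsP univ P0 u) (W : Wts 11) (hW : W.Ok) :
    (∏ j, ∏ l ∈ (dn u j).primeFactors, lw P l (W.al j)) *
      (∏ p ∈ (DE univ u).primeFactors, 2 / ((p : ℝ) + 1)) ≤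
      ∏ j, ∏ l ∈ (dn u j).primeFactors, 2 * lw P l (W.al j) / (l : ℝ) := by
  rw [prod_DE h, ← Finset.prod_mul_distrib]
  have lw0 : ∀ (l : ℕ) (j : Fin 11), 0 ≤ lw P l (W.al j) := by
    intro l j
    unfold lw
    split_ifs
    · exact hW.al0 j
    · exact zero_le_one
  apply Finset.prod_le_prod
  · intro j _
    apply mul_nonneg
    · exact Finset.prod_nonneg (fun l _ => lw0 l j)
    · exact Finset.prod_nonneg (fun l _ => by positivity)
  · intro j _
    rw [← Finset.prod_mul_distrib]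
    apply Finset.prod_le_prod
    · intro l _
      exact mul_nonneg (lw0 l j) (by positivity)
    · intro l hl
      have hl0 : (0 : ℝ) < l := by
        exact_mod_cast (Nat.prime_of_mem_primeFactors hl).pos
      rw [mul_div_assoc', mul_comm (lw P l (W.al j)) 2]
      apply div_le_div_of_nonneg_left _ hl0 (by linarith)
      exact mul_nonneg (by norm_num) (lw0 l j)

/-- the exponents -/
theorem e_le {p : Prm 10} {τ : ℝ} (hp : p.Ok τ) (hτ0 : 0 < τ) (hτ : τ ≤ 1 / 200) (j : Fin 11)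
    (h2 : 2 ≤ j.val) (h8 : j.val + 2 ≤ 10) : p.e j + p.ew ≤ 3 / 2 * τ := by
  have hew := hp.ew0
  have h1 := hp.ew1 j h2 h8
  have he : 0 < p.e j := by
    by_contra hne
    push Not at hne
    nlinarith
  have hep := hp.ep1
  have h3 : p.e j ≤ τ := by
    by_cases hev : Even j.val
    · have h4 := hp.even j h2 h8 hev
      have hem0 : 0 < p.em := by
        by_contra hne
        push Not at hne
        nlinarith
      have hta := hp.em_ta
      have hta0 : 0 < p.ta := by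
        by_contra hne
        push Not at hne
        nlinarith
      have hep' := hp.ta_ep
      have hep0 : 0 < p.ep := by
        by_contra hne
        push Not at hne
        nlinarith
      have h5 : p.ta ≤ 1 := by nlinarith
      have h6 : p.em ≤ 1 := by nlinarith
      nlinarith
    · rw [hp.odd j h2 h8 hev]; exact hep
  nlinarith

/-- sizes of the paths of the family -/
theorem gp_sz {p : Prm 10} {τ : ℝ} (hp : p.Ok τ) (hτ0 : 0 < τ) (hτ : τ ≤ 1 / 200) :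
    ∃ X₀ : ℕ, ∀ X ≥ X₀, 3 ≤ (X : ℝ) ^ τ ∧ ∀ u : Vec 10, GP p X u →
      (∀ j, |((u j).1 : ℝ)| ≤ (X : ℝ) ^ (2 * τ) ∧ |((u j).2 : ℝ)| ≤ (X : ℝ) ^ (2 * τ)) ∧
      (DE univ (tp u) : ℝ) ≤ (X : ℝ) ^ (55 * τ) := by
  have t1 : Tendsto (fun X : ℕ => (X : ℝ) ^ τ) atTop atTop :=
    (tendsto_rpow_atTop hτ0).comp tendsto_natCast_atTop_atTop
  obtain ⟨X₀, h⟩ := eventually_atTop.1 ((t1.eventually_ge_atTop 3).and
    (t1.eventually_ge_atTop (1 / p.c1)))
  refine ⟨X₀ + 1, fun X hX => ?_⟩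
  obtain ⟨a1, a2⟩ := h X (by omega)
  refine ⟨a1, fun u hu => ?_⟩
  have hX1 : (1 : ℝ) ≤ X := by exact_mod_cast (by omega : 1 ≤ X)
  have hX0 : (0 : ℝ) < X := by linarith
  have hc := hp.c10
  have hco : ∀ j, |((u j).1 : ℝ)| ≤ (X : ℝ) ^ (2 * τ) ∧ |((u j).2 : ℝ)| ≤ (X : ℝ) ^ (2 * τ) := by
    intro j
    refine na1_coord hu hc _ (Real.one_le_rpow hX1 (by positivity)) ?_ ?_ j
    · have e : (X : ℝ) ^ (2 * τ) = (X : ℝ) ^ τ * (X : ℝ) ^ τ := by
        rw [← Real.rpow_add hX0]; congr 1; ring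
      rw [e, div_eq_mul_one_div]
      exact mul_le_mul (Real.rpow_le_rpow_of_exponent_le hX1 hp.ep1) a2 (by positivity)
        (by positivity)
    · intro i h2 h8
      apply Real.rpow_le_rpow_of_exponent_le hX1
      have := e_le hp hτ0 hτ i h2 h8
      linarith
  refine ⟨hco, ?_⟩
  have hdn : ∀ j, (dn (tp u) j : ℝ) ≤ (X : ℝ) ^ (5 * τ) := by
    intro j
    unfold dn dl dt tp
    rw [Nat.cast_natAbs]
    push_cast
    obtain ⟨a, b⟩ := hco j
    obtain ⟨c, d⟩ := hco (j + 1 : Fin 11)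
    have e : (X : ℝ) ^ (5 * τ) = (X : ℝ) ^ τ * ((X : ℝ) ^ (2 * τ) * (X : ℝ) ^ (2 * τ)) := by
      rw [← Real.rpow_add hX0, ← Real.rpow_add hX0]; congr 1; ring
    have hpos : 0 ≤ (X : ℝ) ^ (2 * τ) := by positivity
    rw [e]
    calc |((u j).1 : ℝ) * ((u (j + 1 : Fin 11)).2 : ℝ) - ((u j).2 : ℝ) * ((u (j + 1 : Fin 11)).1 : ℝ)|
        ≤ |((u j).1 : ℝ) * ((u (j + 1 : Fin 11)).2 : ℝ)| +
          |((u j).2 : ℝ) * ((u (j + 1 : Fin 11)).1 : ℝ)| := abs_sub _ _
      _ ≤ (X : ℝ) ^ (2 * τ) * (X : ℝ) ^ (2 * τ) + (X : ℝ) ^ (2 * τ) * (X : ℝ) ^ (2 * τ) := by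
          rw [abs_mul, abs_mul]
          exact add_le_add (mul_le_mul a d (abs_nonneg _) hpos)
            (mul_le_mul b c (abs_nonneg _) hpos)
      _ ≤ (X : ℝ) ^ τ * ((X : ℝ) ^ (2 * τ) * (X : ℝ) ^ (2 * τ)) := by
          have : 0 ≤ (X : ℝ) ^ (2 * τ) * (X : ℝ) ^ (2 * τ) := by positivity
          nlinarith
  unfold DE
  rw [Nat.cast_prod]
  calc ∏ j, (dn (tp u) j : ℝ) ≤ ∏ _j : Fin 11, (X : ℝ) ^ (5 * τ) :=
        Finset.prod_le_prod (fun j _ => Nat.cast_nonneg _) (fun j _ => hdn j)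
    _ = (X : ℝ) ^ (55 * τ) := by
        rw [Finset.prod_const, Finset.card_univ, Fintype.card_fin, ← Real.rpow_natCast,
          ← Real.rpow_mul hX0.le]
        congr 1; push_cast; ring

/-- the number of paths -/
theorem gs_card {p : Prm 10} {τ : ℝ} (hp : p.Ok τ) (hτ0 : 0 < τ) (hτ : τ ≤ 1 / 200) :
    ∃ X₀ : ℕ, ∀ X ≥ X₀, ((GS p X).card : ℝ) ≤ (X : ℝ) ^ (66 * τ) := by
  classical
  obtain ⟨X₀, h⟩ := gp_sz hp hτ0 hτ
  refine ⟨X₀ + 1, fun X hX => ?_⟩
  obtain ⟨h3, h⟩ := h X (by omega)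
  have hX1 : (1 : ℝ) ≤ X := by exact_mod_cast (by omega : 1 ≤ X)
  have hX0 : (0 : ℝ) < X := by linarith
  set N : ℤ := ⌊(X : ℝ) ^ (2 * τ)⌋ with hN
  have hsub : GS p X ⊆ Fintype.piFinset (fun _ : Fin 11 => (Icc (-N) N) ×ˢ (Icc (-N) N)) := by
    intro u hu
    have hg := (mem_GS hp.c10).1 hu
    rw [Fintype.mem_piFinset]
    intro j
    obtain ⟨a, b⟩ := (h u hg).1 j
    have key : ∀ z : ℤ, |(z : ℝ)| ≤ (X : ℝ) ^ (2 * τ) → -N ≤ z ∧ z ≤ N := by
      intro z hz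
      have h1 : |z| ≤ N := by
        rw [hN]
        apply Int.le_floor.2
        push_cast
        exact hz
      exact abs_le.1 h1
    rw [Finset.mem_product, Finset.mem_Icc, Finset.mem_Icc]
    exact ⟨key _ a, key _ b⟩
  have h1 := Finset.card_le_card hsub
  rw [Fintype.card_piFinset] at h1
  simp only [Finset.card_product, Int.card_Icc, Finset.prod_const, Finset.card_univ,
    Fintype.card_fin] at h1
  have hN0 : 0 ≤ N := Int.floor_nonneg.2 (by positivity)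
  have h2 : (((N + 1 - -N).toNat : ℕ) : ℝ) ≤ (X : ℝ) ^ (3 * τ) := by
    have e : (((N + 1 - -N).toNat : ℕ) : ℤ) = N + 1 - -N := Int.toNat_of_nonneg (by omega)
    have e' : (((N + 1 - -N).toNat : ℕ) : ℝ) = ((N + 1 - -N : ℤ) : ℝ) := by
      exact_mod_cast congrArg (Int.cast (R := ℝ)) e
    rw [e']
    push_cast
    have h4 : (N : ℝ) ≤ (X : ℝ) ^ (2 * τ) := Int.floor_le _
    have h5 : 1 ≤ (X : ℝ) ^ (2 * τ) := Real.one_le_rpow hX1 (by positivity)
    have e2 : (X : ℝ) ^ (3 * τ) = (X : ℝ) ^ τ * (X : ℝ) ^ (2 * τ) := by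
      rw [← Real.rpow_add hX0]; congr 1; ring
    rw [e2]
    nlinarith
  calc ((GS p X).card : ℝ) ≤ (((N + 1 - -N).toNat * (N + 1 - -N).toNat) ^ 11 : ℕ) := by
        exact_mod_cast h1
    _ = ((((N + 1 - -N).toNat : ℕ) : ℝ)) ^ 22 := by push_cast; ring
    _ ≤ ((X : ℝ) ^ (3 * τ)) ^ 22 := pow_le_pow_left₀ (Nat.cast_nonneg _) h2 22
    _ = (X : ℝ) ^ (66 * τ) := by
        rw [← Real.rpow_natCast, ← Real.rpow_mul hX0.le]; congr 1; push_cast; ring

/-- the edge products -/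
theorem edP_eq {p : Prm 10} {X : ℕ} {u : Vec 10} (h : GP p X u) (W : Wts 11) (P : ℕ) :
    ∏ j, ∏ l ∈ (dn (tp u) j).primeFactors, 2 * lw P l (W.al j) / (l : ℝ) =
      edP W feD P (tp u) := by
  unfold edP feD
  rw [← Finset.mul_prod_erase univ (fun j => ∏ l ∈ (dn (tp u) j).primeFactors,
    2 * lw P l (W.al j) / (l : ℝ)) (Finset.mem_univ (10 : Fin 11)), dn_last h]
  simp

/-- first moments -/
theorem fmom (W : Wts 11) (hW : W.Ok) {e : ℝ} (he : 9 + exW feD univ W ≤ e) (he7 : -7 ≤ e)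
    {C1 : ℝ} (hC1 : 1 ≤ C1) : ∃ τ₀ : ℝ, 0 < τ₀ ∧ ∀ p : Prm 10, p.Ok τ₀ →
    ∃ t₁ : ℝ, 0 < t₁ ∧ ∀ t : ℝ, 0 < t → t ≤ t₁ → ∃ C : ℝ, 0 ≤ C ∧ ∃ X₀ : ℕ, ∀ X ≥ X₀,
      ∀ F : ℤ × ℤ × ℤ → Vec 10 → ℝ,
      (∀ q ∈ AW C1 X, ∀ u ∈ GS p X, GD q u →
        F q u ≤ W1 W ⌊PP X⌋₊ ⌊(X : ℝ) ^ t⌋₊ univ univ (tp u) q) →
      (∀ q ∈ AW C1 X, ∀ u ∈ GS p X, ¬ GD q u → F q u ≤ 0) →
      ∑ q ∈ AW C1 X, ∑ u ∈ GS p X, F q u ≤ C * X * Real.log X ^ e := by
  classical
  obtain ⟨δ, hδ0, hδ1, hE⟩ := Pool.Agent.PENK.eqq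
  obtain ⟨τ₂, hτ₂, H2⟩ := usum_D W hW
  refine ⟨min τ₂ (δ / 1000), lt_min hτ₂ (by positivity), fun p hp => ?_⟩
  have hσ0 : 0 < min τ₂ (δ / 1000) := lt_min hτ₂ (by positivity)
  set σ : ℝ := min τ₂ (δ / 1000) with hσ
  have hσδ : σ ≤ δ / 1000 := min_le_right _ _
  have hσ1 : σ ≤ 1 / 200 := by linarith
  have hp2 : p.Ok τ₂ := hp.mono hσ0 (by norm_num) (min_le_left _ _)
  obtain ⟨τ₀, hτ₀, Ca, x₀, hCa, hx₀, H1⟩ :=
    rsum1 (K := 11) univ univ W hW hδ0 hδ1 hE (2 * C1) (by linarith)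
  obtain ⟨t₂, ht₂, H2⟩ := H2 p hp2
  refine ⟨min τ₀ t₂, lt_min hτ₀ ht₂, fun t ht ht' => ?_⟩
  obtain ⟨Cb, hCb, X₂, H3⟩ := H2 t ht (ht'.trans (min_le_right _ _))
  obtain ⟨XS, HS⟩ := gp_sz hp hσ0 hσ1
  obtain ⟨XC, HC⟩ := gs_card hp hσ0 hσ1
  -- conditions for large `X`
  have hlog : Tendsto (fun X : ℕ => Real.log (X : ℝ)) atTop atTop :=
    Real.tendsto_log_atTop.comp tendsto_natCast_atTop_atTop
  have ev1 : ∀ᶠ X : ℕ in atTop, 3 ≤ PP X := by
    have t4 : Tendsto (fun X : ℕ => Real.exp (Real.log (X : ℝ) ^ (1 / 100 : ℝ))) atTop atTop :=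
      Real.tendsto_exp_atTop.comp ((tendsto_rpow_atTop (by norm_num)).comp hlog)
    exact t4.eventually_ge_atTop 3
  have ev2 : ∀ᶠ X : ℕ in atTop, Real.log (X : ℝ) ^ 7 ≤ (X : ℝ) ^ (δ / 4) := by
    have h1 := (isLittleO_log_rpow_atTop (r := δ / 28) (by positivity)).bound (c := 1) one_pos
    have h2 := tendsto_natCast_atTop_atTop (R := ℝ) |>.eventually h1
    filter_upwards [h2, hlog.eventually_ge_atTop 1,
      (tendsto_natCast_atTop_atTop (R := ℝ)).eventually_ge_atTop 1] with X h3 h4 h5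
    rw [one_mul, Real.norm_of_nonneg (by linarith),
      Real.norm_of_nonneg (Real.rpow_nonneg (by linarith) _)] at h3
    calc Real.log (X : ℝ) ^ 7 ≤ ((X : ℝ) ^ (δ / 28)) ^ 7 := pow_le_pow_left₀ (by linarith) h3 7
      _ = (X : ℝ) ^ (δ / 4) := by
          rw [← Real.rpow_natCast, ← Real.rpow_mul (by linarith)]; congr 1; push_cast; ring
  obtain ⟨X₃, hX₃⟩ := eventually_atTop.1 (ev1.and (ev2.and ((hlog.eventually_ge_atTop 1).and
    (((tendsto_natCast_atTop_atTop (R := ℝ)).eventually_ge_atTop x₀).and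
      ((tendsto_rpow_atTop ht).comp (tendsto_natCast_atTop_atTop (R := ℝ))
        |>.eventually_ge_atTop 1)))))
  refine ⟨Ca * Cb + 1, by positivity, X₂ + X₃ + XS + XC + 3, fun X hX F hF1 hF0 => ?_⟩
  obtain ⟨a1, a2, a3, a4, a5⟩ := hX₃ X (by omega)
  have hX2 : 2 ≤ X := by omega
  have hXr : (2 : ℝ) ≤ X := by exact_mod_cast hX2
  have hX0 : (0 : ℝ) < X := by linarith
  have hX1 : (1 : ℝ) ≤ X := by linarith
  set P0 : ℕ := ⌊PP X⌋₊ with hP0
  set P : ℕ := ⌊(X : ℝ) ^ t⌋₊ with hP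
  have hP02 : 2 ≤ P0 := by
    rw [hP0]; exact Nat.le_floor (by push_cast; linarith)
  have hP1 : 1 ≤ P := Nat.le_floor (by push_cast; exact a5)
  have hPX : (P : ℝ) ≤ (X : ℝ) ^ τ₀ :=
    (Nat.floor_le (by positivity)).trans
      (Real.rpow_le_rpow_of_exponent_le hX1 (ht'.trans (min_le_left _ _)))
  rw [Finset.sum_comm]
  -- one path
  have s3 : ∀ u ∈ GS p X, ∑ q ∈ AW C1 X, F q u ≤
      Ca * X * (edP W feD P (tp u) * vxP W feD univ P0 P (tp u)) + (X : ℝ) ^ (1 - δ / 2) := by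
    intro u hu
    have hgp : GP p X u := (mem_GS hp.c10).1 hu
    have hisP := gp_isP hgp univ
    obtain ⟨_, hsz⟩ := (HS X (by omega)).2 u hgp
    set S : Finset Bas := (AW C1 X).filter (fun q => GD q u) with hS
    have e1 : ∑ q ∈ AW C1 X, F q u ≤ ∑ R ∈ S, W1 W P0 P univ univ (tp u) R := by
      rw [← Finset.sum_filter_add_sum_filter_not (AW C1 X) (fun q => GD q u)]
      have z : ∑ q ∈ (AW C1 X).filter (fun q => ¬ GD q u), F q u ≤ 0 :=
        Finset.sum_nonpos (fun q hq => by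
          obtain ⟨h1, h2⟩ := Finset.mem_filter.1 hq
          exact hF0 q h1 u hu h2)
      have z2 : ∑ q ∈ (AW C1 X).filter (fun q => GD q u), F q u ≤
          ∑ R ∈ S, W1 W P0 P univ univ (tp u) R :=
        Finset.sum_le_sum (fun q hq => by
          obtain ⟨h1, h2⟩ := Finset.mem_filter.1 hq
          exact hF1 q h1 u hu h2)
      linarith
    refine e1.trans ?_
    have e2 : ∑ R ∈ S, W1 W P0 P univ univ (tp u) R =
        (∏ j, ∏ l ∈ (dn (tp u) j).primeFactors, lw P l (W.al j)) *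
          ∑ R ∈ S, ∏ p ∈ (prs 2 P).filter (fun p => ¬ p ∣ DE univ (tp u)),
            ph W P0 univ (tp u) p R := by
      rw [Finset.mul_sum]
      apply Finset.sum_congr rfl
      intro R _
      exact W1_split hP02 hisP W R
    rw [e2]
    have hDE : (DE univ (tp u) : ℝ) ≤ (X : ℝ) ^ (δ / 2) :=
      hsz.trans (Real.rpow_le_rpow_of_exponent_le hX1 (by linarith))
    have h5 := H1 X a4 P0 P hP02 hP1 hPX (tp u) hisP hDE S (by
      intro q hq
      obtain ⟨hq1, hq2⟩ := Finset.mem_filter.1 hq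
      unfold AW at hq1
      rw [Finset.mem_filter, Finset.mem_product, Finset.mem_product, Finset.mem_Ioc,
        Finset.mem_Icc, Finset.mem_Icc] at hq1
      obtain ⟨⟨⟨b1, b2⟩, ⟨b3, b4⟩, ⟨b5, b6⟩⟩, b7, b8⟩ := hq1
      refine ⟨b7, ?_, ?_, ?_, ?_⟩
      · exact_mod_cast b1
      · exact_mod_cast b2
      · have c1 : (0 : ℝ) ≤ (q.2.1 : ℝ) := by exact_mod_cast (by omega : (0 : ℤ) ≤ q.2.1)
        rw [abs_of_nonneg c1]
        exact (Int.cast_le.2 b4).trans (Int.floor_le _)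
      · intro j _
        by_cases hj : j = 10
        · subst hj
          have := dn_last hgp
          unfold dn at this
          rw [Int.natAbs_eq_iff] at this
          rcases this with h | h
          · rw [h]; exact one_dvd _
          · rw [h]; exact (neg_dvd).2 (one_dvd _)
        · have hj10 : j.val ≠ 10 := fun h => hj (Fin.ext h)
          have hlt := j.isLt
          have h6 := (hq2 ⟨j.val, by omega⟩).1
          have h7 : dE u (j.val + 1) = dn (tp u) j := (dn_dE u j hj).symm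
          have h8 : (⟨j.val, by omega⟩ : Fin 10).castSucc = j := Fin.ext rfl
          rw [h8] at h6
          simp only at h6
          rw [h7] at h6
          unfold dn at h6
          exact (Int.natAbs_dvd.1 h6))
    have hlw0 : 0 ≤ ∏ j, ∏ l ∈ (dn (tp u) j).primeFactors, lw P l (W.al j) := by
      apply Finset.prod_nonneg; intro j _
      apply Finset.prod_nonneg; intro l _
      unfold lw; split_ifs
      · exact hW.al0 j
      · exact zero_le_one
    have hlw1 : ∏ j, ∏ l ∈ (dn (tp u) j).primeFactors, lw P l (W.al j) ≤ 1 := by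
      apply Finset.prod_le_one
      · intro j _
        apply Finset.prod_nonneg; intro l _
        unfold lw; split_ifs
        · exact hW.al0 j
        · exact zero_le_one
      · intro j _
        apply Finset.prod_le_one
        · intro l _
          unfold lw; split_ifs
          · exact hW.al0 j
          · exact zero_le_one
        · intro l _
          unfold lw; split_ifs
          · have := hW.al1 j; linarith
          · exact le_rfl
    have hV0 : 0 ≤ ∏ l ∈ (prs (100 * 11) P).filter (fun l => ¬ l ∣ DE univ (tp u)),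
        (1 - v1 W P0 univ (tp u) l) := by
      apply Finset.prod_nonneg
      intro l hl
      have hl1 := (Finset.mem_filter.1 hl).1
      simp only [prs, Finset.mem_filter, Finset.mem_Ioc] at hl1
      have := v1_mem W hW P0 univ (tp u) hl1.2 (by omega)
      linarith [this.2]
    have hvx : vxP W feD univ P0 P (tp u) =
        ∏ l ∈ (prs (100 * 11) P).filter (fun l => ¬ l ∣ DE univ (tp u)),
          (1 - v1 W P0 univ (tp u) l) := by
      unfold vxP
      rw [DE_univ hgp]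
    calc _ ≤ (∏ j, ∏ l ∈ (dn (tp u) j).primeFactors, lw P l (W.al j)) *
          (Ca * X * ((∏ p ∈ (DE univ (tp u)).primeFactors, 2 / ((p : ℝ) + 1)) *
          ∏ p ∈ (prs (100 * 11) P).filter (fun p => ¬ p ∣ DE univ (tp u)),
            (1 - v1 W P0 univ (tp u) p)) +
          (X : ℝ) ^ (1 - δ / 2)) := mul_le_mul_of_nonneg_left h5 hlw0
      _ = Ca * X * (((∏ j, ∏ l ∈ (dn (tp u) j).primeFactors, lw P l (W.al j)) *
            (∏ p ∈ (DE univ (tp u)).primeFactors, 2 / ((p : ℝ) + 1))) *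
          ∏ p ∈ (prs (100 * 11) P).filter (fun p => ¬ p ∣ DE univ (tp u)),
            (1 - v1 W P0 univ (tp u) p)) +
          (∏ j, ∏ l ∈ (dn (tp u) j).primeFactors, lw P l (W.al j)) * (X : ℝ) ^ (1 - δ / 2) := by
          ring
      _ ≤ Ca * X * ((∏ j, ∏ l ∈ (dn (tp u) j).primeFactors, 2 * lw P l (W.al j) / (l : ℝ)) *
          ∏ l ∈ (prs (100 * 11) P).filter (fun l => ¬ l ∣ DE univ (tp u)),
            (1 - v1 W P0 univ (tp u) l)) +
          1 * (X : ℝ) ^ (1 - δ / 2) := by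
          have hCX : 0 ≤ Ca * (X : ℝ) := mul_nonneg hCa hX0.le
          exact add_le_add (mul_le_mul_of_nonneg_left
            (mul_le_mul_of_nonneg_right (edge_prod11 hisP W hW) hV0) hCX)
            (mul_le_mul_of_nonneg_right hlw1 (Real.rpow_nonneg hX0.le (1 - δ / 2)))
      _ = _ := by rw [one_mul, edP_eq hgp, hvx]
  refine (Finset.sum_le_sum s3).trans ?_
  rw [Finset.sum_add_distrib, Finset.sum_const, nsmul_eq_mul, ← Finset.mul_sum]
  have h6 := H3 X (by omega)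
  have h7 := HC X (by omega)
  have hL1 : 1 ≤ Real.log X := a3
  have hL0 : 0 < Real.log X := by linarith
  have h8 : Real.log X ^ (9 + exW feD univ W) ≤ Real.log X ^ e :=
    Real.rpow_le_rpow_of_exponent_le hL1 he
  have h9 : (X : ℝ) ^ (66 * σ) * (X : ℝ) ^ (1 - δ / 2) ≤ 1 * X * Real.log X ^ e := by
    have e1 : (X : ℝ) ^ (66 * σ) * (X : ℝ) ^ (1 - δ / 2) =
        X * (X : ℝ) ^ (66 * σ - δ / 2) := by
      rw [← Real.rpow_add hX0]
      conv_rhs => rw [← Real.rpow_one_add' hX0.le (by intro h; linarith)]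
      congr 1; ring
    rw [e1, one_mul]
    apply mul_le_mul_of_nonneg_left _ hX0.le
    have e2 : (X : ℝ) ^ (66 * σ - δ / 2) ≤ ((X : ℝ) ^ (δ / 4))⁻¹ := by
      rw [← Real.rpow_neg hX0.le]
      exact Real.rpow_le_rpow_of_exponent_le hX1 (by linarith)
    refine e2.trans ?_
    have e3 : Real.log X ^ (-7 : ℝ) ≤ Real.log X ^ e :=
      Real.rpow_le_rpow_of_exponent_le hL1 he7
    refine le_trans ?_ e3
    rw [Real.rpow_neg hL0.le]
    apply inv_anti₀ (Real.rpow_pos_of_pos hL0 _)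
    rw [show (7 : ℝ) = ((7 : ℕ) : ℝ) by norm_num, Real.rpow_natCast]
    exact a2
  have h10 : 0 ≤ (X : ℝ) ^ (1 - δ / 2) := Real.rpow_nonneg hX0.le _
  calc _ ≤ Ca * X * (Cb * Real.log X ^ (9 + exW feD univ W)) +
        (X : ℝ) ^ (66 * σ) * (X : ℝ) ^ (1 - δ / 2) := by
        apply add_le_add
        · exact mul_le_mul_of_nonneg_left h6 (by positivity)
        · exact mul_le_mul_of_nonneg_right h7 h10
    _ ≤ Ca * X * (Cb * Real.log X ^ e) + 1 * X * Real.log X ^ e := by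
        apply add_le_add _ h9
        exact mul_le_mul_of_nonneg_left (mul_le_mul_of_nonneg_left h8 hCb) (by positivity)
    _ = _ := by ring

theorem W_zero {p : Prm 10} {X : ℕ} {q : ℤ × ℤ × ℤ} {u : Vec 10} (h : ¬ GD q u) :
    W p X q u = 0 := by
  unfold Pool.Agent.PATH.NC.W
  rw [if_neg h]

theorem mE10 : mE 10 = 6 := by
  unfold mE; norm_num

/-- **(DG)** -/
theorem DG_all (C1 : ℝ) (hC1 : 1 ≤ C1) : ∃ τ₀ : ℝ, 0 < τ₀ ∧ ∀ p : Prm 10, p.Ok τ₀ → DG p C1 := by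
  classical
  obtain ⟨τa, hτa, Ha⟩ := fmom (WD 0) (WD_ok le_rfl) (e := -6) num_D0.le (by norm_num) hC1
  obtain ⟨τb, hτb, Hb⟩ := fmom (WD (1 / 100)) (WD_ok (by norm_num))
    (e := -6 * (1 + 1 / 100) - 3 / 4 * (1 / 100)) num_D (by norm_num) hC1
  have h0 : 0 < min (min τa τb) (1 / 200) := lt_min (lt_min hτa hτb) (by norm_num)
  refine ⟨min (min τa τb) (1 / 200), h0, fun p hp => ?_⟩
  have hpa : p.Ok τa := hp.mono h0 (by norm_num) ((min_le_left _ _).trans (min_le_left _ _))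
  have hpb : p.Ok τb := hp.mono h0 (by norm_num) ((min_le_left _ _).trans (min_le_right _ _))
  have h2 : min (min τa τb) (1 / 200) ≤ 1 / 200 := min_le_right _ _
  obtain ⟨ta, hta, Ha⟩ := Ha p hpa
  obtain ⟨tb, htb, Hb⟩ := Hb p hpb
  have hpt : 0 < p.ta := hp.ta_pos h0 (by norm_num)
  have ht0 : 0 < min (min ta tb) p.ta := lt_min (lt_min hta htb) hpt
  set t : ℝ := min (min ta tb) p.ta with ht
  obtain ⟨Ca, hCa, Xa, Ha⟩ := Ha t ht0 ((min_le_left _ _).trans (min_le_left _ _))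
  obtain ⟨Cb, hCb, Xb, Hb⟩ := Hb t ht0 ((min_le_left _ _).trans (min_le_right _ _))
  refine ⟨Ca + Cb, 1 / 100, by norm_num, by norm_num, Xa + Xb + 2, fun X hX => ⟨?_, ?_⟩⟩
  · have h := Ha X (by omega) (fun q u => W p X q u) (fun q hq u hu _ => by
      have h3 := ptw_D hp h2 (t := t) (min_le_right _ _) (by omega : 2 ≤ X) hq
        ((mem_GS hp.c10).1 hu) (η := 0) le_rfl
      rwa [add_zero, Real.rpow_one] at h3) (fun q hq u hu hn => (W_zero hn).le)
    refine h.trans ?_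
    rw [mE10]
    have hL : 0 ≤ Real.log X ^ (-6 : ℝ) := Real.rpow_nonneg (Real.log_natCast_nonneg X) _
    have : 0 ≤ Cb * X * Real.log X ^ (-6 : ℝ) := by positivity
    calc _ ≤ Ca * X * Real.log X ^ (-6 : ℝ) + Cb * X * Real.log X ^ (-6 : ℝ) := by linarith
      _ = _ := by ring
  · have h := Hb X (by omega) (fun q u => W p X q u ^ (1 + 1 / 100 : ℝ)) (fun q hq u hu _ =>
      ptw_D hp h2 (t := t) (min_le_right _ _) (by omega : 2 ≤ X) hq
        ((mem_GS hp.c10).1 hu) (η := 1 / 100) (by norm_num)) (fun q hq u hu hn => by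
        rw [W_zero hn, Real.zero_rpow (by norm_num)])
    refine h.trans ?_
    rw [mE10]
    have hL : 0 ≤ Real.log X ^ (-6 * (1 + 1 / 100) - 3 / 4 * (1 / 100) : ℝ) :=
      Real.rpow_nonneg (Real.log_natCast_nonneg X) _
    have : 0 ≤ Ca * X * Real.log X ^ (-6 * (1 + 1 / 100) - 3 / 4 * (1 / 100) : ℝ) := by
      positivity
    calc _ ≤ Cb * X * Real.log X ^ (-6 * (1 + 1 / 100) - 3 / 4 * (1 / 100) : ℝ) +
          Ca * X * Real.log X ^ (-6 * (1 + 1 / 100) - 3 / 4 * (1 / 100) : ℝ) := by linarith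
      _ = _ := by ring

theorem ex_min {n : ℕ} (hn : 0 < n) (f : Fin n → ℝ) (hf : ∀ j, 0 < f j) :
    ∃ a : ℝ, 0 < a ∧ ∀ j, a ≤ f j := by
  classical
  have hne : (univ : Finset (Fin n)).Nonempty := ⟨⟨0, hn⟩, Finset.mem_univ _⟩
  refine ⟨univ.inf' hne f, ?_, fun j => Finset.inf'_le _ (Finset.mem_univ j)⟩
  rw [Finset.lt_inf'_iff]
  exact fun j _ => hf j

/-- **(DGN)** -/
theorem DGN_all (C1 : ℝ) (hC1 : 1 ≤ C1) :
    ∃ τ₀ : ℝ, 0 < τ₀ ∧ ∀ p : Prm 10, p.Ok τ₀ → PENM.DGN p C1 := by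
  classical
  have H := fun j : Fin 10 => fmom (WN j (1 / 100)) (WN_ok j (by norm_num) (by norm_num))
    (e := -6 * (1 + 1 / 100)) (num_N j) (by norm_num) hC1
  choose τj hτj Hj using H
  obtain ⟨τm, hτm, hτm'⟩ := ex_min (by norm_num) τj hτj
  have h0 : 0 < min τm (1 / 200) := lt_min hτm (by norm_num)
  refine ⟨min τm (1 / 200), h0, fun p hp => ?_⟩
  have hpj : ∀ j, p.Ok (τj j) := fun j =>
    hp.mono h0 (by norm_num) ((min_le_left _ _).trans (hτm' j))
  have h2 : min τm (1 / 200) ≤ 1 / 200 := min_le_right _ _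
  have H2 := fun j : Fin 10 => Hj j p (hpj j)
  choose tj htj Hj2 using H2
  obtain ⟨tm, htm, htm'⟩ := ex_min (by norm_num) tj htj
  have hpt : 0 < p.ta := hp.ta_pos h0 (by norm_num)
  have ht0 : 0 < min tm p.ta := lt_min htm hpt
  set t : ℝ := min tm p.ta with ht
  have H3 := fun j : Fin 10 => Hj2 j t ht0 ((min_le_left _ _).trans (htm' j))
  choose Cj hCj Xj Hj3 using H3
  refine ⟨∑ j, Cj j, 1 / 100, by norm_num, by norm_num, ∑ j, Xj j + 2, fun X hX j => ?_⟩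
  have hXj : Xj j ≤ X := by
    have := Finset.single_le_sum (f := Xj) (fun i _ => Nat.zero_le _) (Finset.mem_univ j)
    omega
  have h := Hj3 j X hXj (fun q u => W p X q u * (W p X q u / PENM.nuN p X q u j) ^ (1 / 100 : ℝ))
    (fun q hq u hu _ => ptw_N hp h2 (t := t) (min_le_right _ _) (by omega : 2 ≤ X) hq
        ((mem_GS hp.c10).1 hu) j (η := 1 / 100) (by norm_num) (by norm_num))
    (fun q hq u hu hn => by
        rw [W_zero hn, zero_mul])
  refine h.trans ?_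
  rw [mE10]
  have hL : 0 ≤ Real.log X ^ (-6 * (1 + 1 / 100) : ℝ) :=
      Real.rpow_nonneg (Real.log_natCast_nonneg X) _
  apply mul_le_mul_of_nonneg_right _ hL
  apply mul_le_mul_of_nonneg_right _ (Nat.cast_nonneg _)
  exact Finset.single_le_sum (f := Cj) (fun i _ => hCj i) (Finset.mem_univ j)

end Pool.Agent.UPA
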