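import Pool.Agent.Lib_helper15.UP.Facts
import Pool.Agent.Lib_helper15.PFMF.F9
import Pool.Agent.Lib_helper18.PENKF.PF6

/-! UPA block UA1: equidistribution of the families (helper44) -/

set_option autoImplicit false

namespace Pool.Agent.UPA

open Finset Pool.Agent.PENT Pool.Agent.PATH.NC Pool.Agent.PFM
open Pool.Agent.PENK (PolyK Wts dn dl mL ich EquiF PerP prs lw L1 Rf)
open Pool.Agent.PENK (EquiG mG cg1 equi_prod)

theorem ua1_mono {ι V : Type} {O : Finset ι} {pol : ι → V} {cg : ℕ → V → V → Prop}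
    {L : ℕ → Finset V} {S : Finset ℕ} {Q η η' : ℝ} (h : EquiG O pol cg L S Q η) (hη : η ≤ η') :
    EquiG O pol cg L S Q η' := fun T hT hQ k hk1 hk2 =>
  (h T hT hQ k hk1 hk2).trans (mul_le_mul_of_nonneg_right hη (Nat.cast_nonneg _))

theorem ua1_sum {K : ℕ} (s : Fin (K + 1) → Finset (ℤ × ℤ)) (F : PolyK (K + 1) → ℝ) :
    ∑ u ∈ Fintype.piFinset s, F u =
      ∑ w ∈ s 0 ×ˢ Fintype.piFinset (fun j : Fin K => s j.succ),
        F (Fin.cons (α := fun _ => ℤ × ℤ) w.1 w.2) := by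
  refine Finset.sum_nbij' (fun u => (u 0, fun j => u j.succ))
    (fun w => Fin.cons (α := fun _ => ℤ × ℤ) w.1 w.2) ?_ ?_ ?_ ?_ ?_
  · intro u hu
    rw [Fintype.mem_piFinset] at hu
    rw [Finset.mem_product, Fintype.mem_piFinset]
    exact ⟨hu 0, fun j => hu j.succ⟩
  · intro w hw
    rw [Finset.mem_product, Fintype.mem_piFinset] at hw
    rw [Fintype.mem_piFinset]
    intro j
    refine Fin.cases ?_ ?_ j
    · exact hw.1
    · intro i
      exact hw.2 i
  · intro u _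
    funext j
    refine Fin.cases ?_ ?_ j
    · rfl
    · intro i
      rfl
  · intro w _
    rfl
  · intro u _
    congr 1
    funext j
    refine Fin.cases ?_ ?_ j
    · rfl
    · intro i
      rfl

theorem ua1_card {K : ℕ} (s : Fin (K + 1) → Finset (ℤ × ℤ)) :
    ((Fintype.piFinset s).card : ℝ) =
      ((s 0 ×ˢ Fintype.piFinset (fun j : Fin K => s j.succ)).card : ℝ) := by
  have h := ua1_sum s (fun _ => 1)
  simpa using h

theorem ua1_pi {S : Finset ℕ} {Q : ℝ} : ∀ (K : ℕ) (O : Fin K → Finset (ℤ × ℤ))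
    (L : Fin K → ℕ → Finset (ℤ × ℤ)) (η : Fin K → ℝ), (∀ j, 0 ≤ η j) →
    (∀ j, EquiG (O j) (fun v => v) cg1 (L j) S Q (η j)) →
    EquiG (Fintype.piFinset O) (fun u : PolyK K => u) (fun p u v => ∀ j, cg1 p (u j) (v j))
      (fun p => Fintype.piFinset (fun j => L j p)) S Q (∑ j, η j) := by
  intro K
  induction K with
  | zero =>
    intro O L η _ _ T _ _ h _ _
    simp [mG]
  | succ K ih =>
    intro O L η hη hO
    have hc1 : ∀ (p : ℕ) (v : ℤ × ℤ), cg1 p v v := fun p v => by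
      unfold cg1
      simp
    have h2 := ih (fun j => O j.succ) (fun j => L j.succ) (fun j => η j.succ)
      (fun j => hη j.succ) (fun j => hO j.succ)
    have k := equi_prod hc1 (fun p v j => hc1 p (v j)) (hη 0)
      (Finset.sum_nonneg fun j _ => hη j.succ) (hO 0) h2
    intro T hT hq h hper h01
    have k5 := k T hT hq (fun p w => h p (Fin.cons (α := fun _ => ℤ × ℤ) w.1 w.2))
      (fun p hp v w hvw => by
        apply hper p hp
        intro j
        refine Fin.cases ?_ ?_ j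
        · exact hvw.1
        · intro i
          exact hvw.2 i) (fun p hp w => h01 p hp _)
    have hm : ∀ p ∈ T, mG (Fintype.piFinset (fun j => L j p)) (h p) =
        mG (L 0 p ×ˢ Fintype.piFinset (fun j : Fin K => L j.succ p))
          (fun w => h p (Fin.cons (α := fun _ => ℤ × ℤ) w.1 w.2)) := by
      intro p _
      unfold mG
      rw [ua1_sum, ua1_card]
    show |∑ o ∈ Fintype.piFinset O, ∏ p ∈ T, h p o - ((Fintype.piFinset O).card : ℝ) *
      ∏ p ∈ T, mG (Fintype.piFinset (fun j => L j p)) (h p)| ≤ _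
    rw [ua1_sum, ua1_card, Finset.prod_congr rfl hm, Fin.sum_univ_succ]
    exact k5

/-- one free coordinate -/
theorem ua1_none (A Q : ℕ) (S : Finset ℕ) (hS : ∀ p ∈ S, p.Prime) (hQ : 1 ≤ Q) (hA : Q ^ 2 ≤ A) :
    EquiG (Icc (1 : ℤ) A) (fun v : ℤ => v) (fun p a b => (p : ℤ) ∣ a - b)
      (fun p => Ico (0 : ℤ) p) S (Q : ℝ) (3 * (Q : ℝ) / A) := by
  intro T hT hq h hper h01
  have key := f9_one A Q S hS hQ hA T hT hq (fun p v => h p v.1)
    (fun p hp v v' hv => hper p hp _ _ hv.1) (fun p hp v => h01 p hp v.1)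
  have hA0 : 0 < A := lt_of_lt_of_le (by positivity) hA
  have hAR : (0 : ℝ) < (A : ℝ) := by exact_mod_cast hA0
  have hcard : ((Icc (1 : ℤ) A).card : ℝ) = (A : ℝ) := by
    rw [Int.card_Icc]
    have : ((A : ℤ) + 1 - 1).toNat = A := by omega
    rw [this]
  have e1 : ∑ o ∈ Icc (1 : ℤ) A ×ˢ Icc (1 : ℤ) A, ∏ p ∈ T, h p o.1 =
      (A : ℝ) * ∑ o ∈ Icc (1 : ℤ) A, ∏ p ∈ T, h p o := by
    rw [Finset.sum_product]
    simp only [Finset.sum_const, nsmul_eq_mul]
    rw [hcard, ← Finset.mul_sum]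
  have e2 : ((Icc (1 : ℤ) A ×ˢ Icc (1 : ℤ) A).card : ℝ) = (A : ℝ) * A := by
    rw [Finset.card_product]
    push_cast
    rw [hcard]
  have e3 : ∏ p ∈ T, mG (L1 p) (fun v => h p v.1) = ∏ p ∈ T, mG (Ico (0 : ℤ) p) (h p) := by
    refine Finset.prod_congr rfl fun p hp => ?_
    have hp0 : 0 < p := (hS p (hT hp)).pos
    have hpR : (0 : ℝ) < p := by exact_mod_cast hp0
    have hc : ((Ico (0 : ℤ) p).card : ℝ) = p := by
      rw [Int.card_Ico]
      have : ((p : ℤ) - 0).toNat = p := by omega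
      rw [this]
    unfold mG L1
    rw [Finset.sum_product, Finset.card_product]
    simp only [Finset.sum_const, nsmul_eq_mul]
    rw [← Finset.mul_sum]
    push_cast
    rw [hc]
    field_simp
  have key2 : |(A : ℝ) * ∑ o ∈ Icc (1 : ℤ) A, ∏ p ∈ T, h p o -
      ((A : ℝ) * A) * ∏ p ∈ T, mG (Ico (0 : ℤ) p) (h p)| ≤ 3 * (Q : ℝ) / A * ((A : ℝ) * A) := by
    have := key
    simp only [] at this
    rw [e1, e2, e3] at this
    exact this
  rw [hcard]
  have e4 : (A : ℝ) * ∑ o ∈ Icc (1 : ℤ) A, ∏ p ∈ T, h p o -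
      ((A : ℝ) * A) * ∏ p ∈ T, mG (Ico (0 : ℤ) p) (h p) =
      A * (∑ o ∈ Icc (1 : ℤ) A, ∏ p ∈ T, h p o - A * ∏ p ∈ T, mG (Ico (0 : ℤ) p) (h p)) := by
    ring
  have e5 : 3 * (Q : ℝ) / A * ((A : ℝ) * A) = A * (3 * (Q : ℝ) / A * A) := by ring
  rw [e4, e5, abs_mul, abs_of_pos hAR] at key2
  exact le_of_mul_le_mul_left key2 hAR

/-- one fixed coordinate -/
theorem ua1_some (c : ℤ) (S : Finset ℕ) (Q : ℝ) :
    EquiG ({c} : Finset ℤ) (fun v : ℤ => v) (fun p a b => (p : ℤ) ∣ a - b)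
      (fun _ => ({c} : Finset ℤ)) S Q 0 := by
  intro T _ _ h _ _
  simp [mG]

/-- one coordinate -/
theorem ua1_coord (o : Option ℤ) (A Q : ℕ) (S : Finset ℕ) (hS : ∀ p ∈ S, p.Prime) (hQ : 1 ≤ Q)
    (η : ℝ) (hη : 0 ≤ η) (hA : o = none → Q ^ 2 ≤ A ∧ 66 * (Q : ℝ) ^ 2 ≤ η * A) :
    EquiG (cs o A) (fun v : ℤ => v) (fun p a b => (p : ℤ) ∣ a - b) (cr o) S (Q : ℝ) (η / 22) := by
  cases o with
  | none =>
    obtain ⟨h1, h2⟩ := hA rfl
    refine ua1_mono (ua1_none A Q S hS hQ h1) ?_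
    have hQ1 : (1 : ℝ) ≤ (Q : ℝ) := by exact_mod_cast hQ
    have hAj : (0 : ℝ) < (A : ℝ) := by
      have : 0 < A := lt_of_lt_of_le (by positivity) h1
      exact_mod_cast this
    rw [div_le_iff₀ hAj]
    nlinarith
  | some c => exact ua1_mono (ua1_some c S Q) (by positivity)

theorem fam_equi_pr : ∃ C : ℝ, 0 ≤ C ∧ ∀ (c : Fin 11 → Option ℤ × Option ℤ) (A : Fin 11 → ℕ) (Q : ℕ)
    (η : ℝ) (S : Finset ℕ), (∀ p ∈ S, p.Prime) → 1 ≤ Q → 0 ≤ η →
    (∀ j, ((c j).1 = none ∨ (c j).2 = none) → Q ^ 2 ≤ A j ∧ C * (Q : ℝ) ^ 2 ≤ η * A j) →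
    EquiF (FamO c A) (fun u => u) (LawO c) S (Q : ℝ) η := by
  refine ⟨66, by norm_num, ?_⟩
  intro c A Q η S hS hQ hη hA
  have hr : ∀ (p : ℕ) (a : ℤ), (p : ℤ) ∣ a - a := fun p a => by simp
  have h1 : ∀ j, EquiG (cs (c j).1 (A j) ×ˢ cs (c j).2 (A j)) (fun v => v) cg1
      (fun p => cr (c j).1 p ×ˢ cr (c j).2 p) S (Q : ℝ) (η / 11) := by
    intro j
    have k1 := ua1_coord (c j).1 (A j) Q S hS hQ η hη (fun h => hA j (Or.inl h))
    have k2 := ua1_coord (c j).2 (A j) Q S hS hQ η hη (fun h => hA j (Or.inr h))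
    have k := equi_prod hr hr (by positivity) (by positivity) k1 k2
    exact ua1_mono k (by linarith)
  have h2 := ua1_pi 11 _ _ (fun _ => η / 11) (fun _ => by positivity) h1
  intro T hT hq h hper h01
  have k := h2 T hT hq h (fun p hp u v huv => hper p hp u v huv) h01
  have e : ∑ _j : Fin 11, η / 11 = η := by
    rw [Finset.sum_const, Finset.card_univ, Fintype.card_fin, nsmul_eq_mul]
    push_cast
    ring
  rw [e] at k
  exact k

alias fam_equi := fam_equi_pr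

end Pool.Agent.UPA
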