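import Pool.Agent.Lib_helper15.UP.Facts
import Pool.Agent.Lib_helper15.PFMF.F4
import Pool.Agent.Lib_helper15.PFMF.F7

/-!
# UPA, block UA2 (helper20)
-/

set_option autoImplicit false

namespace Pool.Agent.UPA

open Finset Pool.Agent.PENT Pool.Agent.PATH.NC Pool.Agent.PFM
open Pool.Agent.PENK (PolyK Wts dn dl mL ich EquiF PerP prs lw L1 Rf)

lemma ua2_rpow {x y a : ℝ} (hx : 0 < x) (h1 : 1 / 2 * x ≤ y) (h2 : y ≤ x) :
    y ^ a ≤ max ((1 / 2 : ℝ) ^ a) 1 * x ^ a := by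
  have hy : 0 < y := lt_of_lt_of_le (by positivity) h1
  have hxa : 0 ≤ x ^ a := Real.rpow_nonneg hx.le _
  rcases le_total 0 a with ha | ha
  · calc y ^ a ≤ x ^ a := Real.rpow_le_rpow hy.le h2 ha
      _ = 1 * x ^ a := (one_mul _).symm
      _ ≤ _ := mul_le_mul_of_nonneg_right (le_max_right _ _) hxa
  · calc y ^ a ≤ (1 / 2 * x) ^ a := Real.rpow_le_rpow_of_nonpos (by positivity) h1 ha
      _ = (1 / 2 : ℝ) ^ a * x ^ a := Real.mul_rpow (by norm_num) hx.le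
      _ ≤ _ := mul_le_mul_of_nonneg_right (le_max_left _ _) hxa

/-- the floor does not change the logarithm much -/
lemma ua2_floor {L : ℝ} (hL : 2 * Real.log 2 ≤ L) :
    1 / 2 * L ≤ Real.log (⌊Real.exp L⌋₊ : ℝ) ∧ Real.log (⌊Real.exp L⌋₊ : ℝ) ≤ L := by
  have hlog2 : 0 < Real.log 2 := Real.log_pos (by norm_num)
  have h2 : 2 ≤ Real.exp L := by
    calc (2 : ℝ) = Real.exp (Real.log 2) := (Real.exp_log (by norm_num)).symm
      _ ≤ Real.exp L := Real.exp_le_exp.2 (by linarith)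
  have h3 : Real.exp L / 2 ≤ (⌊Real.exp L⌋₊ : ℝ) := by
    have := Nat.lt_floor_add_one (Real.exp L)
    linarith
  have h4 : (⌊Real.exp L⌋₊ : ℝ) ≤ Real.exp L := Nat.floor_le (Real.exp_pos _).le
  have h5 : (0 : ℝ) < ⌊Real.exp L⌋₊ := lt_of_lt_of_le (by linarith) h3
  constructor
  · calc 1 / 2 * L ≤ L - Real.log 2 := by linarith
      _ = Real.log (Real.exp L / 2) := by
          rw [Real.log_div (Real.exp_pos _).ne' (by norm_num), Real.log_exp]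
      _ ≤ _ := Real.log_le_log (by linarith) h3
  · calc Real.log (⌊Real.exp L⌋₊ : ℝ) ≤ Real.log (Real.exp L) := Real.log_le_log h5 h4
      _ = L := Real.log_exp L

/-- the conditions on `X` -/
lemma ua2_ev (ps : ℕ) (ε t e : ℝ) (hε : 0 < ε) (ht : 0 < t) : ∃ X₀ : ℕ, ∀ X ≥ X₀,
    3 ≤ X ∧ ps ≤ ⌊PP X⌋₊ ∧ 3 ≤ ⌊PP X⌋₊ ∧ PP X ≤ (X : ℝ) ^ t ∧
    2 * Real.log X ≤ (⌊PP X⌋₊ : ℝ) ∧ (X : ℝ) ^ (-(ε / 2)) ≤ Real.log X ^ e ∧
    2 * Real.log 2 ≤ t * Real.log X ∧ 2 * Real.log 2 ≤ Real.log (X : ℝ) ^ (1 / 100 : ℝ) := by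
  have hL : Filter.Tendsto (fun X : ℕ => Real.log (X : ℝ)) Filter.atTop Filter.atTop :=
    Real.tendsto_log_atTop.comp tendsto_natCast_atTop_atTop
  have hL1 : Filter.Tendsto (fun X : ℕ => Real.log (X : ℝ) ^ (1 / 100 : ℝ)) Filter.atTop
      Filter.atTop := (tendsto_rpow_atTop (by norm_num)).comp hL
  have hPP : Filter.Tendsto (fun X : ℕ => PP X) Filter.atTop Filter.atTop :=
    Real.tendsto_exp_atTop.comp hL1
  have c1 := hPP.eventually_ge_atTop (ps : ℝ)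
  have c2 := hPP.eventually_ge_atTop (3 : ℝ)
  -- `PP X ≤ X ^ t`
  have c3 : ∀ᶠ X : ℕ in Filter.atTop, Real.log (X : ℝ) ^ (1 / 100 : ℝ) ≤ t * Real.log (X : ℝ) := by
    have h := (tendsto_rpow_neg_atTop (show (0 : ℝ) < 99 / 100 by norm_num)).comp hL
    filter_upwards [h.eventually (gt_mem_nhds ht), hL.eventually_ge_atTop 1] with X hX hX1
    have hl0 : 0 < Real.log (X : ℝ) := by linarith
    have e : Real.log (X : ℝ) ^ (1 / 100 : ℝ) =
        Real.log (X : ℝ) ^ (-(99 / 100) : ℝ) * Real.log (X : ℝ) := by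
      nth_rewrite 3 [← Real.rpow_one (Real.log (X : ℝ))]
      rw [← Real.rpow_add hl0]
      norm_num
    rw [e]
    exact mul_le_mul_of_nonneg_right (le_of_lt hX) hl0.le
  have c4 : ∀ᶠ X : ℕ in Filter.atTop, 2 * Real.log (X : ℝ) + 1 ≤ PP X := by
    have h1 : Filter.Tendsto (fun X : ℕ => (Real.log (X : ℝ) ^ (1 / 100 : ℝ)) ^ (100 : ℝ) *
      Real.exp (-1 * (Real.log (X : ℝ) ^ (1 / 100 : ℝ)))) Filter.atTop (nhds 0) :=
      (tendsto_rpow_mul_exp_neg_mul_atTop_nhds_zero (100 : ℝ) 1 one_pos).comp hL1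
    filter_upwards [h1.eventually (gt_mem_nhds (show (0 : ℝ) < 1 / 3 by norm_num)),
      hL.eventually_ge_atTop 1] with X hX hX1
    rw [← Real.rpow_mul (by linarith), show (1 / 100 : ℝ) * 100 = 1 by norm_num,
      Real.rpow_one, neg_one_mul, Real.exp_neg] at hX
    have hp : 0 < Real.exp (Real.log (X : ℝ) ^ (1 / 100 : ℝ)) := Real.exp_pos _
    rw [← div_eq_mul_inv, div_lt_iff₀ hp] at hX
    rw [PP]
    linarith
  have c5 : ∀ᶠ X : ℕ in Filter.atTop, (X : ℝ) ^ (-(ε / 2)) ≤ Real.log X ^ e := by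
    have h1 : Filter.Tendsto (fun X : ℕ => Real.log (X : ℝ) ^ (-e) *
      Real.exp (-(ε / 2) * Real.log (X : ℝ))) Filter.atTop (nhds 0) :=
      (tendsto_rpow_mul_exp_neg_mul_atTop_nhds_zero (-e) (ε / 2) (by linarith)).comp hL
    filter_upwards [h1.eventually (gt_mem_nhds (show (0 : ℝ) < 1 by norm_num)),
      hL.eventually_ge_atTop 1, Filter.eventually_ge_atTop 3] with X hX hX1 hX3
    have hX0 : (0 : ℝ) < X := by
      have : 0 < X := by omega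
      exact_mod_cast this
    have hl0 : 0 < Real.log (X : ℝ) := by linarith
    have hle : 0 < Real.log (X : ℝ) ^ e := Real.rpow_pos_of_pos hl0 _
    rw [Real.rpow_neg hl0.le, inv_mul_eq_div, div_lt_one hle] at hX
    rw [Real.rpow_def_of_pos hX0, mul_comm]
    exact hX.le
  have c6 := hL.eventually_ge_atTop (2 * Real.log 2 / t)
  have c7 := hL1.eventually_ge_atTop (2 * Real.log 2)
  obtain ⟨X₀, hX₀⟩ := Filter.eventually_atTop.mp (c1.and (c2.and (c3.and (c4.and (c5.and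
    (c6.and (c7.and (Filter.eventually_ge_atTop 3))))))))
  refine ⟨X₀, fun X hX => ?_⟩
  obtain ⟨d1, d2, d3, d4, d5, d6, d7, d8⟩ := hX₀ X hX
  have hX0 : (0 : ℝ) < X := by
    have : 0 < X := by omega
    exact_mod_cast this
  refine ⟨d8, Nat.le_floor d1, Nat.le_floor (by exact_mod_cast d2), ?_, ?_, d5, ?_, d7⟩
  · rw [PP, Real.rpow_def_of_pos hX0]
    exact Real.exp_le_exp.2 (by rw [mul_comm]; exact d3)
  · have := Nat.lt_floor_add_one (PP X)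
    linarith
  · rw [div_le_iff₀ ht] at d6
    linarith

/-- `bd ≤ 33` -/
lemma ua2_bd (W : Wts 11) (hW : W.Ok) (fe vq : Finset (Fin 11)) (P0 p : ℕ) :
    bd fe vq W P0 p ≤ 33 := by
  have hf : (fe.card : ℝ) ≤ 11 := by
    have := Finset.card_le_univ fe
    simp only [Fintype.card_fin] at this
    exact_mod_cast this
  have hv : (vq.card : ℝ) ≤ 11 := by
    have := Finset.card_le_univ vq
    simp only [Fintype.card_fin] at this
    exact_mod_cast this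
  have h1 : ∑ i ∈ vq, (1 - W.bo i) ≤ vq.card := by
    calc ∑ i ∈ vq, (1 - W.bo i) ≤ ∑ i ∈ vq, (1 : ℝ) :=
          Finset.sum_le_sum fun i _ => by linarith [hW.bo0 i]
      _ = vq.card := by simp
  have h2 : ∑ i ∈ vq, (1 - W.be i) ≤ vq.card := by
    calc ∑ i ∈ vq, (1 - W.be i) ≤ ∑ i ∈ vq, (1 : ℝ) :=
          Finset.sum_le_sum fun i _ => by linarith [hW.be0 i]
      _ = vq.card := by simp
  have h3 : ∑ j ∈ fe, (1 - 2 * W.al j) ≤ fe.card := by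
    calc ∑ i ∈ fe, (1 - 2 * W.al i) ≤ ∑ i ∈ fe, (1 : ℝ) :=
          Finset.sum_le_sum fun i _ => by linarith [hW.al0 i]
      _ = fe.card := by simp
  rw [bd]
  split_ifs <;> linarith

/-- block UA2 (uses `c1_sieve` = PFMF/F4, `bd_prod` = PFMF/F7): the second sieve in a family, in terms
of `X`. `P0 = ⌊PP X⌋`, `P = ⌊X^t⌋`. The factor of `l₀` in the product of the densities is
`≥ 1/4` (`bd ≤ 33`, `ps ≥ 1100`), so removing `l₀` costs at most `4`. `P^k η ≤ X^(-ε/2)`. -/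
theorem fam_sieve_pr (W : Wts 11) (hW : W.Ok) (fe vq : Finset (Fin 11)) (C0 : ℝ) (hC0 : 0 ≤ C0) :
    ∃ (ps k : ℕ), 1100 ≤ ps ∧ ∀ ε t : ℝ, 0 < ε → 0 < t → t ≤ 1 → t * k ≤ ε / 2 →
      ∃ C : ℝ, 0 ≤ C ∧ ∃ X₀ : ℕ, ∀ X ≥ X₀, ∀ (ι : Type) (O : Finset ι) (pol : ι → PolyK 11)
      (L : ℕ → Finset (PolyK 11)) (m l₀ : ℕ) (η : ℝ), 0 < m →
      (∀ p : ℕ, p.Prime → p ∣ m → PP X < (p : ℝ)) → Real.log m ≤ 2 * Real.log X → 0 ≤ η →
      η ≤ (X : ℝ) ^ (-ε) → ∀ S : Finset ℕ,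
      S = (prs ps ⌊(X : ℝ) ^ t⌋₊).filter (fun p => ¬ p ∣ m ∧ p ≠ l₀) →
      (∀ p ∈ S, LocS fe vq p (L p) C0) →
      EquiF O pol L S ((⌊(X : ℝ) ^ t⌋₊ : ℝ) ^ k) η →
      ∑ o ∈ O, ∏ p ∈ S, Ph W ⌊PP X⌋₊ fe vq (pol o) p ≤
        C * O.card * Real.log X ^ exW fe vq W := by
  obtain ⟨ps, k, C1, hps, hps2, hC1, hsv⟩ := c1_sieve W hW fe vq C0 hC0
  obtain ⟨C2, hC2, hbd⟩ := bd_prod W hW fe vq ps C1 hC1
  refine ⟨ps, k, by omega, ?_⟩
  intro ε t hε ht ht1 htk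
  set a : ℝ := -(fe.card : ℝ) + ∑ j ∈ fe, W.al j - ∑ i ∈ vq, (1 - W.be i) with ha
  set b : ℝ := ∑ i ∈ vq, (1 - W.be i) - ∑ i ∈ vq, (1 - W.bo i) - ∑ j ∈ fe, W.al j with hb
  have hex : exW fe vq W = a + 1 / 100 * b := by rw [exW]
  obtain ⟨X₀, hX₀⟩ := ua2_ev ps ε t (exW fe vq W) hε ht
  set Ca : ℝ := max ((1 / 2 : ℝ) ^ a) 1 * t ^ a with hCa
  set Cb : ℝ := max ((1 / 2 : ℝ) ^ b) 1 with hCb
  have hCa0 : 0 ≤ Ca := mul_nonneg (le_trans zero_le_one (le_max_right _ _))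
    (Real.rpow_nonneg ht.le _)
  have hCb0 : 0 ≤ Cb := le_trans zero_le_one (le_max_right _ _)
  refine ⟨8 * (C2 * Ca * Cb) + 1, by positivity, X₀, ?_⟩
  intro X hX ι O pol L m l₀ η hm hmp hml hη hηX S hS hLoc hE
  obtain ⟨x1, x2, x3, x4, x5, x6, x7, x8⟩ := hX₀ X hX
  have hX3 : (3 : ℝ) ≤ X := by exact_mod_cast x1
  have hX0 : (0 : ℝ) < X := by linarith
  have hX1 : (1 : ℝ) ≤ X := by linarith
  have hlX : 0 < Real.log (X : ℝ) := Real.log_pos (by linarith)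
  have hPP0 : 0 < PP X := Real.exp_pos _
  set P0 : ℕ := ⌊PP X⌋₊ with hP0
  set P : ℕ := ⌊(X : ℝ) ^ t⌋₊ with hP
  have hP0P : P0 ≤ P := Nat.floor_mono x4
  have hP1 : 1 ≤ P := by omega
  have hη1 : η ≤ 1 := hηX.trans (Real.rpow_le_one_of_one_le_of_nonpos hX1 (by linarith))
  -- the logarithms
  have hlogP : 1 / 2 * (t * Real.log X) ≤ Real.log P ∧ Real.log P ≤ t * Real.log X := by
    have := ua2_floor x7
    rwa [show Real.exp (t * Real.log X) = (X : ℝ) ^ t by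
      rw [Real.rpow_def_of_pos hX0, mul_comm]] at this
  have hlogP0 : 1 / 2 * Real.log (X : ℝ) ^ (1 / 100 : ℝ) ≤ Real.log P0 ∧
      Real.log P0 ≤ Real.log (X : ℝ) ^ (1 / 100 : ℝ) := ua2_floor x8
  -- the densities
  have hfac : ∀ p : ℕ, ps < p → 1 / 4 ≤ 1 - bd fe vq W P0 p / p + C1 / (p : ℝ) ^ 2 := by
    intro p hp
    have h1 := ua2_bd W hW fe vq P0 p
    have hp1 : (1100 : ℝ) ≤ p := by
      have : 1100 ≤ p := by omega
      exact_mod_cast this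
    have hp0 : (0 : ℝ) < p := by linarith
    have h2 : bd fe vq W P0 p / p ≤ 33 / p := by gcongr
    have h3 : (33 : ℝ) / p ≤ 1 / 2 := by
      rw [div_le_iff₀ hp0]
      linarith
    have h4 : 0 ≤ C1 / (p : ℝ) ^ 2 := by positivity
    linarith
  set F : Finset ℕ := (prs ps P).filter (fun p => ¬ p ∣ m) with hF
  have hFps : ∀ p ∈ F, ps < p := by
    intro p hp
    rw [hF, mem_filter, PENK.prs, mem_filter, mem_Ioc] at hp
    exact hp.1.1.1
  have hSF : S = F.erase l₀ := by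
    rw [hS, hF]
    ext p
    simp only [mem_filter, mem_erase]
    tauto
  have hprodS : ∏ p ∈ S, (1 - bd fe vq W P0 p / p + C1 / (p : ℝ) ^ 2) ≤
      4 * ∏ p ∈ F, (1 - bd fe vq W P0 p / p + C1 / (p : ℝ) ^ 2) := by
    have hnn : 0 ≤ ∏ p ∈ S, (1 - bd fe vq W P0 p / p + C1 / (p : ℝ) ^ 2) := by
      apply Finset.prod_nonneg
      intro p hp
      rw [hSF] at hp
      linarith [hfac p (hFps p (mem_of_mem_erase hp))]
    by_cases hl : l₀ ∈ F
    · rw [← Finset.mul_prod_erase F _ hl, ← hSF]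
      have h1 := hfac l₀ (hFps l₀ hl)
      have h2 := mul_le_mul_of_nonneg_right h1 hnn
      linarith
    · rw [hSF, Finset.erase_eq_of_notMem hl] at hnn ⊢
      linarith
  have hbdp := hbd P0 P x2 x3 hP0P m hm (fun p hp hpm => by
      exact (Nat.floor_lt hPP0.le).mpr (hmp p hp hpm)) (hml.trans x5)
      (fun p hp => hfac p (hFps p hp))
  have hsieve := (hsv ι O pol L S P0 P η hP1 hη hη1 (by
      intro p hp
      rw [hSF] at hp
      have h1 := mem_of_mem_erase hp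
      rw [hF, mem_filter, PENK.prs, mem_filter, mem_Ioc] at h1
      exact ⟨h1.1.2, h1.1.1.1, h1.1.1.2⟩) hLoc hE).1
  have hPa : Real.log P ^ a ≤ Ca * Real.log X ^ a := by
    have h1 := ua2_rpow (a := a) (mul_pos ht hlX) hlogP.1 hlogP.2
    rw [Real.mul_rpow ht.le hlX.le, ← mul_assoc] at h1
    exact h1
  have hPb : Real.log P0 ^ b ≤ Cb * Real.log X ^ (1 / 100 * b) := by
    have h1 := ua2_rpow (a := b) (Real.rpow_pos_of_pos hlX (1 / 100)) hlogP0.1 hlogP0.2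
    rw [← Real.rpow_mul hlX.le] at h1
    exact h1
  have hlP0 : 0 ≤ Real.log P := by
    have := hlogP.1
    have h2 : 0 ≤ 1 / 2 * (t * Real.log X) := by positivity
    linarith
  have hmain : ∏ p ∈ F, (1 - bd fe vq W P0 p / p + C1 / (p : ℝ) ^ 2) ≤
      C2 * Ca * Cb * Real.log X ^ exW fe vq W := by
    refine hbdp.trans ?_
    have hb0 : 0 ≤ Real.log P0 ^ b := Real.rpow_nonneg (by
      have := hlogP0.1
      have h2 : 0 ≤ 1 / 2 * Real.log (X : ℝ) ^ (1 / 100 : ℝ) := by positivity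
      linarith) _
    calc C2 * Real.log P ^ a * Real.log P0 ^ b
        ≤ C2 * (Ca * Real.log X ^ a) * (Cb * Real.log X ^ (1 / 100 * b)) := by
          apply mul_le_mul (mul_le_mul_of_nonneg_left hPa hC2) hPb hb0
          have : 0 ≤ Real.log (X : ℝ) ^ a := Real.rpow_nonneg hlX.le _
          positivity
      _ = C2 * Ca * Cb * (Real.log X ^ a * Real.log X ^ (1 / 100 * b)) := by ring
      _ = _ := by rw [← Real.rpow_add hlX, ← hex]
  have herr : (P : ℝ) ^ k * η ≤ Real.log X ^ exW fe vq W := by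
    have h1 : (P : ℝ) ≤ (X : ℝ) ^ t := Nat.floor_le (Real.rpow_nonneg hX0.le _)
    calc (P : ℝ) ^ k * η ≤ ((X : ℝ) ^ t) ^ k * (X : ℝ) ^ (-ε) :=
          mul_le_mul (pow_le_pow_left₀ (Nat.cast_nonneg _) h1 k) hηX hη (by positivity)
      _ = (X : ℝ) ^ (t * k + -ε) := by
          rw [← Real.rpow_natCast, ← Real.rpow_mul hX0.le, ← Real.rpow_add hX0]
      _ ≤ (X : ℝ) ^ (-(ε / 2)) := Real.rpow_le_rpow_of_exponent_le hX1 (by linarith)
      _ ≤ _ := x6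
  calc ∑ o ∈ O, ∏ p ∈ S, Ph W P0 fe vq (pol o) p
      ≤ (O.card : ℝ) * (2 * ∏ p ∈ S, (1 - bd fe vq W P0 p / p + C1 / (p : ℝ) ^ 2) +
          (P : ℝ) ^ k * η) := hsieve
    _ ≤ (O.card : ℝ) * (2 * (4 * (C2 * Ca * Cb * Real.log X ^ exW fe vq W)) +
          Real.log X ^ exW fe vq W) := by
        apply mul_le_mul_of_nonneg_left _ (Nat.cast_nonneg _)
        linarith
    _ = _ := by ring

alias fam_sieve := fam_sieve_pr

end Pool.Agent.UPA
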