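import Pool.Agent.Lib_helper15.UP.Facts
import Pool.Agent.Lib_helper15.PFMF.F8

/-! UPA (MP_892e4c_nt), block UA4 (helper67): the local facts for the family `cU d0 d9` -/

set_option autoImplicit false

namespace Pool.Agent.UPA

open Finset Pool.Agent.PENT Pool.Agent.PATH.NC Pool.Agent.PFM
open Pool.Agent.PENK (PolyK Wts dn dl mL ich EquiF PerP prs lw L1 Rf)

/-- averaging over one vertex -/
theorem ua4_avg (F : Fin 11 → Finset (ℤ × ℤ)) (v : Fin 11) (f : PolyK 11 → ℝ) :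
    ((F v).card : ℝ) * ∑ u ∈ Fintype.piFinset F, f u =
      ∑ u ∈ Fintype.piFinset F, ∑ x ∈ F v, f (Function.update u v x) := by
  rw [← sum_product']
  have e : ((F v).card : ℝ) * ∑ u ∈ Fintype.piFinset F, f u =
      ∑ z ∈ Fintype.piFinset F ×ˢ F v, f z.1 := by
    rw [sum_product]
    simp only [sum_const, nsmul_eq_mul]
    rw [mul_sum]
  rw [e]
  refine sum_nbij' (fun z => (Function.update z.1 v z.2, z.1 v))
    (fun z => (Function.update z.1 v z.2, z.1 v)) ?_ ?_ ?_ ?_ ?_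
  · intro z hz
    rw [mem_product, Fintype.mem_piFinset] at hz
    rw [mem_product, Fintype.mem_piFinset]
    refine ⟨fun i => ?_, hz.1 v⟩
    by_cases hi : i = v
    · subst hi
      simpa using hz.2
    · simp only [Function.update_of_ne hi]
      exact hz.1 i
  · intro z hz
    rw [mem_product, Fintype.mem_piFinset] at hz
    rw [mem_product, Fintype.mem_piFinset]
    refine ⟨fun i => ?_, hz.1 v⟩
    by_cases hi : i = v
    · subst hi
      simpa using hz.2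
    · simp only [Function.update_of_ne hi]
      exact hz.1 i
  · intro z _
    simp
  · intro z _
    simp
  · intro z _
    simp

/-- the probability that a free vertex is zero -/
theorem ua4_P0 {F : Fin 11 → Finset (ℤ × ℤ)} {p : ℕ} {w : Fin 11} (hw : F w = L1 p) :
    (p : ℝ) ^ 2 * ∑ u ∈ Fintype.piFinset F, ich (f8Z p (u w)) ≤ (Fintype.piFinset F).card := by
  have h := ua4_avg F w (fun u => ich (f8Z p (u w)))
  rw [hw, f8_card] at h
  push_cast at h
  rw [h]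
  calc ∑ u ∈ Fintype.piFinset F, ∑ x ∈ L1 p, ich (f8Z p (Function.update u w x w))
      ≤ ∑ _u ∈ Fintype.piFinset F, (1 : ℝ) := by
        refine sum_le_sum fun u _ => ?_
        simp only [Function.update_self]
        exact f8_zsum
    _ = _ := by simp

/-- the probability that two vertices are parallel, `v` free -/
theorem ua4_P1 {F : Fin 11 → Finset (ℤ × ℤ)} {p : ℕ} (hp : p.Prime) {w v : Fin 11} (hwv : w ≠ v)
    (hv : F v = L1 p)
    (hZ : (p : ℝ) ^ 2 * ∑ u ∈ Fintype.piFinset F, ich (f8Z p (u w)) ≤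
      (Fintype.piFinset F).card) :
    (p : ℝ) ^ 2 * ∑ u ∈ Fintype.piFinset F, ich ((p : ℤ) ∣ dt (u w) (u v)) ≤
        2 * p * (Fintype.piFinset F).card ∧
      (p : ℝ) * (Fintype.piFinset F).card ≤
        (p : ℝ) ^ 2 * ∑ u ∈ Fintype.piFinset F, ich ((p : ℤ) ∣ dt (u w) (u v)) := by
  have h := ua4_avg F v (fun u => ich ((p : ℤ) ∣ dt (u w) (u v)))
  rw [hv, f8_card] at h
  push_cast at h
  rw [h]
  simp only [Function.update_self, Function.update_of_ne hwv]
  have hp1 : (1 : ℝ) ≤ p := by exact_mod_cast hp.one_le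
  have hN : (0 : ℝ) ≤ (Fintype.piFinset F).card := Nat.cast_nonneg _
  constructor
  · calc ∑ u ∈ Fintype.piFinset F, ∑ x ∈ L1 p, ich ((p : ℤ) ∣ dt (u w) x)
        ≤ ∑ u ∈ Fintype.piFinset F, ((p : ℝ) + (p : ℝ) ^ 2 * ich (f8Z p (u w))) :=
          sum_le_sum fun u _ => f8_sum_le hp (u w)
      _ = (Fintype.piFinset F).card * p +
          (p : ℝ) ^ 2 * ∑ u ∈ Fintype.piFinset F, ich (f8Z p (u w)) := by
          rw [sum_add_distrib, sum_const, nsmul_eq_mul, mul_sum]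
      _ ≤ (Fintype.piFinset F).card * p + (Fintype.piFinset F).card := by linarith
      _ ≤ 2 * p * (Fintype.piFinset F).card := by nlinarith
  · calc (p : ℝ) * (Fintype.piFinset F).card = ∑ _u ∈ Fintype.piFinset F, (p : ℝ) := by
          rw [sum_const, nsmul_eq_mul]; ring
      _ ≤ _ := sum_le_sum fun u _ => f8_sum_ge hp (u w)

/-- two edges -/
theorem ua4_P2 {F : Fin 11 → Finset (ℤ × ℤ)} {p : ℕ} (hp : p.Prime) {a b w v : Fin 11}
    (hwv : w ≠ v) (ha : a ≠ v) (hb : b ≠ v) (hv : F v = L1 p)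
    (hZ : (p : ℝ) ^ 2 * ∑ u ∈ Fintype.piFinset F, ich (f8Z p (u w)) ≤
      (Fintype.piFinset F).card)
    (h1 : (p : ℝ) ^ 2 * ∑ u ∈ Fintype.piFinset F, ich ((p : ℤ) ∣ dt (u a) (u b)) ≤
        2 * p * (Fintype.piFinset F).card) :
    (p : ℝ) ^ 2 * ∑ u ∈ Fintype.piFinset F,
        ich ((p : ℤ) ∣ dt (u a) (u b) ∧ (p : ℤ) ∣ dt (u w) (u v)) ≤
      3 * (Fintype.piFinset F).card := by
  have h := ua4_avg F v
    (fun u => ich ((p : ℤ) ∣ dt (u a) (u b) ∧ (p : ℤ) ∣ dt (u w) (u v)))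
  rw [hv, f8_card] at h
  push_cast at h
  rw [h]
  simp only [Function.update_self, Function.update_of_ne hwv, Function.update_of_ne ha,
    Function.update_of_ne hb]
  have hp0 : (0 : ℝ) < p := by exact_mod_cast hp.pos
  have h3 : (p : ℝ) * ∑ u ∈ Fintype.piFinset F, ich ((p : ℤ) ∣ dt (u a) (u b)) ≤
      2 * (Fintype.piFinset F).card := by
    have e : (p : ℝ) * ((p : ℝ) * ∑ u ∈ Fintype.piFinset F, ich ((p : ℤ) ∣ dt (u a) (u b))) ≤
        (p : ℝ) * (2 * (Fintype.piFinset F).card) := by linarith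
    exact le_of_mul_le_mul_left e hp0
  calc ∑ u ∈ Fintype.piFinset F, ∑ x ∈ L1 p, ich ((p : ℤ) ∣ dt (u a) (u b) ∧ (p : ℤ) ∣ dt (u w) x)
      = ∑ u ∈ Fintype.piFinset F,
          ich ((p : ℤ) ∣ dt (u a) (u b)) * ∑ x ∈ L1 p, ich ((p : ℤ) ∣ dt (u w) x) := by
        refine sum_congr rfl fun u _ => ?_
        rw [mul_sum]
        exact sum_congr rfl fun x _ => f8_and _ _
    _ ≤ ∑ u ∈ Fintype.piFinset F,
          (p * ich ((p : ℤ) ∣ dt (u a) (u b)) + (p : ℝ) ^ 2 * ich (f8Z p (u w))) := by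
        refine sum_le_sum fun u _ => ?_
        have e1 := f8_sum_le hp (u w)
        have e2 := f8_ich0 ((p : ℤ) ∣ dt (u a) (u b))
        have e3 := f8_ich1 ((p : ℤ) ∣ dt (u a) (u b))
        have e4 := f8_ich0 (f8Z p (u w))
        have e5 : 0 ≤ (p : ℝ) ^ 2 * ich (f8Z p (u w)) := by positivity
        nlinarith
    _ = p * ∑ u ∈ Fintype.piFinset F, ich ((p : ℤ) ∣ dt (u a) (u b)) +
          (p : ℝ) ^ 2 * ∑ u ∈ Fintype.piFinset F, ich (f8Z p (u w)) := by
        rw [sum_add_distrib, mul_sum, mul_sum]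
    _ ≤ 3 * (Fintype.piFinset F).card := by linarith

/-- the components of the law -/
noncomputable def ua4F (d0 d9 p : ℕ) (j : Fin 11) : Finset (ℤ × ℤ) :=
  cr (cU d0 d9 j).1 p ×ˢ cr (cU d0 d9 j).2 p

theorem ua4_law (d0 d9 p : ℕ) : LawO (cU d0 d9) p = Fintype.piFinset (ua4F d0 d9 p) := rfl

theorem ua4_free {d0 d9 p : ℕ} {v : Fin 11} (h0 : v ≠ 0) (h10 : v ≠ 10) (h1 : v ≠ 1)
    (h9 : v ≠ 9) : ua4F d0 d9 p v = L1 p := by
  unfold ua4F cU
  rw [if_neg h0, if_neg h10, if_neg h1, if_neg h9]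
  rfl

theorem ua4_F1 {d0 d9 p : ℕ} : ua4F d0 d9 p 1 = Ico 0 (p : ℤ) ×ˢ {(d0 : ℤ)} := by
  unfold ua4F cU
  rfl

theorem ua4_F9 {d0 d9 p : ℕ} : ua4F d0 d9 p 9 = {(d9 : ℤ)} ×ˢ Ico 0 (p : ℤ) := by
  unfold ua4F cU
  rfl

theorem ua4_ne {d0 d9 p : ℕ} (hp : p.Prime) : (LawO (cU d0 d9) p).Nonempty := by
  rw [ua4_law]
  apply Fintype.piFinset_nonempty.2
  intro j
  have hp0 : (0 : ℤ) < p := by exact_mod_cast hp.pos
  have hc : ∀ o : Option ℤ, (cr o p).Nonempty := by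
    intro o
    cases o with
    | none => exact ⟨0, mem_Ico.2 ⟨le_rfl, hp0⟩⟩
    | some c => exact ⟨c, mem_singleton_self c⟩
  exact (hc _).product (hc _)

/-- the vertices `1, …, 9` are rarely zero -/
theorem ua4_Z {d0 d9 p : ℕ} (h0 : ¬ p ∣ d0) (h9 : ¬ p ∣ d9) {w : Fin 11}
    (hw : w ∈ vqU) :
    (p : ℝ) ^ 2 * ∑ u ∈ Fintype.piFinset (ua4F d0 d9 p), ich (f8Z p (u w)) ≤
      (Fintype.piFinset (ua4F d0 d9 p)).card := by
  have hw' : w ≠ 0 ∧ w ≠ 10 := by
    unfold vqU at hw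
    rw [mem_erase, mem_erase] at hw
    exact ⟨hw.1, hw.2.1⟩
  have hN : (0 : ℝ) ≤ (Fintype.piFinset (ua4F d0 d9 p)).card := Nat.cast_nonneg _
  by_cases w1 : w = 1
  · subst w1
    have e : ∑ u ∈ Fintype.piFinset (ua4F d0 d9 p), ich (f8Z p (u 1)) = 0 := by
      apply sum_eq_zero
      intro u hu
      rw [Fintype.mem_piFinset] at hu
      have h := hu 1
      rw [ua4_F1, mem_product, mem_singleton] at h
      unfold Pool.Agent.PENK.ich
      rw [if_neg]
      rintro ⟨_, hd⟩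
      rw [h.2] at hd
      exact h0 (by exact_mod_cast hd)
    rw [e]
    simpa using hN
  · by_cases w9 : w = 9
    · subst w9
      have e : ∑ u ∈ Fintype.piFinset (ua4F d0 d9 p), ich (f8Z p (u 9)) = 0 := by
        apply sum_eq_zero
        intro u hu
        rw [Fintype.mem_piFinset] at hu
        have h := hu 9
        rw [ua4_F9, mem_product, mem_singleton] at h
        unfold Pool.Agent.PENK.ich
        rw [if_neg]
        rintro ⟨hd, _⟩
        rw [h.1] at hd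
        exact h9 (by exact_mod_cast hd)
      rw [e]
      simpa using hN
    · exact ua4_P0 (ua4_free hw'.1 hw'.2 w1 w9)

/-- the edges `1, …, 8`: one end is free -/
theorem ua4_edge {d0 d9 p : ℕ} (hp : p.Prime) (h0 : ¬ p ∣ d0) (h9 : ¬ p ∣ d9) {j : Fin 11}
    (hj : j ∈ feU) :
    (p : ℝ) ^ 2 * ∑ u ∈ Fintype.piFinset (ua4F d0 d9 p), ich ((p : ℤ) ∣ dt (u j) (u (j + 1))) ≤
        2 * p * (Fintype.piFinset (ua4F d0 d9 p)).card ∧
      (p : ℝ) * (Fintype.piFinset (ua4F d0 d9 p)).card ≤ (p : ℝ) ^ 2 *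
        ∑ u ∈ Fintype.piFinset (ua4F d0 d9 p), ich ((p : ℤ) ∣ dt (u j) (u (j + 1))) := by
  have hj' : j ≠ 9 ∧ j ≠ 0 ∧ j ≠ 10 := by
    unfold feU at hj
    rw [mem_erase, mem_erase, mem_erase] at hj
    exact ⟨hj.1, hj.2.1, hj.2.2.1⟩
  have hne : ∀ j : Fin 11, j ≠ j + 1 := by decide
  by_cases h8 : j = 8
  · subst h8
    have hv : ua4F d0 d9 p 8 = L1 p := ua4_free (by decide) (by decide) (by decide) (by decide)
    have hz := ua4_Z (p := p) h0 h9 (w := 9) (by decide)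
    have h := ua4_P1 hp (w := 9) (v := 8) (by decide) hv hz
    have e : ∑ u ∈ Fintype.piFinset (ua4F d0 d9 p), ich ((p : ℤ) ∣ dt (u 8) (u (8 + 1))) =
        ∑ u ∈ Fintype.piFinset (ua4F d0 d9 p), ich ((p : ℤ) ∣ dt (u 9) (u 8)) :=
      sum_congr rfl fun u _ => f8_swap p _ _
    rw [e]
    exact h
  · have hd : ∀ j : Fin 11, j ≠ 9 → j ≠ 0 → j ≠ 10 → j ≠ 8 →
        j ∈ vqU ∧ j + 1 ≠ 0 ∧ j + 1 ≠ 10 ∧ j + 1 ≠ 1 ∧ j + 1 ≠ 9 := by decide
    obtain ⟨a1, a2, a3, a4, a5⟩ := hd j hj'.1 hj'.2.1 hj'.2.2 h8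
    exact ua4_P1 hp (hne j) (ua4_free a2 a3 a4 a5) (ua4_Z h0 h9 a1)

theorem ua4_two {d0 d9 p : ℕ} (hp : p.Prime) (h0 : ¬ p ∣ d0) (h9 : ¬ p ∣ d9) {i j : Fin 11}
    (hi : i ∈ feU) (hj : j ∈ feU) (hij : i.val < j.val) :
    (p : ℝ) ^ 2 * ∑ u ∈ Fintype.piFinset (ua4F d0 d9 p),
      ich ((p : ℤ) ∣ dt (u i) (u (i + 1)) ∧ (p : ℤ) ∣ dt (u j) (u (j + 1))) ≤
        3 * (Fintype.piFinset (ua4F d0 d9 p)).card := by
  by_cases h8 : j = 8
  · subst h8
    have hv8 : ua4F d0 d9 p 8 = L1 p := ua4_free (by decide) (by decide) (by decide) (by decide)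
    have hv7 : ua4F d0 d9 p 7 = L1 p := ua4_free (by decide) (by decide) (by decide) (by decide)
    by_cases h7 : i = 7
    · subst h7
      -- the vertex `7` is free and not on the edge `8`
      have h := ua4_P2 hp (a := 8) (b := 9) (w := 8) (v := 7) (by decide) (by decide)
        (by decide) hv7 (ua4_Z (p := p) h0 h9 (w := 8) (by decide)) (ua4_edge hp h0 h9 (j := 8)
        (by decide)).1
      refine le_trans (le_of_eq ?_) h
      congr 1
      refine sum_congr rfl fun u _ => ?_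
      rw [f8_and, f8_and, mul_comm]
      congr 1
      exact f8_swap p _ _
    · have hd : ∀ i : Fin 11, i ∈ feU → i.val < (8 : Fin 11).val → i ≠ 7 → i ≠ 8 ∧ i + 1 ≠ 8 := by
        decide
      obtain ⟨a1, a2⟩ := hd i hi hij h7
      have h := ua4_P2 hp (a := i) (b := i + 1) (w := 9) (v := 8) (by decide) a1 a2 hv8
        (ua4_Z (p := p) h0 h9 (w := 9) (by decide)) (ua4_edge hp h0 h9 hi).1
      refine le_trans (le_of_eq ?_) h
      congr 1
      refine sum_congr rfl fun u _ => ?_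
      rw [f8_and, f8_and]
      congr 1
      exact f8_swap p _ _
  · have hd : ∀ i j : Fin 11, i ∈ feU → j ∈ feU → i.val < j.val → j ≠ 8 →
        j ∈ vqU ∧ j + 1 ≠ 0 ∧ j + 1 ≠ 10 ∧ j + 1 ≠ 1 ∧ j + 1 ≠ 9 ∧ j ≠ j + 1 ∧ i ≠ j + 1 ∧
          i + 1 ≠ j + 1 := by decide
    obtain ⟨a1, a2, a3, a4, a5, a6, a7, a8⟩ := hd i j hi hj hij h8
    exact ua4_P2 hp a6 a7 a8 (ua4_free a2 a3 a4 a5) (ua4_Z h0 h9 a1) (ua4_edge hp h0 h9 hi).1

/-- the vertices `1` and `9` -/
theorem ua4_19 {d0 d9 p : ℕ} (hp : p.Prime) (h0 : ¬ p ∣ d0) (h9 : ¬ p ∣ d9) :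
    (p : ℝ) * ∑ u ∈ Fintype.piFinset (ua4F d0 d9 p), ich ((p : ℤ) ∣ dt (u 1) (u 9)) ≤
      (Fintype.piFinset (ua4F d0 d9 p)).card := by
  classical
  have hpp : Prime (p : ℤ) := Nat.prime_iff_prime_int.mp hp
  have h := ua4_avg (ua4F d0 d9 p) 9 (fun u => ich ((p : ℤ) ∣ dt (u 1) (u 9)))
  have hc : (ua4F d0 d9 p 9).card = p := by
    rw [ua4_F9, card_product, card_singleton, Int.card_Ico]
    simp
  rw [hc] at h
  rw [h]
  have hne : (1 : Fin 11) ≠ 9 := by decide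
  simp only [Function.update_self, Function.update_of_ne hne]
  calc ∑ u ∈ Fintype.piFinset (ua4F d0 d9 p), ∑ x ∈ ua4F d0 d9 p 9, ich ((p : ℤ) ∣ dt (u 1) x)
      ≤ ∑ _u ∈ Fintype.piFinset (ua4F d0 d9 p), (1 : ℝ) := by
        refine sum_le_sum fun u hu => ?_
        rw [f8_ich]
        have hc1 : ((ua4F d0 d9 p 9).filter (fun x => (p : ℤ) ∣ dt (u 1) x)).card ≤ 1 := by
          rw [card_le_one]
          intro x hx y hy
          rw [mem_filter, ua4_F9, mem_product, mem_singleton, mem_Ico] at hx hy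
          rw [Fintype.mem_piFinset] at hu
          have hu1 := hu 1
          rw [ua4_F1, mem_product, mem_singleton] at hu1
          have e1 : x.1 = y.1 := by rw [hx.1.1, hy.1.1]
          have e2 : (p : ℤ) ∣ (u 1).1 * (x.2 - y.2) := by
            have : (u 1).1 * (x.2 - y.2) = dt (u 1) x - dt (u 1) y := by
              unfold dt
              rw [e1]
              ring
            rw [this]
            exact dvd_sub hx.2 hy.2
          have e3 : ¬ (p : ℤ) ∣ (u 1).1 := by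
            intro hd
            have : (p : ℤ) ∣ (u 1).2 * x.1 := by
              have e4 : (u 1).2 * x.1 = (u 1).1 * x.2 - dt (u 1) x := by
                unfold dt
                ring
              rw [e4]
              exact dvd_sub (hd.mul_right _) hx.2
            rcases hpp.dvd_or_dvd this with h' | h'
            · rw [hu1.2] at h'
              exact h0 (by exact_mod_cast h')
            · rw [hx.1.1] at h'
              exact h9 (by exact_mod_cast h')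
          have e5 := (hpp.dvd_or_dvd e2).resolve_left e3
          exact Prod.ext e1 (f8_eq hx.1.2 hy.1.2 e5)
        exact_mod_cast hc1
    _ = _ := by simp

/-- block UA4: the local facts for the family `cU d0 d9`: `u_1 = (x, d0)`, `u_9 = (d9, y)`,
`p ∤ d0 d9` -/
theorem locU_pr : ∃ C : ℝ, 0 ≤ C ∧ ∀ p d0 d9 : ℕ, p.Prime → 2 < p → ¬ p ∣ d0 → ¬ p ∣ d9 →
    LocS feU vqU p (LawO (cU d0 d9) p) C := by
  refine ⟨3, by norm_num, ?_⟩
  intro p d0 d9 hp _ h0 h9
  have hp0 : (0 : ℝ) < p := by exact_mod_cast hp.pos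
  have hN : (0 : ℝ) < (Fintype.piFinset (ua4F d0 d9 p)).card := by
    exact_mod_cast (ua4_ne (d0 := d0) (d9 := d9) hp).card_pos
  have hpar : ∀ w v : Fin 11, w ≠ v → w ∈ vqU → v ≠ 0 → v ≠ 10 → v ≠ 1 → v ≠ 9 →
      (p : ℝ) ^ 2 * ∑ u ∈ Fintype.piFinset (ua4F d0 d9 p), ich ((p : ℤ) ∣ dt (u w) (u v)) ≤
        2 * p * (Fintype.piFinset (ua4F d0 d9 p)).card := fun w v hwv hw a b c d =>
    (ua4_P1 hp hwv (ua4_free a b c d) (ua4_Z h0 h9 hw)).1
  refine ⟨ua4_ne hp, ?_, ?_, ?_, ?_, ?_⟩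
  · intro j hj
    have h := (ua4_edge hp h0 h9 hj).2
    have h1 : 1 / (p : ℝ) ≤ mL (LawO (cU d0 d9) p) (fun u => ich ((p : ℤ) ∣ dl u j)) := by
      unfold Pool.Agent.PENK.mL Pool.Agent.PENK.dl
      rw [ua4_law, div_le_div_iff₀ hp0 hN]
      have h2 : (p : ℝ) * (1 * (Fintype.piFinset (ua4F d0 d9 p)).card) ≤
          (p : ℝ) * ((∑ u ∈ Fintype.piFinset (ua4F d0 d9 p),
            ich ((p : ℤ) ∣ dt (u j) (u (j + 1)))) * p) := by
        linarith
      exact le_of_mul_le_mul_left h2 hp0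
    have h3 : (0 : ℝ) ≤ 3 / (p : ℝ) ^ 2 := by positivity
    linarith
  · intro j hj
    have h := (ua4_edge hp h0 h9 hj).1
    have h1 := f8_div_le (K := 2) hp hN 1 (by rw [pow_one]; exact h) (by norm_num)
    have h2 : (2 : ℝ) / (p : ℝ) ^ (2 - 1) ≤ 3 / p := by
      rw [show 2 - 1 = 1 from rfl, pow_one]
      gcongr
      norm_num
    exact h1.trans h2
  · intro i hi j hj hij
    rcases Nat.lt_or_ge i.val j.val with hlt | hge
    · exact f8_div_le hp hN 0 (by rw [pow_zero, mul_one]; exact ua4_two hp h0 h9 hi hj hlt)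
        (by norm_num)
    · have hlt : j.val < i.val := lt_of_le_of_ne hge fun h => hij (Fin.ext h.symm)
      have h := ua4_two hp h0 h9 hj hi hlt
      have h' : (p : ℝ) ^ 2 * ∑ u ∈ Fintype.piFinset (ua4F d0 d9 p),
          ich ((p : ℤ) ∣ dl u i ∧ (p : ℤ) ∣ dl u j) ≤
          3 * (p : ℝ) ^ 0 * (Fintype.piFinset (ua4F d0 d9 p)).card := by
        rw [pow_zero, mul_one]
        refine le_trans (le_of_eq ?_) h
        congr 1
        refine sum_congr rfl fun u _ => ?_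
        rw [f8_and, f8_and, mul_comm]
        rfl
      exact f8_div_le hp hN 0 h' (by norm_num)
  · intro u hu h i hi hz
    have hd : ∀ i : Fin 11, i ∈ vqU → i ∈ feU ∨ i = 9 := by decide
    rcases hd i hi with hi' | hi'
    · exact h i hi' (dvd_sub (hz.1.mul_right _) (hz.2.mul_right _))
    · subst hi'
      rw [ua4_law, Fintype.mem_piFinset] at hu
      have h' := hu 9
      rw [ua4_F9, mem_product, mem_singleton] at h'
      have hz1 := hz.1
      rw [h'.1] at hz1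
      exact h9 (by exact_mod_cast hz1)
  · intro i hi j hj hij
    have h0' : (p : ℝ) ^ 2 * ∑ u ∈ Fintype.piFinset (ua4F d0 d9 p),
        ich ((p : ℤ) ∣ dt (u i) (u j)) ≤ 2 * p * (Fintype.piFinset (ua4F d0 d9 p)).card := by
      have hsw : ∀ a b : Fin 11, ∑ u ∈ Fintype.piFinset (ua4F d0 d9 p),
          ich ((p : ℤ) ∣ dt (u a) (u b)) = ∑ u ∈ Fintype.piFinset (ua4F d0 d9 p),
          ich ((p : ℤ) ∣ dt (u b) (u a)) := fun a b =>
        sum_congr rfl fun u _ => f8_swap p _ _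
      have h19 : (p : ℝ) ^ 2 * ∑ u ∈ Fintype.piFinset (ua4F d0 d9 p),
          ich ((p : ℤ) ∣ dt (u 1) (u 9)) ≤ 2 * p * (Fintype.piFinset (ua4F d0 d9 p)).card := by
        have h := ua4_19 hp h0 h9
        have h2 := mul_le_mul_of_nonneg_left h hp0.le
        have h3 : (p : ℝ) * (Fintype.piFinset (ua4F d0 d9 p)).card ≤
            2 * p * (Fintype.piFinset (ua4F d0 d9 p)).card := by
          have : 0 ≤ (p : ℝ) * (Fintype.piFinset (ua4F d0 d9 p)).card := by positivity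
          linarith
        calc _ = (p : ℝ) * ((p : ℝ) * ∑ u ∈ Fintype.piFinset (ua4F d0 d9 p),
              ich ((p : ℤ) ∣ dt (u 1) (u 9))) := by ring
          _ ≤ _ := h2
          _ ≤ _ := h3
      have hd : ∀ i j : Fin 11, i ∈ vqU → j ∈ vqU → i ≠ j →
          (j ≠ 0 ∧ j ≠ 10 ∧ j ≠ 1 ∧ j ≠ 9) ∨ (i ≠ 0 ∧ i ≠ 10 ∧ i ≠ 1 ∧ i ≠ 9) ∨
            (i = 1 ∧ j = 9) ∨ (i = 9 ∧ j = 1) := by decide
      rcases hd i j hi hj hij with h | h | h | h
      · exact hpar i j hij hi h.1 h.2.1 h.2.2.1 h.2.2.2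
      · rw [hsw]
        exact hpar j i hij.symm hj h.1 h.2.1 h.2.2.1 h.2.2.2
      · rw [h.1, h.2]
        exact h19
      · rw [h.1, h.2, hsw]
        exact h19
    have h2 : (p : ℝ) ^ 2 * ∑ u ∈ Fintype.piFinset (ua4F d0 d9 p), ich ((∀ j ∈ feU,
        ¬ (p : ℤ) ∣ dl u j) ∧ (p : ℤ) ∣ dt (u i) (u j)) ≤
        2 * (p : ℝ) ^ 1 * (Fintype.piFinset (ua4F d0 d9 p)).card := by
      rw [pow_one]
      refine le_trans ?_ h0'
      gcongr with u _
      exact f8_mono fun h => h.2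
    have h1 := f8_div_le (K := 2) hp hN 1 h2 (by norm_num)
    have h3 : (2 : ℝ) / (p : ℝ) ^ (2 - 1) ≤ 3 / p := by
      rw [show 2 - 1 = 1 from rfl, pow_one]
      gcongr
      norm_num
    exact h1.trans h3

alias locU := locU_pr

end Pool.Agent.UPA
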