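import Pool.Agent.Lib_helper15.UP.Facts

/-! UPA, block UA5 (helper33) -/

set_option autoImplicit false

namespace Pool.Agent.UPA

open Finset Pool.Agent.PENT Pool.Agent.PATH.NC Pool.Agent.PFM
open Pool.Agent.PENK (PolyK Wts dn dl mL ich EquiF PerP prs lw L1 Rf)

theorem ua5_mL {K : ℕ} (L : Finset (PolyK K)) (h : PolyK K → ℝ) (hh : ∀ u, 0 ≤ h u ∧ h u ≤ 1) :
    0 ≤ mL L h ∧ mL L h ≤ 1 := by
  unfold mL
  constructor
  · exact div_nonneg (Finset.sum_nonneg fun u _ => (hh u).1) (Nat.cast_nonneg _)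
  · refine div_le_one_of_le₀ ?_ (Nat.cast_nonneg _)
    refine (Finset.sum_le_sum fun u _ => (hh u).2).trans ?_
    simp

theorem ua5_ich (a : Prop) : 0 ≤ ich a ∧ ich a ≤ 1 := by
  unfold ich
  split_ifs <;> norm_num

open Classical in
theorem ua5_key {K : ℕ} {ι : Type} {O : Finset ι} {pol : ι → PolyK K}
    {L : ℕ → Finset (PolyK K)} {S : Finset ℕ} {l₀ : ℕ} (h1 : 1 ≤ l₀) (hl : l₀ ∉ S)
    {A : PolyK K → Prop} (hA : PerP l₀ (fun u => ich (A u))) {Q η μ : ℝ}
    (hE : EquiF O pol L (insert l₀ S) Q η) (hμ : μ = mL (L l₀) (fun u => ich (A u)))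
    {T : Finset ℕ} (hT : T ⊆ S) (hTQ : ((∏ p ∈ T, p : ℕ) : ℝ) ≤ Q / l₀)
    (h : ℕ → PolyK K → ℝ) (h2 : ∀ p ∈ T, PerP p (h p)) (h3 : ∀ p ∈ T, ∀ u, 0 ≤ h p u ∧ h p u ≤ 1) :
    |∑ o ∈ O.filter (fun o => A (pol o)), ∏ p ∈ T, h p (pol o) -
      O.card * (μ * ∏ p ∈ T, mL (L p) (h p))| ≤ η * O.card := by
  have hlT : l₀ ∉ T := fun hh => hl (hT hh)
  have hl0 : (0 : ℝ) < l₀ := by exact_mod_cast h1
  have hprod : ((∏ p ∈ insert l₀ T, p : ℕ) : ℝ) ≤ Q := by
    rw [Finset.prod_insert hlT]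
    push_cast
    rw [le_div_iff₀ hl0] at hTQ
    push_cast at hTQ
    linarith
  have key := hE (insert l₀ T) (Finset.insert_subset_insert _ hT) hprod
    (fun p u => if p = l₀ then ich (A u) else h p u) ?_ ?_
  · have e1 : ∀ o, ∏ p ∈ insert l₀ T, (if p = l₀ then ich (A (pol o)) else h p (pol o)) =
        ich (A (pol o)) * ∏ p ∈ T, h p (pol o) := by
      intro o
      rw [Finset.prod_insert hlT, if_pos rfl]
      congr 1
      refine Finset.prod_congr rfl fun p hp => ?_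
      rw [if_neg]
      rintro rfl
      exact hlT hp
    have e2 : ∏ p ∈ insert l₀ T, mL (L p) (fun u => if p = l₀ then ich (A u) else h p u) =
        μ * ∏ p ∈ T, mL (L p) (h p) := by
      rw [Finset.prod_insert hlT, hμ]
      congr 1
      · congr 1
        funext u
        rw [if_pos rfl]
      · refine Finset.prod_congr rfl fun p hp => ?_
        congr 1
        funext u
        rw [if_neg]
        rintro rfl
        exact hlT hp
    have e3 : ∑ o ∈ O.filter (fun o => A (pol o)), ∏ p ∈ T, h p (pol o) =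
        ∑ o ∈ O, ∏ p ∈ insert l₀ T, (if p = l₀ then ich (A (pol o)) else h p (pol o)) := by
      rw [Finset.sum_filter]
      refine Finset.sum_congr rfl fun o _ => ?_
      rw [e1]
      unfold ich
      by_cases ho : A (pol o)
      · rw [if_pos ho, if_pos ho, one_mul]
      · rw [if_neg ho, if_neg ho, zero_mul]
    rw [e3, ← e2]
    exact key
  · intro p hp
    by_cases hpl : p = l₀
    · subst hpl
      simp only [if_true]
      exact hA
    · simp only [if_neg hpl]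
      exact h2 p ((Finset.mem_insert.1 hp).resolve_left hpl)
  · intro p hp u
    by_cases hpl : p = l₀
    · simp only [if_pos hpl]
      exact ua5_ich _
    · simp only [if_neg hpl]
      exact h3 p ((Finset.mem_insert.1 hp).resolve_left hpl) u

open Classical in
theorem equi_filter_pr {K : ℕ} {ι : Type} {O : Finset ι} {pol : ι → PolyK K}
    {L : ℕ → Finset (PolyK K)} {S : Finset ℕ} {l₀ : ℕ} (h1 : 1 ≤ l₀) (hl : l₀ ∉ S)
    {A : PolyK K → Prop} (hA : PerP l₀ (fun u => ich (A u))) {Q η μ : ℝ}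
    (hE : EquiF O pol L (insert l₀ S) Q η) (hμ : μ = mL (L l₀) (fun u => ich (A u)))
    (hμ0 : 0 < μ) (hη : 0 ≤ η) (hημ : η ≤ μ / 2) (hQ : (l₀ : ℝ) ≤ Q)
    (hL : ∀ p ∈ S, (L p).Nonempty) :
    EquiF (O.filter (fun o => A (pol o))) pol L S (Q / l₀) (4 * η / μ) ∧
      ((O.filter (fun o => A (pol o))).card : ℝ) ≤ 2 * μ * O.card := by
  have hl0 : (0 : ℝ) < l₀ := by exact_mod_cast h1
  have hO : (0 : ℝ) ≤ O.card := Nat.cast_nonneg _
  have k0 := ua5_key h1 hl hA hE hμ (T := ∅) (Finset.empty_subset _) (by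
    rw [Finset.prod_empty, le_div_iff₀ hl0]
    push_cast
    linarith) (fun _ _ => 0) (fun p hp => absurd hp (Finset.notMem_empty p))
    (fun p hp => absurd hp (Finset.notMem_empty p))
  simp only [Finset.prod_empty, mul_one, Finset.sum_const, nsmul_eq_mul] at k0
  obtain ⟨k1, k2⟩ := abs_le.1 k0
  have hcard : (O.card : ℝ) * μ ≤ 2 * ((O.filter (fun o => A (pol o))).card : ℝ) := by
    nlinarith [mul_nonneg hO (sub_nonneg.2 hημ)]
  refine ⟨?_, by nlinarith [mul_nonneg hO (sub_nonneg.2 hημ), mul_nonneg hO hμ0.le]⟩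
  intro T hT hTQ h h2 h3
  have key := ua5_key h1 hl hA hE hμ hT hTQ h h2 h3
  have hm : 0 ≤ ∏ p ∈ T, mL (L p) (h p) ∧ ∏ p ∈ T, mL (L p) (h p) ≤ 1 :=
    ⟨Finset.prod_nonneg fun p hp => (ua5_mL _ _ (h3 p hp)).1,
      Finset.prod_le_one (fun p hp => (ua5_mL _ _ (h3 p hp)).1)
        (fun p hp => (ua5_mL _ _ (h3 p hp)).2)⟩
  obtain ⟨m, hmdef⟩ : ∃ m, m = ∏ p ∈ T, mL (L p) (h p) := ⟨_, rfl⟩
  rw [← hmdef] at key hm ⊢
  obtain ⟨s, hsdef⟩ : ∃ s, s = ∑ o ∈ O.filter (fun o => A (pol o)), ∏ p ∈ T, h p (pol o) :=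
    ⟨_, rfl⟩
  rw [← hsdef] at key ⊢
  obtain ⟨c, hcdef⟩ : ∃ c : ℝ, c = ((O.filter (fun o => A (pol o))).card : ℝ) := ⟨_, rfl⟩
  rw [← hcdef] at k0 hcard ⊢
  have t1 : |s - c * m| ≤ 2 * η * O.card := by
    have e : s - c * m = (s - O.card * (μ * m)) - (c - O.card * μ) * m := by ring
    rw [e]
    refine (abs_sub _ _).trans ?_
    rw [abs_mul, abs_of_nonneg hm.1]
    have t2 : |c - O.card * μ| * m ≤ |c - O.card * μ| * 1 :=
      mul_le_mul_of_nonneg_left hm.2 (abs_nonneg _)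
    linarith
  refine t1.trans ?_
  rw [div_mul_eq_mul_div, le_div_iff₀ hμ0]
  nlinarith [mul_le_mul_of_nonneg_left hcard hη]

alias equi_filter := equi_filter_pr

end Pool.Agent.UPA
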