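import Pool.Agent.Lib_helper15.UP.Facts
import Pool.Agent.Lib_helper15.PFMF.F1
import Pool.Agent.Lib_helper15.PENT.TSum
import Pool.Agent.Lib_helper18.PENKF.PA4
import Pool.Agent.Lib_helper68.LEV.MRT

/-! Block UC1 -/

set_option autoImplicit false

namespace Pool.Agent.UPA

open Finset Pool.Agent.PENT Pool.Agent.PATH.NC Pool.Agent.PFM
open Pool.Agent.PENK (PolyK Wts dn dl mL ich EquiF PerP prs lw L1 Rf)

theorem uc1_al {j : Fin 11} (hj : j ∈ feU) : (WD 0).al j = 1 / 4 := by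
  rw [mem_feU] at hj
  have h10 : j ≠ 10 := by
    rintro rfl
    exact absurd hj.2 (by decide)
  show (if j = 10 then (0 : ℝ) else alE 10 j.val ^ ((1 : ℝ) + 0)) = 1 / 4
  rw [if_neg h10, add_zero, Real.rpow_one]
  unfold alE
  rw [if_neg (by omega)]

theorem uc1_be (i : Fin 11) : (WD 0).be i = beV 10 i.val := by
  show beV 10 i.val ^ ((1 : ℝ) + 0) = _
  rw [add_zero, Real.rpow_one]

theorem uc1_ok : (WD 0).Ok := by
  have hal : ∀ j : Fin 11, (WD 0).al j = if j = 10 then (0 : ℝ) else alE 10 j.val := by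
    intro j
    show (if j = 10 then (0 : ℝ) else alE 10 j.val ^ ((1 : ℝ) + 0)) = _
    rw [add_zero, Real.rpow_one]
  have hbo : ∀ j : Fin 11, (WD 0).bo j = boV j.val := fun j => rfl
  refine ⟨?_, ?_, ?_, ?_, ?_, ?_⟩
  · intro j
    rw [hal]
    unfold alE
    split_ifs <;> norm_num
  · intro j
    rw [hal]
    unfold alE
    split_ifs <;> norm_num
  · intro j
    rw [uc1_be]
    unfold beV
    split_ifs <;> norm_num
  · intro j
    rw [uc1_be]
    unfold beV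
    split_ifs <;> norm_num
  · intro j
    rw [hbo]
    unfold boV
    split_ifs <;> norm_num
  · intro j
    rw [hbo]
    unfold boV
    split_ifs <;> norm_num

/-- the primes of the product of the interior edges -/
theorem uc1_prod {p : Prm 10} {X : ℕ} {u : Vec 10} (h : GP p X u) (g : ℕ → ℝ) :
    ∏ j ∈ feU, ∏ l ∈ (dn (tp u) j).primeFactors, g l = ∏ l ∈ (Dint u).primeFactors, g l := by
  have hne : ∀ j ∈ feU, dn (tp u) j ≠ 0 := fun j _ => (gp_dn_dp h j).1.ne_zero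
  have e : (Dint u).primeFactors = feU.biUnion (fun j => (dn (tp u) j).primeFactors) := by
    rw [← DE_feU]
    unfold DE
    ext l
    rw [mem_biUnion, Nat.mem_primeFactors]
    constructor
    · rintro ⟨h1, h2, _⟩
      obtain ⟨j, hj, hd⟩ := (Prime.dvd_finsetProd_iff h1.prime _).1 h2
      exact ⟨j, hj, Nat.mem_primeFactors.2 ⟨h1, hd, hne j hj⟩⟩
    · rintro ⟨j, hj, hl⟩
      rw [Nat.mem_primeFactors] at hl
      exact ⟨hl.1, hl.2.1.trans (dvd_prod_of_mem _ hj), prod_ne_zero_iff.2 hne⟩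
  rw [e, prod_biUnion]
  intro i hi j hj hij
  exact Nat.Coprime.disjoint_primeFactors ((gp_isP h feU).co i hi j hj hij)

theorem uc1_gD {p : Prm 10} {X : ℕ} {u : Vec 10} (h : GP p X u) {P : ℕ}
    (hP : (P : ℝ) ≤ p.Y X) : gD p X u ≤ edP (WD 0) feU P (tp u) := by
  have e : edP (WD 0) feU P (tp u) =
      ∏ l ∈ (Dint u).primeFactors, 2 * lw P l (1 / 4) / (l : ℝ) := by
    rw [← uc1_prod h]
    unfold edP
    refine prod_congr rfl fun j hj => ?_
    rw [uc1_al hj]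
  rw [e]
  unfold gD
  refine prod_le_prod ?_ ?_
  · intro l _
    split_ifs <;> positivity
  · intro l hl
    have hl0 : (0 : ℝ) < l := by exact_mod_cast (Nat.prime_of_mem_primeFactors hl).pos
    have h1 : 2 / ((l : ℝ) + 1) ≤ 2 / (l : ℝ) :=
      div_le_div_of_nonneg_left (by norm_num) hl0 (by linarith)
    have h2 : (if (l : ℝ) ≤ p.Y X then (1 : ℝ) / 4 else 1) ≤ lw P l (1 / 4) := by
      unfold lw
      by_cases hlP : l ≤ P
      · have : (l : ℝ) ≤ p.Y X := le_trans (by exact_mod_cast hlP) hP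
        rw [if_pos hlP, if_pos this]
      · rw [if_neg hlP]
        split_ifs <;> norm_num
    have h3 : (0 : ℝ) ≤ (if (l : ℝ) ≤ p.Y X then (1 : ℝ) / 4 else 1) := by
      split_ifs <;> norm_num
    calc 2 / ((l : ℝ) + 1) * (if (l : ℝ) ≤ p.Y X then (1 : ℝ) / 4 else 1) ≤
          2 / (l : ℝ) * lw P l (1 / 4) := mul_le_mul h1 h2 h3 (by positivity)
      _ = 2 * lw P l (1 / 4) / (l : ℝ) := by ring

theorem uc1_edP0 (P : ℕ) (u : Vec 10) : 0 ≤ edP (WD 0) feU P (tp u) := by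
  unfold edP
  refine prod_nonneg fun j hj => prod_nonneg fun l _ => ?_
  rw [uc1_al hj]
  have h3 : (0 : ℝ) ≤ lw P l (1 / 4) := by
    unfold lw
    split_ifs <;> norm_num
  positivity

theorem uc1_gD0 (p : Prm 10) (X : ℕ) (u : Vec 10) : 0 ≤ gD p X u := by
  unfold gD
  refine prod_nonneg fun l _ => ?_
  split_ifs <;> positivity

/-- the mean of the interior local factor -/
theorem uc1_MV {p : Prm 10} {X : ℕ} (u : Vec 10) {l : ℕ} (hl : l.Prime) (h2 : 2 < l)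
    (hY : (l : ℝ) ≤ p.Y X) : EQ.MV l (Iv p X u l) = 1 - v1 (WD 0) ⌊PP X⌋₊ vqU (tp u) l := by
  have e1 : Iv p X u l = ph (WD 0) ⌊PP X⌋₊ vqU (tp u) l := by
    funext q
    unfold Iv PW ph
    have e0 : ivx 10 = vqU := by
      ext i
      rw [mem_vqU]
      unfold ivx
      rw [mem_filter]
      have : (i : ℕ) < 11 := i.isLt
      constructor
      · rintro ⟨_, a, b⟩
        exact ⟨a, by omega⟩
      · rintro ⟨a, b⟩
        exact ⟨mem_univ _, a, by omega⟩
    rw [e0]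
    refine prod_congr rfl fun i _ => ?_
    unfold PENK.ind
    have e3 : fv q (u i) = Rf q (tp u i) := rfl
    rw [e3]
    have e4 : wyV 10 (PP X) (p.Y X) i.val l = (WD 0).gi ⌊PP X⌋₊ l i := by
      unfold wyV PENK.Wts.gi
      rw [if_neg (by omega)]
      by_cases h : (l : ℝ) ≤ PP X
      · rw [if_pos h, if_pos (Nat.le_floor h)]
        rfl
      · have hPP : 0 ≤ PP X := (Real.exp_pos _).le
        rw [if_neg h, if_pos hY, if_neg (fun hc => h ((Nat.le_floor_iff hPP).1 hc)), uc1_be]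
    beta_reduce
    rw [e4]
  rw [e1]
  unfold v1
  have e5 : (fun R => 1 - ph (WD 0) ⌊PP X⌋₊ vqU (tp u) l R) =
      fun R => (1 : ℝ) + (-1) * ph (WD 0) ⌊PP X⌋₊ vqU (tp u) l R := by
    funext R
    ring
  rw [e5, PENK.mV_add (fun _ => (1 : ℝ)) (fun R => (-1) * ph (WD 0) ⌊PP X⌋₊ vqU (tp u) l R),
    PENK.mV_smul, PENK.mV_const hl h2]
  have e6 : EQ.MV l (ph (WD 0) ⌊PP X⌋₊ vqU (tp u) l) =
      PENK.mV l (ph (WD 0) ⌊PP X⌋₊ vqU (tp u) l) := by
    unfold EQ.MV PENK.mV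
    rfl
  rw [e6]
  ring

/-- for the primes `3 mod 4` the local factor is one -/
theorem uc1_three {p : Prm 10} {X : ℕ} {u : Vec 10} (h : GP p X u) {l : ℕ} (hl : l.Prime)
    (h2 : 2 < l) (h4 : l % 4 ≠ 1) (P0 : ℕ) : v1 (WD 0) P0 vqU (tp u) l = 0 := by
  refine le_antisymm ?_ (v1_mem (WD 0) uc1_ok P0 vqU (tp u) hl h2).1
  unfold v1
  have h1 := PENK.mV_mono (p := l) (h := fun R => 1 - ph (WD 0) P0 vqU (tp u) l R)
    (h' := fun R => ∑ i ∈ vqU, ich ((l : ℤ) ∣ Rf R (tp u i))) (f1_le (WD 0) uc1_ok P0 vqU (tp u) l)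
  rw [f1_sum vqU (fun i R => ich ((l : ℤ) ∣ Rf R (tp u i)))] at h1
  refine h1.trans (le_of_eq ?_)
  refine sum_eq_zero fun i _ => ?_
  rw [PENK.mV_one hl h2 (tp u i) (gp_prim h i hl), if_neg h4]

/-- lower bound for the factor of one prime -/
theorem uc1_exp {p : Prm 10} {X : ℕ} {u : Vec 10} (h : GP p X u) {l : ℕ} (hl : l.Prime)
    (h2 : 1100 < l) (P0 : ℕ) :
    Real.exp (-(44 * if l % 4 = 1 then 1 / (l : ℝ) else 0)) ≤
      1 - v1 (WD 0) P0 vqU (tp u) l := by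
  by_cases h4 : l % 4 = 1
  · rw [if_pos h4]
    have h3 := (v1_bounds (WD 0) uc1_ok P0 vqU (tp u) hl (by omega)
      (fun i _ => gp_prim h i hl)).2
    have hlr : (1100 : ℝ) < l := by exact_mod_cast h2
    have h5 : 2 * ((11 : ℕ) : ℝ) / ((l : ℝ) + 1) ≤ 22 / l := by
      rw [div_le_div_iff₀ (by linarith) (by linarith)]
      push_cast
      nlinarith
    set y : ℝ := 22 / l with hy
    have hy0 : 0 < y := by
      rw [hy]
      positivity
    have hy1 : y ≤ 1 / 2 := by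
      rw [hy, div_le_iff₀ (by linarith)]
      linarith
    have h6 : Real.exp (-(44 * (1 / (l : ℝ)))) = (Real.exp (2 * y))⁻¹ := by
      rw [← Real.exp_neg]
      congr 1
      rw [hy]
      ring
    have h7 : 2 * y + 1 ≤ Real.exp (2 * y) := Real.add_one_le_exp _
    have h8 : (Real.exp (2 * y))⁻¹ ≤ (2 * y + 1)⁻¹ := inv_anti₀ (by linarith) h7
    have h9 : (2 * y + 1)⁻¹ ≤ 1 - y := by
      rw [inv_le_iff_one_le_mul₀ (by linarith)]
      nlinarith
    rw [h6]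
    have h10 := h3.trans h5
    linarith
  · rw [if_neg h4, uc1_three h hl (by omega) h4]
    simp

/-- the primes of `Dall` which do not divide `Dint` -/
theorem uc1_ends {u : Vec 10} {l : ℕ} (hl : l.Prime) (h1 : l ∣ Dall u) (h2 : ¬ l ∣ Dint u) :
    l ∣ dE u 1 * dE u 10 := by
  unfold Dall at h1
  obtain ⟨i, hi, hd⟩ := (Prime.dvd_finsetProd_iff hl.prime _).1 h1
  rw [mem_Icc] at hi
  have hi2 : i ≤ 10 := hi.2
  by_cases hi1 : i = 1
  · rw [hi1] at hd
    exact hd.mul_right _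
  · by_cases hi10 : i = 10
    · rw [hi10] at hd
      exact hd.mul_left _
    · exfalso
      apply h2
      unfold Dint
      refine hd.trans (dvd_prod_of_mem _ ?_)
      rw [mem_Icc]
      constructor
      · omega
      · show i ≤ 9
        omega

/-- block UC1 (uses PFMF/F1 `v1_bounds`; PENKF/PA4 `mV_one`): `gk = okf (gD gS)`, `okf ≤ 1`; `gD ≤ edP`
(`2/(l+1) ≤ 2/l`, weight `1/4` for `l ≤ Y`, `P ≤ Y`); `MV l (Iv ..) = 1 - v1 (WD 0) P0 vqU u l`
(`V3 l = VV l`, `mean (1 - h) = 1 - mean h`); primes in `gS`: `1 mod 4`, `(P00, Y]`, not dividing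
`Dall`. In `vxP`: primes of `(1100, P]` not dividing `Dint`: for `l = 3 mod 4` the factor is `1`; the
primes `≤ P00` cost `∏ (1 - 22/(l+1))^(-1) ≤ C (log P00)^(C₂)`; the primes of `d_0 d_9` (all `> PP X`,
at most `2 log X`) cost at most `2`; primes in `(P, Y]` are dropped from `gS`. -/
theorem gk_le_pr {p : Prm 10} {τ : ℝ} (hp : p.Ok τ) (hτ : τ ≤ 1 / 200) {t : ℝ} (ht : 0 < t)
    (htt : t ≤ p.ta) : ∃ C C₂ : ℝ, 0 ≤ C ∧ 0 ≤ C₂ ∧ ∀ P00 : ℕ, 3 ≤ P00 → ∃ X₀ : ℕ, ∀ X ≥ X₀,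
    ∀ u : Vec 10, GP p X u → ∀ q : ℤ × ℤ × ℤ, gk p X P00 q u ≤
      C * Real.log P00 ^ C₂ * (edP (WD 0) feU ⌊(X : ℝ) ^ t⌋₊ (tp u) *
        vxP (WD 0) feU vqU ⌊PP X⌋₊ ⌊(X : ℝ) ^ t⌋₊ (tp u)) := by
  classical
  obtain ⟨CM, hCM⟩ := LEV.mertens_two
  obtain ⟨X1, hX1⟩ := tw_large 1 1 one_pos
  refine ⟨Real.exp (44 * (CM + 1)), 44, (Real.exp_pos _).le, by norm_num, ?_⟩
  intro P00 hP00
  obtain ⟨X2, hX2⟩ := exists_nat_ge (Real.exp 100)
  refine ⟨max X1 X2, ?_⟩
  intro X hX u hu q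
  have hXa : X1 ≤ X := (le_max_left _ _).trans hX
  have hXb : X2 ≤ X := (le_max_right _ _).trans hX
  have hXe : Real.exp 100 ≤ X := hX2.trans (by exact_mod_cast hXb)
  have hX0 : (0 : ℝ) < X := (Real.exp_pos _).trans_le hXe
  have hL : 100 ≤ Real.log X := by
    rw [Real.le_log_iff_exp_le hX0]
    exact hXe
  have hX1' : (1 : ℝ) ≤ X := by
    have : (1 : ℝ) ≤ Real.exp 100 := Real.one_le_exp (by norm_num)
    linarith
  obtain ⟨-, -, -, -, -, hPP20, -, -⟩ := hX1 X hXa X (by rw [Real.rpow_one]) le_rfl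
  set P : ℕ := ⌊(X : ℝ) ^ t⌋₊ with hP
  have hPY : (P : ℝ) ≤ p.Y X := by
    refine (Nat.floor_le (Real.rpow_nonneg hX0.le _)).trans ?_
    exact Real.rpow_le_rpow_of_exponent_le hX1' htt
  have hPP0 : 0 < PP X := Real.exp_pos _
  set f : ℕ → ℝ := fun l => 1 - v1 (WD 0) ⌊PP X⌋₊ vqU (tp u) l with hf
  have hf01 : ∀ l : ℕ, l.Prime → 2 < l → 0 ≤ f l ∧ f l ≤ 1 := by
    intro l hl h2
    have h3 := v1_mem (WD 0) uc1_ok ⌊PP X⌋₊ vqU (tp u) hl h2
    constructor
    · show 0 ≤ 1 - v1 (WD 0) ⌊PP X⌋₊ vqU (tp u) l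
      linarith
    · show 1 - v1 (WD 0) ⌊PP X⌋₊ vqU (tp u) l ≤ 1
      linarith
  set V : Finset ℕ := (prs 1100 P).filter (fun l => ¬ l ∣ DE feU (tp u)) with hV
  have hVm : ∀ l, l ∈ V ↔ (1100 < l ∧ l ≤ P) ∧ l.Prime ∧ ¬ l ∣ Dint u := by
    intro l
    rw [hV, mem_filter, DE_feU]
    unfold prs
    rw [mem_filter, mem_Ioc]
    tauto
  set G : Finset ℕ := (Spr P00 (p.Y X)).filter (fun l => ¬ l ∣ Dall u) with hG
  have hY0 : 0 ≤ p.Y X := (Nat.cast_nonneg _).trans hPY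
  have hGm : ∀ l, l ∈ G ↔ (P00 < l ∧ (l : ℝ) ≤ p.Y X) ∧ (l.Prime ∧ l % 4 = 1) ∧ ¬ l ∣ Dall u := by
    intro l
    rw [hG, mem_filter]
    unfold Spr
    rw [mem_filter, mem_Ioc, Nat.le_floor_iff hY0]
    tauto
  have hgS : gS p X P00 u = ∏ l ∈ G, f l := by
    unfold gS
    refine prod_congr rfl fun l hl => ?_
    have hl' := (hGm l).1 hl
    exact uc1_MV u hl'.2.1.1 (by omega) hl'.1.2
  have hvx : vxP (WD 0) feU vqU ⌊PP X⌋₊ P (tp u) = ∏ l ∈ V, f l := rfl
  have hV01 : ∀ l ∈ V, 0 ≤ f l ∧ f l ≤ 1 := by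
    intro l hl
    have hl' := (hVm l).1 hl
    exact hf01 l hl'.2.1 (by omega)
  have hG01 : ∀ l ∈ G, 0 ≤ f l ∧ f l ≤ 1 := by
    intro l hl
    have hl' := (hGm l).1 hl
    exact hf01 l hl'.2.1.1 (by omega)
  -- upper bound of `gS`
  have hGS : ∏ l ∈ G, f l ≤ ∏ l ∈ G.filter (fun l => l ∈ V), f l := by
    rw [← prod_filter_mul_prod_filter_not G (fun l => l ∈ V)]
    refine mul_le_of_le_one_right ?_ ?_
    · exact prod_nonneg fun l hl => (hG01 l (mem_filter.1 hl).1).1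
    · exact prod_le_one (fun l hl => (hG01 l (mem_filter.1 hl).1).1)
        fun l hl => (hG01 l (mem_filter.1 hl).1).2
  -- lower bound of the other part of `vxP`
  have hB : Real.exp (-(44 * (Real.log (Real.log P00) + CM + 1))) ≤
      ∏ l ∈ V.filter (fun l => l ∉ G), f l := by
    have h1 : ∏ l ∈ V.filter (fun l => l ∉ G),
        Real.exp (-(44 * if l % 4 = 1 then 1 / (l : ℝ) else 0)) ≤
        ∏ l ∈ V.filter (fun l => l ∉ G), f l := by
      refine prod_le_prod (fun l _ => (Real.exp_pos _).le) ?_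
      intro l hl
      have hl' := (hVm l).1 (mem_filter.1 hl).1
      exact uc1_exp hu hl'.2.1 hl'.1.1 _
    refine le_trans ?_ h1
    rw [← Real.exp_sum]
    refine Real.exp_le_exp.2 ?_
    rw [sum_neg_distrib, ← mul_sum]
    refine neg_le_neg (mul_le_mul_of_nonneg_left ?_ (by norm_num))
    rw [← sum_filter]
    set m := dE u 1 * dE u 10 with hm
    have hm0 : 0 < m := Nat.mul_pos (Nat.pos_of_ne_zero hu.e1.dp.1.ne_zero)
      (Nat.pos_of_ne_zero hu.e2.dp.1.ne_zero)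
    have hsub : (V.filter (fun l => l ∉ G)).filter (fun l => l % 4 = 1) ⊆
        (Icc 1 ⌊(P00 : ℝ)⌋₊).filter Nat.Prime ∪ m.primeFactors := by
      intro l hl
      rw [mem_filter, mem_filter] at hl
      obtain ⟨⟨a, b⟩, c⟩ := hl
      have a' := (hVm l).1 a
      rw [hGm] at b
      rw [mem_union, mem_filter, mem_Icc, Nat.floor_natCast]
      by_cases hlP : l ≤ P00
      · exact Or.inl ⟨⟨by omega, hlP⟩, a'.2.1⟩
      · right
        have hlY : (l : ℝ) ≤ p.Y X := le_trans (by exact_mod_cast a'.1.2) hPY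
        have hD : l ∣ Dall u := by
          by_contra hc
          exact b ⟨⟨by omega, hlY⟩, ⟨a'.2.1, c⟩, hc⟩
        exact Nat.mem_primeFactors.2 ⟨a'.2.1, uc1_ends a'.2.1 hD a'.2.2, hm0.ne'⟩
    have h2 : ∑ l ∈ (V.filter (fun l => l ∉ G)).filter (fun l => l % 4 = 1), 1 / (l : ℝ) ≤
        ∑ l ∈ (Icc 1 ⌊(P00 : ℝ)⌋₊).filter Nat.Prime ∪ m.primeFactors, 1 / (l : ℝ) :=
      sum_le_sum_of_subset_of_nonneg hsub (fun l _ _ => one_div_nonneg.2 (Nat.cast_nonneg l))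
    have h3 : ∑ l ∈ (Icc 1 ⌊(P00 : ℝ)⌋₊).filter Nat.Prime ∪ m.primeFactors, 1 / (l : ℝ) ≤
        ∑ l ∈ (Icc 1 ⌊(P00 : ℝ)⌋₊).filter Nat.Prime, 1 / (l : ℝ) +
          ∑ l ∈ m.primeFactors, 1 / (l : ℝ) := by
      have h4 := sum_union_inter (s₁ := (Icc 1 ⌊(P00 : ℝ)⌋₊).filter Nat.Prime)
        (s₂ := m.primeFactors) (f := fun l : ℕ => 1 / (l : ℝ))
      have h5 : 0 ≤ ∑ l ∈ (Icc 1 ⌊(P00 : ℝ)⌋₊).filter Nat.Prime ∩ m.primeFactors,
          1 / (l : ℝ) := sum_nonneg fun l _ => one_div_nonneg.2 (Nat.cast_nonneg l)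
      linarith
    have h6 : ∑ l ∈ (Icc 1 ⌊(P00 : ℝ)⌋₊).filter Nat.Prime, 1 / (l : ℝ) ≤
        Real.log (Real.log P00) + CM := by
      have h7 := hCM (P00 : ℝ) (by
        have : (3 : ℝ) ≤ P00 := by exact_mod_cast hP00
        linarith)
      have h8 := (abs_le.1 h7).2
      linarith
    have h9 : ∑ l ∈ m.primeFactors, 1 / (l : ℝ) ≤ 1 := by
      have h10 : ∀ l ∈ m.primeFactors, 1 / (l : ℝ) ≤ 1 / PP X := by
        intro l hl
        have hlp := Nat.prime_of_mem_primeFactors hl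
        have hlP : PP X < (l : ℝ) := by
          rcases (Nat.Prime.dvd_mul hlp).1 (Nat.dvd_of_mem_primeFactors hl) with h11 | h11
          · exact (hu.e1.dp.2 l hlp h11).2
          · exact (hu.e2.dp.2 l hlp h11).2
        exact one_div_le_one_div_of_le hPP0 hlP.le
      refine (sum_le_card_nsmul _ _ _ h10).trans ?_
      rw [nsmul_eq_mul]
      have h12 := card_pf_le hm0
      have h13 : (m : ℝ) ≤ X := by
        have h14 : p.ep ≤ 1 / 200 := hp.ep1.trans hτ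
        have h15 : (m : ℝ) ≤ (X : ℝ) ^ p.ep * (X : ℝ) ^ p.ep := by
          rw [hm]
          push_cast
          exact mul_le_mul hu.e1.hi hu.e2.hi (Nat.cast_nonneg _) (Real.rpow_nonneg hX0.le _)
        rw [← Real.rpow_add hX0] at h15
        refine h15.trans ?_
        calc (X : ℝ) ^ (p.ep + p.ep) ≤ (X : ℝ) ^ (1 : ℝ) :=
              Real.rpow_le_rpow_of_exponent_le hX1' (by linarith)
          _ = X := Real.rpow_one _
      have h16 : Real.log m ≤ Real.log X :=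
        Real.log_le_log (by exact_mod_cast hm0) h13
      have h17 : 2 * Real.log X ≤ Real.log X ^ 20 := by
        have h18 : Real.log X ^ 2 ≤ Real.log X ^ 20 :=
          pow_le_pow_right₀ (by linarith) (by norm_num)
        nlinarith
      rw [mul_one_div, div_le_one hPP0]
      linarith
    linarith
  have hVV : ∏ l ∈ V, f l = (∏ l ∈ G.filter (fun l => l ∈ V), f l) *
      ∏ l ∈ V.filter (fun l => l ∉ G), f l := by
    have e : G.filter (fun l => l ∈ V) = V.filter (fun l => l ∈ G) := by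
      refine Finset.ext fun l => ⟨fun h => ?_, fun h => ?_⟩
      · have h' := (Finset.mem_filter (s := G)).1 h
        exact (Finset.mem_filter (s := V)).2 ⟨h'.2, h'.1⟩
      · have h' := (Finset.mem_filter (s := V)).1 h
        exact (Finset.mem_filter (s := G)).2 ⟨h'.2, h'.1⟩
    rw [e]
    exact (prod_filter_mul_prod_filter_not V (fun l => l ∈ G) f).symm
  have hlP : 1 ≤ Real.log P00 := by
    rw [Real.le_log_iff_exp_le (by positivity)]
    have h3 : (3 : ℝ) ≤ P00 := by exact_mod_cast hP00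
    have := Real.exp_one_lt_d9
    linarith
  have hkey : ∏ l ∈ G, f l ≤ Real.exp (44 * (CM + 1)) * Real.log P00 ^ (44 : ℝ) *
      ∏ l ∈ V, f l := by
    have h1 : Real.exp (44 * (CM + 1)) * Real.log P00 ^ (44 : ℝ) *
        Real.exp (-(44 * (Real.log (Real.log P00) + CM + 1))) = 1 := by
      rw [Real.rpow_def_of_pos (by linarith), ← Real.exp_add, ← Real.exp_add, Real.exp_eq_one_iff]
      ring
    have h2 : 0 ≤ Real.exp (44 * (CM + 1)) * Real.log P00 ^ (44 : ℝ) := by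
      exact mul_nonneg (Real.exp_pos _).le (Real.rpow_nonneg (by linarith : 0 ≤ Real.log P00) 44)
    have h3 : 0 ≤ ∏ l ∈ G.filter (fun l => l ∈ V), f l :=
      prod_nonneg fun l hl => (hG01 l (mem_filter.1 hl).1).1
    rw [hVV]
    calc ∏ l ∈ G, f l ≤ ∏ l ∈ G.filter (fun l => l ∈ V), f l := hGS
      _ = (∏ l ∈ G.filter (fun l => l ∈ V), f l) * 1 := (mul_one _).symm
      _ = (∏ l ∈ G.filter (fun l => l ∈ V), f l) * (Real.exp (44 * (CM + 1)) *
          Real.log P00 ^ (44 : ℝ) * Real.exp (-(44 * (Real.log (Real.log P00) + CM + 1)))) := by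
            rw [h1]
      _ ≤ (∏ l ∈ G.filter (fun l => l ∈ V), f l) * (Real.exp (44 * (CM + 1)) *
          Real.log P00 ^ (44 : ℝ) * ∏ l ∈ V.filter (fun l => l ∉ G), f l) :=
            mul_le_mul_of_nonneg_left (mul_le_mul_of_nonneg_left hB h2) h3
      _ = _ := by ring
  have hgS0 : 0 ≤ gS p X P00 u := by
    rw [hgS]
    exact prod_nonneg fun l hl => (hG01 l hl).1
  have hg1 := uc1_gD hu hPY
  have hg0 := uc1_gD0 p X u
  have hok : okf P00 u q ≤ 1 := by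
    unfold okf
    split_ifs <;> norm_num
  rw [hvx]
  unfold gk
  calc okf P00 u q * (gD p X u * gS p X P00 u) ≤ 1 * (gD p X u * gS p X P00 u) :=
        mul_le_mul_of_nonneg_right hok (mul_nonneg hg0 hgS0)
    _ = gD p X u * gS p X P00 u := one_mul _
    _ ≤ edP (WD 0) feU P (tp u) * gS p X P00 u := mul_le_mul_of_nonneg_right hg1 hgS0
    _ ≤ edP (WD 0) feU P (tp u) * (Real.exp (44 * (CM + 1)) * Real.log P00 ^ (44 : ℝ) *
        ∏ l ∈ V, f l) := by
          rw [hgS]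
          exact mul_le_mul_of_nonneg_left hkey (uc1_edP0 P u)
    _ = _ := by ring

alias gk_le := gk_le_pr

end Pool.Agent.UPA
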