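import Pool.Agent.Lib_helper15.UP.Facts

set_option autoImplicit false

namespace Pool.Agent.UPA

open Finset Pool.Agent.PENT Pool.Agent.PATH.NC Pool.Agent.PFM
open Pool.Agent.PENK (PolyK Wts dn dl mL ich EquiF PerP prs lw L1 Rf)

theorem uc2_MV01 {m : ℕ} {h : ℤ × ℤ × ℤ → ℝ} (hh : ∀ v, 0 ≤ h v ∧ h v ≤ 1) :
    0 ≤ Pool.Agent.PENT.EQ.MV m h ∧ Pool.Agent.PENT.EQ.MV m h ≤ 1 := by
  unfold Pool.Agent.PENT.EQ.MV
  constructor
  · exact div_nonneg (Finset.sum_nonneg (fun v _ => (hh v).1)) (Nat.cast_nonneg _)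
  · refine div_le_one_of_le₀ ?_ (Nat.cast_nonneg _)
    calc ∑ v ∈ Pool.Agent.PENT.EQ.V3 m, h v ≤ ∑ v ∈ Pool.Agent.PENT.EQ.V3 m, (1 : ℝ) :=
          Finset.sum_le_sum (fun v _ => (hh v).2)
      _ = ((Pool.Agent.PENT.EQ.V3 m).card : ℝ) := by simp

theorem uc2_wyV (P Y : ℝ) (j l : ℕ) : 0 ≤ wyV 10 P Y j l ∧ wyV 10 P Y j l ≤ 1 := by
  unfold wyV boV beV
  split_ifs <;> norm_num

theorem uc2_PW {ι : Type} (s : Finset ι) (v : ι → ℤ × ℤ) (b : ι → ℝ) (l : ℕ) (q : ℤ × ℤ × ℤ)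
    (hb : ∀ i, 0 ≤ b i ∧ b i ≤ 1) : 0 ≤ PW s v b l q ∧ PW s v b l q ≤ 1 := by
  unfold PW
  constructor
  · refine Finset.prod_nonneg (fun i _ => ?_)
    split_ifs
    · exact (hb i).1
    · norm_num
  · refine Finset.prod_le_one (fun i _ => ?_) (fun i _ => ?_)
    · split_ifs
      · exact (hb i).1
      · norm_num
    · split_ifs
      · exact (hb i).2
      · norm_num

theorem uc2_gS (p : Prm 10) (X P00 : ℕ) (u : Vec 10) : 0 ≤ gS p X P00 u ∧ gS p X P00 u ≤ 1 := by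
  unfold gS
  have h : ∀ l : ℕ, 0 ≤ Pool.Agent.PENT.EQ.MV l (Iv p X u l) ∧
      Pool.Agent.PENT.EQ.MV l (Iv p X u l) ≤ 1 := by
    intro l
    refine uc2_MV01 (fun v => ?_)
    unfold Iv
    exact uc2_PW _ _ _ _ _ (fun j => uc2_wyV _ _ _ _)
  exact ⟨Finset.prod_nonneg (fun l _ => (h l).1),
    Finset.prod_le_one (fun l _ => (h l).1) (fun l _ => (h l).2)⟩

theorem uc2_okf (P00 : ℕ) (u : Vec 10) (q : ℤ × ℤ × ℤ) : 0 ≤ okf P00 u q ∧ okf P00 u q ≤ 1 := by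
  unfold okf
  split_ifs <;> norm_num

theorem uc2_sqf {p : Prm 10} {X : ℕ} {u : Vec 10} (h : GP p X u) : Squarefree (Dint u) := by
  unfold Dint
  refine Finset.squarefree_prod_of_pairwise_isCoprime ?_ ?_
  · intro i hi j hj hij
    rw [Finset.mem_coe, Finset.mem_Icc] at hi hj
    have hi2 : i ≤ 9 := hi.2
    have hj2 : j ≤ 9 := hj.2
    show IsRelPrime (dE u i) (dE u j)
    rw [← Nat.coprime_iff_isRelPrime]
    rcases Nat.lt_or_ge i j with h5 | h5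
    · exact h.cop i j (by omega) h5 (by omega)
    · exact (h.cop j i (by omega) (by omega) (by omega)).symm
  · intro i hi
    rw [Finset.mem_Icc] at hi
    have hi2 : i ≤ 9 := hi.2
    exact (h.dp i (by omega) (by omega)).1

theorem uc2_exps {p : Prm 10} {τ : ℝ} (hp : p.Ok τ) (hτ : τ ≤ 1 / 200) :
    0 < p.ta ∧ 0 < p.ep ∧ p.ep ≤ 1 / 200 ∧ 0 < p.c1 ∧ p.c1 ≤ 1 ∧
      ∀ j : Fin 11, 2 ≤ j.val → j.val + 2 ≤ 10 → p.e j + p.ew ≤ 1 / 100 := by
  have hc0 := hp.c10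
  have hc1 := hp.c11
  have hτ0 : 0 < τ := lt_of_lt_of_le hc0 hc1
  have hw := hp.ew0
  have e8 : p.ew ≤ τ * p.e 8 := hp.ew1 (8 : Fin 11) (by decide) (by decide)
  have e3 : p.ew ≤ τ * p.e 3 := hp.ew1 (3 : Fin 11) (by decide) (by decide)
  have o3 : p.e 3 = p.ep := hp.odd (3 : Fin 11) (by decide) (by decide) (by decide)
  have ev8 : p.e 8 ≤ τ * p.em := hp.even (8 : Fin 11) (by decide) (by decide) (by decide)
  have h8 : 0 < p.e 8 := by
    by_contra hh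
    push Not at hh
    nlinarith
  have hem : 0 < p.em := by
    by_contra hh
    push Not at hh
    nlinarith
  have h1 := hp.em_ta
  have hta : 0 < p.ta := by
    by_contra hh
    push Not at hh
    nlinarith
  have h2 := hp.ta_ep
  have hep : 0 < p.ep := by
    by_contra hh
    push Not at hh
    nlinarith
  have h3 := hp.ep1
  rw [o3] at e3
  have hew : p.ew ≤ 1 / 200 * p.ep := e3.trans (mul_le_mul_of_nonneg_right hτ hep.le)
  have htae : p.ta ≤ 1 / 200 * p.ep := h2.trans (mul_le_mul_of_nonneg_right hτ hep.le)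
  have hemt : p.em ≤ 1 / 200 * p.ta := h1.trans (mul_le_mul_of_nonneg_right hτ hta.le)
  refine ⟨hta, hep, h3.trans hτ, hc0, by linarith, ?_⟩
  intro j hj1 hj2
  by_cases hev : Even j.val
  · have := hp.even j hj1 hj2 hev
    have h5 : p.e j ≤ 1 / 200 * p.em := this.trans (mul_le_mul_of_nonneg_right hτ hem.le)
    linarith
  · have := hp.odd j hj1 hj2 hev
    rw [this]
    linarith

theorem uc2_nm {p : Prm 10} {τ : ℝ} (hp : p.Ok τ) (hτ : τ ≤ 1 / 200) {X : ℕ} (hX : 1 ≤ X)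
    {u : Vec 10} (h : GP p X u) (i : Fin 11) (hi : 1 ≤ i.val) (hi2 : i.val ≤ 9) :
    (nm (u i) : ℝ) ≤ (X : ℝ) ^ (1 / 100 : ℝ) / p.c1 := by
  obtain ⟨hta, hep, hep2, hc0, hc1, he⟩ := uc2_exps hp hτ
  have hXr : (1 : ℝ) ≤ X := by exact_mod_cast hX
  have hX0 : (0 : ℝ) ≤ (X : ℝ) ^ (1 / 100 : ℝ) := by positivity
  have hep3 : (X : ℝ) ^ p.ep ≤ (X : ℝ) ^ (1 / 100 : ℝ) :=
    Real.rpow_le_rpow_of_exponent_le hXr (by linarith)
  rw [le_div_iff₀ hc0]
  by_cases h1 : i.val = 1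
  · have hs := h.sep (0 : Fin 11) i (by rw [Fin.lt_def, h1]; decide)
    have h0 : u (0 : Fin 11) = (1, 0) := h.first
    have hd := h.e1.hi
    have e : dE u 1 = (dt (u (0 : Fin 11)) (u i)).natAbs := by
      unfold dE
      rw [dif_pos (by omega)]
      have : i = ⟨1, by omega⟩ := Fin.ext h1
      rw [this]
      rfl
    rw [e, Nat.cast_natAbs] at hd
    have h3 : (dt (u (0 : Fin 11)) (u i) : ℝ) ≤ ((|dt (u (0 : Fin 11)) (u i)| : ℤ) : ℝ) := by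
      exact_mod_cast le_abs_self _
    have h4 : nm (u (0 : Fin 11)) = 1 := by rw [h0]; rfl
    rw [h4] at hs
    push_cast at hs
    linarith
  · by_cases h9 : i.val = 9
    · have hs := h.sep i (10 : Fin 11) (by rw [Fin.lt_def, h9]; decide)
      have h0 : u (10 : Fin 11) = (0, 1) := h.last
      have hd := h.e2.hi
      have e : dE u 10 = (dt (u i) (u (10 : Fin 11))).natAbs := by
        unfold dE
        rw [dif_pos (by omega)]
        have : i = ⟨9, by omega⟩ := Fin.ext h9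
        rw [this]
        rfl
      rw [e, Nat.cast_natAbs] at hd
      have h3 : (dt (u i) (u (10 : Fin 11)) : ℝ) ≤ ((|dt (u i) (u (10 : Fin 11))| : ℤ) : ℝ) := by
        exact_mod_cast le_abs_self _
      have h4 : nm (u (10 : Fin 11)) = 1 := by rw [h0]; rfl
      rw [h4] at hs
      push_cast at hs
      linarith
    · have h5 := h.upp i (by omega) (by omega)
      have h6 : (X : ℝ) ^ (p.e i + p.ew) ≤ (X : ℝ) ^ (1 / 100 : ℝ) :=
        Real.rpow_le_rpow_of_exponent_le hXr (he i (by omega) (by omega))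
      have h7 : (0 : ℝ) ≤ nm (u i) := by
        have := nm_pos h i
        exact_mod_cast (by omega : (0 : ℤ) ≤ nm (u i))
      nlinarith

theorem uc2_dt {v w : ℤ × ℤ} (h1 : 0 < v.1) (h2 : 0 < v.2) (h3 : 0 < w.1) (h4 : 0 < w.2) :
    ((dt v w).natAbs : ℝ) ≤ (nm v : ℝ) * (nm w : ℝ) := by
  rw [Nat.cast_natAbs]
  have : |dt v w| ≤ nm v * nm w := by
    unfold dt nm
    rw [abs_le]
    constructor
    · nlinarith [mul_pos h1 h3, mul_pos h1 h4, mul_pos h2 h3, mul_pos h2 h4]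
    · nlinarith [mul_pos h1 h3, mul_pos h1 h4, mul_pos h2 h3, mul_pos h2 h4]
  exact_mod_cast this

theorem uc2_Dint {p : Prm 10} {τ : ℝ} (hp : p.Ok τ) (hτ : τ ≤ 1 / 200) {X : ℕ} (hX : 1 ≤ X)
    (hX2 : 1 / p.c1 ^ 32 ≤ (X : ℝ)) {u : Vec 10} (h : GP p X u) : (Dint u : ℝ) ≤ X := by
  obtain ⟨hta, hep, hep2, hc0, hc1, he⟩ := uc2_exps hp hτ
  have hXr : (1 : ℝ) ≤ X := by exact_mod_cast hX
  have hXp : (0 : ℝ) < X := by linarith
  set B : ℝ := (X : ℝ) ^ (1 / 100 : ℝ) / p.c1 with hB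
  have hB0 : 0 < B := by positivity
  have key : ∀ i ∈ Icc 2 (10 - 1), (dE u i : ℝ) ≤ B * B := by
    intro i hi
    rw [Finset.mem_Icc] at hi
    have hi2 : i ≤ 9 := hi.2
    unfold dE
    rw [dif_pos (by omega : 1 ≤ i ∧ i ≤ 10)]
    have a1 : 1 ≤ i - 1 := by omega
    have a2 : i - 1 < 11 := by omega
    have a3 : i < 11 := by omega
    obtain ⟨p1, p2⟩ := h.pos ⟨i - 1, a2⟩ a1 (by show i - 1 + 1 ≤ 10; omega)
    obtain ⟨p3, p4⟩ := h.pos ⟨i, a3⟩ (by show 1 ≤ i; omega) (by show i + 1 ≤ 10; omega)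
    refine (uc2_dt p1 p2 p3 p4).trans ?_
    have n1 := uc2_nm hp hτ hX h ⟨i - 1, a2⟩ a1 (by show i - 1 ≤ 9; omega)
    have n2 := uc2_nm hp hτ hX h ⟨i, a3⟩ (by show 1 ≤ i; omega) (by show i ≤ 9; omega)
    have z2 : (0 : ℝ) ≤ nm (u (⟨i, a3⟩ : Fin 11)) := by
      have := nm_pos h ⟨i, a3⟩
      exact_mod_cast (by omega : (0 : ℤ) ≤ nm (u (⟨i, a3⟩ : Fin 11)))
    exact mul_le_mul n1 n2 z2 hB0.le
  have h1 : (Dint u : ℝ) ≤ (B * B) ^ 8 := by
    unfold Dint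
    push_cast
    calc ∏ i ∈ Icc 2 (10 - 1), (dE u i : ℝ) ≤ ∏ _i ∈ Icc 2 (10 - 1), (B * B) :=
          Finset.prod_le_prod (fun i _ => Nat.cast_nonneg _) key
      _ = (B * B) ^ 8 := by
          rw [Finset.prod_const]
          rfl
  refine h1.trans ?_
  have h2 : (B * B) ^ 8 = (X : ℝ) ^ (16 / 100 : ℝ) * (1 / p.c1 ^ 16) := by
    have h3 : ((X : ℝ) ^ (1 / 100 : ℝ)) ^ 16 = (X : ℝ) ^ (16 / 100 : ℝ) := by
      rw [← Real.rpow_natCast, ← Real.rpow_mul hXp.le]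
      norm_num
    rw [hB, ← h3]
    field_simp
  rw [h2]
  have h4 : (X : ℝ) ^ (16 / 100 : ℝ) ≤ (X : ℝ) ^ (1 / 2 : ℝ) :=
    Real.rpow_le_rpow_of_exponent_le hXr (by norm_num)
  have h5 : 1 / p.c1 ^ 16 ≤ (X : ℝ) ^ (1 / 2 : ℝ) := by
    have h6 : (1 / p.c1 ^ 16) ^ 2 ≤ ((X : ℝ) ^ (1 / 2 : ℝ)) ^ 2 := by
      rw [← Real.rpow_natCast ((X : ℝ) ^ (1 / 2 : ℝ)), ← Real.rpow_mul hXp.le]
      have h7 : (1 / p.c1 ^ 16) ^ 2 = 1 / p.c1 ^ 32 := by
        rw [div_pow, one_pow, ← pow_mul]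
      rw [h7]
      norm_num
      simpa using hX2
    exact le_of_sq_le_sq h6 (by positivity)
  calc (X : ℝ) ^ (16 / 100 : ℝ) * (1 / p.c1 ^ 16) ≤ (X : ℝ) ^ (1 / 2 : ℝ) * (X : ℝ) ^ (1 / 2 : ℝ) :=
        mul_le_mul h4 h5 (by positivity) (by positivity)
    _ = X := by
        rw [← Real.rpow_add hXp]
        norm_num

theorem uc2_big {p : Prm 10} {X : ℕ} (hX : 2 ≤ X) (hta : 0 < p.ta) {D : ℕ} (hD : D ≠ 0)
    (hDX : (D : ℝ) ≤ X) :
    ((D.primeFactors.filter (fun l : ℕ => ¬ (l : ℝ) ≤ p.Y X)).card : ℝ) ≤ 1 / p.ta := by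
  have hXr : (1 : ℝ) < X := by exact_mod_cast (by omega : 1 < X)
  have hXp : (0 : ℝ) < X := by linarith
  set S := D.primeFactors.filter (fun l : ℕ => ¬ (l : ℝ) ≤ p.Y X) with hS
  have h1 : ∏ l ∈ S, l ≤ D := by
    refine Nat.le_of_dvd (Nat.pos_of_ne_zero hD) ?_
    refine dvd_trans ?_ (Nat.prod_primeFactors_dvd D)
    exact Finset.prod_dvd_prod_of_subset _ _ _ (Finset.filter_subset _ _)
  have h2 : (p.Y X) ^ S.card ≤ (X : ℝ) := by
    calc (p.Y X) ^ S.card = ∏ _l ∈ S, p.Y X := by rw [Finset.prod_const]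
      _ ≤ ∏ l ∈ S, (l : ℝ) := by
          refine Finset.prod_le_prod (fun l _ => ?_) (fun l hl => ?_)
          · unfold Prm.Y
            positivity
          · rw [hS, Finset.mem_filter] at hl
            exact (not_le.1 hl.2).le
      _ = ((∏ l ∈ S, l : ℕ) : ℝ) := by push_cast; rfl
      _ ≤ (D : ℝ) := by exact_mod_cast h1
      _ ≤ X := hDX
  have h3 : (p.Y X) ^ S.card = (X : ℝ) ^ (p.ta * S.card) := by
    unfold Prm.Y
    rw [← Real.rpow_natCast, ← Real.rpow_mul hXp.le]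
  rw [h3] at h2
  have h4 : p.ta * S.card ≤ 1 := by
    by_contra hh
    push Not at hh
    have := Real.rpow_lt_rpow_of_exponent_lt hXr hh
    rw [Real.rpow_one] at this
    linarith
  rw [le_div_iff₀ hta]
  linarith

theorem uc2_gD {p : Prm 10} {X : ℕ} {u : Vec 10} (hsq : Squarefree (Dint u)) :
    0 ≤ gD p X u ∧ gD p X u ≤
      2 ^ ((Dint u).primeFactors.filter (fun l : ℕ => ¬ (l : ℝ) ≤ p.Y X)).card / (Dint u : ℝ) := by
  have hl0 : ∀ l ∈ (Dint u).primeFactors, (0 : ℝ) < l := by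
    intro l hl
    exact_mod_cast (Nat.prime_of_mem_primeFactors hl).pos
  constructor
  · unfold gD
    refine Finset.prod_nonneg (fun l hl => ?_)
    have := hl0 l hl
    split_ifs <;> positivity
  · have h1 : (Dint u : ℝ) = ∏ l ∈ (Dint u).primeFactors, (l : ℝ) := by
      conv_lhs => rw [← Nat.prod_primeFactors_of_squarefree hsq]
      push_cast
      rfl
    have h2 : (2 : ℝ) ^ ((Dint u).primeFactors.filter (fun l : ℕ => ¬ (l : ℝ) ≤ p.Y X)).card =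
        ∏ l ∈ (Dint u).primeFactors, (if ¬ (l : ℝ) ≤ p.Y X then (2 : ℝ) else 1) := by
      rw [← Finset.prod_filter, Finset.prod_const]
    rw [h2]
    conv_rhs => rw [h1]
    rw [← Finset.prod_div_distrib]
    unfold gD
    refine Finset.prod_le_prod (fun l hl => ?_) (fun l hl => ?_)
    · have := hl0 l hl
      split_ifs <;> positivity
    · have h0 := hl0 l hl
      have h3 : 2 / ((l : ℝ) + 1) ≤ 2 / (l : ℝ) :=
        div_le_div_of_nonneg_left (by norm_num) h0 (by linarith)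
      by_cases hY : (l : ℝ) ≤ p.Y X
      · rw [if_pos hY, if_neg (not_not.2 hY)]
        have h4 : 1 / (l : ℝ) = 2 / (l : ℝ) * (1 / 2) := by ring
        rw [h4]
        have h5 : 0 ≤ 2 / (l : ℝ) := by positivity
        nlinarith [show (0 : ℝ) ≤ 2 / ((l : ℝ) + 1) by positivity]
      · rw [if_neg hY, if_pos hY, mul_one]
        exact h3

theorem gk_crude_pr {p : Prm 10} {τ : ℝ} (hp : p.Ok τ) (hτ : τ ≤ 1 / 200) : ∃ C : ℝ, 0 ≤ C ∧
    ∃ X₀ : ℕ, ∀ X ≥ X₀, ∀ (P00 : ℕ) (q : ℤ × ℤ × ℤ) (u : Vec 10), GP p X u →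
      0 ≤ gk p X P00 q u ∧ gk p X P00 q u ≤ C / (Dint u : ℝ) := by
  obtain ⟨hta, hep, hep2, hc0, hc1, he⟩ := uc2_exps hp hτ
  refine ⟨2 ^ (⌊1 / p.ta⌋₊), by positivity, ⌈1 / p.c1 ^ 32⌉₊ + 2, ?_⟩
  intro X hX P00 q u h
  have hX1 : 1 ≤ X := by omega
  have hX2 : 1 / p.c1 ^ 32 ≤ (X : ℝ) := by
    refine (Nat.le_ceil _).trans ?_
    exact_mod_cast (by omega : ⌈1 / p.c1 ^ 32⌉₊ ≤ X)
  have hsq := uc2_sqf h
  have hD := uc2_Dint hp hτ hX1 hX2 h
  have hN := uc2_big (p := p) (by omega : 2 ≤ X) hta hsq.ne_zero hD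
  obtain ⟨g0, g1⟩ := uc2_gD (p := p) (X := X) hsq
  obtain ⟨s0, s1⟩ := uc2_gS p X P00 u
  obtain ⟨o0, o1⟩ := uc2_okf P00 u q
  have hN' := Nat.le_floor hN
  have hDp : (0 : ℝ) < (Dint u : ℝ) := by
    exact_mod_cast Nat.pos_of_ne_zero hsq.ne_zero
  have g2 : gD p X u ≤ 2 ^ (⌊1 / p.ta⌋₊) / (Dint u : ℝ) := by
    refine g1.trans ?_
    exact div_le_div_of_nonneg_right (pow_le_pow_right₀ (by norm_num) hN') hDp.le
  unfold gk
  constructor
  · positivity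
  · calc okf P00 u q * (gD p X u * gS p X P00 u) ≤ 1 * (gD p X u * 1) := by
          refine mul_le_mul o1 ?_ (by positivity) zero_le_one
          exact mul_le_mul_of_nonneg_left s1 g0
      _ = gD p X u := by ring
      _ ≤ _ := g2

alias gk_crude := gk_crude_pr

end Pool.Agent.UPA
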