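import Pool.Agent.Lib_helper15.UP.Facts
import Pool.Agent.Lib_helper15.UPAF.UC2

/-!
# UPA, block UC3: one vertex given (helper99)
-/

set_option autoImplicit false

namespace Pool.Agent.UPA

open Finset Pool.Agent.PENT Pool.Agent.PATH.NC Pool.Agent.PFM
open Pool.Agent.PENK (PolyK Wts dn dl mL ich EquiF PerP prs lw L1 Rf)

theorem uc3_gp {p : Prm 10} {X : ℕ} {u : Vec 10} (h : u ∈ GS p X) : GP p X u := by
  classical
  unfold GS at h
  split_ifs at h with h1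
  · exact (Set.Finite.mem_toFinset h1).1 h
  · exact absurd h (Finset.notMem_empty _)

/-- the numbers -/
theorem uc3_nums {p : Prm 10} {τ : ℝ} (hp : p.Ok τ) (hτ : τ ≤ 1 / 1000) :
    (0 < p.ew ∧ 0 < p.em ∧ 0 < p.c1 ∧ p.c1 ≤ 1 / 1000 ∧ 0 < p.e 8) ∧
    (1000 * p.e 8 ≤ p.em) ∧ 1000 * p.ew ≤ p.e 8 ∧
    (∀ j : Fin 11, 2 ≤ j.val → j.val ≤ 8 → p.e 8 ≤ p.e j) := by
  have hτ0 : 0 < τ := lt_of_lt_of_le hp.c10 hp.c11
  have mul : ∀ a b : ℝ, a ≤ τ * b → 0 ≤ b → 1000 * a ≤ b := fun a b h hb => by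
    have h1 : τ * b ≤ 1 / 1000 * b := mul_le_mul_of_nonneg_right hτ hb
    linarith
  have pos : ∀ a b : ℝ, a ≤ τ * b → 0 < a → 0 < b := fun a b h ha => by
    by_contra hb
    push Not at hb
    have h1 : τ * b ≤ 0 := mul_nonpos_of_nonneg_of_nonpos hτ0.le hb
    linarith
  have h8v : ((8 : Fin 11) : ℕ) = 8 := rfl
  have he : ∀ j : Fin 11, 2 ≤ j.val → j.val ≤ 8 → 0 < p.e j := fun j h1 h2 =>
    pos _ _ (hp.ew1 j h1 (by omega)) hp.ew0
  have h8 : 0 < p.e 8 := he 8 (by rw [h8v]; norm_num) (by rw [h8v])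
  have h8m : p.e 8 ≤ τ * p.em :=
    hp.even (8 : Fin 11) (by rw [h8v]; norm_num) (by rw [h8v]) (by rw [h8v]; decide)
  have hem : 0 < p.em := pos _ _ h8m h8
  have hta : 0 < p.ta := pos _ _ hp.em_ta hem
  have hep : 0 < p.ep := pos _ _ hp.ta_ep hta
  have k1 : 1000 * p.em ≤ p.ta := mul _ _ hp.em_ta hta.le
  have k2 : 1000 * p.ta ≤ p.ep := mul _ _ hp.ta_ep hep.le
  have k3 := mul _ _ h8m hem.le
  refine ⟨⟨hp.ew0, hem, hp.c10, le_trans hp.c11 hτ, h8⟩, k3,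
    mul _ _ (hp.ew1 8 (by rw [h8v]; norm_num) (by rw [h8v])) h8.le, fun j h1 h2 => ?_⟩
  rcases Nat.eq_or_lt_of_le h2 with h3 | h3
  · have : j = (8 : Fin 11) := Fin.ext (by rw [h8v]; exact h3)
    rw [this]
  by_cases hj : Even j.val
  · have := mul _ _ (hp.low 8 j h1 (by omega) hj (by rw [h8v])) (he j h1 (by omega)).le
    linarith
  · rw [hp.odd j h1 (by omega) hj]
    linarith

open Classical in
/-- the sets of the vertices -/
noncomputable def uc3V (p : Prm 10) (X : ℕ) (f : ℕ × ℕ) (j : Fin 11) : Finset (ℤ × ℤ) :=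
  if j = 0 then {(1, 0)} else if j = 10 then {(0, 1)}
  else if j = 1 then (Icc (1 : ℤ) ⌊(f.1 : ℝ) / p.c1⌋) ×ˢ {(f.1 : ℤ)}
  else if j = 9 then {(f.2 : ℤ)} ×ˢ (Icc (1 : ℤ) ⌊(f.2 : ℝ) / p.c1⌋)
  else ((Icc (1 : ℤ) ⌊(X : ℝ) ^ (p.e j + p.ew)⌋) ×ˢ
      (Icc (1 : ℤ) ⌊(X : ℝ) ^ (p.e j + p.ew)⌋)).filter (fun z => (X : ℝ) ^ p.e j ≤ (nm z : ℝ))

/-- the weights of the vertices -/
noncomputable def uc3w (j : Fin 11) (z : ℤ × ℤ) : ℝ :=
  if j = 0 ∨ j = 10 then 1 else if j = 1 ∨ j = 9 then 1 / (nm z : ℝ) else 1 / (nm z : ℝ) ^ 2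

/-- the bounds of the weights -/
noncomputable def uc3M (p : Prm 10) (X : ℕ) (f : ℕ × ℕ) (j : Fin 11) : ℝ :=
  if j = 0 ∨ j = 10 then 1 else if j = 1 then 1 / (f.1 : ℝ) else if j = 9 then 1 / (f.2 : ℝ)
  else (X : ℝ) ^ (-(2 * p.e j))

theorem uc3_fE {u : Vec 10} {f : ℕ × ℕ} (h : fE u = f) : dE u 1 = f.1 ∧ dE u 10 = f.2 := by
  unfold fE at h
  rw [← h]
  exact ⟨rfl, rfl⟩

theorem uc3_mid {j : Fin 11} (h0 : j ≠ 0) (h10 : j ≠ 10) (h1 : j ≠ 1) (h9 : j ≠ 9) :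
    2 ≤ j.val ∧ j.val ≤ 8 := by
  revert j; decide

theorem uc3_mem {p : Prm 10} {X : ℕ} {u : Vec 10} {f : ℕ × ℕ} (hc : 0 < p.c1) (h : GP p X u)
    (hf : fE u = f) (j : Fin 11) : u j ∈ uc3V p X f j := by
  classical
  obtain ⟨f1, f2⟩ := uc3_fE hf
  unfold uc3V
  have hu0 : u (0 : Fin 11) = (1, 0) := h.first
  have hu10 : u (10 : Fin 11) = (0, 1) := h.last
  by_cases h0 : j = 0
  · rw [if_pos h0, h0, hu0]
    exact mem_singleton_self _
  rw [if_neg h0]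
  by_cases h10 : j = 10
  · rw [if_pos h10, h10, hu10]
    exact mem_singleton_self _
  rw [if_neg h10]
  by_cases h1 : j = 1
  · rw [if_pos h1, h1]
    obtain ⟨p1, p2⟩ := h.pos (1 : Fin 11) (by decide) (by decide)
    have e1 : dt (u (0 : Fin 11)) (u (1 : Fin 11)) = (u (1 : Fin 11)).2 := by
      rw [hu0]; simp only [dt]; ring
    have e2 : (u (1 : Fin 11)).2 = (f.1 : ℤ) := by
      rw [← f1]
      unfold dE
      rw [dif_pos (by omega : 1 ≤ 1 ∧ 1 ≤ 10)]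
      change (u (1 : Fin 11)).2 = (((dt (u (0 : Fin 11)) (u (1 : Fin 11))).natAbs : ℕ) : ℤ)
      rw [e1, Int.natAbs_of_nonneg p2.le]
    have e3 := h.sep (0 : Fin 11) (1 : Fin 11) (by decide)
    rw [e1, e2, hu0] at e3
    have e4 : (nm ((1, 0) : ℤ × ℤ) : ℝ) = 1 := by norm_num [nm]
    rw [e4, one_mul] at e3
    have e5 : (nm (u (1 : Fin 11)) : ℝ) ≤ (f.1 : ℝ) / p.c1 := by
      rw [le_div_iff₀ hc]
      have : ((f.1 : ℤ) : ℝ) = (f.1 : ℝ) := by norm_num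
      rw [this] at e3
      linarith
    rw [mem_product, mem_Icc, mem_singleton]
    refine ⟨⟨p1, ?_⟩, e2⟩
    rw [Int.le_floor]
    have e6 : ((u (1 : Fin 11)).1 : ℝ) ≤ (nm (u (1 : Fin 11)) : ℝ) := by
      have : (u (1 : Fin 11)).1 ≤ nm (u (1 : Fin 11)) := by unfold nm; omega
      exact_mod_cast this
    linarith
  rw [if_neg h1]
  by_cases h9 : j = 9
  · rw [if_pos h9, h9]
    obtain ⟨p1, p2⟩ := h.pos (9 : Fin 11) (by decide) (by decide)
    have e1 : dt (u (9 : Fin 11)) (u (10 : Fin 11)) = (u (9 : Fin 11)).1 := by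
      rw [hu10]; simp only [dt]; ring
    have e2 : (u (9 : Fin 11)).1 = (f.2 : ℤ) := by
      rw [← f2]
      unfold dE
      rw [dif_pos (by omega : 1 ≤ 10 ∧ 10 ≤ 10)]
      change (u (9 : Fin 11)).1 = (((dt (u (9 : Fin 11)) (u (10 : Fin 11))).natAbs : ℕ) : ℤ)
      rw [e1, Int.natAbs_of_nonneg p1.le]
    have e3 := h.sep (9 : Fin 11) (10 : Fin 11) (by decide)
    rw [e1, e2, hu10] at e3
    have e4 : (nm ((0, 1) : ℤ × ℤ) : ℝ) = 1 := by norm_num [nm]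
    rw [e4, mul_one] at e3
    have e5 : (nm (u (9 : Fin 11)) : ℝ) ≤ (f.2 : ℝ) / p.c1 := by
      rw [le_div_iff₀ hc]
      have : ((f.2 : ℤ) : ℝ) = (f.2 : ℝ) := by norm_num
      rw [this] at e3
      linarith
    rw [mem_product, mem_Icc, mem_singleton]
    refine ⟨e2, ⟨p2, ?_⟩⟩
    rw [Int.le_floor]
    have e6 : ((u (9 : Fin 11)).2 : ℝ) ≤ (nm (u (9 : Fin 11)) : ℝ) := by
      have : (u (9 : Fin 11)).2 ≤ nm (u (9 : Fin 11)) := by unfold nm; omega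
      exact_mod_cast this
    linarith
  rw [if_neg h9]
  obtain ⟨j2, j8⟩ := uc3_mid h0 h10 h1 h9
  obtain ⟨p1, p2⟩ := h.pos j (by omega) (by omega)
  have e7 := h.low j j2 (by omega)
  have e8 := h.upp j j2 (by omega)
  have e9 : (u j).1 ≤ nm (u j) := by unfold nm; omega
  have e10 : (u j).2 ≤ nm (u j) := by unfold nm; omega
  have e11 : ((u j).1 : ℝ) ≤ (nm (u j) : ℝ) := by exact_mod_cast e9
  have e12 : ((u j).2 : ℝ) ≤ (nm (u j) : ℝ) := by exact_mod_cast e10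
  rw [mem_filter, mem_product, mem_Icc, mem_Icc]
  refine ⟨⟨⟨p1, ?_⟩, ⟨p2, ?_⟩⟩, e7⟩
  · rw [Int.le_floor]; linarith
  · rw [Int.le_floor]; linarith

theorem uc3_card_Icc {x : ℝ} (hx : 0 ≤ x) : ((Icc (1 : ℤ) ⌊x⌋).card : ℝ) ≤ x := by
  rw [Int.card_Icc]
  have h0 : 0 ≤ ⌊x⌋ := Int.floor_nonneg.2 hx
  have h1 : (⌊x⌋ + 1 - 1).toNat = ⌊x⌋.toNat := by rw [add_sub_cancel_right]
  rw [h1]
  have h2 : ((⌊x⌋.toNat : ℕ) : ℝ) = (⌊x⌋ : ℝ) := by
    have : ((⌊x⌋.toNat : ℕ) : ℤ) = ⌊x⌋ := Int.toNat_of_nonneg h0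
    exact_mod_cast this
  rw [h2]
  exact Int.floor_le x

/-- the weights are bounded -/
theorem uc3_wM {p : Prm 10} {X : ℕ} {f : ℕ × ℕ} (hX : 1 ≤ X) (h1f : 0 < f.1) (h2f : 0 < f.2)
    (j : Fin 11) {z : ℤ × ℤ} (hz : z ∈ uc3V p X f j) :
    0 ≤ uc3w j z ∧ uc3w j z ≤ uc3M p X f j := by
  classical
  have hX0 : (0 : ℝ) < X := by exact_mod_cast hX
  unfold uc3V at hz
  unfold uc3w uc3M
  by_cases h0 : j = 0 ∨ j = 10
  · rw [if_pos h0, if_pos h0]
    exact ⟨zero_le_one, le_rfl⟩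
  rw [if_neg h0, if_neg h0]
  push Not at h0
  rw [if_neg h0.1, if_neg h0.2] at hz
  by_cases h1 : j = 1
  · rw [if_pos h1, mem_product, mem_Icc, mem_singleton] at hz
    rw [if_pos (Or.inl h1), if_pos h1]
    have e0 : (f.1 : ℤ) ≤ nm z := by unfold nm; omega
    have e1 : (f.1 : ℝ) ≤ (nm z : ℝ) := by exact_mod_cast e0
    have e2 : (0 : ℝ) < f.1 := by exact_mod_cast h1f
    have e3 : (0 : ℝ) < (nm z : ℝ) := by linarith
    exact ⟨by positivity, one_div_le_one_div_of_le e2 e1⟩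
  rw [if_neg h1] at hz
  by_cases h9 : j = 9
  · rw [if_pos h9, mem_product, mem_Icc, mem_singleton] at hz
    rw [if_pos (Or.inr h9), if_neg h1, if_pos h9]
    have e0 : (f.2 : ℤ) ≤ nm z := by unfold nm; omega
    have e1 : (f.2 : ℝ) ≤ (nm z : ℝ) := by exact_mod_cast e0
    have e2 : (0 : ℝ) < f.2 := by exact_mod_cast h2f
    have e3 : (0 : ℝ) < (nm z : ℝ) := by linarith
    exact ⟨by positivity, one_div_le_one_div_of_le e2 e1⟩
  rw [if_neg h9, mem_filter] at hz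
  rw [if_neg (not_or.2 ⟨h1, h9⟩), if_neg h1, if_neg h9]
  have e1 : 0 < (X : ℝ) ^ p.e j := Real.rpow_pos_of_pos hX0 _
  have e2 := hz.2
  have e3 : (X : ℝ) ^ (-(2 * p.e j)) = 1 / ((X : ℝ) ^ p.e j) ^ 2 := by
    rw [Real.rpow_neg hX0.le, one_div, ← Real.rpow_natCast, ← Real.rpow_mul hX0.le]
    norm_num
    ring_nf
  have e4 : 0 < (nm z : ℝ) := lt_of_lt_of_le e1 e2
  refine ⟨by positivity, ?_⟩
  rw [e3]
  exact one_div_le_one_div_of_le (by positivity) (pow_le_pow_left₀ e1.le e2 2)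

/-- the sums of the weights -/
theorem uc3_sum {p : Prm 10} {X : ℕ} {f : ℕ × ℕ} (hX : 1 ≤ X) (h1f : 0 < f.1) (h2f : 0 < f.2)
    (hc : 0 < p.c1) (hc1 : p.c1 ≤ 1) (hew : 0 < p.ew) (j : Fin 11) :
    ∑ z ∈ uc3V p X f j, uc3w j z ≤ 1 / p.c1 * (X : ℝ) ^ (2 * p.ew) := by
  classical
  have hX0 : (0 : ℝ) < X := by exact_mod_cast hX
  have hX1 : (1 : ℝ) ≤ X := by exact_mod_cast hX
  have b1 : 1 ≤ 1 / p.c1 := by rw [le_div_iff₀ hc]; linarith
  have b2 : 1 ≤ (X : ℝ) ^ (2 * p.ew) := Real.one_le_rpow hX1 (by linarith)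
  have b3 : 1 / p.c1 ≤ 1 / p.c1 * (X : ℝ) ^ (2 * p.ew) := by nlinarith
  have b4 : (X : ℝ) ^ (2 * p.ew) ≤ 1 / p.c1 * (X : ℝ) ^ (2 * p.ew) := by nlinarith
  have key : ∑ z ∈ uc3V p X f j, uc3w j z ≤ ((uc3V p X f j).card : ℝ) * uc3M p X f j := by
    calc ∑ z ∈ uc3V p X f j, uc3w j z ≤ ∑ _z ∈ uc3V p X f j, uc3M p X f j :=
          sum_le_sum fun z hz => (uc3_wM hX h1f h2f j hz).2
      _ = _ := by rw [sum_const, nsmul_eq_mul]
  refine key.trans ?_
  unfold uc3V uc3M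
  by_cases h0 : j = 0
  · rw [if_pos h0, if_pos (Or.inl h0), card_singleton]
    push_cast
    linarith
  by_cases h10 : j = 10
  · rw [if_neg h0, if_pos h10, if_pos (Or.inr h10), card_singleton]
    push_cast
    linarith
  rw [if_neg h0, if_neg h10, if_neg (not_or.2 ⟨h0, h10⟩)]
  by_cases h1 : j = 1
  · rw [if_pos h1, if_pos h1, card_product, card_singleton, mul_one]
    have e2 : (0 : ℝ) < f.1 := by exact_mod_cast h1f
    have e3 := uc3_card_Icc (x := (f.1 : ℝ) / p.c1) (by positivity)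
    refine le_trans ?_ b3
    calc ((Icc (1 : ℤ) ⌊(f.1 : ℝ) / p.c1⌋).card : ℝ) * (1 / (f.1 : ℝ)) ≤
          (f.1 : ℝ) / p.c1 * (1 / (f.1 : ℝ)) := mul_le_mul_of_nonneg_right e3 (by positivity)
      _ = 1 / p.c1 := by field_simp
  rw [if_neg h1, if_neg h1]
  by_cases h9 : j = 9
  · rw [if_pos h9, if_pos h9, card_product, card_singleton, one_mul]
    have e2 : (0 : ℝ) < f.2 := by exact_mod_cast h2f
    have e3 := uc3_card_Icc (x := (f.2 : ℝ) / p.c1) (by positivity)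
    refine le_trans ?_ b3
    calc ((Icc (1 : ℤ) ⌊(f.2 : ℝ) / p.c1⌋).card : ℝ) * (1 / (f.2 : ℝ)) ≤
          (f.2 : ℝ) / p.c1 * (1 / (f.2 : ℝ)) := mul_le_mul_of_nonneg_right e3 (by positivity)
      _ = 1 / p.c1 := by field_simp
  rw [if_neg h9, if_neg h9]
  have e1 : 0 ≤ (X : ℝ) ^ (p.e j + p.ew) := (Real.rpow_pos_of_pos hX0 _).le
  have e2 := uc3_card_Icc e1
  have e3 : ((((Icc (1 : ℤ) ⌊(X : ℝ) ^ (p.e j + p.ew)⌋) ×ˢ
      (Icc (1 : ℤ) ⌊(X : ℝ) ^ (p.e j + p.ew)⌋)).filter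
        (fun z => (X : ℝ) ^ p.e j ≤ (nm z : ℝ))).card : ℝ) ≤
      (X : ℝ) ^ (p.e j + p.ew) * (X : ℝ) ^ (p.e j + p.ew) := by
    calc _ ≤ (((Icc (1 : ℤ) ⌊(X : ℝ) ^ (p.e j + p.ew)⌋) ×ˢ
          (Icc (1 : ℤ) ⌊(X : ℝ) ^ (p.e j + p.ew)⌋)).card : ℝ) := by
            exact_mod_cast card_filter_le _ _
      _ = ((Icc (1 : ℤ) ⌊(X : ℝ) ^ (p.e j + p.ew)⌋).card : ℝ) *
          ((Icc (1 : ℤ) ⌊(X : ℝ) ^ (p.e j + p.ew)⌋).card : ℝ) := by
            rw [card_product]; push_cast; ring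
      _ ≤ _ := mul_le_mul e2 e2 (Nat.cast_nonneg _) e1
  refine le_trans (mul_le_mul_of_nonneg_right e3 (Real.rpow_pos_of_pos hX0 _).le) ?_
  refine le_trans (le_of_eq ?_) b4
  rw [← Real.rpow_add hX0, ← Real.rpow_add hX0]
  congr 1
  ring

theorem uc3_prod11 (F : Fin 11 → ℝ) : ∏ j, F j =
    F 0 * F 1 * F 2 * F 3 * F 4 * F 5 * F 6 * F 7 * F 8 * F 9 * F 10 := by
  simp only [Fin.prod_univ_castSucc, Fin.prod_univ_zero, one_mul]
  rfl

/-- the interior determinants from below -/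
theorem uc3_dint {p : Prm 10} {X : ℕ} {u : Vec 10} (hc : 0 < p.c1) (h : GP p X u) :
    1 / (Dint u : ℝ) ≤ (1 / p.c1) ^ 8 * ∏ j : Fin 11, uc3w j (u j) := by
  have hn : ∀ i : Fin 11, (0 : ℝ) < nm (u i) := fun i => by
    have := nm_pos h i
    have h2 : (0 : ℤ) < nm (u i) := by omega
    exact_mod_cast h2
  have e1 : (Dint u : ℝ) = ∏ j ∈ feU, (dn (tp u) j : ℝ) := by
    rw [← DE_feU]
    unfold DE
    push_cast
    rfl
  have hfe : feU = {1, 2, 3, 4, 5, 6, 7, 8} := by decide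
  have e2 : ∏ j ∈ feU, (p.c1 * ((nm (u j) : ℝ) * (nm (u (j + 1 : Fin 11)) : ℝ))) ≤
      ∏ j ∈ feU, (dn (tp u) j : ℝ) := by
    refine prod_le_prod (fun j _ => ?_) (fun j hj => ?_)
    · have := hn j
      have := hn (j + 1)
      positivity
    · refine gp_dn_ge h j (fun h10 => ?_)
      rw [h10] at hj
      revert hj
      decide
  have e3 : ∏ j ∈ feU, (p.c1 * ((nm (u j) : ℝ) * (nm (u (j + 1 : Fin 11)) : ℝ))) =
      p.c1 ^ 8 * (nm (u 1) * nm (u 2) ^ 2 * nm (u 3) ^ 2 * nm (u 4) ^ 2 * nm (u 5) ^ 2 *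
        nm (u 6) ^ 2 * nm (u 7) ^ 2 * nm (u 8) ^ 2 * nm (u 9)) := by
    rw [hfe]
    rw [prod_insert (by decide), prod_insert (by decide), prod_insert (by decide),
      prod_insert (by decide), prod_insert (by decide), prod_insert (by decide),
      prod_insert (by decide), prod_singleton]
    rw [show ((1 : Fin 11) + 1) = 2 from rfl, show ((2 : Fin 11) + 1) = 3 from rfl,
      show ((3 : Fin 11) + 1) = 4 from rfl, show ((4 : Fin 11) + 1) = 5 from rfl,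
      show ((5 : Fin 11) + 1) = 6 from rfl, show ((6 : Fin 11) + 1) = 7 from rfl,
      show ((7 : Fin 11) + 1) = 8 from rfl, show ((8 : Fin 11) + 1) = 9 from rfl]
    ring
  have n1 := hn 1
  have n2 := hn 2
  have n3 := hn 3
  have n4 := hn 4
  have n5 := hn 5
  have n6 := hn 6
  have n7 := hn 7
  have n8 := hn 8
  have n9 := hn 9
  have e4 : ∏ j : Fin 11, uc3w j (u j) =
      1 / (nm (u 1) * nm (u 2) ^ 2 * nm (u 3) ^ 2 * nm (u 4) ^ 2 * nm (u 5) ^ 2 *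
        nm (u 6) ^ 2 * nm (u 7) ^ 2 * nm (u 8) ^ 2 * nm (u 9)) := by
    rw [uc3_prod11]
    have w0 : uc3w 0 (u 0) = 1 := by unfold uc3w; rw [if_pos (by decide)]
    have w10 : uc3w 10 (u 10) = 1 := by unfold uc3w; rw [if_pos (by decide)]
    have w1 : uc3w 1 (u 1) = 1 / (nm (u 1) : ℝ) := by
      unfold uc3w; rw [if_neg (by decide), if_pos (by decide)]
    have w9 : uc3w 9 (u 9) = 1 / (nm (u 9) : ℝ) := by
      unfold uc3w; rw [if_neg (by decide), if_pos (by decide)]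
    have w2 : uc3w 2 (u 2) = 1 / (nm (u 2) : ℝ) ^ 2 := by
      unfold uc3w; rw [if_neg (by decide), if_neg (by decide)]
    have w3 : uc3w 3 (u 3) = 1 / (nm (u 3) : ℝ) ^ 2 := by
      unfold uc3w; rw [if_neg (by decide), if_neg (by decide)]
    have w4 : uc3w 4 (u 4) = 1 / (nm (u 4) : ℝ) ^ 2 := by
      unfold uc3w; rw [if_neg (by decide), if_neg (by decide)]
    have w5 : uc3w 5 (u 5) = 1 / (nm (u 5) : ℝ) ^ 2 := by
      unfold uc3w; rw [if_neg (by decide), if_neg (by decide)]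
    have w6 : uc3w 6 (u 6) = 1 / (nm (u 6) : ℝ) ^ 2 := by
      unfold uc3w; rw [if_neg (by decide), if_neg (by decide)]
    have w7 : uc3w 7 (u 7) = 1 / (nm (u 7) : ℝ) ^ 2 := by
      unfold uc3w; rw [if_neg (by decide), if_neg (by decide)]
    have w8 : uc3w 8 (u 8) = 1 / (nm (u 8) : ℝ) ^ 2 := by
      unfold uc3w; rw [if_neg (by decide), if_neg (by decide)]
    rw [w0, w1, w2, w3, w4, w5, w6, w7, w8, w9, w10]
    field_simp
  rw [e4, e1]
  rw [e3] at e2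
  refine (one_div_le_one_div_of_le (by positivity) e2).trans (le_of_eq ?_)
  field_simp

/-- the sum over the paths with one given vertex -/
theorem uc3_main {p : Prm 10} {X : ℕ} {f : ℕ × ℕ} (hX : 1 ≤ X) (h1f : 0 < f.1) (h2f : 0 < f.2)
    (hc : 0 < p.c1) (hc1 : p.c1 ≤ 1) (hew : 0 < p.ew) (i : Fin 11) (v : ℤ × ℤ) (s : Finset (Vec 10))
    (hs : ∀ u ∈ s, GP p X u ∧ fE u = f ∧ u i = v) :
    ∑ u ∈ s, 1 / (Dint u : ℝ) ≤
      (1 / p.c1) ^ 8 * (uc3M p X f i * (1 / p.c1 * (X : ℝ) ^ (2 * p.ew)) ^ 10) := by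
  classical
  have hX0 : (0 : ℝ) < X := by exact_mod_cast hX
  set V : Fin 11 → Finset (ℤ × ℤ) := fun j =>
    if j = i then (uc3V p X f j).filter (fun z => z = v) else uc3V p X f j with hV
  have hVV : ∀ j, V j ⊆ uc3V p X f j := by
    intro j
    rw [hV]
    dsimp only
    split_ifs
    · exact filter_subset _ _
    · exact Subset.rfl
  have hw0 : ∀ j, ∀ z ∈ V j, 0 ≤ uc3w j z := fun j z hz => (uc3_wM hX h1f h2f j (hVV j hz)).1
  have hmem : ∀ u ∈ s, u ∈ Fintype.piFinset V := by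
    intro u hu
    obtain ⟨g1, g2, g3⟩ := hs u hu
    rw [Fintype.mem_piFinset]
    intro j
    rw [hV]
    dsimp only
    split_ifs with hj
    · rw [mem_filter]
      exact ⟨uc3_mem hc g1 g2 j, by rw [hj]; exact g3⟩
    · exact uc3_mem hc g1 g2 j
  calc ∑ u ∈ s, 1 / (Dint u : ℝ) ≤ ∑ u ∈ s, (1 / p.c1) ^ 8 * ∏ j : Fin 11, uc3w j (u j) :=
        sum_le_sum fun u hu => uc3_dint hc (hs u hu).1
    _ = (1 / p.c1) ^ 8 * ∑ u ∈ s, ∏ j : Fin 11, uc3w j (u j) := by rw [mul_sum]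
    _ ≤ (1 / p.c1) ^ 8 * ∑ u ∈ Fintype.piFinset V, ∏ j : Fin 11, uc3w j (u j) := by
        refine mul_le_mul_of_nonneg_left ?_ (by positivity)
        refine sum_le_sum_of_subset_of_nonneg hmem fun u hu _ => prod_nonneg fun j _ => ?_
        exact hw0 j _ (Fintype.mem_piFinset.1 hu j)
    _ = (1 / p.c1) ^ 8 * ∏ j : Fin 11, ∑ z ∈ V j, uc3w j z := by
        rw [Finset.prod_univ_sum]
    _ ≤ (1 / p.c1) ^ 8 * (uc3M p X f i * (1 / p.c1 * (X : ℝ) ^ (2 * p.ew)) ^ 10) := by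
        refine mul_le_mul_of_nonneg_left ?_ (by positivity)
        rw [← Finset.mul_prod_erase univ _ (Finset.mem_univ i)]
        have hM : 0 ≤ uc3M p X f i := by
          unfold uc3M
          split_ifs <;> positivity
        refine mul_le_mul ?_ ?_ (prod_nonneg fun j _ => sum_nonneg fun z hz => hw0 j z hz) hM
        · have e1 : V i = (uc3V p X f i).filter (fun z => z = v) := by
            rw [hV]; dsimp only; rw [if_pos rfl]
          rw [e1]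
          have e2 : ((uc3V p X f i).filter (fun z => z = v)).card ≤ 1 := by
            rw [card_le_one]
            intro a ha b hb
            rw [(mem_filter.1 ha).2, (mem_filter.1 hb).2]
          calc ∑ z ∈ (uc3V p X f i).filter (fun z => z = v), uc3w i z ≤
                ∑ _z ∈ (uc3V p X f i).filter (fun z => z = v), uc3M p X f i :=
                sum_le_sum fun z hz => (uc3_wM hX h1f h2f i (mem_filter.1 hz).1).2
            _ = (((uc3V p X f i).filter (fun z => z = v)).card : ℝ) * uc3M p X f i := by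
                rw [sum_const, nsmul_eq_mul]
            _ ≤ 1 * uc3M p X f i := by
                refine mul_le_mul_of_nonneg_right ?_ hM
                exact_mod_cast e2
            _ = uc3M p X f i := one_mul _
        · have e3 : (univ.erase i : Finset (Fin 11)).card = 10 := by
            rw [card_erase_of_mem (mem_univ _), card_univ, Fintype.card_fin]
          calc ∏ j ∈ univ.erase i, ∑ z ∈ V j, uc3w j z ≤
                ∏ _j ∈ (univ.erase i : Finset (Fin 11)), (1 / p.c1 * (X : ℝ) ^ (2 * p.ew)) := by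
                refine prod_le_prod (fun j _ => sum_nonneg fun z hz => hw0 j z hz)
                  (fun j hj => ?_)
                have e4 : V j = uc3V p X f j := by
                  rw [hV]; dsimp only; rw [if_neg (ne_of_mem_erase hj)]
                rw [e4]
                exact uc3_sum hX h1f h2f hc hc1 hew j
            _ = _ := by rw [prod_const, e3]

/-- block UC3 (uses UC2): one vertex given. `Dint ≥ c1^8 nm(u 1) nm(u 9) ∏_(2..8) nm (u j)^2`;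
`∑ 1/nm² ≤ C log X` over the vectors with `nm ≤ X`; `u 1 = (x, f.1)`: at most `f.1 / c1` values `x`,
`nm (u 1) ≥ f.1`; the same for `u 9`; the given vertex: `1/nm² ≤ X^(-2e)` or (`i = 1, 9`) `1/nm ≤
X^(-em)`. -/
theorem UB2_all_pr : ∃ τ₀ : ℝ, 0 < τ₀ ∧ ∀ p : Prm 10, p.Ok τ₀ → UB2 p := by
  classical
  refine ⟨1 / 1000, by norm_num, fun p hp => ?_⟩
  obtain ⟨⟨hew, hem, hc, hc1, h8⟩, k1, k2, k3⟩ := uc3_nums hp le_rfl
  obtain ⟨C, hC, X₁, hX₁⟩ := gk_crude hp (by norm_num)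
  have hlim : Filter.Tendsto (fun X : ℕ => (X : ℝ) ^ (p.e 8 / 2)) Filter.atTop Filter.atTop :=
    (tendsto_rpow_atTop (by linarith)).comp tendsto_natCast_atTop_atTop
  obtain ⟨X₂, hX₂⟩ := Filter.eventually_atTop.1
    (hlim.eventually_ge_atTop (C * (1 / p.c1) ^ 18))
  refine ⟨p.e 8 / 2, by linarith, fun P00 _ => ⟨max (max X₁ X₂) 1, fun X hX f hf q _ i hi1 hi2 v => ?_⟩⟩
  have x1 : X₁ ≤ X := le_trans (le_trans (le_max_left _ _) (le_max_left _ _)) hX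
  have x2 : X₂ ≤ X := le_trans (le_trans (le_max_right _ _) (le_max_left _ _)) hX
  have x3 : 1 ≤ X := le_trans (le_max_right _ _) hX
  have hX0 : (0 : ℝ) < X := by exact_mod_cast x3
  have hX1 : (1 : ℝ) ≤ X := by exact_mod_cast x3
  have hfm : EF p X f.1 ∧ EF p X f.2 := by
    unfold Fac at hf
    have := (mem_filter.1 hf).2
    exact ⟨this.1, this.2.1⟩
  have h1f : 0 < f.1 := Nat.pos_of_ne_zero hfm.1.dp.1.ne_zero
  have h2f : 0 < f.2 := Nat.pos_of_ne_zero hfm.2.dp.1.ne_zero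
  have key := uc3_main (p := p) (X := X) (f := f) x3 h1f h2f hc (by linarith) hew i v
    ((GS p X).filter (fun u => fE u = f ∧ u i = v))
    (fun u hu => ⟨uc3_gp (mem_filter.1 hu).1, (mem_filter.1 hu).2.1, (mem_filter.1 hu).2.2⟩)
  have hM : uc3M p X f i ≤ (X : ℝ) ^ (-(p.e 8 + 20 * p.ew)) := by
    unfold uc3M
    have i0 : ¬ (i = 0 ∨ i = 10) := by
      rintro (h | h)
      · rw [h] at hi1; exact absurd hi1 (by decide)
      · rw [h] at hi2; exact absurd hi2 (by decide)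
    rw [if_neg i0]
    have m1 : (X : ℝ) ^ (-p.em) ≤ (X : ℝ) ^ (-(p.e 8 + 20 * p.ew)) :=
      Real.rpow_le_rpow_of_exponent_le hX1 (by linarith)
    have m2 : ∀ d : ℕ, EF p X d → 1 / (d : ℝ) ≤ (X : ℝ) ^ (-p.em) := by
      intro d hd
      rw [Real.rpow_neg hX0.le, ← one_div]
      exact one_div_le_one_div_of_le (Real.rpow_pos_of_pos hX0 _) hd.lo
    by_cases h1 : i = 1
    · rw [if_pos h1]
      exact (m2 _ hfm.1).trans m1
    rw [if_neg h1]
    by_cases h9 : i = 9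
    · rw [if_pos h9]
      exact (m2 _ hfm.2).trans m1
    rw [if_neg h9]
    obtain ⟨j2, j8⟩ := uc3_mid (fun h => i0 (Or.inl h)) (fun h => i0 (Or.inr h)) h1 h9
    have := k3 i j2 j8
    exact Real.rpow_le_rpow_of_exponent_le hX1 (by linarith)
  have hB : (1 / p.c1 * (X : ℝ) ^ (2 * p.ew)) ^ 10 = (1 / p.c1) ^ 10 * (X : ℝ) ^ (20 * p.ew) := by
    rw [mul_pow]
    congr 1
    rw [← Real.rpow_natCast, ← Real.rpow_mul hX0.le]
    congr 1
    push_cast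
    ring
  calc ∑ u ∈ (GS p X).filter (fun u => fE u = f ∧ u i = v), gk p X P00 q u
      ≤ ∑ u ∈ (GS p X).filter (fun u => fE u = f ∧ u i = v), C * (1 / (Dint u : ℝ)) := by
        refine sum_le_sum fun u hu => ?_
        have := (hX₁ X x1 P00 q u (uc3_gp (mem_filter.1 hu).1)).2
        rw [mul_one_div]
        exact this
    _ = C * ∑ u ∈ (GS p X).filter (fun u => fE u = f ∧ u i = v), 1 / (Dint u : ℝ) := by
        rw [mul_sum]
    _ ≤ C * ((1 / p.c1) ^ 8 * (uc3M p X f i * (1 / p.c1 * (X : ℝ) ^ (2 * p.ew)) ^ 10)) :=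
        mul_le_mul_of_nonneg_left key hC
    _ ≤ C * ((1 / p.c1) ^ 8 * ((X : ℝ) ^ (-(p.e 8 + 20 * p.ew)) *
          ((1 / p.c1) ^ 10 * (X : ℝ) ^ (20 * p.ew)))) := by
        rw [hB]
        gcongr
    _ = C * (1 / p.c1) ^ 18 * (X : ℝ) ^ (-p.e 8) := by
        have e1 : (X : ℝ) ^ (-p.e 8) = (X : ℝ) ^ (-(p.e 8 + 20 * p.ew)) * (X : ℝ) ^ (20 * p.ew) := by
          rw [← Real.rpow_add hX0]
          congr 1
          ring
        rw [e1]
        ring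
    _ ≤ (X : ℝ) ^ (p.e 8 / 2) * (X : ℝ) ^ (-p.e 8) :=
        mul_le_mul_of_nonneg_right (hX₂ X x2) (Real.rpow_pos_of_pos hX0 _).le
    _ = (X : ℝ) ^ (-(p.e 8 / 2)) := by
        rw [← Real.rpow_add hX0]
        congr 1
        ring

alias UB2_all := UB2_all_pr

end Pool.Agent.UPA
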