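import Pool.Agent.Lib_helper15.UP.Facts
import Pool.Agent.Lib_helper15.UPAF.UC2

/-!
# MP_892e4c_nt (B*), first moments for the paths: block UC4 (helper84)
-/

set_option autoImplicit false

namespace Pool.Agent.UPA

open Finset Pool.Agent.PENT Pool.Agent.PATH.NC Pool.Agent.PFM
open Pool.Agent.PENK (PolyK Wts dn dl mL ich EquiF PerP prs lw L1 Rf)

/-! ### general lemmas -/

theorem uc4_cov {α κ : Type} [DecidableEq α] [DecidableEq κ] (K : Finset κ) (B : κ → Finset α)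
    (F : α → ℝ) (hF : ∀ k ∈ K, ∀ u ∈ B k, 0 ≤ F u) :
    ∀ A : Finset α, (∀ u ∈ A, ∃ k ∈ K, u ∈ B k) → ∑ u ∈ A, F u ≤ ∑ k ∈ K, ∑ u ∈ B k, F u := by
  induction K using Finset.induction_on with
  | empty =>
    intro A hA
    have : A = ∅ := by
      rw [Finset.eq_empty_iff_forall_notMem]
      intro u hu
      obtain ⟨k, hk, _⟩ := hA u hu
      exact absurd hk (Finset.notMem_empty k)
    rw [this]
    simp
  | insert k K hk ih =>
    intro A hA
    rw [Finset.sum_insert hk, ← Finset.sum_filter_add_sum_filter_not A (fun u => u ∈ B k)]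
    apply add_le_add
    · apply Finset.sum_le_sum_of_subset_of_nonneg
      · intro u hu
        exact (Finset.mem_filter.1 hu).2
      · intro u hu _
        exact hF k (Finset.mem_insert_self k K) u hu
    · apply ih (fun k' hk' u hu => hF k' (Finset.mem_insert_of_mem hk') u hu)
      intro u hu
      obtain ⟨hu1, hu2⟩ := Finset.mem_filter.1 hu
      obtain ⟨k', hk', hu'⟩ := hA u hu1
      rcases Finset.mem_insert.1 hk' with rfl | h
      · exact absurd hu' hu2
      · exact ⟨k', h, hu'⟩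

open Classical in
theorem uc4_pi (w : Fin 11 → ℤ × ℤ → ℝ) (S : Fin 11 → Finset (ℤ × ℤ)) (T ε : ℝ)
    (hw : ∀ j v, v ∈ S j → 0 ≤ w j v) (hT : 1 ≤ T) (hS : ∀ j, ∑ v ∈ S j, w j v ≤ T)
    (i i' : Fin 11) (hne : i' ≠ i) (cond : ℤ × ℤ → ℤ × ℤ → Prop) (hε0 : 0 ≤ ε)
    (hε : ∀ a ∈ S i', ∑ b ∈ (S i).filter (fun b => cond a b), w i b ≤ ε) :
    ∑ u ∈ (Fintype.piFinset S).filter (fun u => cond (u i') (u i)), ∏ j, w j (u j) ≤
      T ^ 12 * ε := by
  have h1 : ∑ u ∈ (Fintype.piFinset S).filter (fun u => cond (u i') (u i)), ∏ j, w j (u j) ≤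
      ∑ a ∈ S i', ∑ u ∈ Fintype.piFinset (fun j => if j = i' then {a} else if j = i then
        (S i).filter (fun b => cond a b) else S j), ∏ j, w j (u j) := by
    apply uc4_cov (S i') (fun a => Fintype.piFinset (fun j => if j = i' then {a} else if j = i then
        (S i).filter (fun b => cond a b) else S j)) (fun u => ∏ j, w j (u j))
    · intro a ha u hu
      apply Finset.prod_nonneg
      intro j _
      apply hw
      have h2 := Fintype.mem_piFinset.1 hu j
      by_cases hj : j = i'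
      · rw [if_pos hj, Finset.mem_singleton] at h2
        rw [h2, hj]
        exact ha
      · rw [if_neg hj] at h2
        by_cases hj2 : j = i
        · rw [if_pos hj2] at h2
          rw [hj2]
          rw [hj2] at h2
          exact (Finset.mem_filter.1 h2).1
        · rw [if_neg hj2] at h2
          exact h2
    · intro u hu
      obtain ⟨hu1, hu2⟩ := Finset.mem_filter.1 hu
      rw [Fintype.mem_piFinset] at hu1
      refine ⟨u i', hu1 i', Fintype.mem_piFinset.2 ?_⟩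
      intro j
      by_cases hj : j = i'
      · rw [if_pos hj, Finset.mem_singleton, hj]
      · rw [if_neg hj]
        by_cases hj2 : j = i
        · rw [if_pos hj2, hj2]
          exact Finset.mem_filter.2 ⟨hu1 i, hu2⟩
        · rw [if_neg hj2]
          exact hu1 j
  refine h1.trans ?_
  have h3 : ∀ a ∈ S i', ∑ u ∈ Fintype.piFinset (fun j => if j = i' then {a} else if j = i then
        (S i).filter (fun b => cond a b) else S j), ∏ j, w j (u j) ≤ w i' a * (T ^ 11 * ε) := by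
    intro a ha
    rw [← Finset.prod_univ_sum]
    have h4 : ∀ j ∈ (univ : Finset (Fin 11)), ∑ v ∈ (if j = i' then {a} else if j = i then
        (S i).filter (fun b => cond a b) else S j), w j v ≤
        ((if j = i' then w i' a else 1) * (if j = i then ε else 1)) * T := by
      intro j _
      by_cases hj : j = i'
      · have hj2 : j ≠ i := fun h => hne (by rw [← hj, h])
        rw [if_pos hj, if_pos hj, if_neg hj2, Finset.sum_singleton, hj, mul_one]
        exact le_mul_of_one_le_right (hw i' a ha) hT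
      · rw [if_neg hj, if_neg hj]
        by_cases hj2 : j = i
        · rw [if_pos hj2, if_pos hj2, hj2, one_mul]
          exact (hε a ha).trans (le_mul_of_one_le_right hε0 hT)
        · rw [if_neg hj2, if_neg hj2, one_mul, one_mul]
          exact hS j
    refine (Finset.prod_le_prod ?_ h4).trans ?_
    · intro j _
      apply Finset.sum_nonneg
      intro v hv
      apply hw
      by_cases hj : j = i'
      · rw [if_pos hj, Finset.mem_singleton] at hv
        rw [hv, hj]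
        exact ha
      · rw [if_neg hj] at hv
        by_cases hj2 : j = i
        · rw [if_pos hj2] at hv
          rw [hj2]
          exact (Finset.mem_filter.1 hv).1
        · rw [if_neg hj2] at hv
          exact hv
    · rw [Finset.prod_mul_distrib, Finset.prod_mul_distrib, Finset.prod_ite_eq',
        Finset.prod_ite_eq', if_pos (Finset.mem_univ _), if_pos (Finset.mem_univ _),
        Finset.prod_const, Finset.card_univ, Fintype.card_fin]
      apply le_of_eq
      ring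
  refine (Finset.sum_le_sum h3).trans ?_
  rw [← Finset.sum_mul]
  calc (∑ a ∈ S i', w i' a) * (T ^ 11 * ε) ≤ T * (T ^ 11 * ε) := by
        apply mul_le_mul_of_nonneg_right (hS i')
        positivity
    _ = T ^ 12 * ε := by ring

/-! ### sums over the norm -/

theorem uc4_harm (X : ℕ) : ∑ N ∈ Icc 1 X, (1 : ℝ) / N ≤ 1 + Real.log X := by
  have h := harmonic_le_one_add_log X
  rw [harmonic_eq_sum_Icc] at h
  push_cast at h
  simpa [one_div] using h

theorem uc4_sq (X : ℕ) (L : ℝ) (hL : 0 < L) :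
    ∑ N ∈ (Icc 1 X).filter (fun N : ℕ => L ≤ (N : ℝ)), (1 : ℝ) / (N : ℝ) ^ 2 ≤ 2 / L := by
  have h1 : 1 ≤ ⌈L⌉₊ := Nat.one_le_ceil_iff.2 hL
  have h2 := sum_Ioo_inv_sq_le (α := ℝ) (⌈L⌉₊ - 1) (X + 1)
  have h3 : ((⌈L⌉₊ - 1 : ℕ) : ℝ) + 1 = (⌈L⌉₊ : ℝ) := by
    rw [Nat.cast_sub h1]
    push_cast
    ring
  rw [h3] at h2
  calc ∑ N ∈ (Icc 1 X).filter (fun N : ℕ => L ≤ (N : ℝ)), (1 : ℝ) / (N : ℝ) ^ 2 ≤
      ∑ i ∈ Ioo (⌈L⌉₊ - 1) (X + 1), ((i : ℝ) ^ 2)⁻¹ := by
        rw [show (∑ i ∈ Ioo (⌈L⌉₊ - 1) (X + 1), ((i : ℝ) ^ 2)⁻¹) =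
          ∑ i ∈ Ioo (⌈L⌉₊ - 1) (X + 1), (1 : ℝ) / (i : ℝ) ^ 2 from
          Finset.sum_congr rfl (fun i _ => (one_div _).symm)]
        apply Finset.sum_le_sum_of_subset_of_nonneg
        · intro N hN
          obtain ⟨a, b⟩ := Finset.mem_filter.1 hN
          rw [Finset.mem_Icc] at a
          rw [Finset.mem_Ioo]
          have := Nat.ceil_le.2 b
          omega
        · intro i _ _
          positivity
    _ ≤ 2 / (⌈L⌉₊ : ℝ) := h2
    _ ≤ 2 / L := div_le_div_of_nonneg_left (by norm_num) hL (Nat.le_ceil L)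

/-- multiples of `l` -/
theorem uc4_mul (X l : ℕ) (hl : 0 < l) :
    ∑ N ∈ (Icc 1 X).filter (fun N => l ∣ N), (1 : ℝ) / N ≤ (1 + Real.log X) / l := by
  have hlR : (0 : ℝ) < l := by exact_mod_cast hl
  calc ∑ N ∈ (Icc 1 X).filter (fun N => l ∣ N), (1 : ℝ) / N ≤
      ∑ N ∈ (Icc 1 X).image (fun m => l * m), (1 : ℝ) / N := by
        apply Finset.sum_le_sum_of_subset_of_nonneg
        · intro N hN
          obtain ⟨a, m, hm⟩ := Finset.mem_filter.1 hN
          rw [Finset.mem_Icc] at a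
          rw [Finset.mem_image]
          refine ⟨m, ?_, hm.symm⟩
          rw [Finset.mem_Icc]
          constructor
          · rcases Nat.eq_zero_or_pos m with h | h
            · rw [h, mul_zero] at hm
              omega
            · exact h
          · calc m ≤ l * m := Nat.le_mul_of_pos_left m hl
              _ = N := hm.symm
              _ ≤ X := a.2
        · intro i _ _
          positivity
    _ = ∑ m ∈ Icc 1 X, (1 : ℝ) / ((l * m : ℕ) : ℝ) := by
        rw [Finset.sum_image]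
        intro a _ b _ h
        exact Nat.eq_of_mul_eq_mul_left hl h
    _ = (∑ m ∈ Icc 1 X, (1 : ℝ) / m) / l := by
        rw [Finset.sum_div]
        apply Finset.sum_congr rfl
        intro m _
        push_cast
        rw [one_div, one_div, mul_inv, div_eq_mul_inv, mul_comm]
    _ ≤ (1 + Real.log X) / l := div_le_div_of_nonneg_right (uc4_harm X) hlR.le

/-- the solutions of a linear congruence -/
theorem uc4_cong (N l : ℕ) (hl : l.Prime) (α β : ℤ) (hα : ¬ (l : ℤ) ∣ α) :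
    (((Icc 1 N).filter (fun x : ℕ => (l : ℤ) ∣ β - α * x)).card : ℝ) ≤ N / l + 1 := by
  have hlR : (0 : ℝ) < l := by exact_mod_cast hl.pos
  have h1 : ((Icc 1 N).filter (fun x : ℕ => (l : ℤ) ∣ β - α * x)).card ≤ N / l + 1 := by
    rw [← Finset.card_range (N / l + 1)]
    apply Finset.card_le_card_of_injOn (fun x => x / l)
    · intro x hx
      obtain ⟨a, _⟩ := Finset.mem_filter.1 hx
      rw [Finset.mem_Icc] at a
      have := Nat.div_le_div_right (c := l) a.2
      exact Finset.mem_coe.2 (Finset.mem_range.2 (show x / l < N / l + 1 by omega))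
    · intro x hx y hy hxy
      obtain ⟨_, hx2⟩ := Finset.mem_filter.1 hx
      obtain ⟨_, hy2⟩ := Finset.mem_filter.1 hy
      have h2 : (l : ℤ) ∣ α * ((x : ℤ) - y) := by
        have := dvd_sub hy2 hx2
        have e : β - α * (y : ℤ) - (β - α * (x : ℤ)) = α * ((x : ℤ) - y) := by ring
        rwa [e] at this
      have h3 : (l : ℤ) ∣ (x : ℤ) - y :=
        ((Nat.prime_iff_prime_int.1 hl).dvd_or_dvd h2).resolve_left hα
      have h4 : (y : ℤ) ≡ x [ZMOD l] := (Int.modEq_iff_dvd).2 h3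
      have h5 : y ≡ x [MOD l] := (Int.natCast_modEq_iff).1 h4
      have hxy' : x / l = y / l := hxy
      have e1 := Nat.div_add_mod x l
      have e2 := Nat.div_add_mod y l
      have e3 : y % l = x % l := h5
      rw [← e1, ← e2, hxy', e3]
  have h2 : ((N / l : ℕ) : ℝ) ≤ (N : ℝ) / l := Nat.cast_div_le
  calc (((Icc 1 N).filter (fun x : ℕ => (l : ℤ) ∣ β - α * x)).card : ℝ) ≤
      ((N / l + 1 : ℕ) : ℝ) := by exact_mod_cast h1
    _ = ((N / l : ℕ) : ℝ) + 1 := by push_cast; ring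
    _ ≤ N / l + 1 := by linarith

/-- the vectors of the norm `N` -/
theorem uc4_cardN (Q : ℤ × ℤ → Prop) [DecidablePred Q] (X N : ℕ) :
    (((((Icc (1 : ℤ) X) ×ˢ (Icc (1 : ℤ) X)).filter Q).filter
      (fun v => (nm v).toNat = N)).card : ℝ) ≤
    (((Icc 1 N).filter (fun x : ℕ => Q ((x : ℤ), (N : ℤ) - x))).card : ℝ) := by
  apply Nat.cast_le.2
  apply Finset.card_le_card_of_injOn (fun v => v.1.toNat)
  · intro v hv
    obtain ⟨hv1, hv2⟩ := Finset.mem_filter.1 hv
    obtain ⟨hv3, hv4⟩ := Finset.mem_filter.1 hv1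
    rw [Finset.mem_product, Finset.mem_Icc, Finset.mem_Icc] at hv3
    unfold nm at hv2
    apply Finset.mem_coe.2
    show v.1.toNat ∈ (Icc 1 N).filter (fun x : ℕ => Q ((x : ℤ), (N : ℤ) - x))
    rw [Finset.mem_filter, Finset.mem_Icc]
    have e1 : ((v.1.toNat : ℕ) : ℤ) = v.1 := Int.toNat_of_nonneg (by omega)
    refine ⟨⟨by omega, by omega⟩, ?_⟩
    rw [e1]
    have e2 : (N : ℤ) - v.1 = v.2 := by omega
    rw [e2]
    exact hv4
  · intro v hv v' hv' h
    obtain ⟨hv1, hv2⟩ := Finset.mem_filter.1 hv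
    obtain ⟨hv3, _⟩ := Finset.mem_filter.1 hv1
    obtain ⟨hw1, hw2⟩ := Finset.mem_filter.1 hv'
    obtain ⟨hw3, _⟩ := Finset.mem_filter.1 hw1
    rw [Finset.mem_product, Finset.mem_Icc, Finset.mem_Icc] at hv3 hw3
    unfold nm at hv2 hw2
    have h' : v.1.toNat = v'.1.toNat := h
    apply Prod.ext <;> omega

/-- sums over vectors as sums over the norm -/
theorem uc4_fib (Q : ℤ × ℤ → Prop) [DecidablePred Q] (X : ℕ) :
    ∑ v ∈ (((Icc (1 : ℤ) X) ×ˢ (Icc (1 : ℤ) X)).filter (fun v => Q v ∧ nm v ≤ X)),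
      (1 : ℝ) / (nm v : ℝ) ^ 2 ≤
    ∑ N ∈ Icc 1 X, (((Icc 1 N).filter (fun x : ℕ => Q ((x : ℤ), (N : ℤ) - x))).card : ℝ) /
      (N : ℝ) ^ 2 := by
  rw [← Finset.sum_fiberwise_of_maps_to (t := Icc 1 X) (g := fun v => (nm v).toNat)]
  · apply Finset.sum_le_sum
    intro N hN
    have h1 : ∀ v ∈ ((((Icc (1 : ℤ) X) ×ˢ (Icc (1 : ℤ) X)).filter
        (fun v => Q v ∧ nm v ≤ X)).filter (fun v => (nm v).toNat = N)),
        (1 : ℝ) / (nm v : ℝ) ^ 2 = 1 / (N : ℝ) ^ 2 := by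
      intro v hv
      obtain ⟨hv1, hv2⟩ := Finset.mem_filter.1 hv
      obtain ⟨hv3, _⟩ := Finset.mem_filter.1 hv1
      rw [Finset.mem_product, Finset.mem_Icc, Finset.mem_Icc] at hv3
      have : nm v = (N : ℤ) := by
        unfold nm at hv2 ⊢
        omega
      rw [this, Int.cast_natCast]
    rw [Finset.sum_congr rfl h1, Finset.sum_const, nsmul_eq_mul, ← div_eq_mul_one_div]
    apply div_le_div_of_nonneg_right _ (by positivity)
    have h2 := uc4_cardN Q X N
    refine le_trans ?_ h2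
    apply Nat.cast_le.2
    apply Finset.card_le_card
    intro v hv
    obtain ⟨hv1, hv2⟩ := Finset.mem_filter.1 hv
    obtain ⟨hv3, hv4⟩ := Finset.mem_filter.1 hv1
    exact Finset.mem_filter.2 ⟨Finset.mem_filter.2 ⟨hv3, hv4.1⟩, hv2⟩
  · intro v hv
    obtain ⟨hv3, hv4⟩ := Finset.mem_filter.1 hv
    rw [Finset.mem_product, Finset.mem_Icc, Finset.mem_Icc] at hv3
    have := hv4.2
    unfold nm at this
    show (nm v).toNat ∈ Icc 1 X
    rw [Finset.mem_Icc]
    unfold nm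
    omega

/-- all vectors -/
theorem uc4_all (X : ℕ) (L : ℝ) (R : ℤ × ℤ → Prop) [DecidablePred R] :
    ∑ v ∈ (((Icc (1 : ℤ) X) ×ˢ (Icc (1 : ℤ) X)).filter
      (fun v => (R v ∧ L ≤ (nm v : ℝ)) ∧ nm v ≤ X)), (1 : ℝ) / (nm v : ℝ) ^ 2 ≤
      1 + Real.log X := by
  classical
  refine (uc4_fib (fun v => R v ∧ L ≤ (nm v : ℝ)) X).trans ((Finset.sum_le_sum ?_).trans
    (uc4_harm X))
  intro N hN
  rw [Finset.mem_Icc] at hN
  have hN0 : (0 : ℝ) < N := by exact_mod_cast hN.1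
  have h1 : ((((Icc 1 N).filter (fun x : ℕ => R ((x : ℤ), (N : ℤ) - x) ∧
      L ≤ ((nm ((x : ℤ), (N : ℤ) - x) : ℤ) : ℝ))).card : ℝ)) ≤ N := by
    have := Finset.card_filter_le (Icc 1 N) (fun x : ℕ => R ((x : ℤ), (N : ℤ) - x) ∧
      L ≤ ((nm ((x : ℤ), (N : ℤ) - x) : ℤ) : ℝ))
    rw [Nat.card_Icc, Nat.add_sub_cancel] at this
    exact_mod_cast this
  rw [div_le_div_iff₀ (by positivity) hN0]
  nlinarith

/-- the vectors on a line modulo `l` -/
theorem uc4_line (X l : ℕ) (hl : l.Prime) (L : ℝ) (hL : 0 < L) (a : ℤ × ℤ)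
    (ha : ¬ ((l : ℤ) ∣ a.1 ∧ (l : ℤ) ∣ a.2)) :
    ∑ v ∈ (((Icc (1 : ℤ) X) ×ˢ (Icc (1 : ℤ) X)).filter
      (fun v => ((l : ℤ) ∣ dt a v ∧ L ≤ (nm v : ℝ)) ∧ nm v ≤ X)), (1 : ℝ) / (nm v : ℝ) ^ 2 ≤
      (1 + Real.log X) / l + 2 / L := by
  classical
  have hlR : (0 : ℝ) < l := by exact_mod_cast hl.pos
  refine (uc4_fib (fun v => (l : ℤ) ∣ dt a v ∧ L ≤ (nm v : ℝ)) X).trans ?_
  by_cases hs : (l : ℤ) ∣ a.1 + a.2
  · have h1 : ¬ (l : ℤ) ∣ a.1 := fun h => ha ⟨h, (dvd_add_right h).1 hs⟩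
    have h2 : ∑ N ∈ Icc 1 X, (((Icc 1 N).filter (fun x : ℕ => (l : ℤ) ∣
        dt a ((x : ℤ), (N : ℤ) - x) ∧ L ≤ ((nm ((x : ℤ), (N : ℤ) - x) : ℤ) : ℝ))).card : ℝ) /
        (N : ℝ) ^ 2 ≤ ∑ N ∈ (Icc 1 X).filter (fun N => l ∣ N), (1 : ℝ) / N := by
      rw [Finset.sum_filter]
      apply Finset.sum_le_sum
      intro N hN
      rw [Finset.mem_Icc] at hN
      have hN0 : (0 : ℝ) < N := by exact_mod_cast hN.1
      split_ifs with h3
      · have h4 : ((((Icc 1 N).filter (fun x : ℕ => (l : ℤ) ∣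
            dt a ((x : ℤ), (N : ℤ) - x) ∧
            L ≤ ((nm ((x : ℤ), (N : ℤ) - x) : ℤ) : ℝ))).card : ℝ)) ≤ N := by
          have := Finset.card_filter_le (Icc 1 N) (fun x : ℕ => (l : ℤ) ∣
            dt a ((x : ℤ), (N : ℤ) - x) ∧ L ≤ ((nm ((x : ℤ), (N : ℤ) - x) : ℤ) : ℝ))
          rw [Nat.card_Icc, Nat.add_sub_cancel] at this
          exact_mod_cast this
        rw [div_le_div_iff₀ (by positivity) hN0]
        nlinarith
      · have h4 : (Icc 1 N).filter (fun x : ℕ => (l : ℤ) ∣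
            dt a ((x : ℤ), (N : ℤ) - x) ∧
            L ≤ ((nm ((x : ℤ), (N : ℤ) - x) : ℤ) : ℝ)) = ∅ := by
          rw [Finset.filter_eq_empty_iff]
          rintro x _ ⟨hx, _⟩
          apply h3
          have e : dt a ((x : ℤ), (N : ℤ) - x) = a.1 * N - (a.1 + a.2) * x := by
            unfold dt
            ring
          rw [e] at hx
          have h5 : (l : ℤ) ∣ a.1 * N := (dvd_sub_left (hs.mul_right _)).1 hx
          exact Int.natCast_dvd_natCast.1
            (((Nat.prime_iff_prime_int.1 hl).dvd_or_dvd h5).resolve_left h1)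
        rw [h4]
        simp
    have h3 : 0 ≤ 2 / L := by positivity
    linarith [uc4_mul X l hl.pos]
  · have h2 : ∀ N ∈ Icc 1 X, (((Icc 1 N).filter (fun x : ℕ => (l : ℤ) ∣
        dt a ((x : ℤ), (N : ℤ) - x) ∧ L ≤ ((nm ((x : ℤ), (N : ℤ) - x) : ℤ) : ℝ))).card : ℝ) /
        (N : ℝ) ^ 2 ≤ (1 : ℝ) / N / l + (if L ≤ (N : ℝ) then (1 : ℝ) / (N : ℝ) ^ 2 else 0) := by
      intro N hN
      rw [Finset.mem_Icc] at hN
      have hN0 : (0 : ℝ) < N := by exact_mod_cast hN.1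
      have e0 : ∀ x : ℕ, nm ((x : ℤ), (N : ℤ) - x) = N := fun x => by
        unfold nm
        ring
      split_ifs with h3
      · have h4 := uc4_cong N l hl (a.1 + a.2) (a.1 * N) hs
        have h5 : ((((Icc 1 N).filter (fun x : ℕ => (l : ℤ) ∣
            dt a ((x : ℤ), (N : ℤ) - x) ∧
            L ≤ ((nm ((x : ℤ), (N : ℤ) - x) : ℤ) : ℝ))).card : ℝ)) ≤ N / l + 1 := by
          refine le_trans ?_ h4
          apply Nat.cast_le.2
          apply Finset.card_le_card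
          intro x hx
          obtain ⟨hx1, hx2, _⟩ := Finset.mem_filter.1 hx
          refine Finset.mem_filter.2 ⟨hx1, ?_⟩
          have e : dt a ((x : ℤ), (N : ℤ) - x) = a.1 * N - (a.1 + a.2) * x := by
            unfold dt
            ring
          rwa [e] at hx2
        calc _ ≤ ((N : ℝ) / l + 1) / (N : ℝ) ^ 2 := div_le_div_of_nonneg_right h5 (by positivity)
          _ = (1 : ℝ) / N / l + (1 : ℝ) / (N : ℝ) ^ 2 := by
            field_simp
      · have h4 : (Icc 1 N).filter (fun x : ℕ => (l : ℤ) ∣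
            dt a ((x : ℤ), (N : ℤ) - x) ∧
            L ≤ ((nm ((x : ℤ), (N : ℤ) - x) : ℤ) : ℝ)) = ∅ := by
          rw [Finset.filter_eq_empty_iff]
          rintro x _ ⟨_, hx⟩
          apply h3
          rw [e0] at hx
          exact_mod_cast hx
        rw [h4]
        simp only [Finset.card_empty, Nat.cast_zero, zero_div, add_zero]
        positivity
    refine (Finset.sum_le_sum h2).trans ?_
    rw [Finset.sum_add_distrib, ← Finset.sum_div, ← Finset.sum_filter]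
    exact add_le_add (div_le_div_of_nonneg_right (uc4_harm X) hlR.le) (uc4_sq X L hL)

/-- the ends: vectors with one coordinate given -/
theorem uc4_end (A f : ℕ) (hf : 1 ≤ f) (R : ℕ → Prop) [DecidablePred R] :
    ∑ x ∈ (Icc 1 A).filter R, (1 : ℝ) / ((x : ℝ) + f) ≤ (((Icc 1 A).filter R).card : ℝ) / f := by
  have hf0 : (0 : ℝ) < f := by exact_mod_cast hf
  rw [div_eq_mul_one_div, ← nsmul_eq_mul, ← Finset.sum_const]
  apply Finset.sum_le_sum
  intro x _
  apply one_div_le_one_div_of_le hf0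
  have : (0 : ℝ) ≤ x := by positivity
  linarith

theorem uc4_cardmul (A l : ℕ) (hl : 0 < l) :
    (((Icc 1 A).filter (fun x => l ∣ x)).card : ℝ) ≤ (A : ℝ) / l := by
  have h1 : ((Icc 1 A).filter (fun x => l ∣ x)).card ≤ A / l := by
    calc ((Icc 1 A).filter (fun x => l ∣ x)).card ≤ (Icc 1 (A / l)).card := by
          apply Finset.card_le_card_of_injOn (fun x => x / l)
          · intro x hx
            obtain ⟨a, m, hm⟩ := Finset.mem_filter.1 hx
            rw [Finset.mem_Icc] at a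
            apply Finset.mem_coe.2
            show x / l ∈ Icc 1 (A / l)
            rw [Finset.mem_Icc]
            refine ⟨?_, Nat.div_le_div_right a.2⟩
            rw [hm, Nat.mul_div_cancel_left _ hl]
            rcases Nat.eq_zero_or_pos m with h | h
            · rw [h, mul_zero] at hm
              omega
            · exact h
          · intro x hx y hy hxy
            obtain ⟨_, hx2⟩ := Finset.mem_filter.1 hx
            obtain ⟨_, hy2⟩ := Finset.mem_filter.1 hy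
            have hxy' : x / l = y / l := hxy
            rw [← Nat.div_mul_cancel hx2, ← Nat.div_mul_cancel hy2, hxy']
      _ = A / l := by rw [Nat.card_Icc, Nat.add_sub_cancel]
  calc (((Icc 1 A).filter (fun x => l ∣ x)).card : ℝ) ≤ ((A / l : ℕ) : ℝ) := by exact_mod_cast h1
    _ ≤ (A : ℝ) / l := Nat.cast_div_le

/-! ### the box -/

open Classical in
noncomputable def uc4_S (X l : ℕ) (f : ℕ × ℕ) (c1 L : ℝ) (j : Fin 11) : Finset (ℤ × ℤ) :=
  (if j = 0 then {((1 : ℤ), (0 : ℤ))} else if j = 10 then {((0 : ℤ), (1 : ℤ))} else if j = 1 then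
    (Icc 1 ⌊(f.1 : ℝ) / c1⌋₊).image (fun x : ℕ => ((x : ℤ), (f.1 : ℤ))) else if j = 9 then
    (Icc 1 ⌊(f.2 : ℝ) / c1⌋₊).image (fun y : ℕ => ((f.2 : ℤ), (y : ℤ))) else
    ((Icc (1 : ℤ) X) ×ˢ (Icc (1 : ℤ) X)).filter (fun v => L ≤ (nm v : ℝ) ∧ nm v ≤ X)).filter
    (fun v => ¬ ((l : ℤ) ∣ v.1 ∧ (l : ℤ) ∣ v.2))

noncomputable def uc4_w (j : Fin 11) (v : ℤ × ℤ) : ℝ :=
  if j = 0 ∨ j = 10 then 1 else if j = 1 ∨ j = 9 then 1 / (nm v : ℝ) else 1 / (nm v : ℝ) ^ 2

theorem uc4_w_nonneg (X l : ℕ) (f : ℕ × ℕ) (c1 L : ℝ) (j : Fin 11) (v : ℤ × ℤ)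
    (hv : v ∈ uc4_S X l f c1 L j) : 0 ≤ uc4_w j v := by
  unfold uc4_S at hv
  obtain ⟨hv, _⟩ := Finset.mem_filter.1 hv
  unfold uc4_w
  by_cases h0 : j = 0
  · rw [if_pos (Or.inl h0)]
    norm_num
  by_cases h10 : j = 10
  · rw [if_pos (Or.inr h10)]
    norm_num
  rw [if_neg (by tauto)]
  rw [if_neg h0, if_neg h10] at hv
  by_cases h1 : j = 1
  · rw [if_pos h1] at hv
    obtain ⟨x, _, hx⟩ := Finset.mem_image.1 hv
    rw [if_pos (Or.inl h1), ← hx]
    unfold nm
    positivity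
  rw [if_neg h1] at hv
  by_cases h9 : j = 9
  · rw [if_pos h9] at hv
    obtain ⟨x, _, hx⟩ := Finset.mem_image.1 hv
    rw [if_pos (Or.inr h9), ← hx]
    unfold nm
    positivity
  rw [if_neg (by tauto)]
  positivity

/-- the parameters -/
theorem uc4_prm {p : Prm 10} {τ : ℝ} (hp : p.Ok τ) (hτ : τ ≤ 1 / 2) :
    0 < p.e 8 ∧ ∀ j : Fin 11, 2 ≤ j.val → j.val ≤ 8 → p.e 8 ≤ p.e j ∧ p.e j + p.ew ≤ 1 := by
  have hτ0 : 0 < τ := hp.c10.trans_le hp.c11
  have hpos : ∀ j : Fin 11, 2 ≤ j.val → j.val ≤ 8 → 0 < p.e j := by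
    intro j h2 h8
    have h3 := hp.ew1 j h2 (by omega)
    have h4 := hp.ew0
    by_contra h
    push Not at h
    nlinarith
  have e8 : 0 < p.e 8 := hpos 8 (by decide) (by decide)
  have h8m := hp.even 8 (by decide) (by decide) (by decide)
  have hem : 0 < p.em := by
    by_contra h
    push Not at h
    nlinarith
  have hta : 0 < p.ta := by
    have := hp.em_ta
    by_contra h
    push Not at h
    nlinarith
  have hep : 0 < p.ep := by
    have := hp.ta_ep
    by_contra h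
    push Not at h
    nlinarith
  have g1 : p.ep ≤ 1 / 2 := hp.ep1.trans hτ
  have g2 : p.ta ≤ p.ep := by nlinarith [hp.ta_ep]
  have g3 : p.em ≤ p.ta := by nlinarith [hp.em_ta]
  refine ⟨e8, ?_⟩
  intro j h2 h8
  have hj := hpos j h2 h8
  have hew : p.ew ≤ τ * p.e j := hp.ew1 j h2 (by omega)
  by_cases hev : Even j.val
  · have h3 := hp.even j h2 (by omega) hev
    have h4 : p.e j ≤ p.em := by nlinarith
    refine ⟨?_, by nlinarith⟩
    by_cases hj8 : j.val = 8
    · have : j = 8 := Fin.ext hj8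
      rw [this]
    · have h5 := hp.low 8 j h2 (by omega) hev (by decide)
      nlinarith
  · have h3 : p.e j = p.ep := hp.odd j h2 (by omega) hev
    rw [h3] at hew ⊢
    refine ⟨by nlinarith, by nlinarith⟩

theorem uc4_first {p : Prm 10} {X : ℕ} {u : Vec 10} (h : GP p X u) (hc0 : 0 < p.c1) :
    (dE u 1 : ℤ) = (u (1 : Fin 11)).2 ∧ (nm (u (1 : Fin 11)) : ℝ) ≤ (dE u 1 : ℝ) / p.c1 := by
  have h0 : u (0 : Fin 11) = (1, 0) := h.first
  obtain ⟨hp1, hp2⟩ := h.pos 1 (by decide) (by decide)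
  have e : dt (u (0 : Fin 11)) (u (1 : Fin 11)) = (u (1 : Fin 11)).2 := by
    rw [h0]
    unfold dt
    ring
  have h1 : (dE u 1 : ℤ) = (u (1 : Fin 11)).2 := by
    have h2 : dE u 1 = (dt (u (0 : Fin 11)) (u (1 : Fin 11))).natAbs := by
      unfold dE
      rw [dif_pos (by omega : 1 ≤ 1 ∧ 1 ≤ 10)]
      rfl
    rw [h2, e]
    omega
  refine ⟨h1, ?_⟩
  have h3 := h.sep (0 : Fin 11) (1 : Fin 11) (by decide)
  have e2 : nm (u (0 : Fin 11)) = 1 := by
    rw [h0]
    rfl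
  rw [e, e2] at h3
  rw [le_div_iff₀ hc0]
  have h4 : (dE u 1 : ℝ) = ((u (1 : Fin 11)).2 : ℝ) := by exact_mod_cast h1
  rw [h4]
  push_cast at h3
  linarith

theorem uc4_last {p : Prm 10} {X : ℕ} {u : Vec 10} (h : GP p X u) (hc0 : 0 < p.c1) :
    (dE u 10 : ℤ) = (u (9 : Fin 11)).1 ∧ (nm (u (9 : Fin 11)) : ℝ) ≤ (dE u 10 : ℝ) / p.c1 := by
  have h0 : u (10 : Fin 11) = (0, 1) := h.last
  obtain ⟨hp1, hp2⟩ := h.pos 9 (by decide) (by decide)
  have e : dt (u (9 : Fin 11)) (u (10 : Fin 11)) = (u (9 : Fin 11)).1 := by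
    rw [h0]
    unfold dt
    ring
  have h1 : (dE u 10 : ℤ) = (u (9 : Fin 11)).1 := by
    have h2 : dE u 10 = (dt (u (9 : Fin 11)) (u (10 : Fin 11))).natAbs := by
      unfold dE
      rw [dif_pos (by omega : 1 ≤ 10 ∧ 10 ≤ 10)]
      rfl
    rw [h2, e]
    omega
  refine ⟨h1, ?_⟩
  have h3 := h.sep (9 : Fin 11) (10 : Fin 11) (by decide)
  have e2 : nm (u (10 : Fin 11)) = 1 := by
    rw [h0]
    rfl
  rw [e, e2] at h3
  rw [le_div_iff₀ hc0]
  have h4 : (dE u 10 : ℝ) = ((u (9 : Fin 11)).1 : ℝ) := by exact_mod_cast h1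
  rw [h4]
  push_cast at h3
  linarith

theorem uc4_box {p : Prm 10} {τ : ℝ} (hp : p.Ok τ) (hτ : τ ≤ 1 / 2) {X : ℕ} (hX : 1 ≤ X)
    {u : Vec 10} (hu : GP p X u) {f : ℕ × ℕ} (hf : fE u = f) {l : ℕ} (hl : l.Prime) :
    u ∈ Fintype.piFinset (uc4_S X l f p.c1 ((X : ℝ) ^ p.e 8)) := by
  classical
  have hX1 : (1 : ℝ) ≤ X := by exact_mod_cast hX
  obtain ⟨he8, hej⟩ := uc4_prm hp hτ
  have hf1 : dE u 1 = f.1 := by rw [← hf]; rfl
  have hf2 : dE u 10 = f.2 := by rw [← hf]; rfl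
  rw [Fintype.mem_piFinset]
  intro j
  unfold uc4_S
  refine Finset.mem_filter.2 ⟨?_, gp_prim hu j hl⟩
  have hjlt := j.isLt
  by_cases h0 : j = 0
  · rw [if_pos h0, h0, Finset.mem_singleton]
    exact hu.first
  rw [if_neg h0]
  by_cases h10 : j = 10
  · rw [if_pos h10, h10, Finset.mem_singleton]
    exact hu.last
  rw [if_neg h10]
  have hj0 : j.val ≠ 0 := fun h => h0 (Fin.ext h)
  have hj10 : j.val ≠ 10 := fun h => h10 (Fin.ext h)
  obtain ⟨hp1, hp2⟩ := hu.pos j (by omega) (by omega)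
  by_cases h1 : j = 1
  · rw [if_pos h1]
    subst h1
    obtain ⟨a1, a2⟩ := uc4_first hu hp.c10
    rw [hf1] at a1 a2
    rw [Finset.mem_image]
    refine ⟨(u (1 : Fin 11)).1.toNat, ?_, ?_⟩
    · rw [Finset.mem_Icc]
      refine ⟨by omega, ?_⟩
      apply Nat.le_floor
      refine le_trans ?_ a2
      unfold nm
      have : (((u (1 : Fin 11)).1.toNat : ℕ) : ℝ) = ((u (1 : Fin 11)).1 : ℝ) := by
        have : (((u (1 : Fin 11)).1.toNat : ℕ) : ℤ) = (u (1 : Fin 11)).1 :=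
          Int.toNat_of_nonneg hp1.le
        exact_mod_cast this
      rw [this]
      push_cast
      have : (0 : ℝ) < ((u (1 : Fin 11)).2 : ℝ) := by exact_mod_cast hp2
      linarith
    · apply Prod.ext
      · exact Int.toNat_of_nonneg hp1.le
      · exact a1
  rw [if_neg h1]
  by_cases h9 : j = 9
  · rw [if_pos h9]
    subst h9
    obtain ⟨a1, a2⟩ := uc4_last hu hp.c10
    rw [hf2] at a1 a2
    rw [Finset.mem_image]
    refine ⟨(u (9 : Fin 11)).2.toNat, ?_, ?_⟩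
    · rw [Finset.mem_Icc]
      refine ⟨by omega, ?_⟩
      apply Nat.le_floor
      refine le_trans ?_ a2
      unfold nm
      have : (((u (9 : Fin 11)).2.toNat : ℕ) : ℝ) = ((u (9 : Fin 11)).2 : ℝ) := by
        have : (((u (9 : Fin 11)).2.toNat : ℕ) : ℤ) = (u (9 : Fin 11)).2 :=
          Int.toNat_of_nonneg hp2.le
        exact_mod_cast this
      rw [this]
      push_cast
      have : (0 : ℝ) < ((u (9 : Fin 11)).1 : ℝ) := by exact_mod_cast hp1
      linarith
    · apply Prod.ext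
      · exact a1
      · exact Int.toNat_of_nonneg hp2.le
  rw [if_neg h9]
  have hj1 : j.val ≠ 1 := fun h => h1 (Fin.ext h)
  have hj9 : j.val ≠ 9 := fun h => h9 (Fin.ext h)
  obtain ⟨b1, b2⟩ := hej j (by omega) (by omega)
  have hlow := hu.low j (by omega) (by omega)
  have hupp := hu.upp j (by omega) (by omega)
  have hX0 : (0 : ℝ) < X := by linarith
  have c1 : (nm (u j) : ℝ) ≤ X := by
    refine hupp.trans ?_
    calc (X : ℝ) ^ (p.e j + p.ew) ≤ (X : ℝ) ^ (1 : ℝ) :=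
          Real.rpow_le_rpow_of_exponent_le hX1 b2
      _ = X := Real.rpow_one _
  have c2 : nm (u j) ≤ (X : ℤ) := by exact_mod_cast c1
  have c3 : (X : ℝ) ^ p.e 8 ≤ (nm (u j) : ℝ) :=
    (Real.rpow_le_rpow_of_exponent_le hX1 b1).trans hlow
  refine Finset.mem_filter.2 ⟨?_, c3, c2⟩
  unfold nm at c2
  rw [Finset.mem_product, Finset.mem_Icc, Finset.mem_Icc]
  exact ⟨⟨by omega, by omega⟩, ⟨by omega, by omega⟩⟩

theorem uc4_feU : feU = {1, 2, 3, 4, 5, 6, 7, 8} := by decide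

theorem uc4_univ : (univ : Finset (Fin 11)) = {0, 1, 2, 3, 4, 5, 6, 7, 8, 9, 10} := by decide

theorem uc4_prod8 (g : Fin 11 → ℝ) : ∏ j ∈ feU, g j =
    g 1 * (g 2 * (g 3 * (g 4 * (g 5 * (g 6 * (g 7 * g 8)))))) := by
  rw [uc4_feU, Finset.prod_insert (by decide), Finset.prod_insert (by decide),
    Finset.prod_insert (by decide), Finset.prod_insert (by decide), Finset.prod_insert (by decide),
    Finset.prod_insert (by decide), Finset.prod_insert (by decide), Finset.prod_singleton]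

theorem uc4_prod11 (g : Fin 11 → ℝ) : ∏ j, g j =
    g 0 * (g 1 * (g 2 * (g 3 * (g 4 * (g 5 * (g 6 * (g 7 * (g 8 * (g 9 * g 10))))))))) := by
  rw [uc4_univ, Finset.prod_insert (by decide), Finset.prod_insert (by decide),
    Finset.prod_insert (by decide), Finset.prod_insert (by decide), Finset.prod_insert (by decide),
    Finset.prod_insert (by decide), Finset.prod_insert (by decide),
    Finset.prod_insert (by decide), Finset.prod_insert (by decide), Finset.prod_insert (by decide),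
    Finset.prod_singleton]

theorem uc4_ptw {p : Prm 10} {X : ℕ} {u : Vec 10} (hu : GP p X u) (hc0 : 0 < p.c1) :
    1 / (Dint u : ℝ) ≤ p.c1⁻¹ ^ 8 * ∏ j, uc4_w j (u j) := by
  have hn : ∀ j : Fin 11, (0 : ℝ) < (nm (u j) : ℝ) := fun j => by
    have := nm_pos hu j
    exact_mod_cast (by omega : 0 < nm (u j))
  have h1 : ∏ j ∈ feU, (p.c1 * ((nm (u j) : ℝ) * (nm (u (j + 1 : Fin 11)) : ℝ))) ≤
      (Dint u : ℝ) := by
    rw [← DE_feU u]
    unfold DE
    push_cast
    apply Finset.prod_le_prod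
    · intro j _
      have := hn j
      have := hn (j + 1)
      positivity
    · intro j hj
      apply gp_dn_ge hu j
      intro h
      rw [h] at hj
      exact absurd hj (by decide)
  have h2 : 0 < ∏ j ∈ feU, (p.c1 * ((nm (u j) : ℝ) * (nm (u (j + 1 : Fin 11)) : ℝ))) := by
    apply Finset.prod_pos
    intro j _
    have := hn j
    have := hn (j + 1)
    positivity
  refine (one_div_le_one_div_of_le h2 h1).trans (le_of_eq ?_)
  have w0 : uc4_w 0 (u 0) = 1 := by unfold uc4_w; rw [if_pos (by decide)]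
  have w10 : uc4_w 10 (u 10) = 1 := by unfold uc4_w; rw [if_pos (by decide)]
  have w1 : uc4_w 1 (u 1) = 1 / (nm (u 1) : ℝ) := by
    unfold uc4_w; rw [if_neg (by decide), if_pos (by decide)]
  have w9 : uc4_w 9 (u 9) = 1 / (nm (u 9) : ℝ) := by
    unfold uc4_w; rw [if_neg (by decide), if_pos (by decide)]
  have wm : ∀ j : Fin 11, ¬ (j = 0 ∨ j = 10) → ¬ (j = 1 ∨ j = 9) →
      uc4_w j (u j) = 1 / (nm (u j) : ℝ) ^ 2 := by
    intro j ha hb
    unfold uc4_w; rw [if_neg ha, if_neg hb]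
  rw [uc4_prod8, uc4_prod11, w0, w10, w1, w9, wm 2 (by decide) (by decide),
    wm 3 (by decide) (by decide), wm 4 (by decide) (by decide), wm 5 (by decide) (by decide),
    wm 6 (by decide) (by decide), wm 7 (by decide) (by decide), wm 8 (by decide) (by decide)]
  have n1 := hn 1
  have n2 := hn 2
  have n3 := hn 3
  have n4 := hn 4
  have n5 := hn 5
  have n6 := hn 6
  have n7 := hn 7
  have n8 := hn 8
  have n9 := hn 9
  rw [show (1 : Fin 11) + 1 = 2 from rfl, show (2 : Fin 11) + 1 = 3 from rfl,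
    show (3 : Fin 11) + 1 = 4 from rfl, show (4 : Fin 11) + 1 = 5 from rfl,
    show (5 : Fin 11) + 1 = 6 from rfl, show (6 : Fin 11) + 1 = 7 from rfl,
    show (7 : Fin 11) + 1 = 8 from rfl, show (8 : Fin 11) + 1 = 9 from rfl]
  field_simp

/-! ### the sums over the boxes -/

theorem uc4_img (A f : ℕ) (hf : 1 ≤ f) (c1 : ℝ) (hc0 : 0 < c1) (hA : (A : ℝ) ≤ (f : ℝ) / c1)
    (R : ℕ → Prop) [DecidablePred R] :
    ∑ x ∈ (Icc 1 A).filter R, (1 : ℝ) / ((x : ℝ) + f) ≤ 1 / c1 := by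
  have hf0 : (0 : ℝ) < f := by exact_mod_cast hf
  refine (uc4_end A f hf R).trans ?_
  have h1 : (((Icc 1 A).filter R).card : ℝ) ≤ A := by
    have := Finset.card_filter_le (Icc 1 A) R
    rw [Nat.card_Icc, Nat.add_sub_cancel] at this
    exact_mod_cast this
  rw [div_le_div_iff₀ hf0 hc0]
  rw [le_div_iff₀ hc0] at hA
  nlinarith

theorem uc4_T {X l : ℕ} {f : ℕ × ℕ} {c1 L : ℝ} (hX : 3 ≤ X) (hf1 : 1 ≤ f.1) (hf2 : 1 ≤ f.2)
    (hc0 : 0 < c1) (j : Fin 11) :
    ∑ v ∈ uc4_S X l f c1 L j, uc4_w j v ≤ (1 / c1 + 2) * Real.log X := by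
  classical
  have hlog : 1 ≤ Real.log X := by
    rw [Real.le_log_iff_exp_le (by positivity)]
    have : (3 : ℝ) ≤ X := by exact_mod_cast hX
    linarith [Real.exp_one_lt_d9]
  have hc : 0 < 1 / c1 := by positivity
  have hbig : 1 / c1 + 2 ≤ (1 / c1 + 2) * Real.log X := le_mul_of_one_le_right (by positivity) hlog
  by_cases h0 : j = 0
  · have : ∑ v ∈ uc4_S X l f c1 L j, uc4_w j v ≤ 1 := by
      unfold uc4_S
      rw [if_pos h0]
      calc _ ≤ ∑ v ∈ {((1 : ℤ), (0 : ℤ))}, uc4_w j v := by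
            apply Finset.sum_le_sum_of_subset_of_nonneg (Finset.filter_subset _ _)
            intro v _ _
            unfold uc4_w
            rw [if_pos (Or.inl h0)]
            norm_num
        _ = 1 := by
            rw [Finset.sum_singleton]
            unfold uc4_w
            rw [if_pos (Or.inl h0)]
    linarith
  by_cases h10 : j = 10
  · have : ∑ v ∈ uc4_S X l f c1 L j, uc4_w j v ≤ 1 := by
      unfold uc4_S
      rw [if_neg h0, if_pos h10]
      calc _ ≤ ∑ v ∈ {((0 : ℤ), (1 : ℤ))}, uc4_w j v := by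
            apply Finset.sum_le_sum_of_subset_of_nonneg (Finset.filter_subset _ _)
            intro v _ _
            unfold uc4_w
            rw [if_pos (Or.inr h10)]
            norm_num
        _ = 1 := by
            rw [Finset.sum_singleton]
            unfold uc4_w
            rw [if_pos (Or.inr h10)]
    linarith
  by_cases h1 : j = 1
  · have : ∑ v ∈ uc4_S X l f c1 L j, uc4_w j v ≤ 1 / c1 := by
      unfold uc4_S
      rw [if_neg h0, if_neg h10, if_pos h1, Finset.filter_image, Finset.sum_image]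
      · refine le_trans (le_of_eq ?_) (uc4_img ⌊(f.1 : ℝ) / c1⌋₊ f.1 hf1 c1 hc0
          (Nat.floor_le (by positivity)) (fun x => ¬ ((l : ℤ) ∣ ((x : ℤ), (f.1 : ℤ)).1 ∧
            (l : ℤ) ∣ ((x : ℤ), (f.1 : ℤ)).2)))
        apply Finset.sum_congr rfl
        intro x _
        unfold uc4_w nm
        rw [if_neg (by tauto), if_pos (Or.inl h1)]
        push_cast
        rfl
      · intro a _ b _ h
        have h' : (a : ℤ) = (b : ℤ) := congrArg Prod.fst h
        exact_mod_cast h'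
    linarith
  by_cases h9 : j = 9
  · have : ∑ v ∈ uc4_S X l f c1 L j, uc4_w j v ≤ 1 / c1 := by
      unfold uc4_S
      rw [if_neg h0, if_neg h10, if_neg h1, if_pos h9, Finset.filter_image, Finset.sum_image]
      · refine le_trans (le_of_eq ?_) (uc4_img ⌊(f.2 : ℝ) / c1⌋₊ f.2 hf2 c1 hc0
          (Nat.floor_le (by positivity)) (fun x => ¬ ((l : ℤ) ∣ ((f.2 : ℤ), (x : ℤ)).1 ∧
            (l : ℤ) ∣ ((f.2 : ℤ), (x : ℤ)).2)))
        apply Finset.sum_congr rfl
        intro x _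
        unfold uc4_w nm
        rw [if_neg (by tauto), if_pos (Or.inr h9)]
        push_cast
        rw [add_comm]
      · intro a _ b _ h
        have h' : (a : ℤ) = (b : ℤ) := congrArg Prod.snd h
        exact_mod_cast h'
    linarith
  have : ∑ v ∈ uc4_S X l f c1 L j, uc4_w j v ≤ 1 + Real.log X := by
    refine le_trans (le_of_eq ?_) (uc4_all X L (fun v => ¬ ((l : ℤ) ∣ v.1 ∧ (l : ℤ) ∣ v.2)))
    unfold uc4_S
    rw [if_neg h0, if_neg h10, if_neg h1, if_neg h9, Finset.filter_filter]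
    apply Finset.sum_congr
    · apply Finset.filter_congr
      intro v _
      tauto
    · intro v _
      unfold uc4_w
      rw [if_neg (by tauto), if_neg (by tauto)]
  have h2 : 1 + Real.log X ≤ 2 * Real.log X := by linarith
  have h3 : 2 * Real.log X ≤ (1 / c1 + 2) * Real.log X := by nlinarith
  linarith

/-- one vertex on a line -/
theorem uc4_mid {X l : ℕ} {f : ℕ × ℕ} {c1 L : ℝ} (hX : 3 ≤ X) (hl : l.Prime)
    (hL : 0 < L) (j : Fin 11) (h2 : 2 ≤ j.val) (h8 : j.val ≤ 8) (a : ℤ × ℤ)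
    (ha : ¬ ((l : ℤ) ∣ a.1 ∧ (l : ℤ) ∣ a.2)) (cond : ℤ × ℤ → Prop) [DecidablePred cond]
    (hcond : ∀ b, cond b → (l : ℤ) ∣ dt a b) :
    ∑ b ∈ (uc4_S X l f c1 L j).filter cond, uc4_w j b ≤
      2 * Real.log X * (1 / l + 1 / L) := by
  classical
  have hlog : 1 ≤ Real.log X := by
    rw [Real.le_log_iff_exp_le (by positivity)]
    have : (3 : ℝ) ≤ X := by exact_mod_cast hX
    linarith [Real.exp_one_lt_d9]
  have hlR : (0 : ℝ) < l := by exact_mod_cast hl.pos
  have h0 : j ≠ 0 := fun h => by rw [h] at h2; exact absurd h2 (by decide)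
  have h1 : j ≠ 1 := fun h => by rw [h] at h2; exact absurd h2 (by decide)
  have h9 : j ≠ 9 := fun h => by rw [h] at h8; exact absurd h8 (by decide)
  have h10 : j ≠ 10 := fun h => by rw [h] at h8; exact absurd h8 (by decide)
  have h3 : ∑ b ∈ (uc4_S X l f c1 L j).filter cond, uc4_w j b ≤
      ∑ v ∈ (((Icc (1 : ℤ) X) ×ˢ (Icc (1 : ℤ) X)).filter
      (fun v => ((l : ℤ) ∣ dt a v ∧ L ≤ (nm v : ℝ)) ∧ nm v ≤ X)), (1 : ℝ) / (nm v : ℝ) ^ 2 := by
    have h4 : ∀ v, uc4_w j v = (1 : ℝ) / (nm v : ℝ) ^ 2 := by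
      intro v
      unfold uc4_w
      rw [if_neg (by tauto), if_neg (by tauto)]
    rw [Finset.sum_congr rfl (fun v _ => h4 v)]
    apply Finset.sum_le_sum_of_subset_of_nonneg
    · intro v hv
      obtain ⟨hv1, hv2⟩ := Finset.mem_filter.1 hv
      unfold uc4_S at hv1
      rw [if_neg h0, if_neg h10, if_neg h1, if_neg h9] at hv1
      obtain ⟨hv3, hv4⟩ := Finset.mem_filter.1 hv1
      obtain ⟨hv5, hv6⟩ := Finset.mem_filter.1 hv3
      exact Finset.mem_filter.2 ⟨hv5, ⟨hcond v hv2, hv6.1⟩, hv6.2⟩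
    · intro v _ _
      positivity
  refine h3.trans ((uc4_line X l hl L hL a ha).trans ?_)
  have e1 : (1 + Real.log X) / l ≤ 2 * Real.log X * (1 / l) := by
    rw [mul_one_div]
    apply div_le_div_of_nonneg_right _ hlR.le
    linarith
  have e2 : 2 / L ≤ 2 * Real.log X * (1 / L) := by
    rw [mul_one_div]
    apply div_le_div_of_nonneg_right _ hL.le
    linarith
  linarith

/-- one coordinate of an end is divisible by `l` -/
theorem uc4_endl (A f l : ℕ) (hf : 1 ≤ f) (hl : 0 < l) (c1 : ℝ) (hc0 : 0 < c1)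
    (hA : (A : ℝ) ≤ (f : ℝ) / c1) (R : ℕ → Prop) [DecidablePred R] (hR : ∀ x, R x → l ∣ x) :
    ∑ x ∈ (Icc 1 A).filter R, (1 : ℝ) / ((x : ℝ) + f) ≤ 1 / c1 * (1 / l) := by
  have hf0 : (0 : ℝ) < f := by exact_mod_cast hf
  have hl0 : (0 : ℝ) < l := by exact_mod_cast hl
  refine (uc4_end A f hf R).trans ?_
  have h1 : (((Icc 1 A).filter R).card : ℝ) ≤ (A : ℝ) / l := by
    refine le_trans ?_ (uc4_cardmul A l hl)
    apply Nat.cast_le.2
    apply Finset.card_le_card
    intro x hx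
    obtain ⟨a, b⟩ := Finset.mem_filter.1 hx
    exact Finset.mem_filter.2 ⟨a, hR x b⟩
  calc (((Icc 1 A).filter R).card : ℝ) / f ≤ ((f : ℝ) / c1 / l) / f := by
        apply div_le_div_of_nonneg_right _ hf0.le
        exact h1.trans (div_le_div_of_nonneg_right hA hl0.le)
    _ = 1 / c1 * (1 / l) := by field_simp

/-! ### the cases -/

def uc4_gi (k : Fin 11 × Fin 4) : Fin 11 := if k.2 = 0 then k.1 - 1 else if k.2 = 1 then 9 else 0

def uc4_cd (l : ℕ) (k : Fin 11 × Fin 4) (a b : ℤ × ℤ) : Prop :=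
  if k.2 = 0 ∨ k.2 = 1 then (l : ℤ) ∣ dt a b else if k.2 = 2 then (l : ℤ) ∣ b.1 else (l : ℤ) ∣ b.2

def uc4_ok (k : Fin 11 × Fin 4) : Prop :=
  (k.2 = 0 ∧ 2 ≤ k.1.val ∧ k.1.val ≤ 8) ∨ (k.2 = 1 ∧ k.1 = 8) ∨
    (k.2 = 2 ∧ 1 ≤ k.1.val ∧ k.1.val ≤ 8) ∨ (k.2 = 3 ∧ 2 ≤ k.1.val ∧ k.1.val ≤ 9)

instance uc4_dec : DecidablePred uc4_ok := fun k => by unfold uc4_ok; infer_instance

theorem uc4_gi_ne : ∀ k : Fin 11 × Fin 4, uc4_ok k → uc4_gi k ≠ k.1 := by decide

open Classical in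
theorem uc4_eps {X l : ℕ} {f : ℕ × ℕ} {c1 L : ℝ} (hX : 3 ≤ X) (hl : l.Prime)
    (hf1 : 1 ≤ f.1) (hf2 : 1 ≤ f.2) (hc0 : 0 < c1) (hL : 0 < L) (k : Fin 11 × Fin 4)
    (hk : uc4_ok k) (a : ℤ × ℤ) (ha : a ∈ uc4_S X l f c1 L (uc4_gi k)) :
    ∑ b ∈ (uc4_S X l f c1 L k.1).filter (fun b => uc4_cd l k a b), uc4_w k.1 b ≤
      (1 / c1 + 2) * Real.log X * (1 / l + 1 / L) := by
  have hlog : 1 ≤ Real.log X := by
    rw [Real.le_log_iff_exp_le (by positivity)]
    have : (3 : ℝ) ≤ X := by exact_mod_cast hX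
    linarith [Real.exp_one_lt_d9]
  have hlR : (0 : ℝ) < l := by exact_mod_cast hl.pos
  have hc : 0 < 1 / c1 := by positivity
  have hs : 0 < 1 / (l : ℝ) + 1 / L := by positivity
  have ha2 : ¬ ((l : ℤ) ∣ a.1 ∧ (l : ℤ) ∣ a.2) := by
    unfold uc4_S at ha
    exact (Finset.mem_filter.1 ha).2
  have g1 : 2 * Real.log X * (1 / l + 1 / L) ≤ (1 / c1 + 2) * Real.log X * (1 / l + 1 / L) := by
    apply mul_le_mul_of_nonneg_right _ hs.le
    nlinarith
  have g2 : 1 / c1 * (1 / (l : ℝ)) ≤ (1 / c1 + 2) * Real.log X * (1 / l + 1 / L) := by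
    have e1 : 1 / c1 ≤ (1 / c1 + 2) * Real.log X := by nlinarith
    have e2 : 1 / (l : ℝ) ≤ 1 / l + 1 / L := by
      have : 0 < 1 / L := by positivity
      linarith
    exact mul_le_mul e1 e2 (by positivity) (by nlinarith)
  have hl1 : ¬ (l : ℤ) ∣ 1 := by
    intro h
    have := Int.natCast_dvd_natCast.1 (by exact_mod_cast h : ((l : ℕ) : ℤ) ∣ ((1 : ℕ) : ℤ))
    exact hl.one_lt.ne' (Nat.dvd_one.1 this)
  rcases hk with ⟨k2, h2, h8⟩ | ⟨k2, k8⟩ | ⟨k2, h1, h8⟩ | ⟨k2, h2, h9⟩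
  · refine (uc4_mid hX hl hL k.1 h2 h8 a ha2 (fun b => uc4_cd l k a b) ?_).trans g1
    intro b hb
    unfold uc4_cd at hb
    rwa [if_pos (Or.inl k2)] at hb
  · refine (uc4_mid hX hl hL k.1 (by rw [k8]; decide) (by rw [k8]; decide) a ha2
      (fun b => uc4_cd l k a b) ?_).trans g1
    intro b hb
    unfold uc4_cd at hb
    rwa [if_pos (Or.inr k2)] at hb
  · have hcd : ∀ b, uc4_cd l k a b → (l : ℤ) ∣ b.1 := by
      intro b hb
      unfold uc4_cd at hb
      rw [if_neg (by rw [k2]; decide), if_pos k2] at hb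
      exact hb
    by_cases hk1 : k.1 = 1
    · refine le_trans ?_ g2
      rw [hk1]
      unfold uc4_S
      rw [if_neg (by decide), if_neg (by decide), if_pos rfl, Finset.filter_filter,
        Finset.filter_image, Finset.sum_image]
      · refine le_trans (le_of_eq ?_) (uc4_endl ⌊(f.1 : ℝ) / c1⌋₊ f.1 l hf1 hl.pos c1 hc0
          (Nat.floor_le (by positivity)) (fun x : ℕ => ¬ ((l : ℤ) ∣ ((x : ℤ), (f.1 : ℤ)).1 ∧
            (l : ℤ) ∣ ((x : ℤ), (f.1 : ℤ)).2) ∧ uc4_cd l k a ((x : ℤ), (f.1 : ℤ))) ?_)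
        · apply Finset.sum_congr rfl
          intro x _
          unfold uc4_w nm
          rw [if_neg (by decide), if_pos (by decide)]
          push_cast
          rfl
        · intro x hx
          exact Int.natCast_dvd_natCast.1 (hcd _ hx.2)
      · intro a _ b _ h
        have h' : (a : ℤ) = (b : ℤ) := congrArg Prod.fst h
        exact_mod_cast h'
    · have hk1' : k.1.val ≠ 1 := fun h => hk1 (Fin.ext h)
      refine (uc4_mid hX hl hL k.1 (by omega) h8 (0, 1) (fun h => hl1 h.2)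
        (fun b => uc4_cd l k a b) ?_).trans g1
      intro b hb
      have e : dt ((0 : ℤ), (1 : ℤ)) b = - b.1 := by
        unfold dt
        ring
      rw [e]
      exact (dvd_neg).2 (hcd b hb)
  · have hcd : ∀ b, uc4_cd l k a b → (l : ℤ) ∣ b.2 := by
      intro b hb
      unfold uc4_cd at hb
      rw [if_neg (by rw [k2]; decide), if_neg (by rw [k2]; decide)] at hb
      exact hb
    by_cases hk1 : k.1 = 9
    · refine le_trans ?_ g2
      rw [hk1]
      unfold uc4_S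
      rw [if_neg (by decide), if_neg (by decide), if_neg (by decide), if_pos rfl,
        Finset.filter_filter, Finset.filter_image, Finset.sum_image]
      · refine le_trans (le_of_eq ?_) (uc4_endl ⌊(f.2 : ℝ) / c1⌋₊ f.2 l hf2 hl.pos c1 hc0
          (Nat.floor_le (by positivity)) (fun x : ℕ => ¬ ((l : ℤ) ∣ ((f.2 : ℤ), (x : ℤ)).1 ∧
            (l : ℤ) ∣ ((f.2 : ℤ), (x : ℤ)).2) ∧ uc4_cd l k a ((f.2 : ℤ), (x : ℤ))) ?_)
        · apply Finset.sum_congr rfl
          intro x _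
          unfold uc4_w nm
          rw [if_neg (by decide), if_pos (by decide)]
          push_cast
          rw [add_comm]
        · intro x hx
          exact Int.natCast_dvd_natCast.1 (hcd _ hx.2)
      · intro a _ b _ h
        have h' : (a : ℤ) = (b : ℤ) := congrArg Prod.snd h
        exact_mod_cast h'
    · have hk1' : k.1.val ≠ 9 := fun h => hk1 (Fin.ext h)
      refine (uc4_mid hX hl hL k.1 h2 (by omega) (1, 0) (fun h => hl1 h.1)
        (fun b => uc4_cd l k a b) ?_).trans g1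
      intro b hb
      have e : dt ((1 : ℤ), (0 : ℤ)) b = b.2 := by
        unfold dt
        ring
      rw [e]
      exact hcd b hb

theorem uc4_dE (u : Vec 10) (i : Fin 11) (hi : 1 ≤ i.val) :
    dE u i.val = (dt (u (i - 1 : Fin 11)) (u i)).natAbs := by
  have h1 : ∀ i : Fin 11, 1 ≤ i.val → (i - 1).val = i.val - 1 := by decide
  have hlt := i.isLt
  unfold dE
  rw [dif_pos (by omega : 1 ≤ i.val ∧ i.val ≤ 10)]
  have e : (⟨i.val - 1, by omega⟩ : Fin (10 + 1)) = (i - 1 : Fin 11) := Fin.ext (h1 i hi).symm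
  rw [e]

theorem uc4_case {p : Prm 10} {X : ℕ} {u : Vec 10} (hu : GP p X u) (hc0 : 0 < p.c1)
    {f : ℕ × ℕ} (hf : fE u = f) {l : ℕ} (hl : l.Prime)
    (h : l ∣ Dint u ∨ (¬ l ∣ f.1 * f.2 ∧
        ∃ j : Fin (10 + 1), 1 ≤ j.val ∧ j.val + 1 ≤ 10 ∧ (l : ℤ) ∣ (u j).1 * (u j).2)) :
    ∃ k ∈ (univ : Finset (Fin 11 × Fin 4)).filter uc4_ok,
      uc4_cd l k (u (uc4_gi k)) (u k.1) := by
  have hf1 : dE u 1 = f.1 := by rw [← hf]; rfl
  have hf2 : dE u 10 = f.2 := by rw [← hf]; rfl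
  rcases h with h | ⟨h1, j, hj1, hj2, hj3⟩
  · unfold Dint at h
    obtain ⟨i, hi, hd⟩ := (Prime.dvd_finsetProd_iff hl.prime _).1 h
    rw [Finset.mem_Icc] at hi
    obtain ⟨hi1, hi2⟩ := hi
    have hi3 : i ≤ 9 := hi2
    by_cases hi9 : i = 9
    · refine ⟨(8, 1), Finset.mem_filter.2 ⟨Finset.mem_univ _, by decide⟩, ?_⟩
      unfold uc4_cd
      rw [if_pos (by decide)]
      have e1 : uc4_gi (8, 1) = 9 := by decide
      rw [e1]
      have e2 := uc4_dE u 9 (by decide)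
      have e3 : ((9 : Fin 11) - 1) = 8 := by decide
      rw [e3] at e2
      rw [hi9] at hd
      have e4 : ((9 : Fin 11).val) = 9 := by decide
      rw [e4] at e2
      rw [e2] at hd
      have h5 : (l : ℤ) ∣ dt (u (8 : Fin 11)) (u (9 : Fin 11)) := Int.natCast_dvd.2 hd
      have e5 : dt (u (9 : Fin 11)) (u (8 : Fin 11)) = - dt (u (8 : Fin 11)) (u (9 : Fin 11)) := by
        unfold dt
        ring
      show (l : ℤ) ∣ dt (u (9 : Fin 11)) (u (8 : Fin 11))
      rw [e5]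
      exact (dvd_neg).2 h5
    · refine ⟨(⟨i, by omega⟩, 0), Finset.mem_filter.2 ⟨Finset.mem_univ _,
        Or.inl ⟨rfl, hi1, by show i ≤ 8; omega⟩⟩, ?_⟩
      unfold uc4_cd
      rw [if_pos (Or.inl rfl)]
      have e2 := uc4_dE u (⟨i, by omega⟩ : Fin 11) (by show 1 ≤ i; omega)
      have e3 : dE u i = (dt (u ((⟨i, by omega⟩ : Fin 11) - 1)) (u ⟨i, by omega⟩)).natAbs := e2
      rw [e3] at hd
      have e1 : uc4_gi ((⟨i, by omega⟩ : Fin 11), 0) = (⟨i, by omega⟩ : Fin 11) - 1 := by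
        unfold uc4_gi
        rw [if_pos rfl]
      rw [e1]
      exact Int.natCast_dvd.2 hd
  · have hl1 : ¬ (l : ℤ) ∣ (f.1 : ℤ) := fun h2 =>
      h1 ((Int.natCast_dvd_natCast.1 h2).mul_right _)
    have hl2 : ¬ (l : ℤ) ∣ (f.2 : ℤ) := fun h2 =>
      h1 ((Int.natCast_dvd_natCast.1 h2).mul_left _)
    obtain ⟨a1, _⟩ := uc4_first hu hc0
    obtain ⟨a9, _⟩ := uc4_last hu hc0
    rw [hf1] at a1
    rw [hf2] at a9
    rcases (Nat.prime_iff_prime_int.1 hl).dvd_or_dvd hj3 with h3 | h3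
    · have hj9 : j.val ≠ 9 := by
        intro h4
        have : j = (9 : Fin 11) := Fin.ext h4
        rw [this, ← a9] at h3
        exact hl2 h3
      refine ⟨(j, 2), Finset.mem_filter.2 ⟨Finset.mem_univ _,
        Or.inr (Or.inr (Or.inl ⟨rfl, hj1, by show j.val ≤ 8; omega⟩))⟩, ?_⟩
      unfold uc4_cd
      rw [if_neg (by simp), if_pos rfl]
      exact h3
    · have hj1' : j.val ≠ 1 := by
        intro h4
        have : j = (1 : Fin 11) := Fin.ext h4
        rw [this, ← a1] at h3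
        exact hl1 h3
      refine ⟨(j, 3), Finset.mem_filter.2 ⟨Finset.mem_univ _,
        Or.inr (Or.inr (Or.inr ⟨rfl, by show 2 ≤ j.val; omega, by show j.val ≤ 9; omega⟩))⟩, ?_⟩
      unfold uc4_cd
      rw [if_neg (by simp), if_neg (by simp)]
      exact h3

theorem UB1_all_pr : ∃ τ₀ : ℝ, 0 < τ₀ ∧ ∀ p : Prm 10, p.Ok τ₀ → UB1 p := by
  classical
  refine ⟨1 / 200, by norm_num, fun p hp => ?_⟩
  obtain ⟨C0, hC0, X0, hX0⟩ := gk_crude hp le_rfl
  have hc0 := hp.c10
  have he8 := (uc4_prm hp (by norm_num)).1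
  refine ⟨14, p.e 8, he8, fun P00 _ => ?_⟩
  set M : ℝ := C0 * (p.c1⁻¹ ^ 8 * (44 * (1 / p.c1 + 2) ^ 13)) with hM
  refine ⟨max X0 (max 3 ⌈Real.exp M⌉₊), fun X hX f hf q _ l hl _ => ?_⟩
  have hXX0 : X0 ≤ X := (le_max_left _ _).trans hX
  have hX3 : 3 ≤ X := (le_max_left _ _).trans ((le_max_right _ _).trans hX)
  have hXM : ⌈Real.exp M⌉₊ ≤ X := (le_max_right _ _).trans ((le_max_right _ _).trans hX)
  have hXpos : (0 : ℝ) < X := by
    have : (3 : ℝ) ≤ X := by exact_mod_cast hX3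
    linarith
  have hMlog : M ≤ Real.log X := by
    rw [Real.le_log_iff_exp_le hXpos]
    exact (Nat.le_ceil _).trans (by exact_mod_cast hXM)
  have hlog : 1 ≤ Real.log X := by
    rw [Real.le_log_iff_exp_le hXpos]
    have : (3 : ℝ) ≤ X := by exact_mod_cast hX3
    linarith [Real.exp_one_lt_d9]
  have hlR : (0 : ℝ) < l := by exact_mod_cast hl.pos
  have hf12 : 1 ≤ f.1 ∧ 1 ≤ f.2 := by
    unfold Fac at hf
    obtain ⟨hf', _⟩ := Finset.mem_filter.1 hf
    rw [Finset.mem_product, Finset.mem_Icc, Finset.mem_Icc] at hf'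
    exact ⟨hf'.1.1, hf'.2.1⟩
  set L : ℝ := (X : ℝ) ^ p.e 8 with hLdef
  have hL : 0 < L := Real.rpow_pos_of_pos hXpos _
  set T : ℝ := (1 / p.c1 + 2) * Real.log X with hT
  have hc1 : 0 < 1 / p.c1 := by positivity
  have hT1 : 1 ≤ T := by
    rw [hT]
    nlinarith
  set ε : ℝ := T * (1 / l + 1 / L) with hε
  have hε0 : 0 ≤ ε := by positivity
  have hmem : ∀ u ∈ GS p X, GP p X u := by
    intro u hu
    unfold GS at hu
    split_ifs at hu with h
    · exact (Set.Finite.mem_toFinset h).1 hu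
    · exact absurd hu (Finset.notMem_empty u)
  set A := (GS p X).filter (fun u => fE u = f ∧ (l ∣ Dint u ∨ (¬ l ∣ f.1 * f.2 ∧
        ∃ j : Fin (10 + 1), 1 ≤ j.val ∧ j.val + 1 ≤ 10 ∧ (l : ℤ) ∣ (u j).1 * (u j).2))) with hA
  have s1 : ∑ u ∈ A, gk p X P00 q u ≤
      C0 * (p.c1⁻¹ ^ 8 * ∑ u ∈ A, ∏ j, uc4_w j (u j)) := by
    rw [Finset.mul_sum, Finset.mul_sum]
    apply Finset.sum_le_sum
    intro u hu
    have hgp := hmem u (Finset.mem_filter.1 hu).1
    refine ((hX0 X hXX0 P00 q u hgp).2).trans ?_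
    rw [div_eq_mul_one_div]
    exact mul_le_mul_of_nonneg_left (uc4_ptw hgp hc0) hC0
  have s2 : ∑ u ∈ A, ∏ j, uc4_w j (u j) ≤ ∑ k ∈ (univ : Finset (Fin 11 × Fin 4)).filter uc4_ok,
      ∑ u ∈ (Fintype.piFinset (uc4_S X l f p.c1 L)).filter
        (fun u => uc4_cd l k (u (uc4_gi k)) (u k.1)), ∏ j, uc4_w j (u j) := by
    apply uc4_cov ((univ : Finset (Fin 11 × Fin 4)).filter uc4_ok)
      (fun k => (Fintype.piFinset (uc4_S X l f p.c1 L)).filter
        (fun u => uc4_cd l k (u (uc4_gi k)) (u k.1))) (fun u => ∏ j, uc4_w j (u j))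
    · intro k _ u hu
      apply Finset.prod_nonneg
      intro j _
      have h2 := Fintype.mem_piFinset.1 (Finset.mem_filter.1 hu).1 j
      exact uc4_w_nonneg X l f p.c1 L j (u j) h2
    · intro u hu
      obtain ⟨hu1, hu2, hu3⟩ := Finset.mem_filter.1 hu
      have hgp := hmem u hu1
      obtain ⟨k, hk, hcd⟩ := uc4_case hgp hc0 hu2 hl hu3
      exact ⟨k, hk, Finset.mem_filter.2 ⟨uc4_box hp (by norm_num) (by omega) hgp hu2 hl, hcd⟩⟩
  have s3 : ∀ k ∈ (univ : Finset (Fin 11 × Fin 4)).filter uc4_ok,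
      ∑ u ∈ (Fintype.piFinset (uc4_S X l f p.c1 L)).filter
        (fun u => uc4_cd l k (u (uc4_gi k)) (u k.1)), ∏ j, uc4_w j (u j) ≤ T ^ 12 * ε := by
    intro k hk
    have hok := (Finset.mem_filter.1 hk).2
    exact uc4_pi uc4_w (uc4_S X l f p.c1 L) T ε (uc4_w_nonneg X l f p.c1 L) hT1
      (fun j => uc4_T hX3 hf12.1 hf12.2 hc0 j) k.1 (uc4_gi k) (uc4_gi_ne k hok)
      (fun a b => uc4_cd l k a b) hε0
      (fun a ha => uc4_eps hX3 hl hf12.1 hf12.2 hc0 hL k hok a ha)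
  have s4 : ∑ u ∈ A, ∏ j, uc4_w j (u j) ≤ 44 * (T ^ 12 * ε) := by
    refine s2.trans ((Finset.sum_le_sum s3).trans ?_)
    rw [Finset.sum_const, nsmul_eq_mul]
    apply mul_le_mul_of_nonneg_right _ (by positivity)
    have h5 := Finset.card_filter_le (univ : Finset (Fin 11 × Fin 4)) uc4_ok
    have h6 : (univ : Finset (Fin 11 × Fin 4)).card = 44 := by decide
    rw [h6] at h5
    exact_mod_cast h5
  have hci : 0 ≤ p.c1⁻¹ ^ 8 := by positivity
  have s5 : ∑ u ∈ A, gk p X P00 q u ≤ M * Real.log X ^ 13 * (1 / l + 1 / L) := by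
    refine s1.trans ((mul_le_mul_of_nonneg_left (mul_le_mul_of_nonneg_left s4 hci) hC0).trans
      (le_of_eq ?_))
    rw [hM, hε, hT]
    ring
  refine s5.trans ?_
  have e1 : (X : ℝ) ^ (-p.e 8) = 1 / L := by
    rw [Real.rpow_neg hXpos.le, one_div]
  rw [e1]
  apply mul_le_mul_of_nonneg_right _ (by positivity)
  have e2 : Real.log X ^ (14 : ℝ) = Real.log X ^ 14 := by
    rw [← Real.rpow_natCast]
    norm_num
  rw [e2]
  calc M * Real.log X ^ 13 ≤ Real.log X * Real.log X ^ 13 :=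
        mul_le_mul_of_nonneg_right hMlog (by positivity)
    _ = Real.log X ^ 14 := by ring

alias UB1_all := UB1_all_pr

end Pool.Agent.UPA
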