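import Pool.Agent.Lib_helper15.UP.Facts
import Pool.Agent.Lib_helper15.PFMF.F8

/-! UPA block UA3 (helper53): the local facts for the family `cD` (port of F8, helper67) -/

set_option autoImplicit false

namespace Pool.Agent.UPA

open Finset Pool.Agent.PENT Pool.Agent.PATH.NC Pool.Agent.PFM
open Pool.Agent.PENK (PolyK Wts dn dl mL ich EquiF PerP prs lw L1 Rf)

/-- the free vertices -/
def ua3F (v : Fin 11) : Prop := v ≠ 0 ∧ v ≠ 10

theorem ua3_free {v : Fin 11} (hv : ua3F v) (p : ℕ) :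
    cr (cD v).1 p ×ˢ cr (cD v).2 p = L1 p := by
  unfold cD
  rw [if_neg hv.1, if_neg hv.2]
  rfl

theorem ua3_mem {p : ℕ} {u : PolyK 11} :
    u ∈ LawO cD p ↔ ∀ j, u j ∈ cr (cD j).1 p ×ˢ cr (cD j).2 p := by
  unfold LawO
  rw [Fintype.mem_piFinset]

theorem ua3_zero {p : ℕ} {u : PolyK 11} (hu : u ∈ LawO cD p) : u 0 = (1, 0) := by
  have h := ua3_mem.1 hu 0
  have e : cr (cD 0).1 p ×ˢ cr (cD 0).2 p = ({1} : Finset ℤ) ×ˢ ({0} : Finset ℤ) := by
    unfold cD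
    rw [if_pos rfl]
    rfl
  rw [e, mem_product, mem_singleton, mem_singleton] at h
  exact Prod.ext h.1 h.2

theorem ua3_ten {p : ℕ} {u : PolyK 11} (hu : u ∈ LawO cD p) : u 10 = (0, 1) := by
  have h := ua3_mem.1 hu 10
  have e : cr (cD 10).1 p ×ˢ cr (cD 10).2 p = ({0} : Finset ℤ) ×ˢ ({1} : Finset ℤ) := by
    unfold cD
    rw [if_neg (by decide), if_pos rfl]
    rfl
  rw [e, mem_product, mem_singleton, mem_singleton] at h
  exact Prod.ext h.1 h.2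

theorem ua3_one {p : ℕ} (hp : p.Prime) : ¬ (p : ℤ) ∣ 1 := by
  intro h
  have h1 := Int.natCast_dvd.1 h
  exact hp.one_lt.ne' (Nat.dvd_one.1 h1)

theorem ua3_fix {p : ℕ} (hp : p.Prime) {u : PolyK 11} (hu : u ∈ LawO cD p) {w : Fin 11}
    (hw : ¬ ua3F w) : ¬ f8Z p (u w) := by
  intro hz
  by_cases h0 : w = 0
  · subst h0
    rw [ua3_zero hu] at hz
    exact ua3_one hp hz.1
  · by_cases h1 : w = 10
    · subst h1
      rw [ua3_ten hu] at hz
      exact ua3_one hp hz.2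
    · exact hw ⟨h0, h1⟩

/-- averaging over one free vertex -/
theorem ua3_avg {p : ℕ} {v : Fin 11} (hv : ua3F v) (f : PolyK 11 → ℝ) :
    ((L1 p).card : ℝ) * ∑ u ∈ LawO cD p, f u =
      ∑ u ∈ LawO cD p, ∑ x ∈ L1 p, f (Function.update u v x) := by
  rw [← sum_product']
  have e : ((L1 p).card : ℝ) * ∑ u ∈ LawO cD p, f u = ∑ z ∈ LawO cD p ×ˢ L1 p, f z.1 := by
    rw [sum_product]
    simp only [sum_const, nsmul_eq_mul]
    rw [mul_sum]
  rw [e]
  refine sum_nbij' (fun z => (Function.update z.1 v z.2, z.1 v))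
    (fun z => (Function.update z.1 v z.2, z.1 v)) ?_ ?_ ?_ ?_ ?_
  · intro z hz
    rw [mem_product, ua3_mem] at hz
    rw [mem_product, ua3_mem]
    refine ⟨fun i => ?_, by have := hz.1 v; rwa [ua3_free hv] at this⟩
    by_cases hi : i = v
    · subst hi
      rw [ua3_free hv]
      simpa using hz.2
    · simp only [Function.update_of_ne hi]
      exact hz.1 i
  · intro z hz
    rw [mem_product, ua3_mem] at hz
    rw [mem_product, ua3_mem]
    refine ⟨fun i => ?_, by have := hz.1 v; rwa [ua3_free hv] at this⟩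
    by_cases hi : i = v
    · subst hi
      rw [ua3_free hv]
      simpa using hz.2
    · simp only [Function.update_of_ne hi]
      exact hz.1 i
  · intro z _
    simp
  · intro z _
    simp
  · intro z _
    simp

/-- the probability that a vertex is zero -/
theorem ua3_P0 {p : ℕ} (hp : p.Prime) (w : Fin 11) :
    (p : ℝ) ^ 2 * ∑ u ∈ LawO cD p, ich (f8Z p (u w)) ≤ (LawO cD p).card := by
  by_cases hw : ua3F w
  · have h := ua3_avg (p := p) hw (fun u => ich (f8Z p (u w)))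
    rw [f8_card] at h
    push_cast at h
    rw [h]
    calc ∑ u ∈ LawO cD p, ∑ x ∈ L1 p, ich (f8Z p (Function.update u w x w))
        ≤ ∑ _u ∈ LawO cD p, (1 : ℝ) := by
          refine sum_le_sum fun u _ => ?_
          simp only [Function.update_self]
          exact f8_zsum
      _ = _ := by simp
  · have h0 : ∑ u ∈ LawO cD p, ich (f8Z p (u w)) = 0 := by
      apply Finset.sum_eq_zero
      intro u hu
      unfold ich
      rw [if_neg (ua3_fix hp hu hw)]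
    rw [h0, mul_zero]
    exact Nat.cast_nonneg _

/-- the probability that two vertices are parallel -/
theorem ua3_P1 {p : ℕ} (hp : p.Prime) {w v : Fin 11} (hwv : w ≠ v) (hv : ua3F v) :
    (p : ℝ) ^ 2 * ∑ u ∈ LawO cD p, ich ((p : ℤ) ∣ dt (u w) (u v)) ≤
        2 * p * (LawO cD p).card ∧
      (p : ℝ) * (LawO cD p).card ≤
        (p : ℝ) ^ 2 * ∑ u ∈ LawO cD p, ich ((p : ℤ) ∣ dt (u w) (u v)) := by
  have h := ua3_avg (p := p) hv (fun u => ich ((p : ℤ) ∣ dt (u w) (u v)))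
  rw [f8_card] at h
  push_cast at h
  rw [h]
  simp only [Function.update_self, Function.update_of_ne hwv]
  have hp1 : (1 : ℝ) ≤ p := by exact_mod_cast hp.one_le
  have hN : (0 : ℝ) ≤ (LawO cD p).card := Nat.cast_nonneg _
  constructor
  · calc ∑ u ∈ LawO cD p, ∑ x ∈ L1 p, ich ((p : ℤ) ∣ dt (u w) x)
        ≤ ∑ u ∈ LawO cD p, ((p : ℝ) + (p : ℝ) ^ 2 * ich (f8Z p (u w))) :=
          sum_le_sum fun u _ => f8_sum_le hp (u w)
      _ = (LawO cD p).card * p + (p : ℝ) ^ 2 * ∑ u ∈ LawO cD p, ich (f8Z p (u w)) := by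
          rw [sum_add_distrib, sum_const, nsmul_eq_mul, mul_sum]
      _ ≤ (LawO cD p).card * p + (LawO cD p).card := by linarith [ua3_P0 hp w]
      _ ≤ 2 * p * (LawO cD p).card := by nlinarith
  · calc (p : ℝ) * (LawO cD p).card = ∑ _u ∈ LawO cD p, (p : ℝ) := by
          rw [sum_const, nsmul_eq_mul]; ring
      _ ≤ _ := sum_le_sum fun u _ => f8_sum_ge hp (u w)

theorem ua3_P1' {p : ℕ} (hp : p.Prime) {w v : Fin 11} (hwv : w ≠ v)
    (hv : ua3F w ∨ ua3F v) :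
    (p : ℝ) ^ 2 * ∑ u ∈ LawO cD p, ich ((p : ℤ) ∣ dt (u w) (u v)) ≤
        2 * p * (LawO cD p).card ∧
      (p : ℝ) * (LawO cD p).card ≤
        (p : ℝ) ^ 2 * ∑ u ∈ LawO cD p, ich ((p : ℤ) ∣ dt (u w) (u v)) := by
  rcases hv with hv | hv
  · have h := ua3_P1 hp hwv.symm hv
    have e : ∑ u ∈ LawO cD p, ich ((p : ℤ) ∣ dt (u w) (u v)) =
        ∑ u ∈ LawO cD p, ich ((p : ℤ) ∣ dt (u v) (u w)) :=
      sum_congr rfl fun u _ => f8_swap p _ _
    rw [e]
    exact h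
  · exact ua3_P1 hp hwv hv

/-- two edges -/
theorem ua3_P2 {p : ℕ} (hp : p.Prime) {a b w v : Fin 11} (hv : ua3F v) (hf : ua3F a ∨ ua3F b)
    (hwv : w ≠ v) (hab : a ≠ b) (ha : a ≠ v) (hb : b ≠ v) :
    (p : ℝ) ^ 2 * ∑ u ∈ LawO cD p,
      ich ((p : ℤ) ∣ dt (u a) (u b) ∧ (p : ℤ) ∣ dt (u w) (u v)) ≤
      3 * (LawO cD p).card := by
  have h := ua3_avg (p := p) hv
    (fun u => ich ((p : ℤ) ∣ dt (u a) (u b) ∧ (p : ℤ) ∣ dt (u w) (u v)))
  rw [f8_card] at h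
  push_cast at h
  rw [h]
  simp only [Function.update_self, Function.update_of_ne hwv, Function.update_of_ne ha,
    Function.update_of_ne hb]
  have hp0 : (0 : ℝ) < p := by exact_mod_cast hp.pos
  have h1 := (ua3_P1' hp hab hf).1
  have h2 := ua3_P0 hp w
  have h3 : (p : ℝ) * ∑ u ∈ LawO cD p, ich ((p : ℤ) ∣ dt (u a) (u b)) ≤
      2 * (LawO cD p).card := by
    have e : (p : ℝ) * ((p : ℝ) * ∑ u ∈ LawO cD p, ich ((p : ℤ) ∣ dt (u a) (u b))) ≤
        (p : ℝ) * (2 * (LawO cD p).card) := by linarith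
    exact le_of_mul_le_mul_left e hp0
  calc ∑ u ∈ LawO cD p, ∑ x ∈ L1 p, ich ((p : ℤ) ∣ dt (u a) (u b) ∧ (p : ℤ) ∣ dt (u w) x)
      = ∑ u ∈ LawO cD p, ich ((p : ℤ) ∣ dt (u a) (u b)) *
          ∑ x ∈ L1 p, ich ((p : ℤ) ∣ dt (u w) x) := by
        refine sum_congr rfl fun u _ => ?_
        rw [mul_sum]
        exact sum_congr rfl fun x _ => f8_and _ _
    _ ≤ ∑ u ∈ LawO cD p, (p * ich ((p : ℤ) ∣ dt (u a) (u b)) +
          (p : ℝ) ^ 2 * ich (f8Z p (u w))) := by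
        refine sum_le_sum fun u _ => ?_
        have e1 := f8_sum_le hp (u w)
        have e2 := f8_ich0 ((p : ℤ) ∣ dt (u a) (u b))
        have e3 := f8_ich1 ((p : ℤ) ∣ dt (u a) (u b))
        have e4 := f8_ich0 (f8Z p (u w))
        have e5 : 0 ≤ (p : ℝ) ^ 2 * ich (f8Z p (u w)) := by positivity
        nlinarith
    _ = p * ∑ u ∈ LawO cD p, ich ((p : ℤ) ∣ dt (u a) (u b)) +
          (p : ℝ) ^ 2 * ∑ u ∈ LawO cD p, ich (f8Z p (u w)) := by
        rw [sum_add_distrib, mul_sum, mul_sum]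
    _ ≤ 3 * (LawO cD p).card := by linarith

theorem ua3_ne {p : ℕ} (hp : p.Prime) : (LawO cD p).Nonempty := by
  have hp0 : (0 : ℤ) < p := by exact_mod_cast hp.pos
  have hcr : ∀ o : Option ℤ, (cr o p).Nonempty := by
    intro o
    cases o with
    | none => exact ⟨0, mem_Ico.2 ⟨le_refl _, hp0⟩⟩
    | some c => exact ⟨c, mem_singleton_self c⟩
  refine ⟨fun j => ((hcr (cD j).1).choose, (hcr (cD j).2).choose), ?_⟩
  rw [ua3_mem]
  intro j
  rw [mem_product]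
  exact ⟨(hcr (cD j).1).choose_spec, (hcr (cD j).2).choose_spec⟩

theorem ua3_dec : ∀ i j : Fin 11, i ≠ 10 → j ≠ 10 → i ≠ j →
    (((j + 1 ≠ 0 ∧ j + 1 ≠ 10) ∧ i ≠ j + 1 ∧ i + 1 ≠ j + 1) ∨
      ((j ≠ 0 ∧ j ≠ 10) ∧ i ≠ j ∧ i + 1 ≠ j)) ∨
    (((i + 1 ≠ 0 ∧ i + 1 ≠ 10) ∧ j ≠ i + 1 ∧ j + 1 ≠ i + 1) ∨
      ((i ≠ 0 ∧ i ≠ 10) ∧ j ≠ i ∧ j + 1 ≠ i)) := by decide

theorem ua3_dec1 : ∀ i : Fin 11, i ≠ 10 →
    (i ≠ 0 ∧ i ≠ 10) ∨ (i + 1 ≠ 0 ∧ i + 1 ≠ 10) := by decide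

theorem ua3_dec2 : ∀ j : Fin 11, j ≠ j + 1 := by decide

theorem ua3_dec3 : ∀ i j : Fin 11, i ≠ j →
    ((i ≠ 0 ∧ i ≠ 10) ∨ (j ≠ 0 ∧ j ≠ 10)) ∨ (i = 0 ∧ j = 10) ∨ (i = 10 ∧ j = 0) := by decide

/-- one of the two edges has a free end which is not on the other edge -/
theorem ua3_two {p : ℕ} (hp : p.Prime) {i j : Fin 11} (hi : i ≠ 10) (_ : j ≠ 10)
    (h : ((j + 1 ≠ 0 ∧ j + 1 ≠ 10) ∧ i ≠ j + 1 ∧ i + 1 ≠ j + 1) ∨
      ((j ≠ 0 ∧ j ≠ 10) ∧ i ≠ j ∧ i + 1 ≠ j)) :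
    (p : ℝ) ^ 2 * ∑ u ∈ LawO cD p, ich ((p : ℤ) ∣ dl u i ∧ (p : ℤ) ∣ dl u j) ≤
      3 * (LawO cD p).card := by
  rcases h with ⟨h1, h2, h3⟩ | ⟨h1, h2, h3⟩
  · exact ua3_P2 hp h1 (ua3_dec1 i hi) (ua3_dec2 j) (ua3_dec2 i) h2 h3
  · have h := ua3_P2 hp (a := i) (b := i + 1) (w := j + 1) (v := j) h1 (ua3_dec1 i hi)
      (ua3_dec2 j).symm (ua3_dec2 i) h2 h3
    refine le_trans (le_of_eq ?_) h
    congr 1
    refine sum_congr rfl fun u _ => ?_
    rw [f8_and, f8_and]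
    congr 1
    exact f8_swap p _ _

/-- block UA3: the local facts for the family `cD` (as F8, helper67, Lib_helper15/PFMF/F8.lean):
`dl_0 = (u_1).2`, `dl_9 = (u_9).1`; every edge is `0` with probability `1/p + O(1/p²)`, two edges
with probability `O(1/p²)`, two vertices parallel and no edge `0`: `O(1/p)`. -/
theorem locD_pr : ∃ C : ℝ, 0 ≤ C ∧ ∀ p : ℕ, p.Prime → 2 < p →
    LocS feD univ p (LawO cD p) C := by
  refine ⟨3, by norm_num, ?_⟩
  intro p hp _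
  have hp0 : (0 : ℝ) < p := by exact_mod_cast hp.pos
  have hN : (0 : ℝ) < (LawO cD p).card := by
    exact_mod_cast (ua3_ne hp).card_pos
  have hfe : ∀ j : Fin 11, j ∈ feD ↔ j ≠ 10 := by
    intro j
    unfold feD
    rw [mem_erase]
    exact ⟨fun h => h.1, fun h => ⟨h, mem_univ j⟩⟩
  refine ⟨ua3_ne hp, ?_, ?_, ?_, ?_, ?_⟩
  · intro j hj
    have h := (ua3_P1' hp (ua3_dec2 j) (ua3_dec1 j ((hfe j).1 hj))).2
    have h1 : 1 / (p : ℝ) ≤ mL (LawO cD p) (fun u => ich ((p : ℤ) ∣ dl u j)) := by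
      unfold mL dl
      rw [div_le_div_iff₀ hp0 hN]
      have h2 : (p : ℝ) * (1 * (LawO cD p).card) ≤
          (p : ℝ) * ((∑ u ∈ LawO cD p, ich ((p : ℤ) ∣ dt (u j) (u (j + 1)))) * p) := by
        linarith
      exact le_of_mul_le_mul_left h2 hp0
    have h3 : (0 : ℝ) ≤ 3 / (p : ℝ) ^ 2 := by positivity
    linarith
  · intro j hj
    have h := (ua3_P1' hp (ua3_dec2 j) (ua3_dec1 j ((hfe j).1 hj))).1
    have h1 := f8_div_le (K := 2) hp hN 1 (by rw [pow_one]; exact h) (by norm_num)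
    have h2 : (2 : ℝ) / (p : ℝ) ^ (2 - 1) ≤ 3 / p := by
      rw [show 2 - 1 = 1 from rfl, pow_one]
      gcongr
      norm_num
    exact h1.trans h2
  · intro i hi j hj hij
    have hi' := (hfe i).1 hi
    have hj' := (hfe j).1 hj
    rcases ua3_dec i j hi' hj' hij with h | h
    · exact f8_div_le hp hN 0 (by rw [pow_zero, mul_one]; exact ua3_two hp hi' hj' h)
        (by norm_num)
    · have h1 := ua3_two hp hj' hi' h
      have e : ∑ u ∈ LawO cD p, ich ((p : ℤ) ∣ dl u i ∧ (p : ℤ) ∣ dl u j) =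
          ∑ u ∈ LawO cD p, ich ((p : ℤ) ∣ dl u j ∧ (p : ℤ) ∣ dl u i) :=
        sum_congr rfl fun u _ => by rw [f8_and, f8_and, mul_comm]
      have h2 : (p : ℝ) ^ 2 * ∑ u ∈ LawO cD p, ich ((p : ℤ) ∣ dl u i ∧ (p : ℤ) ∣ dl u j) ≤
          3 * (p : ℝ) ^ 0 * (LawO cD p).card := by
        rw [e, pow_zero, mul_one]
        exact h1
      exact f8_div_le hp hN 0 h2 (by norm_num)
  · intro u hu h i _ hz
    by_cases hf : ua3F i
    · exact h i ((hfe i).2 hf.2) (dvd_sub (hz.1.mul_right _) (hz.2.mul_right _))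
    · exact ua3_fix hp hu hf hz
  · intro i _ j _ hij
    rcases ua3_dec3 i j hij with hf | hf
    · have h := (ua3_P1' hp hij hf).1
      have h0 : (p : ℝ) ^ 2 * ∑ u ∈ LawO cD p, ich ((∀ j ∈ feD,
          ¬ (p : ℤ) ∣ dl u j) ∧ (p : ℤ) ∣ dt (u i) (u j)) ≤
            2 * (p : ℝ) ^ 1 * (LawO cD p).card := by
        rw [pow_one]
        refine le_trans ?_ h
        gcongr with u _
        exact f8_mono fun h => h.2
      have h1 := f8_div_le (K := 2) hp hN 1 h0 (by norm_num)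
      have h2 : (2 : ℝ) / (p : ℝ) ^ (2 - 1) ≤ 3 / p := by
        rw [show 2 - 1 = 1 from rfl, pow_one]
        gcongr
        norm_num
      exact h1.trans h2
    · have h0 : mL (LawO cD p) (fun u => ich ((∀ j ∈ feD, ¬ (p : ℤ) ∣ dl u j) ∧
          (p : ℤ) ∣ dt (u i) (u j))) = 0 := by
        unfold mL
        rw [Finset.sum_eq_zero, zero_div]
        intro u hu
        unfold ich
        rw [if_neg]
        rintro ⟨_, h1⟩
        rcases hf with ⟨rfl, rfl⟩ | ⟨rfl, rfl⟩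
        · rw [ua3_zero hu, ua3_ten hu] at h1
          exact ua3_one hp h1
        · rw [ua3_zero hu, ua3_ten hu] at h1
          have h2 : (p : ℤ) ∣ -1 := h1
          rw [dvd_neg] at h2
          exact ua3_one hp h2
      rw [h0]
      positivity

alias locD := locD_pr

end Pool.Agent.UPA
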