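import Pool.Agent.Lib_helper15.PFMF.F6
import Pool.Agent.Lib_helper15.PFMF.F11
import Pool.Agent.Lib_helper15.UP.Facts
import Pool.Agent.Lib_helper15.UPAF.UA1
import Pool.Agent.Lib_helper15.UPAF.UA2
import Pool.Agent.Lib_helper15.UPAF.UA3

/-! UPA block UA6 (helper73): the sum over the paths (as F11, helper41) -/

set_option autoImplicit false

namespace Pool.Agent.UPA

open Finset Pool.Agent.PENT Pool.Agent.PATH.NC Pool.Agent.PFM
open Pool.Agent.PENK (PolyK Wts dn dl mL ich EquiF PerP prs lw L1 Rf)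

theorem ua6_gp {p : Prm 10} {X : ℕ} {u : Vec 10} (h : u ∈ GS p X) : GP p X u := by
  classical
  unfold GS at h
  split_ifs at h with h1
  · exact (Set.Finite.mem_toFinset h1).1 h
  · exact absurd h (Finset.notMem_empty _)

/-- the numbers -/
theorem ua6_nums {p : Prm 10} {τ : ℝ} (hp : p.Ok τ) (hτ : τ ≤ 1 / 1000) :
    0 < p.e 8 ∧ p.e 8 ≤ p.em ∧ p.e 8 ≤ p.ep ∧ p.ep ≤ 1 / 1000 ∧
    (∀ j : Fin 11, 2 ≤ j.val → j.val ≤ 8 → p.e 8 ≤ p.e j ∧ p.e j + p.ew ≤ 2 * p.ep) := by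
  have hτ0 : 0 < τ := lt_of_lt_of_le hp.c10 hp.c11
  have mul : ∀ a b : ℝ, a ≤ τ * b → 0 ≤ b → 1000 * a ≤ b := fun a b h hb => by
    have h1 : τ * b ≤ 1 / 1000 * b := mul_le_mul_of_nonneg_right hτ hb
    linarith
  have pos : ∀ a b : ℝ, a ≤ τ * b → 0 < a → 0 < b := fun a b h ha => by
    by_contra hb
    push Not at hb
    have h1 : τ * b ≤ 0 := mul_nonpos_of_nonneg_of_nonpos hτ0.le hb
    linarith
  have h8v : ((8 : Fin 11) : ℕ) = 8 := rfl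
  have he : ∀ j : Fin 11, 2 ≤ j.val → j.val ≤ 8 → 0 < p.e j := fun j h1 h2 =>
    pos _ _ (hp.ew1 j h1 (by omega)) hp.ew0
  have h8 : 0 < p.e 8 := he 8 (by rw [h8v]; norm_num) (by rw [h8v])
  have h8m : p.e 8 ≤ τ * p.em :=
    hp.even (8 : Fin 11) (by rw [h8v]; norm_num) (by rw [h8v]) (by rw [h8v]; decide)
  have hem : 0 < p.em := pos _ _ h8m h8
  have hta : 0 < p.ta := pos _ _ hp.em_ta hem
  have hep : 0 < p.ep := pos _ _ hp.ta_ep hta
  have k1 : 1000 * p.em ≤ p.ta := mul _ _ hp.em_ta hta.le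
  have k2 : 1000 * p.ta ≤ p.ep := mul _ _ hp.ta_ep hep.le
  have k3 := mul _ _ h8m hem.le
  have k4 := mul _ _ (hp.ew1 8 (by rw [h8v]; norm_num) (by rw [h8v])) h8.le
  have k5 := hp.ew0
  refine ⟨h8, by linarith, by linarith, hp.ep1.trans hτ, fun j h1 h2 => ?_⟩
  rcases Nat.eq_or_lt_of_le h2 with h3 | h3
  · have : j = (8 : Fin 11) := Fin.ext (by rw [h8v]; exact h3)
    rw [this]
    exact ⟨le_rfl, by linarith⟩
  by_cases hj : Even j.val
  · have k6 := mul _ _ (hp.low 8 j h1 (by omega) hj (by rw [h8v])) (he j h1 (by omega)).le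
    have k7 := mul _ _ (hp.even j h1 (by omega) hj) hem.le
    exact ⟨by linarith, by linarith⟩
  · rw [hp.odd j h1 (by omega) hj]
    exact ⟨by linarith, by linarith⟩

theorem ua6_u0 {p : Prm 10} {X : ℕ} {u : Vec 10} (h : GP p X u) : u (0 : Fin 11) = (1, 0) :=
  h.first

theorem ua6_u10 {p : Prm 10} {X : ℕ} {u : Vec 10} (h : GP p X u) : u (10 : Fin 11) = (0, 1) :=
  h.last

theorem ua6_mid {j : Fin 11} (h0 : j ≠ 0) (h10 : j ≠ 10) : 1 ≤ j.val ∧ j.val ≤ 9 := by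
  revert j; decide

theorem ua6_nn {p : Prm 10} {X : ℕ} {u : Vec 10} (h : GP p X u) (j : Fin 11) :
    0 ≤ (u j).1 ∧ 0 ≤ (u j).2 := by
  by_cases h0 : j = 0
  · rw [h0, ua6_u0 h]; decide
  by_cases h10 : j = 10
  · rw [h10, ua6_u10 h]; decide
  obtain ⟨h1, h2⟩ := ua6_mid h0 h10
  obtain ⟨a, b⟩ := h.pos j h1 (by omega)
  exact ⟨a.le, b.le⟩

theorem ua6_dn_le {p : Prm 10} {X : ℕ} {u : Vec 10} (h : GP p X u) (j : Fin 11) :
    (dn (tp u) j : ℝ) ≤ (nm (u j) : ℝ) * (nm (u (j + 1 : Fin 11)) : ℝ) := by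
  have h1 : (dn (tp u) j : ℤ) ≤ nm (u j) * nm (u (j + 1 : Fin 11)) := by
    unfold dn dl dt nm tp
    rw [Int.natCast_natAbs, abs_le]
    obtain ⟨a1, a2⟩ := ua6_nn h j
    obtain ⟨a3, a4⟩ := ua6_nn h (j + 1 : Fin 11)
    constructor
    · nlinarith [mul_nonneg a1 a3, mul_nonneg a1 a4, mul_nonneg a2 a3, mul_nonneg a2 a4]
    · nlinarith [mul_nonneg a1 a3, mul_nonneg a1 a4, mul_nonneg a2 a3, mul_nonneg a2 a4]
  exact_mod_cast h1

theorem ua6_e1 {p : Prm 10} {X : ℕ} {u : Vec 10} (h : GP p X u) :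
    (X : ℝ) ^ p.em ≤ (nm (u (1 : Fin 11)) : ℝ) ∧
      p.c1 * (nm (u (1 : Fin 11)) : ℝ) ≤ (X : ℝ) ^ p.ep := by
  have hu0 := ua6_u0 h
  obtain ⟨p1, p2⟩ := h.pos (1 : Fin 11) (by decide) (by decide)
  have e1 : dt (u (0 : Fin 11)) (u (1 : Fin 11)) = (u (1 : Fin 11)).2 := by
    rw [hu0]; simp only [dt]; ring
  have e2 : (u (1 : Fin 11)).2 = (dE u 1 : ℤ) := by
    unfold dE
    rw [dif_pos (by omega : 1 ≤ 1 ∧ 1 ≤ 10)]
    change (u (1 : Fin 11)).2 = (((dt (u (0 : Fin 11)) (u (1 : Fin 11))).natAbs : ℕ) : ℤ)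
    rw [e1, Int.natAbs_of_nonneg p2.le]
  have e3 := h.sep (0 : Fin 11) (1 : Fin 11) (by decide)
  rw [e1, e2, hu0] at e3
  have e4 : (nm ((1, 0) : ℤ × ℤ) : ℝ) = 1 := by norm_num [nm]
  rw [e4, one_mul] at e3
  have e5 : ((dE u 1 : ℤ) : ℝ) = (dE u 1 : ℝ) := by norm_num
  rw [e5] at e3
  have e6 : (dE u 1 : ℤ) ≤ nm (u (1 : Fin 11)) := by unfold nm; omega
  have e7 : (dE u 1 : ℝ) ≤ (nm (u (1 : Fin 11)) : ℝ) := by exact_mod_cast e6
  exact ⟨h.e1.lo.trans e7, e3.trans h.e1.hi⟩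

theorem ua6_e9 {p : Prm 10} {X : ℕ} {u : Vec 10} (h : GP p X u) :
    (X : ℝ) ^ p.em ≤ (nm (u (9 : Fin 11)) : ℝ) ∧
      p.c1 * (nm (u (9 : Fin 11)) : ℝ) ≤ (X : ℝ) ^ p.ep := by
  have hu10 := ua6_u10 h
  obtain ⟨p1, p2⟩ := h.pos (9 : Fin 11) (by decide) (by decide)
  have e1 : dt (u (9 : Fin 11)) (u (10 : Fin 11)) = (u (9 : Fin 11)).1 := by
    rw [hu10]; simp only [dt]; ring
  have e2 : (u (9 : Fin 11)).1 = (dE u 10 : ℤ) := by
    unfold dE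
    rw [dif_pos (by omega : 1 ≤ 10 ∧ 10 ≤ 10)]
    change (u (9 : Fin 11)).1 = (((dt (u (9 : Fin 11)) (u (10 : Fin 11))).natAbs : ℕ) : ℤ)
    rw [e1, Int.natAbs_of_nonneg p1.le]
  have e3 := h.sep (9 : Fin 11) (10 : Fin 11) (by decide)
  rw [e1, e2, hu10] at e3
  have e4 : (nm ((0, 1) : ℤ × ℤ) : ℝ) = 1 := by norm_num [nm]
  rw [e4, mul_one] at e3
  have e5 : ((dE u 10 : ℤ) : ℝ) = (dE u 10 : ℝ) := by norm_num
  rw [e5] at e3
  have e6 : (dE u 10 : ℤ) ≤ nm (u (9 : Fin 11)) := by unfold nm; omega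
  have e7 : (dE u 10 : ℝ) ≤ (nm (u (9 : Fin 11)) : ℝ) := by exact_mod_cast e6
  exact ⟨h.e2.lo.trans e7, e3.trans h.e2.hi⟩

theorem ua6_cases {j : Fin 11} (h1 : 1 ≤ j.val) (h9 : j.val ≤ 9) :
    j = 1 ∨ j = 9 ∨ (2 ≤ j.val ∧ j.val ≤ 8) := by
  revert j; decide

/-- the norms from below -/
theorem ua6_lo {p : Prm 10} {τ : ℝ} (hp : p.Ok τ) (hτ : τ ≤ 1 / 1000) {X : ℕ} (hX : 1 ≤ X)
    {u : Vec 10} (h : GP p X u) (j : Fin 11) (h1 : 1 ≤ j.val) (h9 : j.val ≤ 9) :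
    (X : ℝ) ^ p.e 8 ≤ (nm (u j) : ℝ) := by
  have hX1 : (1 : ℝ) ≤ X := by exact_mod_cast hX
  obtain ⟨n1, n2, n3, n4, n5⟩ := ua6_nums hp hτ
  rcases ua6_cases h1 h9 with h2 | h2 | h2
  · rw [h2]
    exact (Real.rpow_le_rpow_of_exponent_le hX1 n2).trans (ua6_e1 h).1
  · rw [h2]
    exact (Real.rpow_le_rpow_of_exponent_le hX1 n2).trans (ua6_e9 h).1
  · exact (Real.rpow_le_rpow_of_exponent_le hX1 (n5 j h2.1 h2.2).1).trans
      (h.low j h2.1 (by omega))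

/-- the norms from above -/
theorem ua6_up {p : Prm 10} {τ : ℝ} (hp : p.Ok τ) (hτ : τ ≤ 1 / 1000) {X : ℕ} (hX : 1 ≤ X)
    (hXc : 1 / p.c1 ≤ (X : ℝ) ^ p.ep) {u : Vec 10} (h : GP p X u) (j : Fin 11) :
    (nm (u j) : ℝ) ≤ (X : ℝ) ^ (2 * p.ep) := by
  have hX1 : (1 : ℝ) ≤ X := by exact_mod_cast hX
  have hX0 : (0 : ℝ) < X := by linarith
  obtain ⟨n1, n2, n3, n4, n5⟩ := ua6_nums hp hτ
  have hc := hp.c10
  have hone : (1 : ℝ) ≤ (X : ℝ) ^ (2 * p.ep) := Real.one_le_rpow hX1 (by linarith)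
  have hsq : (X : ℝ) ^ (2 * p.ep) = (X : ℝ) ^ p.ep * (X : ℝ) ^ p.ep := by
    rw [← Real.rpow_add hX0]; congr 1; ring
  have key : ∀ x : ℝ, p.c1 * x ≤ (X : ℝ) ^ p.ep → x ≤ (X : ℝ) ^ (2 * p.ep) := by
    intro x hx
    rw [hsq]
    have h1 : x ≤ (X : ℝ) ^ p.ep * (1 / p.c1) := by
      rw [mul_one_div, le_div_iff₀ hc]
      linarith
    exact h1.trans (mul_le_mul_of_nonneg_left hXc (by positivity))
  by_cases h0 : j = 0
  · have e4 : (nm ((1, 0) : ℤ × ℤ) : ℝ) = 1 := by norm_num [nm]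
    rw [h0, ua6_u0 h, e4]
    exact hone
  by_cases h10 : j = 10
  · have e4 : (nm ((0, 1) : ℤ × ℤ) : ℝ) = 1 := by norm_num [nm]
    rw [h10, ua6_u10 h, e4]
    exact hone
  obtain ⟨h1, h9⟩ := ua6_mid h0 h10
  rcases ua6_cases h1 h9 with h2 | h2 | h2
  · rw [h2]
    exact key _ (ua6_e1 h).2
  · rw [h2]
    exact key _ (ua6_e9 h).2
  · exact (h.upp j h2.1 (by omega)).trans
      (Real.rpow_le_rpow_of_exponent_le hX1 (n5 j h2.1 h2.2).2)

theorem ua6_DE_le {p : Prm 10} {τ : ℝ} (hp : p.Ok τ) (hτ : τ ≤ 1 / 1000) {X : ℕ} (hX : 1 ≤ X)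
    (hXc : 1 / p.c1 ≤ (X : ℝ) ^ p.ep) {u : Vec 10} (h : GP p X u) :
    (DE feD (tp u) : ℝ) ≤ X := by
  have hX1 : (1 : ℝ) ≤ X := by exact_mod_cast hX
  have hX0 : (0 : ℝ) < X := by linarith
  obtain ⟨n1, n2, n3, n4, n5⟩ := ua6_nums hp hτ
  have h1 : ∀ j, (dn (tp u) j : ℝ) ≤ (X : ℝ) ^ (4 * p.ep) := by
    intro j
    have h2 := ua6_dn_le h j
    have h3 := ua6_up hp hτ hX hXc h j
    have h4 := ua6_up hp hτ hX hXc h (j + 1 : Fin 11)
    have a1 : (0 : ℝ) ≤ nm (u (j + 1 : Fin 11)) := by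
      have := nm_pos h (j + 1 : Fin 11); exact_mod_cast (by omega : 0 ≤ nm (u (j + 1 : Fin 11)))
    calc (dn (tp u) j : ℝ) ≤ _ := h2
      _ ≤ (X : ℝ) ^ (2 * p.ep) * (X : ℝ) ^ (2 * p.ep) :=
          mul_le_mul h3 h4 a1 (by positivity)
      _ = _ := by rw [← Real.rpow_add hX0]; congr 1; ring
  have hc : feD.card = 10 := by decide
  unfold DE
  rw [Nat.cast_prod]
  calc ∏ j ∈ feD, (dn (tp u) j : ℝ) ≤ ∏ _j ∈ feD, (X : ℝ) ^ (4 * p.ep) :=
        Finset.prod_le_prod (fun j _ => Nat.cast_nonneg _) (fun j _ => h1 j)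
    _ = (X : ℝ) ^ (40 * p.ep) := by
        rw [Finset.prod_const, hc, ← Real.rpow_natCast, ← Real.rpow_mul hX0.le]
        congr 1
        push_cast
        ring
    _ ≤ (X : ℝ) ^ (1 : ℝ) := Real.rpow_le_rpow_of_exponent_le hX1 (by linarith)
    _ = X := Real.rpow_one _

/-- the dyadic sizes -/
def ua6_sz (u : Vec 10) (j : Fin 11) : ℕ := Nat.log 2 (nm (u j)).toNat

theorem ua6_sz_lo {p : Prm 10} {X : ℕ} {u : Vec 10} (h : GP p X u) (j : Fin 11) :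
    (2 : ℝ) ^ ua6_sz u j ≤ (nm (u j) : ℝ) := by
  have h1 := nm_pos h j
  have h2 : 2 ^ ua6_sz u j ≤ (nm (u j)).toNat := by
    apply Nat.pow_log_le_self
    omega
  have h3 : ((2 ^ ua6_sz u j : ℕ) : ℤ) ≤ nm (u j) := by omega
  exact_mod_cast h3

theorem ua6_sz_hi {p : Prm 10} {X : ℕ} {u : Vec 10} (h : GP p X u) (j : Fin 11) :
    nm (u j) < (2 ^ (ua6_sz u j + 1) : ℕ) := by
  have h1 := nm_pos h j
  have h2 : (nm (u j)).toNat < 2 ^ (ua6_sz u j + 1) :=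
    Nat.lt_pow_succ_log_self (by norm_num) _
  omega

theorem ua6_sz_end {p : Prm 10} {X : ℕ} {u : Vec 10} (h : GP p X u) (j : Fin 11)
    (hj : j = 0 ∨ j = 10) : ua6_sz u j = 0 := by
  unfold ua6_sz
  rcases hj with hj | hj
  · rw [hj, ua6_u0 h]; decide
  · rw [hj, ua6_u10 h]; decide

theorem ua6_prod (f : Fin 11 → ℝ) (h0 : f 0 = 1) (h10 : f 10 = 1) :
    ∏ j ∈ feD, f j * f (j + 1) = ∏ j, f j ^ 2 := by
  have h1 : ∏ j ∈ feD, f j * f (j + 1) = ∏ j, f j * f (j + 1) := by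
    unfold feD
    rw [← Finset.mul_prod_erase univ (fun j => f j * f (j + 1)) (Finset.mem_univ (10 : Fin 11))]
    have h2 : (10 : Fin 11) + 1 = 0 := by decide
    rw [h2, h0, h10, one_mul, one_mul]
  rw [h1, Finset.prod_mul_distrib]
  have h3 : ∏ j : Fin 11, f (j + 1) = ∏ j, f j :=
    Fintype.prod_equiv (Equiv.addRight (1 : Fin 11)) _ _ (fun _ => rfl)
  rw [h3, ← sq, Finset.prod_pow]

theorem ua6_DE_ge {p : Prm 10} {τ : ℝ} (hp : p.Ok τ) {X : ℕ} {u : Vec 10}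
    (h : GP p X u) : p.c1 ^ 10 * ∏ j, (4 : ℝ) ^ ua6_sz u j ≤ (DE feD (tp u) : ℝ) := by
  have hpos : ∀ j : Fin 11, (0 : ℝ) < nm (u j) := by
    intro j
    have := nm_pos h j; exact_mod_cast (by omega : 0 < nm (u j))
  have h1 : ∏ j, (4 : ℝ) ^ ua6_sz u j ≤ ∏ j : Fin 11, (nm (u j) : ℝ) ^ 2 := by
    apply Finset.prod_le_prod
    · intro j _; positivity
    · intro j _
      have h2 := ua6_sz_lo h j
      calc (4 : ℝ) ^ ua6_sz u j = ((2 : ℝ) ^ ua6_sz u j) ^ 2 := by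
            rw [← pow_mul, mul_comm, pow_mul]; norm_num
        _ ≤ _ := pow_le_pow_left₀ (by positivity) h2 2
  have h3 : ∏ j ∈ feD, (p.c1 * ((nm (u j) : ℝ) * (nm (u (j + 1 : Fin 11)) : ℝ))) ≤
      (DE feD (tp u) : ℝ) := by
    unfold DE
    rw [Nat.cast_prod]
    apply Finset.prod_le_prod
    · intro j _
      have a1 := hpos j
      have a2 := hpos (j + 1 : Fin 11)
      have a3 := hp.c10
      positivity
    · intro j hj
      exact gp_dn_ge h j (mem_feD.1 hj)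
  refine le_trans ?_ h3
  have hc : feD.card = 10 := by decide
  have e4 : (nm ((1, 0) : ℤ × ℤ) : ℝ) = 1 := by norm_num [nm]
  have e5 : (nm ((0, 1) : ℤ × ℤ) : ℝ) = 1 := by norm_num [nm]
  rw [Finset.prod_mul_distrib, Finset.prod_const, hc]
  have h4 := ua6_prod (fun j => (nm (u j) : ℝ)) (by simp only [ua6_u0 h, e4])
    (by simp only [ua6_u10 h, e5])
  rw [h4]
  exact mul_le_mul_of_nonneg_left h1 (pow_nonneg hp.c10.le _)

theorem ua6_cD0 {j : Fin 11} (hj : j ≠ 0) (hj2 : j ≠ 10) : cD j = (none, none) := by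
  unfold cD
  rw [if_neg hj, if_neg hj2]

theorem ua6_card (i : Fin 11 → ℕ) (h0 : i 0 = 0) (h10 : i 10 = 0) :
    ((FamO cD (fun j => 2 ^ (i j + 1)) : Finset (PolyK 11)).card : ℝ) =
      4 ^ 9 * ∏ j, (4 : ℝ) ^ i j := by
  unfold FamO
  rw [Fintype.card_piFinset, Nat.cast_prod]
  have hg : ∀ j : Fin 11, (((cs (cD j).1 (2 ^ (i j + 1)) ×ˢ cs (cD j).2 (2 ^ (i j + 1)) :
      Finset (ℤ × ℤ)).card : ℕ) : ℝ) = (if j = 0 ∨ j = 10 then 1 else 4) * (4 : ℝ) ^ i j := by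
    intro j
    rw [Finset.card_product]
    by_cases hj : j = 0
    · subst hj
      have e1 : (cD 0) = (some 1, some 0) := by simp [cD]
      rw [e1, h0]
      simp [cs]
    by_cases hj2 : j = 10
    · subst hj2
      have e1 : (cD 10) = (some 0, some 1) := by simp [cD]
      rw [e1, h10]
      simp [cs]
    rw [ua6_cD0 hj hj2, if_neg (by tauto)]
    have h1 : ((cs none (2 ^ (i j + 1)) : Finset ℤ).card : ℝ) = 2 ^ (i j + 1) := by
      unfold cs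
      rw [Int.card_Icc, add_sub_cancel_right, Int.toNat_natCast]
      push_cast
      ring
    rw [Nat.cast_mul, h1, ← mul_pow, pow_succ]
    norm_num
    ring
  simp only [hg]
  rw [Finset.prod_mul_distrib]
  congr 1
  have hc : (Finset.univ.filter (fun j : Fin 11 => ¬ (j = 0 ∨ j = 10))).card = 9 := by decide
  rw [Finset.prod_ite, Finset.prod_const, Finset.prod_const, hc, one_pow, one_mul]

theorem ua6_mem {p : Prm 10} {X : ℕ} {u : Vec 10} (h : GP p X u) :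
    tp u ∈ FamO cD (fun j => 2 ^ (ua6_sz u j + 1)) := by
  unfold FamO
  rw [Fintype.mem_piFinset]
  intro j
  unfold tp
  by_cases hj : j = 0
  · subst hj
    have e1 : (cD 0) = (some 1, some 0) := by simp [cD]
    rw [e1, ua6_u0 h]
    simp [cs]
  by_cases hj2 : j = 10
  · subst hj2
    have e1 : (cD 10) = (some 0, some 1) := by simp [cD]
    rw [e1, ua6_u10 h]
    simp [cs]
  rw [ua6_cD0 hj hj2]
  obtain ⟨m1, m2⟩ := ua6_mid hj hj2
  obtain ⟨p1, p2⟩ := h.pos j m1 (by omega)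
  have h3 := ua6_sz_hi h j
  unfold nm at h3
  unfold cs
  rw [mem_product, mem_Icc, mem_Icc]
  refine ⟨⟨by omega, ?_⟩, ⟨by omega, ?_⟩⟩ <;> push_cast at h3 ⊢ <;> omega

/-- one tuple of sizes -/
theorem ua6_one {τ : ℝ} {W : Wts 11} (hW : W.Ok) {p : Prm 10} (hp : p.Ok τ)
    {X P0 P ps : ℕ} {C2 B : ℝ} (hC2 : 0 ≤ C2)
    (i : Fin 11 → ℕ) (h0 : i 0 = 0) (h10 : i 10 = 0)
    (G : Finset (Vec 10)) (hG : ∀ u ∈ G, GP p X u ∧ ua6_sz u = i)
    (hps : 2 ≤ ps) (F : Vec 10 → ℝ)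
    (hF : ∀ u ∈ G, F u ≤ C2 / (DE feD (tp u) : ℝ) *
      ∏ q ∈ (prs ps P).filter (fun q => ¬ q ∣ 1), Ph W P0 feD univ (tp u) q)
    (hs : ∑ o ∈ FamO cD (fun j => 2 ^ (i j + 1)), ∏ q ∈ (prs ps P).filter (fun q => ¬ q ∣ 1),
      Ph W P0 feD univ o q ≤
        ((FamO cD (fun j => 2 ^ (i j + 1)) : Finset (PolyK 11)).card : ℝ) * B) :
    ∑ u ∈ G, F u ≤ C2 * 4 ^ 9 / p.c1 ^ 10 * B := by
  have hc := hp.c10
  have hpi : (0 : ℝ) < ∏ j, (4 : ℝ) ^ i j := Finset.prod_pos (fun j _ => by positivity)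
  have hPh : ∀ u : PolyK 11, 0 ≤ ∏ q ∈ (prs ps P).filter (fun q => ¬ q ∣ 1),
      Ph W P0 feD univ u q := by
    intro u
    apply Finset.prod_nonneg
    intro q hq
    rw [mem_filter, prs, mem_filter, mem_Ioc] at hq
    exact (Ph_mem W hW P0 feD univ hq.1.2 (by omega) u).1
  have hsub : G ⊆ FamO cD (fun j => 2 ^ (i j + 1)) := by
    intro u hu
    obtain ⟨h1, h2⟩ := hG u hu
    have h3 := ua6_mem h1
    rw [h2] at h3
    exact h3
  calc ∑ u ∈ G, F u ≤ ∑ u ∈ G, C2 / (p.c1 ^ 10 * ∏ j, (4 : ℝ) ^ i j) *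
        ∏ q ∈ (prs ps P).filter (fun q => ¬ q ∣ 1), Ph W P0 feD univ (tp u) q := by
        apply Finset.sum_le_sum
        intro u hu
        obtain ⟨h1, h2⟩ := hG u hu
        refine (hF u hu).trans (mul_le_mul_of_nonneg_right ?_ (hPh _))
        have h3 := ua6_DE_ge hp h1
        rw [h2] at h3
        exact div_le_div_of_nonneg_left hC2 (by positivity) h3
    _ = C2 / (p.c1 ^ 10 * ∏ j, (4 : ℝ) ^ i j) *
        ∑ u ∈ G, ∏ q ∈ (prs ps P).filter (fun q => ¬ q ∣ 1), Ph W P0 feD univ (tp u) q := by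
        rw [Finset.mul_sum]
    _ ≤ C2 / (p.c1 ^ 10 * ∏ j, (4 : ℝ) ^ i j) *
        (((FamO cD (fun j => 2 ^ (i j + 1)) : Finset (PolyK 11)).card : ℝ) * B) := by
        apply mul_le_mul_of_nonneg_left _ (by positivity)
        exact (Finset.sum_le_sum_of_subset_of_nonneg hsub (fun u _ _ => hPh u)).trans hs
    _ = C2 * 4 ^ 9 / p.c1 ^ 10 * B := by
        rw [ua6_card i h0 h10]
        field_simp

open Classical in
/-- all tuples of sizes -/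
theorem ua6_all {τ : ℝ} {p : Prm 10} (hp : p.Ok τ) (hτ : τ ≤ 1 / 1000) {X : ℕ}
    (hX : 3 ≤ X) (hXc : 1 / p.c1 ≤ (X : ℝ) ^ p.ep)
    (G : Finset (Vec 10)) (hG : ∀ u ∈ G, GP p X u) (F : Vec 10 → ℝ) {B : ℝ}
    (hB : 0 ≤ B) (h : ∀ i : Fin 11 → ℕ, ∑ u ∈ G.filter (fun u => ua6_sz u = i), F u ≤ B) :
    ∑ u ∈ G, F u ≤ (3 * Real.log X) ^ 9 * B := by
  have hX1 : (1 : ℝ) ≤ X := by
    have : 1 ≤ X := by omega
    exact_mod_cast this
  obtain ⟨n1, n2, n3, n4, n5⟩ := ua6_nums hp hτ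
  have hmaps : ∀ u ∈ G, ua6_sz u ∈ Fintype.piFinset
      (fun j : Fin 11 => if j = 0 ∨ j = 10 then {0} else range (Nat.log 2 X + 1)) := by
    intro u hu
    rw [Fintype.mem_piFinset]
    intro j
    by_cases hj : j = 0 ∨ j = 10
    · rw [if_pos hj, mem_singleton]
      exact ua6_sz_end (hG u hu) j hj
    rw [if_neg hj, mem_range]
    have h1 := ua6_up hp hτ (by omega) hXc (hG u hu) j
    have h2 : (nm (u j) : ℝ) ≤ X := h1.trans (by
      calc (X : ℝ) ^ (2 * p.ep) ≤ (X : ℝ) ^ (1 : ℝ) :=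
            Real.rpow_le_rpow_of_exponent_le hX1 (by linarith)
        _ = X := Real.rpow_one _)
    have h3 : nm (u j) ≤ X := by exact_mod_cast h2
    have h4 : ua6_sz u j ≤ Nat.log 2 X := Nat.log_mono_right (by omega)
    omega
  rw [← Finset.sum_fiberwise_of_maps_to hmaps]
  refine (Finset.sum_le_sum (fun i _ => h i)).trans ?_
  rw [Finset.sum_const, Fintype.card_piFinset, nsmul_eq_mul]
  have h1 := f11_log hX
  have hc : (Finset.univ.filter (fun j : Fin 11 => ¬ (j = 0 ∨ j = 10))).card = 9 := by decide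
  have h5 : ∏ j : Fin 11, (if j = 0 ∨ j = 10 then ({0} : Finset ℕ)
      else range (Nat.log 2 X + 1)).card = (Nat.log 2 X + 1) ^ 9 := by
    have h6 : ∀ j : Fin 11, (if j = 0 ∨ j = 10 then ({0} : Finset ℕ)
      else range (Nat.log 2 X + 1)).card = if j = 0 ∨ j = 10 then 1 else Nat.log 2 X + 1 := by
      intro j
      split_ifs
      · rfl
      · rw [Finset.card_range]
    simp only [h6]
    rw [Finset.prod_ite, Finset.prod_const, Finset.prod_const, hc, one_pow, one_mul]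
  rw [h5]
  have h2 : (((Nat.log 2 X + 1) ^ 9 : ℕ) : ℝ) ≤ (3 * Real.log X) ^ 9 := by
    push_cast at h1 ⊢
    exact pow_le_pow_left₀ (by positivity) h1 9
  exact mul_le_mul_of_nonneg_right h2 hB

open Classical in
theorem usum_D_pr (W : Wts 11) (hW : W.Ok) : ∃ τ₀ : ℝ, 0 < τ₀ ∧ ∀ p : Prm 10, p.Ok τ₀ →
    ∃ t₁ : ℝ, 0 < t₁ ∧ ∀ t : ℝ, 0 < t → t ≤ t₁ → ∃ C : ℝ, 0 ≤ C ∧ ∃ X₀ : ℕ, ∀ X ≥ X₀,
      ∑ u ∈ GS p X, edP W feD ⌊(X : ℝ) ^ t⌋₊ (tp u) *
        vxP W feD univ ⌊PP X⌋₊ ⌊(X : ℝ) ^ t⌋₊ (tp u) ≤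
      C * Real.log X ^ (9 + exW feD univ W) := by
  refine ⟨1 / 1000, by norm_num, fun p hp => ?_⟩
  obtain ⟨C0, hC0, hLoc⟩ := locD
  obtain ⟨ps, k, hps, hsv⟩ := fam_sieve W hW feD univ C0 hC0
  obtain ⟨Cb, hCb, hequi⟩ := fam_equi
  obtain ⟨n1, n2, n3, n4, n5⟩ := ua6_nums hp le_rfl
  obtain ⟨ε, hε⟩ : ∃ ε : ℝ, ε = p.e 8 / 4 := ⟨_, rfl⟩
  have hε0 : 0 < ε := by rw [hε]; linarith
  refine ⟨ε / (2 * (k + 1)), by positivity, fun t ht ht1 => ?_⟩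
  have ht2 : t * (2 * (k + 1)) ≤ ε := by
    rwa [le_div_iff₀ (by positivity)] at ht1
  have ht3 : t * k ≤ ε / 2 := by linarith
  have ht4 : t ≤ 1 := by
    have : (0 : ℝ) ≤ k := Nat.cast_nonneg k
    nlinarith
  obtain ⟨C2, x0, hC2, hx0, hw1⟩ := w1_le W hW feD univ (show 0 < t / 2 by positivity)
  obtain ⟨C3, hC3, X₁, hs3⟩ := hsv ε t hε0 ht ht4 ht3
  obtain ⟨X₀, hX₀⟩ := f11_ev ps hε0 ht (max Cb (1 / p.c1)) x0 0
  have hc := hp.c10
  obtain ⟨D, hD⟩ : ∃ D : ℝ, D = C2 * 4 ^ 9 / p.c1 ^ 10 := ⟨_, rfl⟩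
  have hD0 : 0 ≤ D := by rw [hD]; positivity
  refine ⟨3 ^ 9 * (D * C3), by positivity, max X₀ X₁, fun X hX => ?_⟩
  obtain ⟨a1, a2, a3, a4, a5, a6, a7, a8, a9⟩ := hX₀ X (le_trans (le_max_left _ _) hX)
  have hs4 := hs3 X (le_trans (le_max_right _ _) hX)
  obtain ⟨P, hPdef⟩ : ∃ P : ℕ, P = ⌊(X : ℝ) ^ t⌋₊ := ⟨_, rfl⟩
  obtain ⟨P0, hP0def⟩ : ∃ P0 : ℕ, P0 = ⌊PP X⌋₊ := ⟨_, rfl⟩
  rw [← hPdef, ← hP0def] at hs4
  rw [← hP0def] at a3 a4 a5 a7
  rw [← hPdef] at a5 a6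
  rw [← hPdef, ← hP0def]
  have hXpos : (0 : ℝ) < X := by
    have : 0 < X := by omega
    exact_mod_cast this
  have hX1 : (1 : ℝ) ≤ X := by
    have : 1 ≤ X := by omega
    exact_mod_cast this
  have hL : 1 ≤ Real.log X := by
    rw [Real.le_log_iff_exp_le hXpos]
    have h6 := Real.exp_one_lt_d9
    have h7 : (3 : ℝ) ≤ X := by exact_mod_cast a1
    linarith
  have hL0 : 0 < Real.log X := by linarith
  have hP1 : 1 ≤ P := by omega
  have hPX : (P : ℝ) ≤ (X : ℝ) ^ t := by rw [hPdef]; exact Nat.floor_le (by positivity)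
  have hXc : 1 / p.c1 ≤ (X : ℝ) ^ p.ep := (le_max_right _ _).trans
    (a8.trans (Real.rpow_le_rpow_of_exponent_le hX1 (by rw [hε]; linarith)))
  have hXb : Cb ≤ (X : ℝ) ^ ε := (le_max_left _ _).trans a8
  obtain ⟨S, hS⟩ : ∃ S : Finset ℕ, S = (prs ps P).filter (fun q => ¬ q ∣ 1) := ⟨_, rfl⟩
  have hSm : ∀ q ∈ S, q.Prime ∧ ps < q ∧ q ≤ P := by
    intro q hq
    rw [hS, mem_filter, prs, mem_filter, mem_Ioc] at hq
    exact ⟨hq.1.2, hq.1.1.1, hq.1.1.2⟩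
  have hS2 : S = (prs ps P).filter (fun q => ¬ q ∣ 1 ∧ q ≠ 0) := by
    rw [hS]
    apply Finset.filter_congr
    intro q hq
    rw [prs, mem_filter] at hq
    exact ⟨fun h => ⟨h, hq.2.ne_zero⟩, fun h => h.1⟩
  obtain ⟨η, hη⟩ : ∃ η : ℝ, η = (X : ℝ) ^ (-ε) := ⟨_, rfl⟩
  have hη0 : 0 ≤ η := by rw [hη]; positivity
  have hPk : (P : ℝ) ^ k ≤ (X : ℝ) ^ (ε / 2) := by
    calc (P : ℝ) ^ k ≤ ((X : ℝ) ^ t) ^ k := pow_le_pow_left₀ (Nat.cast_nonneg _) hPX k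
      _ = (X : ℝ) ^ (t * k) := by rw [← Real.rpow_natCast, ← Real.rpow_mul hXpos.le]
      _ ≤ _ := Real.rpow_le_rpow_of_exponent_le hX1 ht3
  -- one tuple
  have hone : ∀ i : Fin 11 → ℕ, ∑ u ∈ (GS p X).filter (fun u => ua6_sz u = i),
      edP W feD P (tp u) * vxP W feD univ P0 P (tp u) ≤
      D * (C3 * Real.log X ^ exW feD univ W) := by
    intro i
    have hr0 : 0 < Real.log X ^ exW feD univ W := Real.rpow_pos_of_pos hL0 _
    rcases ((GS p X).filter (fun u => ua6_sz u = i)).eq_empty_or_nonempty with he | ⟨u0, hu0⟩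
    · rw [he, Finset.sum_empty]
      positivity
    rw [mem_filter] at hu0
    have hg0 := ua6_gp hu0.1
    have hi0 : i 0 = 0 := by rw [← hu0.2]; exact ua6_sz_end hg0 _ (Or.inl rfl)
    have hi10 : i 10 = 0 := by rw [← hu0.2]; exact ua6_sz_end hg0 _ (Or.inr rfl)
    have hAi : ∀ j : Fin 11, 1 ≤ j.val → j.val ≤ 9 →
        (X : ℝ) ^ (4 * ε) ≤ ((2 ^ (i j + 1) : ℕ) : ℝ) := by
      intro j j1 j9
      have h1 := ua6_sz_hi hg0 j
      rw [hu0.2] at h1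
      have h2 : (nm (u0 j) : ℝ) < ((2 ^ (i j + 1) : ℕ) : ℝ) := by exact_mod_cast h1
      have h3 := ua6_lo hp le_rfl (by omega) hg0 j j1 j9
      have h4 : 4 * ε = p.e 8 := by rw [hε]; ring
      rw [h4]
      exact h3.trans h2.le
    have hQ2 : (((P ^ k) ^ 2 : ℕ) : ℝ) ≤ (X : ℝ) ^ ε := by
      push_cast
      calc ((P : ℝ) ^ k) ^ 2 ≤ ((X : ℝ) ^ (ε / 2)) ^ 2 := pow_le_pow_left₀ (by positivity) hPk 2
        _ = (X : ℝ) ^ ε := by
            rw [← Real.rpow_natCast, ← Real.rpow_mul hXpos.le]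
            congr 1
            push_cast
            ring
    have hfree : ∀ j : Fin 11, ((cD j).1 = none ∨ (cD j).2 = none) → 1 ≤ j.val ∧ j.val ≤ 9 := by
      intro j hj
      refine ua6_mid (fun h => ?_) (fun h => ?_)
      · subst h
        simp [cD] at hj
      · subst h
        simp [cD] at hj
    have hE : EquiF (FamO cD (fun j => 2 ^ (i j + 1))) (fun u => u) (LawO cD) S
        ((P : ℝ) ^ k) η := by
      have h1 := hequi cD (fun j => 2 ^ (i j + 1)) (P ^ k) η S (fun q hq => (hSm q hq).1)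
        (Nat.one_le_pow _ _ hP1) hη0 ?_
      · rw [Nat.cast_pow] at h1
        exact h1
      · intro j hj
        obtain ⟨j1, j9⟩ := hfree j hj
        have h2 : (X : ℝ) ^ ε ≤ (X : ℝ) ^ (4 * ε) :=
          Real.rpow_le_rpow_of_exponent_le hX1 (by linarith)
        constructor
        · have h3 := (hQ2.trans h2).trans (hAi j j1 j9)
          exact_mod_cast h3
        · calc Cb * ((P ^ k : ℕ) : ℝ) ^ 2 ≤ (X : ℝ) ^ ε * (X : ℝ) ^ ε := by
                apply mul_le_mul hXb _ (by positivity) (by positivity)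
                push_cast at hQ2 ⊢
                exact hQ2
            _ ≤ (X : ℝ) ^ (-ε) * (X : ℝ) ^ (4 * ε) := by
                rw [← Real.rpow_add hXpos, ← Real.rpow_add hXpos]
                exact Real.rpow_le_rpow_of_exponent_le hX1 (by linarith)
            _ ≤ η * ((2 ^ (i j + 1) : ℕ) : ℝ) := by
                rw [← hη]
                exact mul_le_mul_of_nonneg_left (hAi j j1 j9) hη0
    have s1 := hs4 (PolyK 11) (FamO cD (fun j => 2 ^ (i j + 1))) (fun u => u) (LawO cD) 1 0 η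
      one_pos (fun q hq h1 => absurd (Nat.dvd_one.1 h1) hq.one_lt.ne')
      (by rw [Nat.cast_one, Real.log_one]; positivity) hη0 (le_of_eq hη) S hS2
      (fun q hq => hLoc q (hSm q hq).1 (by have := (hSm q hq).2.1; omega)) hE
    have hfin := ua6_one hW hp (X := X) (P0 := P0) (P := P) (ps := ps) (C2 := C2)
      (B := C3 * Real.log X ^ exW feD univ W)
      hC2 i hi0 hi10 ((GS p X).filter (fun u => ua6_sz u = i))
      (fun u hu => ⟨ua6_gp (mem_filter.1 hu).1, (mem_filter.1 hu).2⟩) (by omega)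
      (fun u => edP W feD P (tp u) * vxP W feD univ P0 P (tp u)) ?_ ?_
    · rw [← hD] at hfin
      exact hfin
    · intro u hu
      have hg := ua6_gp (mem_filter.1 hu).1
      have h5 := hw1 X a2 P0 P ps (by omega) (by omega) a3 a6 (tp u)
        (by rw [hP0def]; exact gp_isP hg feD)
        (ua6_DE_le hp le_rfl (by omega) hXc hg) 1 (Nat.coprime_one_left _)
      exact h5
    · rw [← hS]
      refine s1.trans (le_of_eq ?_)
      ring
  -- all tuples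
  have hr0 : 0 < Real.log X ^ exW feD univ W := Real.rpow_pos_of_pos hL0 _
  refine (ua6_all hp le_rfl a1 hXc (GS p X) (fun u hu => ua6_gp hu) _ (by positivity)
    hone).trans (le_of_eq ?_)
  have e3 : Real.log X ^ (9 + exW feD univ W) =
      Real.log X ^ 9 * Real.log X ^ exW feD univ W := by
    rw [← Real.rpow_natCast, ← Real.rpow_add hL0]
    norm_num
  rw [e3]
  ring

alias usum_D := usum_D_pr

end Pool.Agent.UPA
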